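import Pool.Agent.H31.GP.Res

set_option autoImplicit false

/-! # Averages of singular series -/

namespace Pool.Agent.H31.GP

open Finset Filter Topology Polynomial Pool.Agent.H373R2.T7
open Pool.Agent.H31.MF (Prd mid mem_mid pz_split pz_disj exp_ge sum_three_half card_pf_le)

lemma log_pow_le' (E : ℕ) (hE : 1 ≤ E) : ∀ x : ℝ, 1 ≤ x → Real.log x ^ E ≤ (2 * E) ^ E * Real.sqrt x := by
  intro x hx
  have hE0 : (0 : ℝ) < E := by exact_mod_cast hE
  have h1 := Real.log_le_rpow_div (by linarith : 0 ≤ x) (by positivity : (0 : ℝ) < 1 / (2 * E))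
  have h0 : 0 ≤ Real.log x := Real.log_nonneg hx
  calc Real.log x ^ E ≤ (x ^ (1 / (2 * E) : ℝ) / (1 / (2 * E))) ^ E := pow_le_pow_left₀ h0 h1 E
    _ = (2 * E) ^ E * (x ^ (1 / (2 * E) : ℝ)) ^ E := by rw [div_div_eq_mul_div, div_one, mul_pow]; ring
    _ = (2 * E) ^ E * Real.sqrt x := by
        congr 1
        rw [← Real.rpow_natCast (x ^ (1 / (2 * E) : ℝ)) E, ← Real.rpow_mul (by linarith), Real.sqrt_eq_rpow]
        congr 1
        field_simp

/-- the exponential of a sum over a set of primes -/
lemma exp_sum_le' (E : ℕ) (hE : 1 ≤ E) : ∃ C : ℝ, 0 < C ∧ ∀ S : Finset ℕ, (∀ p ∈ S, p.Prime) →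
    Real.exp (∑ p ∈ S, (E : ℝ) / (p : ℝ)) - 1 ≤ C * ∑ p ∈ S, 1 / Real.sqrt p := by
  have hEr : (1 : ℝ) ≤ E := by exact_mod_cast hE
  obtain ⟨C0, hC0⟩ := Pool.Agent.Helper256.KM.mertens_inv
  have hC00 : 0 ≤ C0 := (abs_nonneg _).trans (hC0 3 le_rfl)
  set C1 : ℝ := Real.exp (E * C0) * (2 * E) ^ E + 1 with hC1
  have hC10 : 0 < C1 := by positivity
  refine ⟨C1 * (E * Real.exp E), by positivity, fun S => ?_⟩
  induction S using Finset.induction_on_max with
  | empty => intro _; simp
  | insert m S hm ih =>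
    intro hS
    have hmS : m ∉ S := fun h => lt_irrefl _ (hm m h)
    have hmp : m.Prime := hS m (mem_insert_self _ _)
    have ih' := ih (fun p hp => hS p (mem_insert_of_mem hp))
    rw [sum_insert hmS, sum_insert hmS, Real.exp_add]
    set s := ∑ p ∈ S, (E : ℝ) / (p : ℝ) with hs
    have hs0 : 0 ≤ s := sum_nonneg fun _ _ => by positivity
    have hm2 : (2 : ℝ) ≤ m := by exact_mod_cast hmp.two_le
    have hm0 : (0 : ℝ) < m := by linarith
    have hsq : 1 ≤ Real.sqrt m := Real.one_le_sqrt.2 (by linarith)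
    -- the first bound
    have h1 : Real.exp s ≤ C1 * Real.sqrt m := by
      rcases Nat.lt_or_ge m 3 with h3 | h3
      · have hm2' : m = 2 := by have := hmp.two_le; omega
        have hSe : S = ∅ := by
          rw [eq_empty_iff_forall_notMem]
          intro p hp
          have := hm p hp
          have := (hS p (mem_insert_of_mem hp)).two_le
          omega
        have : s = 0 := by rw [hs, hSe]; simp
        rw [this, Real.exp_zero]
        have : (1 : ℝ) ≤ C1 := by
          rw [hC1]
          have : 0 ≤ Real.exp (E * C0) * (2 * (E : ℝ)) ^ E := by positivity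
          linarith
        nlinarith
      · have h4 := (abs_le.1 (hC0 m h3)).2
        have h5 : s ≤ E * (Real.log (Real.log m) + C0) := by
          have h6 : s ≤ E * ∑ p ∈ (Finset.Icc 1 m).filter Nat.Prime, (1 : ℝ) / p := by
            rw [hs, mul_sum]
            calc ∑ p ∈ S, (E : ℝ) / (p : ℝ) = ∑ p ∈ S, E * (1 / (p : ℝ)) := by
                  apply sum_congr rfl; intro p _; ring
              _ ≤ _ := by
                  apply sum_le_sum_of_subset_of_nonneg
                  · intro p hp
                    rw [mem_filter, mem_Icc]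
                    have hpp := hS p (mem_insert_of_mem hp)
                    exact ⟨⟨hpp.one_lt.le, (hm p hp).le⟩, hpp⟩
                  · intro _ _ _; positivity
          have h7 : ∑ p ∈ (Finset.Icc 1 m).filter Nat.Prime, (1 : ℝ) / p ≤ Real.log (Real.log m) + C0 := by linarith
          exact h6.trans (mul_le_mul_of_nonneg_left h7 (by linarith))
        have hl : 1 ≤ Real.log m := by
          rw [Real.le_log_iff_exp_le hm0]
          have : (3 : ℝ) ≤ m := by exact_mod_cast h3
          have := Real.exp_one_lt_d9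
          linarith
        calc Real.exp s ≤ Real.exp (E * (Real.log (Real.log m) + C0)) := Real.exp_le_exp.2 h5
          _ = Real.exp (E * C0) * Real.log m ^ E := by
              rw [mul_add, Real.exp_add, mul_comm (Real.exp _)]
              congr 1
              rw [Real.exp_nat_mul, Real.exp_log (by linarith)]
          _ ≤ Real.exp (E * C0) * ((2 * E) ^ E * Real.sqrt m) :=
              mul_le_mul_of_nonneg_left (log_pow_le' E hE m (by linarith)) (Real.exp_pos _).le
          _ = (Real.exp (E * C0) * (2 * E) ^ E) * Real.sqrt m := by ring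
          _ ≤ C1 * Real.sqrt m := by
              apply mul_le_mul_of_nonneg_right _ (by linarith)
              rw [hC1]; linarith
    -- the second bound
    have h2 : Real.exp (E / m) - 1 ≤ (E * Real.exp E) / m := by
      have h3 : Real.exp (E / m) - 1 ≤ (E / m) * Real.exp (E / m) := by
        have h4 := Real.add_one_le_exp (-((E : ℝ) / (m : ℝ)))
        have h5 : 1 - (E : ℝ) / (m : ℝ) ≤ Real.exp (-((E : ℝ) / (m : ℝ))) := by linarith
        have h6 := mul_le_mul_of_nonneg_right h5 (Real.exp_pos ((E : ℝ) / (m : ℝ))).le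
        rw [← Real.exp_add, neg_add_cancel, Real.exp_zero] at h6
        linarith
      have h4 : Real.exp ((E : ℝ) / (m : ℝ)) ≤ Real.exp E := by
        apply Real.exp_le_exp.2
        rw [div_le_iff₀ hm0]
        nlinarith
      calc Real.exp (E / m) - 1 ≤ (E / m) * Real.exp (E / m) := h3
        _ ≤ (E / m) * Real.exp E := mul_le_mul_of_nonneg_left h4 (by positivity)
        _ = _ := by ring
    have h3 : 0 ≤ Real.exp ((E : ℝ) / (m : ℝ)) - 1 := by
      have := Real.one_le_exp (by positivity : 0 ≤ (E : ℝ) / (m : ℝ))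
      linarith
    have h4 : Real.exp s * (Real.exp (E / m) - 1) ≤ C1 * (E * Real.exp E) * (1 / Real.sqrt m) := by
      calc Real.exp s * (Real.exp (E / m) - 1) ≤ (C1 * Real.sqrt m) * ((E * Real.exp E) / m) :=
            mul_le_mul h1 h2 h3 (by positivity)
        _ = C1 * (E * Real.exp E) * (Real.sqrt m / m) := by ring
        _ = _ := by rw [Real.sqrt_div_self', one_div]
    have e : Real.exp (E / m) * Real.exp s - 1 = Real.exp s * (Real.exp (E / m) - 1) + (Real.exp s - 1) := by ring
    rw [e, mul_add]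
    exact add_le_add h4 ih'

/-- the average over pairs -/
theorem avgA (E : ℕ) (hE : 1 ≤ E) : ∃ C : ℝ, 0 < C ∧ ∀ (I : Finset ℕ) (J : ℕ → Finset ℕ) (Bd : ℕ → ℕ → ℕ → Prop) (w y T : ℕ) (X L : ℝ),
    1 ≤ w → 1 ≤ T → 0 ≤ X → 0 ≤ L → (∀ i ∈ I, J i ⊆ I) →
    (∀ i ∈ I, ∀ l ∈ mid w T, ∀ K : Finset ℕ, K ⊆ J i → (∀ j ∈ K, Bd i j l) → (K.card : ℝ) ≤ X / l) →
    (∀ i ∈ I, ∀ j ∈ J i, ∀ K : Finset ℕ, (∀ l ∈ K, l.Prime ∧ T < l ∧ Bd i j l) → (K.card : ℝ) ≤ L) →
    ∀ S : ℕ → ℕ → Finset ℕ, (∀ i ∈ I, ∀ j ∈ J i, ∀ l ∈ S i j, l.Prime ∧ w < l ∧ l ≤ y ∧ Bd i j l) →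
    ∑ i ∈ I, ∑ j ∈ J i, (Real.exp (∑ l ∈ S i j, (E : ℝ) / (l : ℝ)) - 1) ≤
      C * (I.card * X * (1 / Real.sqrt w) + (I.card : ℝ) ^ 2 * (L / Real.sqrt T)) := by
  classical
  obtain ⟨C1, hC1, h1⟩ := exp_sum_le' E hE
  refine ⟨C1 * 2, by positivity, fun I J Bd w y T X L hw hT hX hL hJ hcl hlg S hS => ?_⟩
  have hT0 : (0 : ℝ) < T := by exact_mod_cast hT
  have hsT : 0 < Real.sqrt T := Real.sqrt_pos.2 hT0
  -- one pair
  have hone : ∀ i ∈ I, ∀ j ∈ J i, Real.exp (∑ l ∈ S i j, (E : ℝ) / (l : ℝ)) - 1 ≤
      C1 * ((∑ l ∈ mid w T, (1 / Real.sqrt l) * (if Bd i j l then 1 else 0)) + L / Real.sqrt T) := by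
    intro i hi j hj
    have g1 := h1 (S i j) (fun p hp => (hS i hi j hj p hp).1)
    refine g1.trans (mul_le_mul_of_nonneg_left ?_ hC1.le)
    rw [← sum_filter_add_sum_filter_not _ (fun l => l ≤ T)]
    apply add_le_add
    · calc ∑ l ∈ (S i j).filter (fun l => l ≤ T), 1 / Real.sqrt l
          = ∑ l ∈ (S i j).filter (fun l => l ≤ T), (1 / Real.sqrt l) * (if Bd i j l then 1 else 0) := by
            apply sum_congr rfl
            intro l hl
            rw [mem_filter] at hl
            rw [if_pos (hS i hi j hj l hl.1).2.2.2, mul_one]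
        _ ≤ _ := by
            apply sum_le_sum_of_subset_of_nonneg
            · intro l hl
              rw [mem_filter] at hl
              have := hS i hi j hj l hl.1
              rw [mem_mid]
              exact ⟨this.1, this.2.1, hl.2⟩
            · intro l _ _
              apply mul_nonneg (by positivity)
              split_ifs <;> norm_num
    · calc ∑ l ∈ (S i j).filter (fun l => ¬ l ≤ T), 1 / Real.sqrt l
          ≤ ∑ _l ∈ (S i j).filter (fun l => ¬ l ≤ T), 1 / Real.sqrt (T : ℝ) := by
            apply sum_le_sum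
            intro l hl
            rw [mem_filter] at hl
            have h2 : T ≤ l := by omega
            apply one_div_le_one_div_of_le hsT
            apply Real.sqrt_le_sqrt
            exact_mod_cast h2
        _ = (((S i j).filter (fun l => ¬ l ≤ T)).card : ℝ) * (1 / Real.sqrt (T : ℝ)) := by rw [sum_const, nsmul_eq_mul]
        _ ≤ L * (1 / Real.sqrt (T : ℝ)) := by
            apply mul_le_mul_of_nonneg_right _ (by positivity)
            apply hlg i hi j hj
            intro l hl
            rw [mem_filter] at hl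
            have := hS i hi j hj l hl.1
            exact ⟨this.1, by omega, this.2.2.2⟩
        _ = _ := by ring
  calc ∑ i ∈ I, ∑ j ∈ J i, (Real.exp (∑ l ∈ S i j, (E : ℝ) / (l : ℝ)) - 1)
      ≤ ∑ i ∈ I, ∑ j ∈ J i, C1 * ((∑ l ∈ mid w T, (1 / Real.sqrt l) * (if Bd i j l then 1 else 0)) + L / Real.sqrt T) :=
        sum_le_sum fun i hi => sum_le_sum fun j hj => hone i hi j hj
    _ = C1 * (∑ i ∈ I, (∑ l ∈ mid w T, (1 / Real.sqrt l) * (((J i).filter (fun j => Bd i j l)).card : ℝ) + (J i).card * (L / Real.sqrt T))) := by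
        rw [mul_sum]
        apply sum_congr rfl
        intro i _
        rw [← mul_sum, sum_add_distrib, sum_const, nsmul_eq_mul]
        congr 2
        rw [sum_comm]
        apply sum_congr rfl
        intro l _
        rw [card_filter, ← mul_sum]
        push_cast
        rfl
    _ ≤ C1 * (∑ i ∈ I, (∑ l ∈ mid w T, X * (1 / ((l : ℝ) * Real.sqrt l)) + I.card * (L / Real.sqrt T))) := by
        apply mul_le_mul_of_nonneg_left _ hC1.le
        apply sum_le_sum
        intro i hi
        apply add_le_add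
        · apply sum_le_sum
          intro l hl
          have k1 := hcl i hi l hl ((J i).filter (fun j => Bd i j l)) (filter_subset _ _) (fun j hj => (mem_filter.1 hj).2)
          have hlp := (mem_mid.1 hl).1
          have hl0 : (0 : ℝ) < l := by exact_mod_cast hlp.pos
          have hs0 : 0 < Real.sqrt l := Real.sqrt_pos.2 hl0
          calc (1 / Real.sqrt l) * (((J i).filter (fun j => Bd i j l)).card : ℝ)
              ≤ (1 / Real.sqrt l) * (X / l) := mul_le_mul_of_nonneg_left k1 (by positivity)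
            _ = _ := by field_simp
        · apply mul_le_mul_of_nonneg_right _ (by positivity)
          exact_mod_cast card_le_card (hJ i hi)
    _ ≤ C1 * (∑ i ∈ I, (X * (2 / Real.sqrt w) + I.card * (L / Real.sqrt T))) := by
        apply mul_le_mul_of_nonneg_left _ hC1.le
        apply sum_le_sum
        intro i _
        apply add_le_add _ le_rfl
        rw [← mul_sum]
        apply mul_le_mul_of_nonneg_left _ hX
        refine le_trans ?_ (sum_three_half w T hw)
        apply sum_le_sum_of_subset_of_nonneg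
        · intro l hl
          rw [mem_mid] at hl
          rw [mem_Ioc]
          exact hl.2
        · intro _ _ _; positivity
    _ = C1 * (2 * (I.card * X * (1 / Real.sqrt w)) + (I.card : ℝ) ^ 2 * (L / Real.sqrt T)) := by
        rw [sum_const, nsmul_eq_mul]
        ring
    _ ≤ C1 * 2 * (I.card * X * (1 / Real.sqrt w) + (I.card : ℝ) ^ 2 * (L / Real.sqrt T)) := by
        have : 0 ≤ (I.card : ℝ) ^ 2 * (L / Real.sqrt T) := by positivity
        nlinarith

/-- the second factor -/
lemma exp_split (h0 h' h : ℝ) (h1 : h ≤ h0 + h') (hh0 : 0 ≤ h0) (hh0' : h0 ≤ 1) (hh' : 0 ≤ h') :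
    Real.exp h - 1 ≤ 3 * (Real.exp h' - 1) + 3 * h0 := by
  have e1 : Real.exp h ≤ Real.exp h0 * Real.exp h' := by rw [← Real.exp_add]; exact Real.exp_le_exp.2 h1
  have e2 : Real.exp h0 ≤ 3 := by
    have : Real.exp h0 ≤ Real.exp 1 := Real.exp_le_exp.2 hh0'
    have := Real.exp_one_lt_d9
    linarith
  have e3 : Real.exp h0 - 1 ≤ 3 * h0 := by
    have h4 := Real.add_one_le_exp (-h0)
    have h5 : 1 - h0 ≤ Real.exp (-h0) := by linarith
    have h6 := mul_le_mul_of_nonneg_right h5 (Real.exp_pos h0).le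
    rw [← Real.exp_add, neg_add_cancel, Real.exp_zero] at h6
    have h7 : h0 * Real.exp h0 ≤ h0 * 3 := mul_le_mul_of_nonneg_left e2 hh0
    linarith
  have e4 : 0 ≤ Real.exp h' - 1 := by
    have := Real.one_le_exp hh'
    linarith
  have e5 : Real.exp h0 * (Real.exp h' - 1) ≤ 3 * (Real.exp h' - 1) := mul_le_mul_of_nonneg_right e2 e4
  linarith

end Pool.Agent.H31.GP
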