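import Pool.Agent.H31.GP.ShiftMain

set_option autoImplicit false

/-! # Mean values of functions of the digits along sifted sets, for general polynomials -/

namespace Pool.Agent.H31.GP

open Finset Filter Topology Polynomial Pool.Agent.H373R2.T7
open Pool.Agent.H31.MF (Prd mid mem_mid pz_split pz_disj)
open Pool.Agent.H31.DG (sum_blocks sd sd_add sd_rank S_bound block_bound sd_split)
open Pool.Agent.H807R2.Dav

open Classical in
/-- the integers `0 ≤ n < N` for which all prime factors of `F (n)` are larger than `y` -/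
noncomputable def roughF (F : ℤ[X]) (y N : ℕ) : Finset ℕ := (range N).filter (fun n => ∀ p : ℕ, p.Prime → RF F p n → y < p)

/-- the mean value over a finite set -/
noncomputable def mean (S : Finset ℕ) (g : ℕ → ℂ) : ℂ := (∑ n ∈ S, g n) / (S.card : ℂ)

/-- `F` is a sum of `m` products of a function of `n % T` and a function of `n / T`, all of modulus at most one. -/
def Split (T m : ℕ) (F : ℕ → ℂ) : Prop := ∃ G H : Fin m → ℕ → ℂ,
  (∀ i n, ‖G i n‖ ≤ 1) ∧ (∀ i n, ‖H i n‖ ≤ 1) ∧ ∀ n, F n = ∑ i, G i (n % T) * H i (n / T)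

lemma rough_iff (F : ℤ[X]) (y n : ℕ) : (∀ p : ℕ, p.Prime → RF F p n → y < p) ↔ Rgh F y n := by
  unfold Rgh
  constructor
  · intro h p hp hd
    rw [mem_pz] at hp
    have := h p hp.2 hd
    omega
  · intro h p hp hd
    by_contra h1
    exact h p (mem_pz.2 ⟨by omega, hp⟩) hd

lemma sum_rough (F : ℤ[X]) (y N : ℕ) (g : ℕ → ℂ) : ∑ n ∈ roughF F y N, g n = ∑ n ∈ range N, g n * (ind F y n : ℂ) := by
  classical
  unfold roughF ind
  rw [sum_filter]
  apply sum_congr rfl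
  intro n _
  simp only [rough_iff]
  split_ifs <;> simp

lemma card_rough (F : ℤ[X]) (y N : ℕ) : ((roughF F y N).card : ℝ) = ∑ n ∈ range N, ind F y n := by
  classical
  unfold roughF ind
  rw [card_filter]
  push_cast
  apply sum_congr rfl
  intro n _
  simp only [rough_iff]

lemma mean_close {F : ℤ[X]} {D : ℕ} (hSy : Sys F D) (w y N : ℕ) (hN : 1 ≤ N) (hwy : w ≤ y) (δ δ' : ℝ) (hδ1 : δ ≤ 1 / 2) (g : ℕ → ℂ) (m : ℝ) (hm : 1 ≤ m) (hg : ∀ n, ‖g n‖ ≤ m)
    (h1 : ‖∑ n ∈ range N, g n * (ff F w y n : ℂ)‖ ≤ δ' * (N * V F y))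
    (h2 : |∑ n ∈ range N, ind F y n - N * V F y| ≤ δ * (N * V F y))
    (h3 : |∑ n ∈ range N, ind F w n - N * V F w| ≤ δ * (N * V F w)) :
    ‖mean (roughF F y N) g - mean (roughF F w N) g‖ ≤ 2 * δ' + 4 * m * δ := by
  have hN0 : (0 : ℝ) < N := by exact_mod_cast hN
  have hv := vv_pos hSy w y
  have hVy := V_pos hSy y
  have hVw := V_pos hSy w
  rw [← card_rough] at h2 h3
  unfold mean
  set A : ℝ := N * V F y with hA
  set B : ℝ := N * V F w with hB
  have hA0 : 0 < A := by positivity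
  have hB0 : 0 < B := by positivity
  have hAB : A = vv F w y * B := by rw [hA, hB, V_split F hwy]; ring
  set R : ℝ := ((roughF F y N).card : ℝ) with hR
  set S : ℝ := ((roughF F w N).card : ℝ) with hS
  have e0 : ∑ n ∈ range N, g n * (ff F w y n : ℂ) = ∑ n ∈ roughF F y N, g n - (vv F w y : ℂ) * ∑ n ∈ roughF F w N, g n := by
    rw [sum_rough, sum_rough, mul_sum, ← sum_sub_distrib]
    apply sum_congr rfl
    intro n _
    unfold ff
    push_cast
    ring
  rw [e0] at h1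
  have hGw : ‖∑ n ∈ roughF F w N, g n‖ ≤ m * S := by
    refine (norm_sum_le _ _).trans ((sum_le_sum fun n _ => hg n).trans ?_)
    rw [sum_const, nsmul_eq_mul, mul_comm]
  obtain ⟨h2a, h2b⟩ := abs_le.1 h2
  obtain ⟨h3a, h3b⟩ := abs_le.1 h3
  have hδA : δ * A ≤ 1 / 2 * A := mul_le_mul_of_nonneg_right hδ1 hA0.le
  have hδB : δ * B ≤ 1 / 2 * B := mul_le_mul_of_nonneg_right hδ1 hB0.le
  have hR1 : A / 2 ≤ R := by linarith
  have hS1 : B / 2 ≤ S := by linarith
  have hR0 : 0 < R := by linarith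
  have hS0 : 0 < S := by linarith
  set G := ∑ n ∈ roughF F y N, g n
  set H := ∑ n ∈ roughF F w N, g n
  have hRc : ((roughF F y N).card : ℂ) = (R : ℂ) := by rw [hR]; push_cast; rfl
  have hSc : ((roughF F w N).card : ℂ) = (S : ℂ) := by rw [hS]; push_cast; rfl
  rw [hRc, hSc]
  have hRn : (R : ℂ) ≠ 0 := by exact_mod_cast hR0.ne'
  have hSn : (S : ℂ) ≠ 0 := by exact_mod_cast hS0.ne'
  have e1 : G / (R : ℂ) - H / (S : ℂ) = (G - (vv F w y : ℂ) * H) / (R : ℂ) + (H / (S : ℂ)) * (((vv F w y * S - R) / R : ℝ) : ℂ) := by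
    push_cast
    field_simp
    ring
  rw [e1]
  refine (norm_add_le _ _).trans ?_
  rw [norm_div, norm_mul, norm_div, Complex.norm_real, Complex.norm_real, Complex.norm_real, Real.norm_of_nonneg hR0.le,
    Real.norm_of_nonneg hS0.le, Real.norm_eq_abs, abs_div, abs_of_pos hR0]
  have nonneg_of : ∀ x : ℝ, 0 ≤ x * A → 0 ≤ x := by
    intro x hx
    by_contra h
    push Not at h
    have := mul_neg_of_neg_of_pos h hA0
    linarith
  have hδ' : 0 ≤ δ' := nonneg_of _ ((norm_nonneg _).trans h1)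
  have hδ0 : 0 ≤ δ := nonneg_of _ ((abs_nonneg _).trans h2)
  have k1 : ‖G - (vv F w y : ℂ) * H‖ / R ≤ 2 * δ' := by
    rw [div_le_iff₀ hR0]
    have : δ' * (A / 2) ≤ δ' * R := mul_le_mul_of_nonneg_left hR1 hδ'
    linarith
  have k2 : ‖H‖ / S ≤ m := by
    rw [div_le_iff₀ hS0]; exact hGw
  have k3 : |vv F w y * S - R| ≤ 2 * (δ * A) := by
    have e2 : vv F w y * S - R = vv F w y * (S - B) - (R - A) := by rw [hAB]; ring
    rw [e2]
    refine (abs_sub _ _).trans ?_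
    rw [abs_mul, abs_of_pos hv]
    have e3 : vv F w y * |S - B| ≤ vv F w y * (δ * B) := mul_le_mul_of_nonneg_left h3 hv.le
    have e4 : vv F w y * (δ * B) = δ * A := by rw [hAB]; ring
    linarith
  have k4 : |vv F w y * S - R| / R ≤ 4 * δ := by
    rw [div_le_iff₀ hR0]
    have : δ * (A / 2) ≤ δ * R := mul_le_mul_of_nonneg_left hR1 hδ0
    linarith
  have k5 : ‖H‖ / S * (|vv F w y * S - R| / R) ≤ m * (4 * δ) := mul_le_mul k2 k4 (by positivity) (by linarith)
  linarith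

lemma split_bound (f : ℕ → ℝ) (m N T : ℕ) (K : ℝ) (Φ : ℕ → ℂ) (hF : Split T m Φ)
    (h : ∀ G H : ℕ → ℂ, (∀ n, ‖G n‖ ≤ 1) → (∀ n, ‖H n‖ ≤ 1) →
      ‖∑ n ∈ range N, G (n % T) * H (n / T) * (f n : ℂ)‖ ≤ K) :
    ‖∑ n ∈ range N, Φ n * (f n : ℂ)‖ ≤ m * K := by
  obtain ⟨G, H, h1, h2, h3⟩ := hF
  have e : ∑ n ∈ range N, Φ n * (f n : ℂ) = ∑ i, ∑ n ∈ range N, G i (n % T) * H i (n / T) * (f n : ℂ) := by
    rw [sum_comm]
    apply sum_congr rfl
    intro n _
    rw [h3 n, sum_mul]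
  rw [e]
  refine (norm_sum_le _ _).trans ?_
  calc ∑ i, ‖∑ n ∈ range N, G i (n % T) * H i (n / T) * (f n : ℂ)‖ ≤ ∑ _i : Fin m, K :=
        sum_le_sum fun i _ => h (G i) (H i) (h1 i) (h2 i)
    _ = _ := by rw [sum_const, card_univ, Fintype.card_fin, nsmul_eq_mul]

lemma split_norm (T m : ℕ) (F : ℕ → ℂ) (hF : Split T m F) (n : ℕ) : ‖F n‖ ≤ m := by
  obtain ⟨G, H, h1, h2, h3⟩ := hF
  rw [h3 n]
  refine (norm_sum_le _ _).trans ?_
  calc ∑ i, ‖G i (n % T) * H i (n / T)‖ ≤ ∑ _i : Fin m, (1 : ℝ) := by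
        apply sum_le_sum
        intro i _
        rw [norm_mul]
        exact mul_le_one₀ (h1 i _) (norm_nonneg _) (h2 i _)
    _ = m := by rw [sum_const, card_univ, Fintype.card_fin, nsmul_eq_mul, mul_one]

lemma ee_pow (x : ℝ) (n : ℕ) : ee ((n : ℝ) * x) = ee x ^ n := by
  unfold ee
  rw [← Complex.exp_nat_mul]
  congr 1
  push_cast
  ring

/-- from exponential sums to residue classes -/
lemma classes_of_sums (S : Finset ℕ) (s : ℕ → ℕ) (m a : ℕ) (hm : 1 ≤ m) (ε : ℝ) (hε : 0 ≤ ε)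
    (h : ∀ t : ℕ, 0 < t → t < m → ‖∑ n ∈ S, ee ((t : ℝ) / m) ^ s n‖ ≤ ε * S.card) :
    |((S.filter (fun n => s n ≡ a [MOD m])).card : ℝ) - S.card / m| ≤ ε * S.card := by
  classical
  have hm0 : (0 : ℝ) < m := by exact_mod_cast hm
  have e1 : (m : ℂ) * ((S.filter (fun n => s n ≡ a [MOD m])).card : ℂ) =
      ∑ t ∈ range m, ee (-((t : ℝ) * (a / m))) * ∑ n ∈ S, ee ((t : ℝ) / m) ^ s n := by
    rw [card_filter]
    push_cast
    rw [mul_sum]
    have e2 : ∀ n ∈ S, (m : ℂ) * (if s n ≡ a [MOD m] then (1 : ℂ) else 0) =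
        ∑ t ∈ range m, ee (-((t : ℝ) * (a / m))) * ee ((t : ℝ) / m) ^ s n := by
      intro n _
      have h1 := orth m hm ((s n : ℤ) - a)
      have h2 : ∑ t ∈ range m, ee (-((t : ℝ) * (a / m))) * ee ((t : ℝ) / m) ^ s n =
          ∑ t ∈ range m, ee ((t : ℝ) * ((((s n : ℤ) - a : ℤ) : ℝ) / m)) := by
        apply sum_congr rfl
        intro t _
        rw [← ee_pow, ← ee_add]
        congr 1
        push_cast
        field_simp
        ring
      rw [h2, h1]
      have h3 : (s n ≡ a [MOD m]) ↔ (m : ℤ) ∣ (s n : ℤ) - a := by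
        rw [← Nat.modEq_iff_dvd]
        exact ⟨fun h => h.symm, fun h => h.symm⟩
      simp only [h3]
      split_ifs <;> simp
    rw [sum_congr rfl e2, sum_comm]
    apply sum_congr rfl
    intro t _
    rw [mul_sum]
  obtain ⟨m', rfl⟩ : ∃ m', m = m' + 1 := ⟨m - 1, by omega⟩
  rw [sum_range_succ'] at e1
  have e0 : ee (-(((0 : ℕ) : ℝ) * (a / ((m' + 1 : ℕ) : ℝ)))) * ∑ n ∈ S, ee (((0 : ℕ) : ℝ) / ((m' + 1 : ℕ) : ℝ)) ^ s n = (S.card : ℂ) := by
    have : ee 0 = 1 := by unfold ee; simp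
    simp [this]
  rw [e0] at e1
  set c := (S.filter (fun n => s n ≡ a [MOD m' + 1])).card with hc
  have e3 : ((((m' + 1 : ℕ) : ℝ) * c - S.card : ℝ) : ℂ) =
      ∑ t ∈ range m', ee (-(((t + 1 : ℕ) : ℝ) * (a / ((m' + 1 : ℕ) : ℝ)))) * ∑ n ∈ S, ee (((t + 1 : ℕ) : ℝ) / ((m' + 1 : ℕ) : ℝ)) ^ s n := by
    have : ((((m' + 1 : ℕ) : ℝ) * c - S.card : ℝ) : ℂ) = ((m' + 1 : ℕ) : ℂ) * (c : ℂ) - (S.card : ℂ) := by push_cast; ring
    rw [this, e1]
    ring
  have e4 : |((m' + 1 : ℕ) : ℝ) * c - S.card| ≤ m' * (ε * S.card) := by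
    have : |((m' + 1 : ℕ) : ℝ) * c - S.card| = ‖((((m' + 1 : ℕ) : ℝ) * c - S.card : ℝ) : ℂ)‖ := by
      rw [Complex.norm_real, Real.norm_eq_abs]
    rw [this, e3]
    refine (norm_sum_le _ _).trans ?_
    calc ∑ t ∈ range m', ‖ee (-(((t + 1 : ℕ) : ℝ) * (a / ((m' + 1 : ℕ) : ℝ)))) * ∑ n ∈ S, ee (((t + 1 : ℕ) : ℝ) / ((m' + 1 : ℕ) : ℝ)) ^ s n‖
        ≤ ∑ _t ∈ range m', ε * S.card := by
          apply sum_le_sum
          intro t ht
          rw [mem_range] at ht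
          rw [norm_mul, norm_ee, one_mul]
          exact h (t + 1) (by omega) (by omega)
      _ = _ := by rw [sum_const, card_range, nsmul_eq_mul]
  have hεS : 0 ≤ ε * S.card := by positivity
  have hm1 : (0 : ℝ) < ((m' + 1 : ℕ) : ℝ) := by positivity
  have e6 : (c : ℝ) - S.card / ((m' + 1 : ℕ) : ℝ) = (((m' + 1 : ℕ) : ℝ) * c - S.card) / ((m' + 1 : ℕ) : ℝ) := by
    field_simp
  rw [e6, abs_div, abs_of_pos hm1, div_le_iff₀ hm1]
  refine e4.trans ?_
  push_cast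
  nlinarith

lemma Rgh_modF (F : ℤ[X]) (w n : ℕ) : Rgh F w n ↔ Rgh F w (n % ∏ p ∈ pz w, p) := by
  unfold Rgh
  have key : ∀ p ∈ pz w, (RF F p n ↔ RF F p (n % ∏ p ∈ pz w, p)) := by
    intro p hp
    rw [RF_mod F p n, RF_mod F p (n % ∏ p ∈ pz w, p), Nat.mod_mod_of_dvd n (dvd_prod_of_mem _ hp)]
  constructor
  · intro h p hp h1
    exact h p hp ((key p hp).2 h1)
  · intro h p hp h1
    exact h p hp ((key p hp).1 h1)

/-- **Gelfond**: the sum of digits on the residue classes, uniformly -/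
theorem dig_classesF (q : ℕ) (hq : 2 ≤ q) (ζ : ℂ) (hζ : ‖ζ‖ = 1) (hζ1 : ζ ^ (q - 1) ≠ 1) (w : ℕ) (δ : ℝ) (hδ : 0 < δ) :
    ∀ᶠ N : ℕ in atTop, ∀ F : ℤ[X], ‖∑ n ∈ range N, ζ ^ sd q n * (ind F w n : ℂ)‖ ≤ δ * N := by
  classical
  set W := ∏ p ∈ pz w, p with hW
  have hW1 : 1 ≤ W := Nat.one_le_iff_ne_zero.2 (prod_ne_zero_iff.2 fun p hp => (mem_pz.1 hp).2.ne_zero)
  have hW0 : (0 : ℝ) < W := by exact_mod_cast hW1
  obtain ⟨κ, hκ0, hκ1, hκ⟩ := S_bound q hq ζ hζ hζ1 W hW1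
  have hq0 : (0 : ℝ) < q := by exact_mod_cast (by omega : 0 < q)
  -- the choice of `k`
  obtain ⟨k, hk⟩ : ∃ k : ℕ, W * (κ / (q : ℝ) ^ 2) ^ k ≤ δ / 2 := by
    have h1 : κ / (q : ℝ) ^ 2 < 1 := by rw [div_lt_one (by positivity)]; exact hκ1
    obtain ⟨k, hk⟩ := exists_pow_lt_of_lt_one (show 0 < δ / 2 / W by positivity) h1
    refine ⟨k, ?_⟩
    rw [lt_div_iff₀ hW0] at hk
    linarith
  obtain ⟨n0, hn0⟩ := exists_nat_ge (2 * (q : ℝ) ^ (2 * k) / δ)
  filter_upwards [eventually_ge_atTop n0] with N hN F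
  set T := q ^ (2 * k) with hT
  have hT1 : 1 ≤ T := Nat.one_le_pow _ _ (by omega)
  have hT0 : (0 : ℝ) < T := by exact_mod_cast hT1
  have hR : N = T * (N / T) + N % T := (Nat.div_add_mod N T).symm
  have hRT : N % T < T := Nat.mod_lt _ (by omega)
  have e1 : ∑ n ∈ range N, ζ ^ sd q n * (ind F w n : ℂ) =
      (∑ b ∈ range (N / T), ∑ a ∈ range T, ζ ^ sd q (a + T * b) * (ind F w (a + T * b) : ℂ)) +
      ∑ x ∈ range (N % T), ζ ^ sd q (T * (N / T) + x) * (ind F w (T * (N / T) + x) : ℂ) := by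
    conv_lhs => rw [hR]
    rw [sum_range_add, sum_blocks]
  rw [e1]
  refine (norm_add_le _ _).trans ?_
  have h1 : ‖∑ b ∈ range (N / T), ∑ a ∈ range T, ζ ^ sd q (a + T * b) * (ind F w (a + T * b) : ℂ)‖ ≤ δ / 2 * N := by
    refine (norm_sum_le _ _).trans ?_
    calc ∑ b ∈ range (N / T), ‖∑ a ∈ range T, ζ ^ sd q (a + T * b) * (ind F w (a + T * b) : ℂ)‖
        ≤ ∑ _b ∈ range (N / T), (W * κ ^ k : ℝ) := by
          apply sum_le_sum
          intro b _
          have e2 : ∑ a ∈ range T, ζ ^ sd q (a + T * b) * (ind F w (a + T * b) : ℂ) =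
              ζ ^ sd q b * ∑ a ∈ range T, ζ ^ sd q a * (if Rgh F w (a + T * b) then 1 else 0) := by
            rw [mul_sum]
            apply sum_congr rfl
            intro a ha
            rw [mem_range] at ha
            rw [hT, sd_add q (by omega) (2 * k) a b ha, pow_add]
            unfold ind
            split_ifs <;> push_cast <;> ring
          rw [e2, norm_mul, norm_pow, hζ, one_pow, one_mul]
          apply block_bound q hq ζ hζ W hW1 (2 * k) (κ ^ k) (hκ k) (fun a => Rgh F w (a + T * b))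
          intro n
          have h2 := Rgh_modF F w (n + T * b)
          have h3 := Rgh_modF F w (n % W + T * b)
          rw [← hW] at h2 h3
          rw [Nat.mod_add_mod] at h3
          exact h2.trans h3.symm
      _ = (N / T : ℕ) * (W * κ ^ k) := by rw [sum_const, card_range, nsmul_eq_mul]
      _ ≤ (N / T : ℝ) * (W * κ ^ k) := by
          apply mul_le_mul_of_nonneg_right _ (by positivity)
          exact Nat.cast_div_le
      _ = N * (W * (κ / (q : ℝ) ^ 2) ^ k) := by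
          rw [hT, div_pow, ← pow_mul]
          push_cast
          ring
      _ ≤ N * (δ / 2) := mul_le_mul_of_nonneg_left hk (Nat.cast_nonneg _)
      _ = _ := by ring
  have h2 : ‖∑ x ∈ range (N % T), ζ ^ sd q (T * (N / T) + x) * (ind F w (T * (N / T) + x) : ℂ)‖ ≤ δ / 2 * N := by
    refine (norm_sum_le _ _).trans ?_
    calc ∑ x ∈ range (N % T), ‖ζ ^ sd q (T * (N / T) + x) * (ind F w (T * (N / T) + x) : ℂ)‖
        ≤ ∑ _x ∈ range (N % T), (1 : ℝ) := by
          apply sum_le_sum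
          intro x _
          rw [norm_mul, norm_pow, hζ, one_pow, one_mul, Complex.norm_real, Real.norm_eq_abs, abs_of_nonneg (ind_nonneg _ _ _)]
          exact ind_le_one _ _ _
      _ = ((N % T : ℕ) : ℝ) := by rw [sum_const, card_range, nsmul_eq_mul, mul_one]
      _ ≤ T := by exact_mod_cast hRT.le
      _ ≤ δ / 2 * N := by
          have h3 : 2 * (q : ℝ) ^ (2 * k) / δ ≤ N := hn0.trans (by exact_mod_cast hN)
          rw [div_le_iff₀ hδ] at h3
          rw [hT]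
          push_cast
          linarith
  linarith

/-- **The theorem on digits for general polynomials** -/
theorem digitMean (q m D A : ℕ) (hq : 2 ≤ q) (hm : 1 ≤ m) (hD : 1 ≤ D) (ε : ℝ) (hε : 0 < ε) : ∃ w r : ℕ, 3 ≤ w ∧ ∀ᶠ N : ℕ in atTop,
    ∀ F : ℤ[X], Sys F D → (∀ i, |F.coeff i| ≤ (N : ℤ) ^ A) → ∀ y : ℕ, w ≤ y → y ^ r ≤ N →
      |((roughF F y N).card : ℝ) - N * V F y| ≤ ε * (N * V F y) ∧
      (∀ z : ℕ, w ≤ z → z ≤ y → ∀ Φ : ℕ → ℂ, Split (q ^ Nat.log q (Nat.sqrt N)) m Φ →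
        ‖mean (roughF F y N) Φ - mean (roughF F z N) Φ‖ ≤ ε) ∧
      (m.Coprime (q - 1) → ∀ a : ℕ,
        |(((roughF F y N).filter (fun n => (Nat.digits q n).sum ≡ a [MOD m])).card : ℝ) / (roughF F y N).card - 1 / m| ≤ ε) := by
  classical
  have hm0 : (1 : ℝ) ≤ m := by exact_mod_cast hm
  obtain ⟨B, n1, hV1⟩ := V_low2 D hD
  obtain ⟨δ, hδd⟩ : ∃ δ, δ = min (ε / (12 * m)) (1 / 2) := ⟨_, rfl⟩
  have hδ0 : 0 < δ := by rw [hδd]; exact lt_min (by positivity) (by norm_num)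
  have hδ1 : δ ≤ 1 / 2 := by rw [hδd]; exact min_le_right _ _
  have hδ2 : 12 * m * δ ≤ ε := by
    have : δ ≤ ε / (12 * m) := by rw [hδd]; exact min_le_left _ _
    rw [le_div_iff₀ (by positivity)] at this
    linarith
  have hδ3 : δ ≤ ε := by nlinarith
  obtain ⟨w0, r, hw4, hwq, hr, hmain⟩ := main2F q hq D A hD δ hδ0
  obtain ⟨w, hw⟩ : ∃ w, w = max w0 n1 := ⟨_, rfl⟩
  have hw0w : w0 ≤ w := by rw [hw]; exact le_max_left _ _
  have hwn1 : n1 ≤ w := by rw [hw]; exact le_max_right _ _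
  have hw4' : 4 ≤ w := hw4.trans hw0w
  refine ⟨w, r, by omega, ?_⟩
  obtain ⟨κ, hκ⟩ : ∃ κ, κ = 1 / Real.log w0 ^ B := ⟨_, rfl⟩
  -- the sums of digits are treated at the level `w`
  have hwl : 0 < Real.log w := Real.log_pos (by exact_mod_cast (by omega : 1 < w))
  have hdig : ∀ᶠ N : ℕ in atTop, ∀ t ∈ (range m).filter (fun t : ℕ => ee ((t : ℝ) / m) ^ (q - 1) ≠ 1), ∀ F : ℤ[X],
      ‖∑ n ∈ range N, ee ((t : ℝ) / m) ^ sd q n * (ind F w n : ℂ)‖ ≤ (δ * (1 / Real.log w ^ B)) * N := by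
    rw [eventually_all_finset]
    intro t ht
    rw [mem_filter] at ht
    exact dig_classesF q hq (ee ((t : ℝ) / m)) (norm_ee _) ht.2 w (δ * (1 / Real.log w ^ B)) (by positivity)
  clear hκ
  filter_upwards [hmain, hdig, eventually_ge_atTop 1] with N h1 h2 hN F hS hH y hwy hyr
  have hN0 : (0 : ℝ) < N := by exact_mod_cast hN
  have my := h1 F hS hH y (hw0w.trans hwy) hyr
  have hw0r : w0 ^ r ≤ N := (Nat.pow_le_pow_left (hw0w.trans hwy) r).trans hyr
  have hwr : w ^ r ≤ N := (Nat.pow_le_pow_left hwy r).trans hyr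
  have mw0 := h1 F hS hH w0 le_rfl hw0r
  have mw := h1 F hS hH w hw0w hwr
  have hcomp : ∀ (m' : ℕ), 1 ≤ m' → m' ≤ m → ∀ z : ℕ, w ≤ z → z ≤ y → ∀ Φ : ℕ → ℂ, Split (q ^ Nat.log q (Nat.sqrt N)) m' Φ →
      ‖mean (roughF F y N) Φ - mean (roughF F z N) Φ‖ ≤ 12 * m' * δ := by
    intro m' hm' hmm z hwz hzy Φ hΦ
    have hm'0 : (1 : ℝ) ≤ m' := by exact_mod_cast hm'
    have hzr : z ^ r ≤ N := (Nat.pow_le_pow_left hzy r).trans hyr
    have mz := h1 F hS hH z (hw0w.trans hwz) hzr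
    have b1 := split_bound (ff F w0 y) m' N _ _ Φ hΦ my.1
    have b2 := split_bound (ff F w0 z) m' N _ _ Φ hΦ mz.1
    have k1 := mean_close hS w0 y N hN (hw0w.trans hwy) δ (m' * δ) hδ1 Φ m' hm'0 (split_norm _ m' Φ hΦ)
      (b1.trans (le_of_eq (by ring))) my.2 mw0.2
    have k2 := mean_close hS w0 z N hN (hw0w.trans hwz) δ (m' * δ) hδ1 Φ m' hm'0 (split_norm _ m' Φ hΦ)
      (b2.trans (le_of_eq (by ring))) mz.2 mw0.2
    calc ‖mean (roughF F y N) Φ - mean (roughF F z N) Φ‖ =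
          ‖(mean (roughF F y N) Φ - mean (roughF F w0 N) Φ) - (mean (roughF F z N) Φ - mean (roughF F w0 N) Φ)‖ := by
            congr 1; ring
      _ ≤ (2 * (m' * δ) + 4 * m' * δ) + (2 * (m' * δ) + 4 * m' * δ) := (norm_sub_le _ _).trans (add_le_add k1 k2)
      _ = 12 * m' * δ := by ring
  have hNVy : 0 < N * V F y := by have := V_pos hS y; positivity
  have hS0 : 0 < ((roughF F y N).card : ℝ) := by
    have g3 := (abs_le.1 my.2).1
    rw [← card_rough] at g3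
    have g4 : δ * (N * V F y) ≤ 1 / 2 * (N * V F y) := mul_le_mul_of_nonneg_right hδ1 hNVy.le
    linarith
  refine ⟨?_, ?_, ?_⟩
  · rw [card_rough]
    exact my.2.trans (mul_le_mul_of_nonneg_right hδ3 hNVy.le)
  · intro z hwz hzy Φ hΦ
    exact (hcomp m hm le_rfl z hwz hzy Φ hΦ).trans hδ2
  · intro hcop a
    have key : ∀ t : ℕ, 0 < t → t < m → ‖∑ n ∈ roughF F y N, ee ((t : ℝ) / m) ^ sd q n‖ ≤ ε * (roughF F y N).card := by
      intro t ht0 htm
      have hm2 : (2 : ℝ) ≤ m := by exact_mod_cast (by omega : 2 ≤ m)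
      set ζ := ee ((t : ℝ) / m) with hζ
      have hζn : ‖ζ‖ = 1 := norm_ee _
      have hζ1 : ζ ^ (q - 1) ≠ 1 := by
        intro h
        rw [hζ, ← ee_pow] at h
        unfold ee at h
        rw [Complex.exp_eq_one_iff] at h
        obtain ⟨n, hn⟩ := h
        have hpi : (2 * (Real.pi : ℂ) * Complex.I) ≠ 0 := by
          simp [Real.pi_ne_zero, Complex.I_ne_zero]
        have h5 : ((((q - 1 : ℕ) : ℝ) * ((t : ℝ) / m) : ℝ) : ℂ) = (n : ℂ) := by
          apply mul_left_cancel₀ hpi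
          rw [mul_comm (2 * (Real.pi : ℂ) * Complex.I) (n : ℂ), ← hn]
          try ring
        have h6 : (((q - 1 : ℕ) : ℝ) * ((t : ℝ) / m) : ℝ) = (n : ℝ) := by exact_mod_cast h5
        have h7 : (((q - 1 : ℕ) : ℝ) * (t : ℝ) : ℝ) = (n : ℝ) * m := by
          rw [← h6]
          field_simp
        have h8 : (((q - 1 : ℕ) : ℤ) * (t : ℤ)) = n * m := by exact_mod_cast h7
        have h9 : (m : ℤ) ∣ (((q - 1) * t : ℕ) : ℤ) := by
          rw [Nat.cast_mul, h8]
          exact dvd_mul_left _ _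
        have h10 : m ∣ (q - 1) * t := by exact_mod_cast h9
        have h11 : m ∣ t := hcop.dvd_of_dvd_mul_left h10
        have := Nat.le_of_dvd ht0 h11
        omega
      have hsplit : Split (q ^ Nat.log q (Nat.sqrt N)) 1 (fun n => ζ ^ sd q n) := sd_rank q (by omega) ζ hζn _
      have k1 := hcomp 1 le_rfl hm w le_rfl hwy _ hsplit
      have k2 : ‖mean (roughF F w N) (fun n => ζ ^ sd q n)‖ ≤ 2 * δ := by
        unfold mean
        rw [sum_rough, norm_div, Complex.norm_natCast]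
        have g3 := (abs_le.1 mw.2).1
        rw [← card_rough] at g3
        have hVw := V_pos hS w
        have hNV : 0 < N * V F w := by positivity
        have g4 : δ * (N * V F w) ≤ 1 / 2 * (N * V F w) := mul_le_mul_of_nonneg_right hδ1 hNV.le
        have hS' : (N * V F w) / 2 ≤ ((roughF F w N).card : ℝ) := by linarith
        have hS0' : 0 < ((roughF F w N).card : ℝ) := by linarith
        rw [div_le_iff₀ hS0']
        have h3 := h2 t (mem_filter.2 ⟨mem_range.2 htm, hζ1⟩) F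
        have h4 := (hV1 F hS w hwn1).1
        calc ‖∑ n ∈ range N, ζ ^ sd q n * (ind F w n : ℂ)‖ ≤ (δ * (1 / Real.log w ^ B)) * N := h3
          _ ≤ (δ * V F w) * N := by
              apply mul_le_mul_of_nonneg_right _ hN0.le
              exact mul_le_mul_of_nonneg_left h4 hδ0.le
          _ = 2 * δ * ((N * V F w) / 2) := by ring
          _ ≤ _ := mul_le_mul_of_nonneg_left hS' (by positivity)
      have k3 : ‖mean (roughF F y N) (fun n => ζ ^ sd q n)‖ ≤ ε := by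
        have hδm : 24 * δ ≤ 12 * m * δ := by nlinarith
        calc ‖mean (roughF F y N) (fun n => ζ ^ sd q n)‖ =
              ‖(mean (roughF F y N) (fun n => ζ ^ sd q n) - mean (roughF F w N) (fun n => ζ ^ sd q n)) + mean (roughF F w N) (fun n => ζ ^ sd q n)‖ := by
              congr 1; ring
          _ ≤ 12 * ((1 : ℕ) : ℝ) * δ + 2 * δ := (norm_add_le _ _).trans (add_le_add k1 k2)
          _ ≤ ε := by push_cast; linarith
      unfold mean at k3
      rw [norm_div, Complex.norm_natCast, div_le_iff₀ hS0] at k3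
      exact k3
    have h3 := classes_of_sums (roughF F y N) (sd q) m a hm ε hε.le key
    have e : (((roughF F y N).filter (fun n => (Nat.digits q n).sum ≡ a [MOD m])).card : ℝ) / (roughF F y N).card - 1 / m =
        ((((roughF F y N).filter (fun n => sd q n ≡ a [MOD m])).card : ℝ) - (roughF F y N).card / m) / (roughF F y N).card := by
      have hm0' : (m : ℝ) ≠ 0 := by positivity
      have hS0' := hS0.ne'
      unfold sd
      field_simp
    rw [e, abs_div, abs_of_pos hS0, div_le_iff₀ hS0]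
    exact h3

end Pool.Agent.H31.GP
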