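import Pool.Agent.H31.GP.DigitWin

set_option autoImplicit false

/-! # The theorem on digits for general polynomials, in short intervals -/

namespace Pool.Agent.H31.GP

open Finset Filter Topology Polynomial Pool.Agent.H373R2.T7
open Pool.Agent.H31.MF (Prd mid mem_mid pz_split pz_disj)
open Pool.Agent.H31.DG (sum_blocks sd sd_add sd_rank S_bound block_bound sd_split)
open Pool.Agent.H807R2.Dav

lemma split_mono {T m m' : ℕ} (h : m' ≤ m) {Φ : ℕ → ℂ} (hΦ : Split T m' Φ) : Split T m Φ := by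
  classical
  obtain ⟨G, H, h2, h3, h4⟩ := hΦ
  obtain ⟨k, rfl⟩ : ∃ k, m = m' + k := ⟨m - m', by omega⟩
  refine ⟨Fin.addCases G (fun _ _ => 0), Fin.addCases H (fun _ _ => 0), ?_, ?_, ?_⟩
  · intro i n
    refine Fin.addCases (fun i => ?_) (fun i => ?_) i
    · simp [h2 i n]
    · simp
  · intro i n
    refine Fin.addCases (fun i => ?_) (fun i => ?_) i
    · simp [h3 i n]
    · simp
  · intro n
    rw [h4 n, Fin.sum_univ_add]
    simp

lemma split_shift {T m : ℕ} (hT : 1 ≤ T) {Φ : ℕ → ℂ} (hΦ : Split T m Φ) (u : ℕ) : Split T m (fun n => Φ (n + T * u)) := by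
  obtain ⟨G, H, h2, h3, h4⟩ := hΦ
  refine ⟨G, fun i n => H i (n + u), h2, fun i n => h3 i _, fun n => ?_⟩
  simp only [h4]
  apply sum_congr rfl
  intro i _
  rw [Nat.add_mul_mod_self_left, Nat.add_mul_div_left _ _ (by omega)]

lemma sum_roughW (F : ℤ[X]) (y M N : ℕ) (g : ℕ → ℂ) : ∑ n ∈ roughW F y M N, g n = ∑ n ∈ Ico M (M + N), g n * (ind F y n : ℂ) := by
  classical
  unfold roughW ind
  rw [sum_filter]
  apply sum_congr rfl
  intro n _
  simp only [rough_iff]
  split_ifs <;> simp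

lemma zeta_ne (q m t : ℕ) (ht0 : 0 < t) (htm : t < m) (hcop : m.Coprime (q - 1)) : ee ((t : ℝ) / m) ^ (q - 1) ≠ 1 := by
  have hm : 1 ≤ m := by omega
  intro h
  rw [← ee_pow] at h
  unfold ee at h
  rw [Complex.exp_eq_one_iff] at h
  obtain ⟨n, hn⟩ := h
  have hpi : (2 * (Real.pi : ℂ) * Complex.I) ≠ 0 := by
    simp [Real.pi_ne_zero, Complex.I_ne_zero]
  have h5 : ((((q - 1 : ℕ) : ℝ) * ((t : ℝ) / m) : ℝ) : ℂ) = (n : ℂ) := by
    apply mul_left_cancel₀ hpi
    rw [mul_comm (2 * (Real.pi : ℂ) * Complex.I) (n : ℂ), ← hn]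
    try ring
  have h6 : (((q - 1 : ℕ) : ℝ) * ((t : ℝ) / m) : ℝ) = (n : ℝ) := by exact_mod_cast h5
  have hm0' : (m : ℝ) ≠ 0 := by positivity
  have h7 : (((q - 1 : ℕ) : ℝ) * (t : ℝ) : ℝ) = (n : ℝ) * m := by
    rw [← h6]
    field_simp
  have h8 : (((q - 1 : ℕ) : ℤ) * (t : ℤ)) = n * m := by exact_mod_cast h7
  have h9 : (m : ℤ) ∣ (((q - 1) * t : ℕ) : ℤ) := by
    rw [Nat.cast_mul, h8]
    exact dvd_mul_left _ _
  have h10 : m ∣ (q - 1) * t := by exact_mod_cast h9
  have h11 : m ∣ t := hcop.dvd_of_dvd_mul_left h10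
  have := Nat.le_of_dvd ht0 h11
  omega

/-- **The theorem on digits for general polynomials, in short intervals** -/
theorem digitWin (q m D A : ℕ) (hq : 2 ≤ q) (hm : 1 ≤ m) (hD : 1 ≤ D) (ε : ℝ) (hε : 0 < ε) : ∃ w r : ℕ, 3 ≤ w ∧ ∀ᶠ N : ℕ in atTop,
    ∀ F : ℤ[X], Sys F D → (∀ i, |F.coeff i| ≤ (N : ℤ) ^ A) → ∀ M : ℕ, M ≤ N ^ A → ∀ y : ℕ, w ≤ y → y ^ r ≤ N →
      |((roughW F y M N).card : ℝ) - N * V F y| ≤ ε * (N * V F y) ∧
      (∀ z : ℕ, w ≤ z → z ≤ y → ∀ Φ : ℕ → ℂ, Split (q ^ Nat.log q (Nat.sqrt N)) m Φ →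
        ‖mean (roughW F y M N) Φ - mean (roughW F z M N) Φ‖ ≤ ε) ∧
      (m.Coprime (q - 1) → ∀ a : ℕ,
        |(((roughW F y M N).filter (fun n => (Nat.digits q n).sum ≡ a [MOD m])).card : ℝ) / (roughW F y M N).card - 1 / m| ≤ ε) := by
  classical
  have hm0 : (1 : ℝ) ≤ m := by exact_mod_cast hm
  obtain ⟨B, n1, hV1⟩ := V_low2 D hD
  obtain ⟨δ, hδd⟩ : ∃ δ, δ = min (ε / (32 * m)) (1 / 4) := ⟨_, rfl⟩
  have hδ0 : 0 < δ := by rw [hδd]; exact lt_min (by positivity) (by norm_num)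
  have hδ1 : δ ≤ 1 / 4 := by rw [hδd]; exact min_le_right _ _
  have hδ2 : 32 * m * δ ≤ ε := by
    have : δ ≤ ε / (32 * m) := by rw [hδd]; exact min_le_left _ _
    rw [le_div_iff₀ (by positivity)] at this
    linarith
  have hδ3 : 32 * δ ≤ ε := by nlinarith
  have hδm : δ ≤ m * δ := by nlinarith
  obtain ⟨w0, r0, hw3, hmain⟩ := digitMean q m D (A + A * D + 1) hq hm hD δ hδ0
  obtain ⟨w, hw⟩ : ∃ w, w = max w0 n1 := ⟨_, rfl⟩
  obtain ⟨r, hr⟩ : ∃ r, r = max r0 4 := ⟨_, rfl⟩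
  have hw0w : w0 ≤ w := by rw [hw]; exact le_max_left _ _
  have hwn1 : n1 ≤ w := by rw [hw]; exact le_max_right _ _
  have hr0 : r0 ≤ r := by rw [hr]; exact le_max_left _ _
  have hr4 : 4 ≤ r := by rw [hr]; exact le_max_right _ _
  have hw3' : 3 ≤ w := hw3.trans hw0w
  refine ⟨w, r, by omega, ?_⟩
  have hwl : 0 < Real.log w := Real.log_pos (by exact_mod_cast (by omega : 1 < w))
  have hdig : ∀ᶠ N : ℕ in atTop, ∀ t ∈ (range m).filter (fun t : ℕ => ee ((t : ℝ) / m) ^ (q - 1) ≠ 1), ∀ F : ℤ[X], ∀ M : ℕ,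
      ‖∑ n ∈ Ico M (M + N), ee ((t : ℝ) / m) ^ sd q n * (ind F w n : ℂ)‖ ≤ (δ * (1 / Real.log w ^ B)) * N := by
    rw [eventually_all_finset]
    intro t ht
    rw [mem_filter] at ht
    exact dig_classesW q hq (ee ((t : ℝ) / m)) (norm_ee _) ht.2 w (δ * (1 / Real.log w ^ B)) (by positivity)
  have hbig := eventually_ge_atTop (α := ℕ) ⌈256 / δ ^ 4⌉₊
  filter_upwards [hmain, hdig, eventually_ge_atTop 1, coeff_tay_pow D A A, hbig] with N h1 h2 hN hco hNb F hS hH M hM y hwy hyr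
  have hN0 : (0 : ℝ) < N := by exact_mod_cast hN
  obtain ⟨T, hT⟩ : ∃ T, T = q ^ Nat.log q (Nat.sqrt N) := ⟨_, rfl⟩
  rw [← hT] at h1 ⊢
  have hT1 : 1 ≤ T := by rw [hT]; exact Nat.one_le_pow _ _ (by omega)
  have hTs : T ≤ Nat.sqrt N := by
    rw [hT]
    exact Nat.pow_log_le_self _ (Nat.sqrt_pos.2 hN).ne'
  have hTN : T * T ≤ N := (Nat.mul_le_mul hTs hTs).trans (Nat.sqrt_le N)
  obtain ⟨M', hM'⟩ : ∃ M', M' = T * (M / T) := ⟨_, rfl⟩
  have hMM : M' ≤ M := by rw [hM']; exact Nat.mul_div_le _ _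
  have hMT : M - M' ≤ T := by
    have := Nat.mod_add_div M T
    have h3 := Nat.mod_lt M (show 0 < T by omega)
    omega
  have hG := Sys_tay hS M'
  have hGH := hco F hS.deg hH M' (hMM.trans hM)
  -- the estimates in the window which begins at `M'`
  have base : ∀ z : ℕ, w ≤ z → z ≤ y → z ^ r ≤ N ∧ z ^ r0 ≤ N := by
    intro z hwz hzy
    have h3 : z ^ r ≤ N := (Nat.pow_le_pow_left hzy r).trans hyr
    exact ⟨h3, (Nat.pow_le_pow_right (by omega) hr0).trans h3⟩
  have cnt : ∀ z : ℕ, w ≤ z → z ≤ y → |((roughW F z M' N).card : ℝ) - N * V F z| ≤ δ * (N * V F z) := by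
    intro z hwz hzy
    have h3 := (h1 (tay M' F) hG hGH z (hw0w.trans hwz) (base z hwz hzy).2).1
    rw [V_tay] at h3
    rw [card_W_tay]
    exact h3
  have NV : ∀ z : ℕ, w ≤ z → z ≤ y → 0 < N * V F z ∧ 4 * (T : ℝ) ≤ δ * (N * V F z) := by
    intro z hwz hzy
    have hz0 : (0 : ℝ) < z := by exact_mod_cast (by omega : 0 < z)
    obtain ⟨-, h3⟩ := hV1 F hS z (hwn1.trans hwz)
    have hVz := V_pos hS z
    refine ⟨by positivity, ?_⟩
    have h4 : (z : ℝ) ^ 4 ≤ N := by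
      have : z ^ 4 ≤ N := (Nat.pow_le_pow_right (by omega) hr4).trans (base z hwz hzy).1
      exact_mod_cast this
    have h5 : (T : ℝ) * T ≤ N := by exact_mod_cast hTN
    have h6 : 256 / δ ^ 4 ≤ N := (Nat.le_ceil _).trans (by exact_mod_cast hNb)
    rw [div_le_iff₀ (by positivity)] at h6
    have h7 : (4 * (T : ℝ) * z) ^ 4 ≤ (δ * N) ^ 4 := by
      calc (4 * (T : ℝ) * z) ^ 4 = 256 * ((T : ℝ) * T) ^ 2 * (z : ℝ) ^ 4 := by ring
        _ ≤ 256 * (N : ℝ) ^ 2 * N := by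
            apply mul_le_mul _ h4 (by positivity) (by positivity)
            exact mul_le_mul_of_nonneg_left (pow_le_pow_left₀ (by positivity) h5 2) (by norm_num)
        _ = 256 * (N : ℝ) ^ 3 := by ring
        _ ≤ (N * δ ^ 4) * (N : ℝ) ^ 3 := mul_le_mul_of_nonneg_right h6 (by positivity)
        _ = _ := by ring
    have h8 : 4 * (T : ℝ) * z ≤ δ * N := le_of_pow_le_pow_left₀ (by norm_num) (by positivity) h7
    have h9 : 4 * (T : ℝ) ≤ δ * (N * (1 / z)) := by
      rw [show δ * (N * (1 / (z : ℝ))) = δ * N / z by ring, le_div_iff₀ hz0]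
      exact h8
    exact h9.trans (mul_le_mul_of_nonneg_left (mul_le_mul_of_nonneg_left h3 hN0.le) hδ0.le)
  have big : ∀ z : ℕ, w ≤ z → z ≤ y → (N * V F z) / 2 ≤ ((roughW F z M' N).card : ℝ) := by
    intro z hwz hzy
    have h3 := (abs_le.1 (cnt z hwz hzy)).1
    have h4 := (NV z hwz hzy).1
    have h5 : δ * (N * V F z) ≤ 1 / 4 * (N * V F z) := mul_le_mul_of_nonneg_right hδ1 h4.le
    linarith
  have diffs : ∀ z : ℕ, w ≤ z → z ≤ y → ((((roughW F z M' N) \ (roughW F z M N)).card + ((roughW F z M N) \ (roughW F z M' N)).card : ℕ) : ℝ) ≤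
      δ * (roughW F z M' N).card := by
    intro z hwz hzy
    have h3 := W_sdiff F z M M' N
    have h4 : ((roughW F z M' N) \ (roughW F z M N)).card + ((roughW F z M N) \ (roughW F z M' N)).card ≤ 2 * T := by omega
    calc ((((roughW F z M' N) \ (roughW F z M N)).card + ((roughW F z M N) \ (roughW F z M' N)).card : ℕ) : ℝ) ≤ ((2 * T : ℕ) : ℝ) := by exact_mod_cast h4
      _ = 4 * (T : ℝ) / 2 := by push_cast; ring
      _ ≤ δ * (N * V F z) / 2 := by linarith [(NV z hwz hzy).2]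
      _ = δ * ((N * V F z) / 2) := by ring
      _ ≤ _ := mul_le_mul_of_nonneg_left (big z hwz hzy) hδ0.le
  have near : ∀ z : ℕ, w ≤ z → z ≤ y → ∀ g : ℕ → ℂ, ∀ m' : ℝ, 0 ≤ m' → (∀ n, ‖g n‖ ≤ m') →
      ‖mean (roughW F z M N) g - mean (roughW F z M' N) g‖ ≤ 4 * m' * δ := by
    intro z hwz hzy g m' hm' hg
    apply mean_near _ _ g m' δ hm' hg (diffs z hwz hzy) (by linarith)
    have := (NV z hwz hzy).1
    have h3 := big z hwz hzy
    have h4 : (0 : ℝ) < (roughW F z M' N).card := by linarith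
    exact_mod_cast h4
  have cnt2 : ∀ z : ℕ, w ≤ z → z ≤ y → |((roughW F z M N).card : ℝ) - N * V F z| ≤ 2 * δ * (N * V F z) := by
    intro z hwz hzy
    have h3 := cnt z hwz hzy
    have h4 : |((roughW F z M N).card : ℝ) - (roughW F z M' N).card| ≤ 2 * T := by
      have h5 := W_sdiff F z M M' N
      have h6 := card_le_card_sdiff_add_card (s := roughW F z M N) (t := roughW F z M' N)
      have h7 := card_le_card_sdiff_add_card (s := roughW F z M' N) (t := roughW F z M N)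
      have h8 : (roughW F z M N).card ≤ (roughW F z M' N).card + 2 * T := by omega
      have h9 : (roughW F z M' N).card ≤ (roughW F z M N).card + 2 * T := by omega
      have h8' : ((roughW F z M N).card : ℝ) ≤ (roughW F z M' N).card + 2 * T := by exact_mod_cast h8
      have h9' : ((roughW F z M' N).card : ℝ) ≤ (roughW F z M N).card + 2 * T := by exact_mod_cast h9
      rw [abs_le]
      constructor <;> linarith
    have h5 := (NV z hwz hzy).2
    have e : ((roughW F z M N).card : ℝ) - N * V F z = (((roughW F z M N).card : ℝ) - (roughW F z M' N).card) + (((roughW F z M' N).card : ℝ) - N * V F z) := by ring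
    rw [e]
    refine (abs_add_le _ _).trans ?_
    have : (0 : ℝ) ≤ T := Nat.cast_nonneg _
    linarith
  have hcomp : ∀ (m' : ℕ), 1 ≤ m' → m' ≤ m → ∀ z : ℕ, w ≤ z → z ≤ y → ∀ Φ : ℕ → ℂ, Split T m' Φ →
      ‖mean (roughW F y M N) Φ - mean (roughW F z M N) Φ‖ ≤ 9 * m * δ := by
    intro m' _ hmm z hwz hzy Φ hΦ
    have hΦm := split_mono hmm hΦ
    have hn : ∀ n, ‖Φ n‖ ≤ m := split_norm T m Φ hΦm
    have a1 := near y hwy le_rfl Φ m (by linarith) hn
    have a2 := near z hwz hzy Φ m (by linarith) hn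
    have a3 : ‖mean (roughW F y M' N) Φ - mean (roughW F z M' N) Φ‖ ≤ δ := by
      rw [mean_W_tay, mean_W_tay]
      have h3 := (h1 (tay M' F) hG hGH y (hw0w.trans hwy) (base y hwy le_rfl).2).2.1 z (hw0w.trans hwz) hzy
        (fun n => Φ (n + M')) (by rw [hM']; exact split_shift hT1 hΦm (M / T))
      exact h3
    calc ‖mean (roughW F y M N) Φ - mean (roughW F z M N) Φ‖
        = ‖((mean (roughW F y M N) Φ - mean (roughW F y M' N) Φ) - (mean (roughW F z M N) Φ - mean (roughW F z M' N) Φ)) +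
          (mean (roughW F y M' N) Φ - mean (roughW F z M' N) Φ)‖ := by congr 1; ring
      _ ≤ (4 * m * δ + 4 * m * δ) + δ := (norm_add_le _ _).trans (add_le_add ((norm_sub_le _ _).trans (add_le_add a1 a2)) a3)
      _ ≤ _ := by linarith
  have hS0 : 0 < ((roughW F y M N).card : ℝ) := by
    have g3 := (abs_le.1 (cnt2 y hwy le_rfl)).1
    have g4 := (NV y hwy le_rfl).1
    have g5 : 2 * δ * (N * V F y) ≤ 1 / 2 * (N * V F y) := mul_le_mul_of_nonneg_right (by linarith) g4.le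
    linarith
  refine ⟨?_, ?_, ?_⟩
  · refine (cnt2 y hwy le_rfl).trans (mul_le_mul_of_nonneg_right (by linarith) (NV y hwy le_rfl).1.le)
  · intro z hwz hzy Φ hΦ
    refine (hcomp m hm le_rfl z hwz hzy Φ hΦ).trans ?_
    nlinarith
  · intro hcop a
    have key : ∀ t : ℕ, 0 < t → t < m → ‖∑ n ∈ roughW F y M N, ee ((t : ℝ) / m) ^ sd q n‖ ≤ ε * (roughW F y M N).card := by
      intro t ht0 htm
      set ζ := ee ((t : ℝ) / m) with hζ
      have hζn : ‖ζ‖ = 1 := norm_ee _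
      have hζ1 : ζ ^ (q - 1) ≠ 1 := zeta_ne q m t ht0 htm hcop
      have hsplit : Split T 1 (fun n => ζ ^ sd q n) := by rw [hT]; exact sd_rank q (by omega) ζ hζn _
      have k1 := hcomp 1 le_rfl hm w le_rfl hwy _ hsplit
      have k2 : ‖mean (roughW F w M N) (fun n => ζ ^ sd q n)‖ ≤ 2 * δ := by
        unfold mean
        rw [sum_roughW, norm_div, Complex.norm_natCast]
        have g3 := (abs_le.1 (cnt2 w le_rfl hwy)).1
        have hNV := (NV w le_rfl hwy).1
        have g4 : 2 * δ * (N * V F w) ≤ 1 / 2 * (N * V F w) := mul_le_mul_of_nonneg_right (by linarith) hNV.le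
        have hS' : (N * V F w) / 2 ≤ ((roughW F w M N).card : ℝ) := by linarith
        have hS0' : 0 < ((roughW F w M N).card : ℝ) := by linarith
        rw [div_le_iff₀ hS0']
        have h3 := h2 t (mem_filter.2 ⟨mem_range.2 htm, hζ1⟩) F M
        have h4 := (hV1 F hS w hwn1).1
        calc ‖∑ n ∈ Ico M (M + N), ζ ^ sd q n * (ind F w n : ℂ)‖ ≤ (δ * (1 / Real.log w ^ B)) * N := h3
          _ ≤ (δ * V F w) * N := by
              apply mul_le_mul_of_nonneg_right _ hN0.le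
              exact mul_le_mul_of_nonneg_left h4 hδ0.le
          _ = 2 * δ * ((N * V F w) / 2) := by ring
          _ ≤ _ := mul_le_mul_of_nonneg_left hS' (by positivity)
      have k3 : ‖mean (roughW F y M N) (fun n => ζ ^ sd q n)‖ ≤ ε := by
        calc ‖mean (roughW F y M N) (fun n => ζ ^ sd q n)‖ =
              ‖(mean (roughW F y M N) (fun n => ζ ^ sd q n) - mean (roughW F w M N) (fun n => ζ ^ sd q n)) + mean (roughW F w M N) (fun n => ζ ^ sd q n)‖ := by
              congr 1; ring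
          _ ≤ 9 * m * δ + 2 * δ := (norm_add_le _ _).trans (add_le_add k1 k2)
          _ ≤ ε := by nlinarith
      unfold mean at k3
      rw [norm_div, Complex.norm_natCast, div_le_iff₀ hS0] at k3
      exact k3
    have h3 := classes_of_sums (roughW F y M N) (sd q) m a hm ε hε.le key
    have e : (((roughW F y M N).filter (fun n => (Nat.digits q n).sum ≡ a [MOD m])).card : ℝ) / (roughW F y M N).card - 1 / m =
        ((((roughW F y M N).filter (fun n => sd q n ≡ a [MOD m])).card : ℝ) - (roughW F y M N).card / m) / (roughW F y M N).card := by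
      have hm0' : (m : ℝ) ≠ 0 := by positivity
      have hS0' := hS0.ne'
      unfold sd
      field_simp
    rw [e, abs_div, abs_of_pos hS0, div_le_iff₀ hS0]
    exact h3

end Pool.Agent.H31.GP
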