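import Pool.Agent.H31.GP.Taylor

set_option autoImplicit false

/-! # Mean values of functions of the digits along sifted sets in short intervals -/

namespace Pool.Agent.H31.GP

open Finset Filter Topology Polynomial Pool.Agent.H373R2.T7
open Pool.Agent.H31.MF (Prd mid mem_mid pz_split pz_disj)
open Pool.Agent.H31.DG (sum_blocks sd sd_add sd_rank S_bound block_bound sd_split)
open Pool.Agent.H807R2.Dav

open Classical in
/-- the integers `M ≤ n < M + N` for which all prime factors of `F (n)` are larger than `y` -/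
noncomputable def roughW (F : ℤ[X]) (y M N : ℕ) : Finset ℕ :=
  (Ico M (M + N)).filter (fun n => ∀ p : ℕ, p.Prime → RF F p n → y < p)

lemma mem_roughW {F : ℤ[X]} {y M N n : ℕ} : n ∈ roughW F y M N ↔ (M ≤ n ∧ n < M + N) ∧ ∀ p : ℕ, p.Prime → RF F p n → y < p := by
  classical
  unfold roughW
  rw [mem_filter, mem_Ico]

lemma roughW_tay (F : ℤ[X]) (y M N : ℕ) : roughW F y M N = (roughF (tay M F) y N).image (fun n => n + M) := by
  classical
  ext n
  rw [mem_roughW, mem_image]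
  unfold roughF
  constructor
  · rintro ⟨⟨h1, h2⟩, h3⟩
    refine ⟨n - M, ?_, by omega⟩
    rw [mem_filter, mem_range]
    refine ⟨by omega, fun p hp hR => h3 p hp ?_⟩
    rw [RF_tay] at hR
    rwa [Nat.sub_add_cancel h1] at hR
  · rintro ⟨k, hk, rfl⟩
    rw [mem_filter, mem_range] at hk
    refine ⟨⟨by omega, by omega⟩, fun p hp hR => hk.2 p hp ?_⟩
    rwa [RF_tay]

lemma card_W_tay (F : ℤ[X]) (y M N : ℕ) : (roughW F y M N).card = (roughF (tay M F) y N).card := by
  rw [roughW_tay]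
  exact card_image_of_injective _ (add_left_injective M)

lemma mean_W_tay (F : ℤ[X]) (y M N : ℕ) (g : ℕ → ℂ) : mean (roughW F y M N) g = mean (roughF (tay M F) y N) (fun n => g (n + M)) := by
  unfold mean
  rw [card_W_tay, roughW_tay, sum_image (fun a _ b _ h => add_left_injective M h)]

/-- neighbouring windows -/
lemma W_sdiff (F : ℤ[X]) (y M M' N : ℕ) : ((roughW F y M' N) \ (roughW F y M N)).card + ((roughW F y M N) \ (roughW F y M' N)).card ≤
    2 * ((M - M') + (M' - M)) := by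
  classical
  have key : ∀ a b : ℕ, ((roughW F y a N) \ (roughW F y b N)).card ≤ (b - a) + (a - b) := by
    intro a b
    have h1 : (roughW F y a N) \ (roughW F y b N) ⊆ Ico a b ∪ Ico (b + N) (a + N) := by
      intro n hn
      rw [Finset.mem_sdiff, mem_roughW, mem_roughW] at hn
      rw [mem_union, mem_Ico, mem_Ico]
      obtain ⟨⟨⟨h1, h2⟩, h3⟩, h4⟩ := hn
      by_contra h5
      push Not at h5
      apply h4
      refine ⟨⟨?_, ?_⟩, h3⟩
      · by_contra h6
        have := h5.1 h1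
        omega
      · by_contra h6
        have := h5.2 (by omega)
        omega
    refine (card_le_card h1).trans ((card_union_le _ _).trans ?_)
    rw [Nat.card_Ico, Nat.card_Ico]
    omega
  have h1 := key M' M
  have h2 := key M M'
  omega

/-- mean values over similar sets -/
lemma mean_near (S S' : Finset ℕ) (g : ℕ → ℂ) (m η : ℝ) (hm : 0 ≤ m) (hg : ∀ n, ‖g n‖ ≤ m)
    (h : (((S' \ S).card + (S \ S').card : ℕ) : ℝ) ≤ η * S'.card) (hη : η ≤ 1 / 2) (hS' : 0 < S'.card) :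
    ‖mean S g - mean S' g‖ ≤ 4 * m * η := by
  classical
  have hS0 : (0 : ℝ) < S'.card := by exact_mod_cast hS'
  have hc1 : (S'.card : ℝ) - S.card ≤ η * S'.card ∧ (S.card : ℝ) - S'.card ≤ η * S'.card := by
    have e1 : S'.card ≤ S.card + (S' \ S).card := by
      have := card_le_card_sdiff_add_card (s := S') (t := S)
      omega
    have e2 : S.card ≤ S'.card + (S \ S').card := by
      have := card_le_card_sdiff_add_card (s := S) (t := S')
      omega
    have e1' : (S'.card : ℝ) ≤ S.card + (S' \ S).card := by exact_mod_cast e1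
    have e2' : (S.card : ℝ) ≤ S'.card + (S \ S').card := by exact_mod_cast e2
    push_cast at h
    constructor
    · have : (0 : ℝ) ≤ (S \ S').card := Nat.cast_nonneg _
      linarith
    · have : (0 : ℝ) ≤ (S' \ S).card := Nat.cast_nonneg _
      linarith
  have hS2 : (S'.card : ℝ) / 2 ≤ S.card := by
    have : η * S'.card ≤ 1 / 2 * S'.card := mul_le_mul_of_nonneg_right hη hS0.le
    linarith [hc1.1]
  have hS1 : (0 : ℝ) < S.card := by linarith
  have e0 : ∑ n ∈ S, g n - ∑ n ∈ S', g n = ∑ n ∈ S \ S', g n - ∑ n ∈ S' \ S, g n := by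
    rw [← sum_sdiff_sub_sum_sdiff]
  have e1 : ‖∑ n ∈ S, g n - ∑ n ∈ S', g n‖ ≤ m * (η * S'.card) := by
    rw [e0]
    refine (norm_sub_le _ _).trans ?_
    have k1 : ‖∑ n ∈ S \ S', g n‖ ≤ m * (S \ S').card := by
      refine (norm_sum_le _ _).trans ((sum_le_sum fun n _ => hg n).trans ?_)
      rw [sum_const, nsmul_eq_mul, mul_comm]
    have k2 : ‖∑ n ∈ S' \ S, g n‖ ≤ m * (S' \ S).card := by
      refine (norm_sum_le _ _).trans ((sum_le_sum fun n _ => hg n).trans ?_)
      rw [sum_const, nsmul_eq_mul, mul_comm]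
    calc ‖∑ n ∈ S \ S', g n‖ + ‖∑ n ∈ S' \ S, g n‖ ≤ m * (S \ S').card + m * (S' \ S).card := add_le_add k1 k2
      _ = m * (((S' \ S).card + (S \ S').card : ℕ) : ℝ) := by push_cast; ring
      _ ≤ _ := mul_le_mul_of_nonneg_left h hm
  have e2 : ‖∑ n ∈ S', g n‖ ≤ m * S'.card := by
    refine (norm_sum_le _ _).trans ((sum_le_sum fun n _ => hg n).trans ?_)
    rw [sum_const, nsmul_eq_mul, mul_comm]
  unfold mean
  have hSn : ((S.card : ℝ) : ℂ) ≠ 0 := by exact_mod_cast hS1.ne'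
  have hSn' : ((S'.card : ℝ) : ℂ) ≠ 0 := by exact_mod_cast hS0.ne'
  have e3 : (∑ n ∈ S, g n) / (S.card : ℂ) - (∑ n ∈ S', g n) / (S'.card : ℂ) =
      (∑ n ∈ S, g n - ∑ n ∈ S', g n) / ((S.card : ℝ) : ℂ) + ((∑ n ∈ S', g n) / ((S'.card : ℝ) : ℂ)) * (((S'.card : ℝ) - S.card : ℝ) : ℂ) / ((S.card : ℝ) : ℂ) := by
    push_cast at hSn hSn' ⊢
    field_simp
    ring
  rw [e3]
  refine (norm_add_le _ _).trans ?_
  rw [norm_div, norm_div, norm_mul, norm_div, Complex.norm_real, Complex.norm_real, Complex.norm_real,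
    Real.norm_of_nonneg hS1.le, Real.norm_of_nonneg hS0.le, Real.norm_eq_abs]
  have k1 : ‖∑ n ∈ S, g n - ∑ n ∈ S', g n‖ / S.card ≤ 2 * m * η := by
    rw [div_le_iff₀ hS1]
    have hη0 : 0 ≤ η := by
      have : 0 ≤ η * S'.card := (Nat.cast_nonneg _).trans h
      by_contra h'
      push Not at h'
      have := mul_neg_of_neg_of_pos h' hS0
      linarith
    calc ‖∑ n ∈ S, g n - ∑ n ∈ S', g n‖ ≤ m * (η * S'.card) := e1
      _ = 2 * m * η * (S'.card / 2) := by ring
      _ ≤ _ := mul_le_mul_of_nonneg_left hS2 (by positivity)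
  have k2 : ‖∑ n ∈ S', g n‖ / S'.card * |(S'.card : ℝ) - S.card| / S.card ≤ 2 * m * η := by
    rw [div_le_iff₀ hS1]
    have hη0 : 0 ≤ η := by
      have : 0 ≤ η * S'.card := (Nat.cast_nonneg _).trans h
      by_contra h'
      push Not at h'
      have := mul_neg_of_neg_of_pos h' hS0
      linarith
    have h3 : |(S'.card : ℝ) - S.card| ≤ η * S'.card := by
      rw [abs_le]
      constructor
      · linarith [hc1.2]
      · exact hc1.1
    have h4 : ‖∑ n ∈ S', g n‖ / S'.card ≤ m := by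
      rw [div_le_iff₀ hS0]
      exact e2
    calc ‖∑ n ∈ S', g n‖ / S'.card * |(S'.card : ℝ) - S.card| ≤ m * (η * S'.card) := mul_le_mul h4 h3 (abs_nonneg _) hm
      _ = 2 * m * η * (S'.card / 2) := by ring
      _ ≤ _ := mul_le_mul_of_nonneg_left hS2 (by positivity)
  linarith

/-- **Gelfond**: the sum of digits on the residue classes, uniformly, in windows -/
theorem dig_classesW (q : ℕ) (hq : 2 ≤ q) (ζ : ℂ) (hζ : ‖ζ‖ = 1) (hζ1 : ζ ^ (q - 1) ≠ 1) (w : ℕ) (δ : ℝ) (hδ : 0 < δ) :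
    ∀ᶠ N : ℕ in atTop, ∀ F : ℤ[X], ∀ M : ℕ, ‖∑ n ∈ Ico M (M + N), ζ ^ sd q n * (ind F w n : ℂ)‖ ≤ δ * N := by
  classical
  set W := ∏ p ∈ pz w, p with hW
  have hW1 : 1 ≤ W := Nat.one_le_iff_ne_zero.2 (prod_ne_zero_iff.2 fun p hp => (mem_pz.1 hp).2.ne_zero)
  have hW0 : (0 : ℝ) < W := by exact_mod_cast hW1
  obtain ⟨κ, hκ0, hκ1, hκ⟩ := S_bound q hq ζ hζ hζ1 W hW1
  have hq0 : (0 : ℝ) < q := by exact_mod_cast (by omega : 0 < q)
  -- the choice of `k`
  obtain ⟨k, hk⟩ : ∃ k : ℕ, W * (κ / (q : ℝ) ^ 2) ^ k ≤ δ / 2 := by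
    have h1 : κ / (q : ℝ) ^ 2 < 1 := by rw [div_lt_one (by positivity)]; exact hκ1
    obtain ⟨k, hk⟩ := exists_pow_lt_of_lt_one (show 0 < δ / 2 / W by positivity) h1
    refine ⟨k, ?_⟩
    rw [lt_div_iff₀ hW0] at hk
    linarith
  obtain ⟨n0, hn0⟩ := exists_nat_ge (2 * ((2 + δ) * (q : ℝ) ^ (2 * k)) / δ)
  filter_upwards [eventually_ge_atTop n0] with N hN F M
  set T := q ^ (2 * k) with hT
  have hT1 : 1 ≤ T := Nat.one_le_pow _ _ (by omega)
  have hT0 : (0 : ℝ) < T := by exact_mod_cast hT1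
  set blk : ℕ → ℂ := fun b => ∑ a ∈ range T, ζ ^ sd q (a + T * b) * (ind F w (a + T * b) : ℂ) with hblk
  have hb : ∀ b, ‖blk b‖ ≤ W * κ ^ k := by
    intro b
    have e2 : blk b = ζ ^ sd q b * ∑ a ∈ range T, ζ ^ sd q a * (if Rgh F w (a + T * b) then 1 else 0) := by
      rw [hblk]
      simp only
      rw [mul_sum]
      apply sum_congr rfl
      intro a ha
      rw [mem_range] at ha
      rw [hT, sd_add q (by omega) (2 * k) a b ha, pow_add]
      unfold ind
      split_ifs <;> push_cast <;> ring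
    rw [e2, norm_mul, norm_pow, hζ, one_pow, one_mul]
    apply block_bound q hq ζ hζ W hW1 (2 * k) (κ ^ k) (hκ k) (fun a => Rgh F w (a + T * b))
    intro n
    have h2 := Rgh_modF F w (n + T * b)
    have h3 := Rgh_modF F w (n % W + T * b)
    rw [← hW] at h2 h3
    rw [Nat.mod_add_mod] at h3
    exact h2.trans h3.symm
  -- an initial segment
  have hX : ∀ X : ℕ, ‖∑ n ∈ range X, ζ ^ sd q n * (ind F w n : ℂ) - ∑ b ∈ range (X / T), blk b‖ ≤ T := by
    intro X
    have hR : X = T * (X / T) + X % T := (Nat.div_add_mod X T).symm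
    have hRT : X % T < T := Nat.mod_lt _ (by omega)
    have e1 : ∑ n ∈ range X, ζ ^ sd q n * (ind F w n : ℂ) =
        (∑ b ∈ range (X / T), blk b) +
        ∑ x ∈ range (X % T), ζ ^ sd q (T * (X / T) + x) * (ind F w (T * (X / T) + x) : ℂ) := by
      conv_lhs => rw [hR]
      rw [sum_range_add, sum_blocks]
    rw [e1, add_sub_cancel_left]
    refine (norm_sum_le _ _).trans ?_
    calc ∑ x ∈ range (X % T), ‖ζ ^ sd q (T * (X / T) + x) * (ind F w (T * (X / T) + x) : ℂ)‖
        ≤ ∑ _x ∈ range (X % T), (1 : ℝ) := by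
          apply sum_le_sum
          intro x _
          rw [norm_mul, norm_pow, hζ, one_pow, one_mul, Complex.norm_real, Real.norm_eq_abs, abs_of_nonneg (ind_nonneg _ _ _)]
          exact ind_le_one _ _ _
      _ = ((X % T : ℕ) : ℝ) := by rw [sum_const, card_range, nsmul_eq_mul, mul_one]
      _ ≤ T := by exact_mod_cast hRT.le
  have h1 := hX M
  have h2 := hX (M + N)
  have hle : M / T ≤ (M + N) / T := Nat.div_le_div_right (by omega)
  have e3 : ∑ n ∈ Ico M (M + N), ζ ^ sd q n * (ind F w n : ℂ) =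
      ((∑ n ∈ range (M + N), ζ ^ sd q n * (ind F w n : ℂ) - ∑ b ∈ range ((M + N) / T), blk b) -
      (∑ n ∈ range M, ζ ^ sd q n * (ind F w n : ℂ) - ∑ b ∈ range (M / T), blk b)) + ∑ b ∈ Ico (M / T) ((M + N) / T), blk b := by
    rw [sum_Ico_eq_sub _ (by omega : M ≤ M + N), sum_Ico_eq_sub _ hle]
    ring
  rw [e3]
  have h3 : ‖∑ b ∈ Ico (M / T) ((M + N) / T), blk b‖ ≤ (N / T + 1 : ℝ) * (W * κ ^ k) := by
    refine (norm_sum_le _ _).trans ?_
    calc ∑ b ∈ Ico (M / T) ((M + N) / T), ‖blk b‖ ≤ ∑ _b ∈ Ico (M / T) ((M + N) / T), (W * κ ^ k : ℝ) := sum_le_sum fun b _ => hb b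
      _ = (((M + N) / T - M / T : ℕ) : ℝ) * (W * κ ^ k) := by rw [sum_const, Nat.card_Ico, nsmul_eq_mul]
      _ ≤ _ := by
          apply mul_le_mul_of_nonneg_right _ (by positivity)
          have : (M + N) / T ≤ M / T + N / T + 1 := by
            rw [Nat.add_div (by omega)]
            split_ifs <;> omega
          have h4 : (M + N) / T - M / T ≤ N / T + 1 := by omega
          calc (((M + N) / T - M / T : ℕ) : ℝ) ≤ ((N / T + 1 : ℕ) : ℝ) := by exact_mod_cast h4
            _ = ((N / T : ℕ) : ℝ) + 1 := by push_cast; ring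
            _ ≤ N / T + 1 := by
                have : ((N / T : ℕ) : ℝ) ≤ (N : ℝ) / T := Nat.cast_div_le
                linarith
  have h5 : (N / T + 1 : ℝ) * (W * κ ^ k) ≤ (N + T) * (δ / 2) := by
    have e5 : (N / T + 1 : ℝ) * (W * κ ^ k) = (N + T) * (W * (κ / (q : ℝ) ^ 2) ^ k) := by
      rw [hT, div_pow, ← pow_mul]
      push_cast
      have : ((q : ℝ) ^ (2 * k)) ≠ 0 := by positivity
      field_simp
    rw [e5]
    exact mul_le_mul_of_nonneg_left hk (by positivity)
  have h6 : 2 * ((2 + δ) * (T : ℝ)) ≤ δ * N := by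
    have h7 : 2 * ((2 + δ) * (q : ℝ) ^ (2 * k)) / δ ≤ N := hn0.trans (by exact_mod_cast hN)
    rw [div_le_iff₀ hδ] at h7
    rw [hT]
    push_cast
    linarith
  refine (norm_add_le _ _).trans ((add_le_add ((norm_sub_le _ _).trans (add_le_add h2 h1)) (h3.trans h5)).trans ?_)
  have : 0 < δ * T := by positivity
  linarith

end Pool.Agent.H31.GP
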