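import Pool.Agent.H31.GP.Tuples

set_option autoImplicit false

/-! # The digits of almost prime pairs with a given sum -/

namespace Pool.Agent.H31.GP

open Finset Filter Topology Polynomial Pool.Agent.H373R2.T7

/-- a reflection doubles the rank at most -/
lemma split_sub {T m : ℕ} (hT : 1 ≤ T) {g : ℕ → ℂ} (h1 : Split T m g) (K : ℕ) :
    ∃ Ψ : ℕ → ℂ, Split T (2 * m) Ψ ∧ ∀ n, n ≤ K → Ψ n = g (K - n) := by
  classical
  obtain ⟨G, H, a1, a2, a3⟩ := h1
  set bo : ℕ → ℕ := fun a => if a ≤ K % T then 0 else 1 with hbo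
  set Ψ : ℕ → ℂ := fun n => ∑ i, G i (K % T + bo (n % T) * T - n % T) * H i (K / T - n / T - bo (n % T)) with hΨ
  refine ⟨Ψ, ?_, ?_⟩
  · refine ⟨fun i a => if ((finProdFinEquiv.symm i).1 : ℕ) = bo a then G (finProdFinEquiv.symm i).2 (K % T + bo a * T - a) else 0,
      fun i b => H (finProdFinEquiv.symm i).2 (K / T - b - ((finProdFinEquiv.symm i).1 : ℕ)), fun i n => ?_, fun i n => ?_, fun n => ?_⟩
    · simp only
      split_ifs
      · exact a1 _ _
      · simp
    · exact a2 _ _
    · simp only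
      rw [hΨ]
      rw [← finProdFinEquiv.sum_comp]
      simp only [Equiv.symm_apply_apply]
      rw [Fintype.sum_prod_type]
      have hc : bo (n % T) < 2 := by
        rw [hbo]
        simp only
        split_ifs <;> norm_num
      rw [sum_eq_single (⟨bo (n % T), hc⟩ : Fin 2)]
      · apply sum_congr rfl
        intro i _
        rw [if_pos rfl]
      · intro c _ hc'
        apply sum_eq_zero
        intro i _
        rw [if_neg, zero_mul]
        intro h2
        exact hc' (Fin.ext h2)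
      · intro h2
        exact absurd (mem_univ _) h2
  · intro n hn
    rw [hΨ]
    simp only
    rw [a3]
    have k1 := Nat.div_add_mod n T
    have k2 := Nat.div_add_mod K T
    have k3 := Nat.mod_lt n (show 0 < T by omega)
    have k4 := Nat.mod_lt K (show 0 < T by omega)
    set a := n % T with ha
    set b := n / T with hb
    set K0 := K % T with hK0
    set K1 := K / T with hK1
    have e : K - n = (K0 + bo a * T - a) + T * (K1 - b - bo a) ∧ K0 + bo a * T - a < T := by
      rw [hbo]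
      simp only
      split_ifs with h
      · have h5 : b ≤ K1 := Nat.div_le_div_right hn
        obtain ⟨d, hd⟩ : ∃ d, K1 = b + d := ⟨K1 - b, by omega⟩
        rw [hd, Nat.mul_add] at k2
        rw [hd]
        have : b + d - b - 0 = d := by omega
        rw [this]
        constructor <;> omega
      · have h5 : b < K1 := by
          by_contra h6
          push Not at h6
          have h7 : T * K1 ≤ T * b := Nat.mul_le_mul_left _ h6
          omega
        obtain ⟨d, hd⟩ : ∃ d, K1 = b + 1 + d := ⟨K1 - b - 1, by omega⟩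
        rw [hd, Nat.mul_add, Nat.mul_add, Nat.mul_one] at k2
        rw [hd]
        have : b + 1 + d - b - 1 = d := by omega
        rw [this]
        constructor <;> omega
    have e1 : (K - n) % T = K0 + bo a * T - a := by
      rw [e.1, Nat.add_mul_mod_self_left, Nat.mod_eq_of_lt e.2]
    have e2 : (K - n) / T = K1 - b - bo a := by
      rw [e.1, Nat.add_mul_div_left _ _ (by omega), Nat.div_eq_of_lt e.2, zero_add]
    rw [e1, e2]

/-- the polynomial `X (K - X)` -/
noncomputable def PK (K : ℕ) : ℤ[X] := X * (C (K : ℤ) - X)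

lemma RF_PK (K n p : ℕ) (hp : p.Prime) (hn : n ≤ K) : RF (PK K) p n ↔ p ∣ n ∨ p ∣ K - n := by
  unfold RF PK
  rw [eval_mul, eval_sub, eval_X, eval_C, (Nat.prime_iff_prime_int.1 hp).dvd_mul, ← Nat.cast_sub hn, Int.natCast_dvd_natCast,
    Int.natCast_dvd_natCast]

lemma PK_deg (K : ℕ) : (PK K).natDegree ≤ 2 := by
  unfold PK
  refine (natDegree_mul_le).trans ?_
  rw [natDegree_X]
  have : (C (K : ℤ) - X).natDegree ≤ 1 := by
    refine (natDegree_sub_le _ _).trans ?_
    rw [natDegree_C, natDegree_X]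
    simp
  omega

lemma PK_sys (K : ℕ) (hK : Even K) : Sys (PK K) 2 := by
  refine ⟨PK_deg K, fun p hp => ?_⟩
  by_contra h
  push Not at h
  have h1 := h 1
  have h2 := h 2
  unfold RF PK at h1 h2
  rw [eval_mul, eval_sub, eval_X, eval_C] at h1 h2
  rw [(Nat.prime_iff_prime_int.1 hp).dvd_mul] at h1 h2
  have hp1 : ¬ (p : ℤ) ∣ ((1 : ℕ) : ℤ) := by
    intro h3
    have := Int.natCast_dvd_natCast.1 h3
    exact hp.one_lt.ne' (Nat.dvd_one.1 this)
  have h1' := h1.resolve_left hp1
  obtain ⟨c, hc⟩ := hK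
  rcases h2 with h2 | h2
  · have h3 : p ∣ 2 := Int.natCast_dvd_natCast.1 h2
    have h4 : p = 2 := (Nat.prime_dvd_prime_iff_eq hp Nat.prime_two).1 h3
    subst h4
    have h5 : (2 : ℤ) ∣ (K : ℤ) - 1 := by exact_mod_cast h1'
    omega
  · have h3 := dvd_sub h1' h2
    have h4 : (K : ℤ) - ((1 : ℕ) : ℤ) - ((K : ℤ) - ((2 : ℕ) : ℤ)) = ((1 : ℕ) : ℤ) := by push_cast; ring
    rw [h4] at h3
    exact hp1 h3

lemma PK_coeff (K i : ℕ) : |(PK K).coeff i| ≤ (K : ℤ) + 1 := by
  unfold PK
  cases i with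
  | zero => rw [coeff_X_mul_zero, abs_zero]; positivity
  | succ i =>
    rw [coeff_X_mul, coeff_sub, coeff_C, coeff_X]
    refine (abs_sub _ _).trans ?_
    have h1 : |if i = 0 then (K : ℤ) else 0| ≤ K := by
      split_ifs
      · rw [Nat.abs_cast]
      · simp
    have h2 : |if 1 = i then (1 : ℤ) else 0| ≤ 1 := by split_ifs <;> simp
    linarith

/-- the reflected window -/
lemma PK_reflect (K y M N : ℕ) (hM : M + N ≤ K + 1) : (roughW (PK K) y M N).image (fun n => K - n) = roughW (PK K) y (K + 1 - (M + N)) N := by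
  classical
  ext n
  rw [mem_image, mem_roughW]
  constructor
  · rintro ⟨m, hm, rfl⟩
    rw [mem_roughW] at hm
    have hmK : m ≤ K := by omega
    refine ⟨by omega, fun p hp hR => hm.2 p hp ?_⟩
    rw [RF_PK K _ p hp (Nat.sub_le _ _), Nat.sub_sub_self hmK] at hR
    rw [RF_PK K _ p hp hmK]
    exact hR.symm
  · rintro ⟨h1, h2⟩
    have hnK : n ≤ K := by omega
    refine ⟨K - n, ?_, Nat.sub_sub_self hnK⟩
    rw [mem_roughW]
    refine ⟨by omega, fun p hp hR => h2 p hp ?_⟩
    rw [RF_PK K _ p hp (Nat.sub_le _ _), Nat.sub_sub_self hnK] at hR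
    rw [RF_PK K _ p hp hnK]
    exact hR.symm

/-- **The digits of almost prime pairs with a given sum, in short intervals** -/
theorem goldWin (q m A : ℕ) (hq : 2 ≤ q) (hm : 1 ≤ m) (ε : ℝ) (hε : 0 < ε) : ∃ w r : ℕ, 3 ≤ w ∧ ∀ᶠ N : ℕ in atTop,
    ∀ K : ℕ, Even K → K ≤ N ^ A → ∀ M : ℕ, M + N ≤ K + 1 → ∀ y : ℕ, w ≤ y → y ^ r ≤ N →
      |((roughW (PK K) y M N).card : ℝ) - N * V (PK K) y| ≤ ε * (N * V (PK K) y) ∧
      (∀ z : ℕ, w ≤ z → z ≤ y → ∀ f g : ℕ → ℂ, Split (q ^ Nat.log q (Nat.sqrt N)) m f → Split (q ^ Nat.log q (Nat.sqrt N)) m g →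
        ‖mean (roughW (PK K) y M N) (fun n => f n * g (K - n)) - mean (roughW (PK K) z M N) (fun n => f n * g (K - n))‖ ≤ ε) ∧
      (m.Coprime (q - 1) → ∀ a : ℕ,
        |(((roughW (PK K) y M N).filter (fun n => (Nat.digits q n).sum ≡ a [MOD m])).card : ℝ) / (roughW (PK K) y M N).card - 1 / m| ≤ ε ∧
        |(((roughW (PK K) y M N).filter (fun n => (Nat.digits q (K - n)).sum ≡ a [MOD m])).card : ℝ) / (roughW (PK K) y M N).card - 1 / m| ≤ ε) := by
  classical
  obtain ⟨w1, r1, hw1, h1⟩ := digitWin q (m * (2 * m)) 2 (A + 1) hq (Nat.mul_pos hm (by omega)) (by norm_num) ε hε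
  obtain ⟨w2, r2, hw2, h2⟩ := digitWin q m 2 (A + 1) hq hm (by norm_num) ε hε
  refine ⟨max w1 w2, max r1 r2, le_max_of_le_left hw1, ?_⟩
  filter_upwards [h1, h2, eventually_ge_atTop 2] with N h1 h2 hN K hK hKA M hM y hwy hyr
  have hy1 : w1 ≤ y := (le_max_left _ _).trans hwy
  have hy2 : w2 ≤ y := (le_max_right _ _).trans hwy
  have hr1 : y ^ r1 ≤ N := (Nat.pow_le_pow_right (by omega) (le_max_left _ _)).trans hyr
  have hr2 : y ^ r2 ≤ N := (Nat.pow_le_pow_right (by omega) (le_max_right _ _)).trans hyr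
  have hK1 : K + 1 ≤ N ^ (A + 1) := by
    have e1 : 1 ≤ N ^ A := Nat.one_le_pow _ _ (by omega)
    have e2 : N ^ A * 2 ≤ N ^ A * N := Nat.mul_le_mul_left _ hN
    have e3 : N ^ (A + 1) = N ^ A * N := pow_succ _ _
    omega
  have hc : ∀ i, |(PK K).coeff i| ≤ (N : ℤ) ^ (A + 1) := fun i => (PK_coeff K i).trans (by exact_mod_cast hK1)
  have a1 := h1 (PK K) (PK_sys K hK) hc M (by omega) y hy1 hr1
  refine ⟨a1.1, ?_, ?_⟩
  · intro z hwz hzy f g hf hg
    obtain ⟨Ψ, hΨ, hΨ2⟩ := split_sub (Nat.one_le_pow _ _ (by omega)) hg K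
    have a2 := a1.2.1 z ((le_max_left _ _).trans hwz) hzy (fun n => f n * Ψ n) (split_mul hf hΨ)
    have e : ∀ z, mean (roughW (PK K) z M N) (fun n => f n * Ψ n) = mean (roughW (PK K) z M N) (fun n => f n * g (K - n)) := by
      intro z
      unfold mean
      congr 1
      apply sum_congr rfl
      intro n hn
      rw [mem_roughW] at hn
      simp only
      rw [hΨ2 n (by omega)]
    rw [e, e] at a2
    exact a2
  · intro hcop a
    refine ⟨(h2 (PK K) (PK_sys K hK) hc M (by omega) y hy2 hr2).2.2 hcop a, ?_⟩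
    have a3 := (h2 (PK K) (PK_sys K hK) hc (K + 1 - (M + N)) (by omega) y hy2 hr2).2.2 hcop a
    rw [← PK_reflect K y M N hM] at a3
    have hinj : Set.InjOn (fun n => K - n) (roughW (PK K) y M N : Set ℕ) := by
      intro a ha b hb hab
      rw [mem_coe, mem_roughW] at ha hb
      simp only at hab
      omega
    rw [card_image_of_injOn hinj, filter_image, card_image_of_injOn (hinj.mono (by
      intro x hx
      rw [mem_coe, mem_filter] at hx
      exact hx.1))] at a3
    exact a3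

end Pool.Agent.H31.GP
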