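import Pool.Agent.H31.GP.ShiftMain
import Pool.Agent.H31.MF.Fin

set_option autoImplicit false

/-! # The bilinear estimate for one dyadic block of primes, for general polynomials -/

namespace Pool.Agent.H31.GP

open Finset Filter Topology Polynomial Pool.Agent.H373R2.T7
open Pool.Agent.H31.MF (Prd mid mem_mid pz_split pz_disj PJ mem_PJ bt1 PJ_card cauchy_expand big_quot card_pf_le)
open Pool.Agent.H31.DG (cnt0)

lemma RF_mul (F : ℤ[X]) (l n : ℕ) (h : l ∣ n) : RF F l n ↔ RF F l 0 := by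
  rw [RF_mod F l n, Nat.mod_eq_zero_of_dvd h]

open Classical in
/-- the primes of a dyadic block which do not divide `F (0)` -/
noncomputable def PJF (F : ℤ[X]) (j : ℕ) : Finset ℕ := (PJ j).filter (fun a => ¬ RF F a 0)

lemma mem_PJF {F : ℤ[X]} {j a : ℕ} : a ∈ PJF F j ↔ a ∈ PJ j ∧ ¬ RF F a 0 := by
  classical
  unfold PJF
  rw [mem_filter]

lemma okay_prime {F : ℤ[X]} {a : ℕ} (ha : a.Prime) (h : ¬ RF F a 0) : Okay F a a := by
  intro p hp hpa
  have := (Nat.prime_dvd_prime_iff_eq hp ha).1 hpa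
  subst this
  rwa [RF_mul F p p dvd_rfl]

lemma good_prime {F : ℤ[X]} {a w : ℕ} (ha : a.Prime) (h : ¬ RF F a 0) (hw : w < a) : Good F w a a := by
  refine ⟨okay_prime ha h, fun p hp hpa => ?_⟩
  rw [(Nat.prime_dvd_prime_iff_eq hp ha).1 hpa]
  exact hw

/-- the classes of the bad pairs -/
lemma classK : ∃ C : ℝ, 0 < C ∧ ∀ (F : ℤ[X]) (D : ℕ), Sys F D → ∀ j l a : ℕ, 2 ≤ j → l.Prime → l * l ≤ 2 ^ j → a ∈ PJ j → ¬ RF F l 0 →
    ∀ K : Finset ℕ, K ⊆ PJ j → (∀ c ∈ K, BadF F a a c c l) → (K.card : ℝ) ≤ (D : ℝ) ^ 2 * (C * 2 ^ j / j) / l := by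
  classical
  obtain ⟨C, hC, h1⟩ := bt1
  refine ⟨C, hC, fun F D hS j l a hj hl hlj ha h0 K hK hb => ?_⟩
  have hl2 := hl.two_le
  have hl0 : (0 : ℝ) < l := by exact_mod_cast hl.pos
  have hj0 : (0 : ℝ) < j := by exact_mod_cast (by omega : 0 < j)
  have hlj' : l < 2 ^ j := by nlinarith
  set Z := ZF F 1 0 l with hZ
  have hZc : Z.card ≤ D := Z_le_D hS hl
  have hsub : K ⊆ (Z ×ˢ Z).biUnion (fun x => (PJ j).filter (fun c => c * x.1 ≡ a * x.2 [MOD l] ∧ ¬ l ∣ x.1)) := by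
    intro c hc
    have hcP := mem_PJ.1 (hK hc)
    have haP := mem_PJ.1 ha
    rw [mem_biUnion]
    rcases hb c hc with h | h | ⟨n, h2, h3⟩
    · have := (Nat.prime_dvd_prime_iff_eq hl haP.1).1 h
      omega
    · have := (Nat.prime_dvd_prime_iff_eq hl hcP.1).1 h
      omega
    · refine ⟨((a * n + a) % l, (c * n + c) % l), ?_, ?_⟩
      · rw [mem_product, hZ, mem_ZF, mem_ZF]
        simp only [one_mul, add_zero]
        exact ⟨⟨Nat.mod_lt _ hl.pos, (RF_mod F l _).1 h2⟩, ⟨Nat.mod_lt _ hl.pos, (RF_mod F l _).1 h3⟩⟩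
      · rw [mem_filter]
        refine ⟨hK hc, ?_, ?_⟩
        · simp only
          have e1 : c * ((a * n + a) % l) ≡ c * (a * n + a) [MOD l] := (Nat.mod_modEq _ _).mul_left c
          have e2 : a * ((c * n + c) % l) ≡ a * (c * n + c) [MOD l] := (Nat.mod_modEq _ _).mul_left a
          have e3 : c * (a * n + a) = a * (c * n + c) := by ring
          rw [e3] at e1
          exact e1.trans e2.symm
        · simp only
          intro h4
          have h5 : l ∣ a * n + a := (Nat.dvd_mod_iff dvd_rfl).1 h4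
          exact h0 ((RF_mul F l _ h5).1 h2)
  have h2 : ∀ x ∈ Z ×ˢ Z, (((PJ j).filter (fun c => c * x.1 ≡ a * x.2 [MOD l] ∧ ¬ l ∣ x.1)).card : ℝ) ≤ C * 2 ^ j / (l * j) := by
    intro x _
    rcases ((PJ j).filter (fun c => c * x.1 ≡ a * x.2 [MOD l] ∧ ¬ l ∣ x.1)).eq_empty_or_nonempty with h | ⟨c0, hc0⟩
    · rw [h, card_empty, Nat.cast_zero]
      positivity
    · rw [mem_filter] at hc0
      refine le_trans ?_ (h1 j hj l (Or.inr hl) hlj c0)
      have : (PJ j).filter (fun c => c * x.1 ≡ a * x.2 [MOD l] ∧ ¬ l ∣ x.1) ⊆ (PJ j).filter (fun c => c ≡ c0 [MOD l]) := by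
        intro c hc
        rw [mem_filter] at hc ⊢
        refine ⟨hc.1, ?_⟩
        have h3 : c * x.1 ≡ c0 * x.1 [MOD l] := hc.2.1.trans hc0.2.1.symm
        exact Nat.ModEq.cancel_right_of_coprime ((Nat.Prime.coprime_iff_not_dvd hl).2 hc.2.2) h3
      exact_mod_cast card_le_card this
  have h3 : K.card ≤ ∑ x ∈ Z ×ˢ Z, ((PJ j).filter (fun c => c * x.1 ≡ a * x.2 [MOD l] ∧ ¬ l ∣ x.1)).card :=
    (card_le_card hsub).trans card_biUnion_le
  calc (K.card : ℝ) ≤ ∑ x ∈ Z ×ˢ Z, (((PJ j).filter (fun c => c * x.1 ≡ a * x.2 [MOD l] ∧ ¬ l ∣ x.1)).card : ℝ) := by exact_mod_cast h3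
    _ ≤ ∑ _x ∈ Z ×ˢ Z, C * 2 ^ j / (l * j) := sum_le_sum h2
    _ = ((Z.card : ℝ) * Z.card) * (C * 2 ^ j / (l * j)) := by rw [sum_const, card_product, nsmul_eq_mul]; push_cast; ring
    _ ≤ ((D : ℝ) * D) * (C * 2 ^ j / (l * j)) := by
        apply mul_le_mul_of_nonneg_right _ (by positivity)
        have : (Z.card : ℝ) ≤ D := by exact_mod_cast hZc
        exact mul_le_mul this this (Nat.cast_nonneg _) (Nat.cast_nonneg _)
    _ = _ := by field_simp

/-- the number of the bad primes -/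
lemma bad_card {F : ℤ[X]} {D : ℕ} (hS : Sys F D) {a c : ℕ} (ha : a.Prime) (hc : c.Prime) (hR : RD F a c ≠ 0) (K : Finset ℕ)
    (hK : ∀ l ∈ K, l.Prime ∧ BadF F a a c c l) : K.card ≤ 2 + Nat.log 2 (RD F a c).natAbs := by
  classical
  have hsub : K ⊆ {a, c} ∪ (RD F a c).natAbs.primeFactors := by
    intro l hl
    obtain ⟨h1, h2⟩ := hK l hl
    rw [mem_union, mem_insert, mem_singleton]
    rcases h2 with h | h | ⟨n, h2, h3⟩
    · exact Or.inl (Or.inl ((Nat.prime_dvd_prime_iff_eq h1 ha).1 h))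
    · exact Or.inl (Or.inr ((Nat.prime_dvd_prime_iff_eq h1 hc).1 h))
    · right
      rw [Nat.mem_primeFactors]
      exact ⟨h1, by rw [← Int.natCast_dvd]; exact dvd_RD hS h1 ha.one_lt.le h2 h3, Int.natAbs_ne_zero.2 hR⟩
  refine (card_le_card hsub).trans ((card_union_le _ _).trans ?_)
  apply Nat.add_le_add
  · exact card_le_two
  · exact card_pf_le _ (Int.natAbs_ne_zero.2 hR)

open Classical in
/-- the bad primes which do not divide `F (0)` -/
noncomputable def SK (F : ℤ[X]) (w y a c : ℕ) : Finset ℕ := (mid w y).filter (fun l => BadF F a a c c l ∧ ¬ RF F l 0)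

open Classical in
noncomputable def h00 (F : ℤ[X]) (D w y : ℕ) : ℝ := ∑ l ∈ (mid w y).filter (fun l => RF F l 0), (4 * D : ℝ) / (l : ℝ)

lemma hF_le (F : ℤ[X]) (D w y a c : ℕ) : hF F D a a c c w y ≤ h00 F D w y + ∑ l ∈ SK F w y a c, (4 * D : ℝ) / (l : ℝ) := by
  classical
  unfold hF h00 SK
  rw [← sum_union]
  · apply sum_le_sum_of_subset_of_nonneg
    · intro l hl
      rw [mem_filter] at hl
      rw [mem_union, mem_filter, mem_filter]
      by_cases h : RF F l 0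
      · exact Or.inl ⟨hl.1, h⟩
      · exact Or.inr ⟨hl.1, hl.2, h⟩
    · intro _ _ _; positivity
  · rw [disjoint_left]
    intro l hl hl'
    rw [mem_filter] at hl hl'
    exact hl'.2.2 hl.2

lemma avgK (D A : ℕ) (hD : 1 ≤ D) : ∃ C : ℝ, 0 < C ∧ ∀ (F : ℤ[X]), Sys F D → ∀ (j w y N : ℕ), (∀ i, |F.coeff i| ≤ (N : ℤ) ^ A) →
    2 ≤ j → 1 ≤ w → 2 ^ (j + 1) ≤ N →
    ∑ a ∈ PJF F j, ∑ c ∈ (PJF F j).filter (fun c => RD F a c ≠ 0), (Real.exp (∑ l ∈ SK F w y a c, (4 * D : ℝ) / (l : ℝ)) - 1) ≤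
      C * (2 ^ j / j) ^ 2 * (1 / Real.sqrt w + ((Nat.log 2 N : ℝ) + 1) / Real.sqrt ((2 ^ (j / 2) : ℕ) : ℝ)) := by
  classical
  obtain ⟨C0, hC0, havg⟩ := avgA (4 * D) (by omega)
  obtain ⟨C1, hC1, hcl⟩ := classK
  obtain ⟨C2, hC2, hcard⟩ := PJ_card
  set C3 : ℝ := (((2 * D).factorial + 2 * D * (A + D) + 1 : ℕ) : ℝ) + 2 with hC3
  have hC30 : 0 < C3 := by positivity
  refine ⟨C0 * (C2 * D ^ 2 * C1 + C2 ^ 2 * C3), by positivity, fun F hS j w y N hH hj hw hN => ?_⟩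
  have hj0 : (0 : ℝ) < j := by exact_mod_cast (by omega : 0 < j)
  set X : ℝ := 2 ^ j / j with hX
  have hX0 : 0 < X := by positivity
  set L : ℝ := (Nat.log 2 N : ℝ) + 1 with hL
  have hL1 : 1 ≤ L := by rw [hL]; have : (0 : ℝ) ≤ Nat.log 2 N := Nat.cast_nonneg _; linarith
  have hN1 : 1 ≤ N := le_trans Nat.one_le_two_pow hN
  have h := havg (PJF F j) (fun a => (PJF F j).filter (fun c => RD F a c ≠ 0)) (fun a c l => BadF F a a c c l ∧ ¬ RF F l 0) w y
    (2 ^ (j / 2)) (D ^ 2 * (C1 * 2 ^ j / j)) (C3 * L) hw Nat.one_le_two_pow (by positivity) (by positivity)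
    (fun a _ => filter_subset _ _) (by
      intro a ha l hl K hK hb
      rw [mem_mid] at hl
      rcases K.eq_empty_or_nonempty with hK0 | ⟨c, hc⟩
      · rw [hK0, card_empty, Nat.cast_zero]
        positivity
      · apply hcl F D hS j l a hj hl.1 _ (mem_PJF.1 ha).1 (hb c hc).2 K (fun c hc => (mem_PJF.1 (mem_filter.1 (hK hc)).1).1)
          (fun c hc => (hb c hc).1)
        calc l * l ≤ 2 ^ (j / 2) * 2 ^ (j / 2) := Nat.mul_le_mul hl.2.2 hl.2.2
          _ = 2 ^ (j / 2 + j / 2) := by rw [pow_add]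
          _ ≤ 2 ^ j := Nat.pow_le_pow_right (by norm_num) (by omega)) (by
      intro a ha c hc K hK
      rw [mem_filter] at hc
      have haP := mem_PJ.1 (mem_PJF.1 ha).1
      have hcP := mem_PJ.1 (mem_PJF.1 hc.1).1
      have h1 := bad_card hS haP.1 hcP.1 hc.2 K (fun l hl => ⟨(hK l hl).1, (hK l hl).2.2.1⟩)
      have h2 := RD_log F D N A hS.deg hN1 hH a c haP.1.one_lt.le hcP.1.one_lt.le (haP.2.2.trans hN) (hcP.2.2.trans hN)
      have h3 : (K.card : ℝ) ≤ 2 + (((2 * D).factorial + 2 * D * (A + D) + 1 : ℕ) : ℝ) * L := by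
        rw [hL]
        exact_mod_cast h1.trans (Nat.add_le_add_left h2 2)
      rw [hC3]
      nlinarith)
    (fun a c => SK F w y a c) (by
      intro a _ c _ l hl
      unfold SK at hl
      rw [mem_filter, mem_mid] at hl
      exact ⟨hl.1.1, hl.1.2.1, hl.1.2.2, hl.2⟩)
  have e1 : ∀ a c : ℕ, ∑ l ∈ SK F w y a c, (4 * D : ℝ) / (l : ℝ) = ∑ l ∈ SK F w y a c, ((4 * D : ℕ) : ℝ) / (l : ℝ) := by
    intro a c
    push_cast
    rfl
  simp only [e1]
  refine h.trans ?_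
  have hI : ((PJF F j).card : ℝ) ≤ C2 * X := by
    have h1 : ((PJF F j).card : ℝ) ≤ ((PJ j).card : ℝ) := by exact_mod_cast card_le_card (filter_subset _ _)
    refine h1.trans ((hcard j hj).trans (le_of_eq ?_))
    rw [hX]; ring
  have hI0 : (0 : ℝ) ≤ (PJF F j).card := Nat.cast_nonneg _
  set s : ℝ := 1 / Real.sqrt w with hs
  have hs0 : 0 ≤ s := by positivity
  set t : ℝ := Real.sqrt ((2 ^ (j / 2) : ℕ) : ℝ) with ht
  have ht0 : 0 < t := Real.sqrt_pos.2 (by positivity)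
  have e2 : (D : ℝ) ^ 2 * (C1 * 2 ^ j / j) = D ^ 2 * C1 * X := by rw [hX]; ring
  rw [e2]
  have k1 : ((PJF F j).card : ℝ) * (D ^ 2 * C1 * X) * s ≤ (C2 * X) * (D ^ 2 * C1 * X) * s := by
    apply mul_le_mul_of_nonneg_right _ hs0
    exact mul_le_mul_of_nonneg_right hI (by positivity)
  have k2 : ((PJF F j).card : ℝ) ^ 2 * (C3 * L / t) ≤ (C2 * X) ^ 2 * (C3 * L / t) := by
    apply mul_le_mul_of_nonneg_right _ (by positivity)
    exact pow_le_pow_left₀ hI0 hI 2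
  calc C0 * (((PJF F j).card : ℝ) * (D ^ 2 * C1 * X) * s + ((PJF F j).card : ℝ) ^ 2 * (C3 * L / t))
      ≤ C0 * ((C2 * X) * (D ^ 2 * C1 * X) * s + (C2 * X) ^ 2 * (C3 * L / t)) := by
        apply mul_le_mul_of_nonneg_left (add_le_add k1 k2) hC0.le
    _ ≤ C0 * (C2 * D ^ 2 * C1 + C2 ^ 2 * C3) * X ^ 2 * (s + L / t) := by
        have m1 : 0 ≤ C0 * (C2 * D ^ 2 * C1) * X ^ 2 * (L / t) := by positivity
        have m2 : 0 ≤ C0 * (C2 ^ 2 * C3) * X ^ 2 * s := by positivity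
        have e3 : C0 * ((C2 * X) * (D ^ 2 * C1 * X) * s + (C2 * X) ^ 2 * (C3 * L / t)) =
            C0 * (C2 * D ^ 2 * C1) * X ^ 2 * s + C0 * (C2 ^ 2 * C3) * X ^ 2 * (L / t) := by ring
        rw [e3]
        have e4 : C0 * (C2 * D ^ 2 * C1 + C2 ^ 2 * C3) * X ^ 2 * (s + L / t) = C0 * (C2 * D ^ 2 * C1) * X ^ 2 * s + C0 * (C2 ^ 2 * C3) * X ^ 2 * (L / t) +
          (C0 * (C2 * D ^ 2 * C1) * X ^ 2 * (L / t) + C0 * (C2 ^ 2 * C3) * X ^ 2 * s) := by ring
        rw [e4]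
        linarith

end Pool.Agent.H31.GP
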