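import Pool.Agent.H31.GP.Kat

set_option autoImplicit false

/-! # The bilinear estimate for one dyadic block of primes, for general polynomials -/

namespace Pool.Agent.H31.GP

open Finset Filter Topology Polynomial Pool.Agent.H373R2.T7
open Pool.Agent.H31.MF (Prd mid mem_mid pz_split pz_disj PJ mem_PJ bt1 PJ_card cauchy_expand big_quot card_pf_le prime_filter_card)
open Pool.Agent.H31.DG (cnt0)

lemma sum_Icc_range {β : Type*} [AddCommMonoid β] (M : ℕ) (f : ℕ → β) : ∑ m ∈ Icc 1 M, f m = ∑ m ∈ range M, f (m + 1) := by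
  have e : Icc 1 M = Ico 1 (M + 1) := by
    ext m
    rw [mem_Icc, mem_Ico]
    omega
  rw [e, sum_Ico_eq_sum_range, Nat.add_sub_cancel]
  apply sum_congr rfl
  intro m _
  rw [add_comm]

lemma kappa_prime {F : ℤ[X]} {D : ℕ} (hS : Sys F D) {a w : ℕ} (ha : a.Prime) (h : ¬ RF F a 0) (hwD : 2 * D ≤ w) (hw : w < a) (z : ℕ) :
    ∏ p ∈ pz z, (1 - ((ZF F a a p).card : ℝ) / p) ≤ 3 * V F z := by
  have h1 := (prd1F hS (okay_prime ha h) z a (by omega) ha.one_lt.le (fun p hp hpa => by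
    rw [(Nat.prime_dvd_prime_iff_eq hp ha).1 hpa]) 1 (prime_filter_card a z ha)).2
  refine h1.trans ?_
  rw [mul_comm]
  apply mul_le_mul_of_nonneg_right _ (V_pos hS z).le
  have ha0 : (0 : ℝ) < a := by exact_mod_cast ha.pos
  have h2 : Real.exp (2 * D * ((1 : ℕ) : ℝ) / a) ≤ Real.exp 1 := by
    apply Real.exp_le_exp.2
    rw [div_le_one ha0]
    have : (2 * D : ℝ) ≤ a := by exact_mod_cast (by omega : 2 * D ≤ a)
    push_cast
    linarith
  have := Real.exp_one_lt_d9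
  linarith

/-- **one block** -/
theorem blockKF (D A : ℕ) (hD : 1 ≤ D) : ∃ C : ℝ, 0 < C ∧ ∀ (F : ℤ[X]), Sys F D → F.eval 0 ≠ 0 → ∀ (j w y N : ℕ) (ε h0 : ℝ),
    (∀ i, |F.coeff i| ≤ (N : ℤ) ^ A) → 2 ≤ j → 1 ≤ w → 2 * D ≤ w → w ≤ y → w < 2 ^ j → 16 ≤ N → (2 ^ (j + 1)) ^ 4 ≤ N →
    1 / (y : ℝ) ≤ V F y → 0 ≤ ε → ε ≤ 1 → FLD D N y ε → h00 F D w y ≤ h0 → h0 ≤ 1 → ∀ g : ℕ → ℂ, (∀ n, ‖g n‖ ≤ 1) →
    ‖∑ a ∈ PJF F j, ∑ m ∈ Icc 1 (N / a), g a * g m * (ff F w y (a * m) : ℂ)‖ ^ 2 ≤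
      (N * vv F w y / j) ^ 2 * (C * V F w * (1 / Real.sqrt w + ε + h0 + ((Nat.log 2 N : ℝ) + 1) / Real.sqrt ((2 ^ (j / 2) : ℕ) : ℝ) +
        j / (2 ^ j * vv F w y))) := by
  classical
  obtain ⟨C1, hC1, h1⟩ := avgK D A hD
  obtain ⟨C2, hC2, h2⟩ := PJ_card
  have hDr : (1 : ℝ) ≤ D := by exact_mod_cast hD
  refine ⟨C2 ^ 2 * (4 * D ^ 2 + 26) + 18 * C1 + 14 * D ^ 2 * C2, by positivity,
    fun F hS hF0 j w y N ε h0 hH hj hw hwD hwy hwj hN hjN hV hε0 hε1 hy hh0 hh01 g hg => ?_⟩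
  set v := vv F w y with hv
  have hv0 : 0 < v := vv_pos hS w y
  have hVw := V_pos hS w
  have hVy := V_pos hS y
  have h00' : 0 ≤ h00 F D w y := by
    unfold h00
    exact sum_nonneg fun _ _ => by positivity
  have h0' : 0 ≤ h0 := h00'.trans hh0
  set S := Icc 1 (N / 2 ^ j) with hSd
  have h2j : 0 < 2 ^ j := by positivity
  have hN1 : 1 ≤ N := by omega
  have hjN1 : 2 ^ (j + 1) ≤ N := le_trans (by
    calc 2 ^ (j + 1) = (2 ^ (j + 1)) ^ 1 := (pow_one _).symm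
      _ ≤ (2 ^ (j + 1)) ^ 4 := Nat.pow_le_pow_right (by positivity) (by norm_num)) hjN
  -- rewriting the sum
  have e1 : ∑ a ∈ PJF F j, ∑ m ∈ Icc 1 (N / a), g a * g m * (ff F w y (a * m) : ℂ) =
      ∑ m ∈ S, g m * ∑ a ∈ PJF F j, (if a * m ≤ N then g a * (ff F w y (a * m) : ℂ) else 0) := by
    simp only [mul_sum]
    rw [sum_comm]
    apply sum_congr rfl
    intro a ha
    have haP := mem_PJ.1 (mem_PJF.1 ha).1
    have ha0 : 0 < a := haP.1.pos
    have e2 : Icc 1 (N / a) = S.filter (fun m => a * m ≤ N) := by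
      ext m
      rw [mem_filter, hSd, mem_Icc, mem_Icc, Nat.le_div_iff_mul_le ha0, Nat.le_div_iff_mul_le h2j]
      constructor
      · rintro ⟨h3, h4⟩
        have h5 : m * 2 ^ j ≤ m * a := Nat.mul_le_mul_left m haP.2.1.le
        refine ⟨⟨h3, by omega⟩, by rw [mul_comm]; exact h4⟩
      · rintro ⟨⟨h3, h4⟩, h5⟩
        exact ⟨h3, by rw [mul_comm]; exact h5⟩
    rw [e2, sum_filter]
    apply sum_congr rfl
    intro m _
    split_ifs
    · ring
    · simp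
  rw [e1]
  refine (cauchy_expand (PJF F j) S N g hg (ff F w y) g hg).trans ?_
  have hScard : (S.card : ℝ) ≤ N / 2 ^ j := by
    rw [hSd, Nat.card_Icc, Nat.add_sub_cancel]
    have := @Nat.cast_div_le ℝ _ _ _ N (2 ^ j)
    push_cast at this
    exact this
  have hN0 : (0 : ℝ) ≤ N := Nat.cast_nonneg _
  -- the inner sums
  have hfil : ∀ a ∈ PJF F j, ∀ b ∈ PJF F j, S.filter (fun m => a * m ≤ N ∧ b * m ≤ N) = Icc 1 (N / max a b) := by
    intro a ha b hb
    have haP := mem_PJ.1 (mem_PJF.1 ha).1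
    have hbP := mem_PJ.1 (mem_PJF.1 hb).1
    have hab0 : 0 < max a b := lt_of_lt_of_le haP.1.pos (le_max_left _ _)
    ext m
    rw [mem_filter, hSd, mem_Icc, mem_Icc, Nat.le_div_iff_mul_le hab0, Nat.le_div_iff_mul_le h2j]
    constructor
    · rintro ⟨⟨h3, h4⟩, h5, h6⟩
      refine ⟨h3, ?_⟩
      rcases le_total a b with h | h
      · rw [max_eq_right h, mul_comm]; exact h6
      · rw [max_eq_left h, mul_comm]; exact h5
    · rintro ⟨h3, h4⟩
      have h5 : m * a ≤ m * max a b := Nat.mul_le_mul_left m (le_max_left _ _)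
      have h6 : m * b ≤ m * max a b := Nat.mul_le_mul_left m (le_max_right _ _)
      have h7 : m * 2 ^ j ≤ m * a := Nat.mul_le_mul_left m haP.2.1.le
      refine ⟨⟨h3, by omega⟩, by rw [mul_comm]; omega, by rw [mul_comm]; omega⟩
  have hM4 : ∀ a ∈ PJF F j, ∀ b ∈ PJF F j, N ≤ (N / max a b) ^ 4 := by
    intro a ha b hb
    have haP := mem_PJ.1 (mem_PJF.1 ha).1
    have hbP := mem_PJ.1 (mem_PJF.1 hb).1
    apply big_quot N _ hN (le_trans haP.1.one_lt.le (le_max_left _ _))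
    exact (Nat.pow_le_pow_left (max_le haP.2.2 hbP.2.2) 4).trans hjN
  have hMle : ∀ a ∈ PJF F j, ∀ b ∈ PJF F j, ((N / max a b : ℕ) : ℝ) ≤ N / 2 ^ j := by
    intro a ha b hb
    have haP := mem_PJ.1 (mem_PJF.1 ha).1
    have h3 := @Nat.cast_div_le ℝ _ _ _ N (max a b)
    refine h3.trans ?_
    apply div_le_div_of_nonneg_left hN0 (by positivity)
    exact_mod_cast haP.2.1.le.trans (le_max_left _ _)
  have hj0 : (0 : ℝ) < j := by exact_mod_cast (by omega : 0 < j)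
  have hcard := h2 j hj
  set s : ℝ := 1 / Real.sqrt w with hs
  have hs0 : 0 ≤ s := by positivity
  set E : ℝ := ((Nat.log 2 N : ℝ) + 1) / Real.sqrt ((2 ^ (j / 2) : ℕ) : ℝ) with hE
  have hE0 : 0 ≤ E := by positivity
  set X : ℝ := 2 ^ j / j with hX
  have hX0 : 0 < X := by positivity
  have havg : ∑ a ∈ PJF F j, ∑ c ∈ (PJF F j).filter (fun c => RD F a c ≠ 0), (Real.exp (∑ l ∈ SK F w y a c, (4 * D : ℝ) / (l : ℝ)) - 1) ≤
      C1 * X ^ 2 * (s + E) := h1 F hS j w y N hH hj hw hjN1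
  have hc' : ((PJF F j).card : ℝ) ≤ C2 * X := by
    have h3 : ((PJF F j).card : ℝ) ≤ ((PJ j).card : ℝ) := by exact_mod_cast card_le_card (filter_subset _ _)
    refine h3.trans (hcard.trans (le_of_eq ?_))
    rw [hX]; ring
  have hc0 : (0 : ℝ) ≤ (PJF F j).card := Nat.cast_nonneg _
  have hw1 : (1 : ℝ) ≤ w := by exact_mod_cast hw
  have hww : 4 * (D : ℝ) ^ 2 / (w : ℝ) ≤ 4 * D ^ 2 * s := by
    rw [hs, mul_one_div]
    apply div_le_div_of_nonneg_left (by positivity) (Real.sqrt_pos.2 (by linarith))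
    rw [Real.sqrt_le_left (by linarith)]
    nlinarith
  -- off-diagonal
  have hoff : ∀ a ∈ PJF F j, ∀ c ∈ (PJF F j).filter (fun c => RD F a c ≠ 0),
      |∑ m ∈ S.filter (fun m => a * m ≤ N ∧ c * m ≤ N), ff F w y (a * m) * ff F w y (c * m)| ≤
        (N / 2 ^ j) * V F w * v ^ 2 * ((4 * D ^ 2 * s + 8 * ε + 18 * h0) + 18 * (Real.exp (∑ l ∈ SK F w y a c, (4 * D : ℝ) / (l : ℝ)) - 1)) := by
    intro a ha c hc
    rw [mem_filter] at hc
    rw [hfil a ha c hc.1, sum_Icc_range]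
    have haF := mem_PJF.1 ha
    have hcF := mem_PJF.1 hc.1
    have haP := mem_PJ.1 haF.1
    have hcP := mem_PJ.1 hcF.1
    have h3 := pairF hS (good_prime haP.1 haF.2 (by omega : w < a)) (okay_prime hcP.1 hcF.2) y (N / max a c) hw hwD hwy hV ε hε0
      (fun Q hQ => hy Q hQ _ (hM4 a ha c hc.1))
    simp only [Nat.mul_add, Nat.mul_one]
    refine h3.trans ?_
    have hh : 0 ≤ ∑ l ∈ SK F w y a c, (4 * D : ℝ) / (l : ℝ) := sum_nonneg fun _ _ => by positivity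
    have h4 := exp_split (h00 F D w y) (∑ l ∈ SK F w y a c, (4 * D : ℝ) / (l : ℝ)) (hF F D a a c c w y) (hF_le F D w y a c) h00'
      (hh0.trans hh01) hh
    have h5 : 0 ≤ Real.exp (hF F D a a c c w y) - 1 := by
      have := Real.one_le_exp (hF_nonneg F D a a c c w y)
      linarith
    have h6 : (2 + 4 * ε) * (Real.exp (hF F D a a c c w y) - 1) ≤ 6 * (Real.exp (hF F D a a c c w y) - 1) :=
      mul_le_mul_of_nonneg_right (by linarith) h5
    have k2 : 0 ≤ 4 * (D : ℝ) ^ 2 / (w : ℝ) + (2 + 4 * ε) * (Real.exp (hF F D a a c c w y) - 1) + 8 * ε := by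
      have : 0 ≤ (2 + 4 * ε) * (Real.exp (hF F D a a c c w y) - 1) := mul_nonneg (by positivity) h5
      positivity
    have k3 : ((N / max a c : ℕ) : ℝ) * V F w * v ^ 2 ≤ (N / 2 ^ j) * V F w * v ^ 2 := by
      apply mul_le_mul_of_nonneg_right _ (by positivity)
      exact mul_le_mul_of_nonneg_right (hMle a ha c hc.1) hVw.le
    exact mul_le_mul k3 (by linarith) k2 (by positivity)
  -- diagonal
  have hsq : ∀ a ∈ PJF F j, ∀ c ∈ PJF F j, ∑ m ∈ range (N / max a c), ff F w y (a * m + a) ^ 2 ≤ 14 * ((N / 2 ^ j) * V F y) := by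
    intro a ha c hc
    have haF := mem_PJF.1 ha
    have haP := mem_PJ.1 haF.1
    have h3 := sqF hS (okay_prime haP.1 haF.2) (N / max a c) hwy (by omega) hV 3 (kappa_prime hS haP.1 haF.2 hwD (by omega : w < a)) ε hε1
      (fun Q hQ => hy Q hQ _ (hM4 a ha c hc))
    refine h3.trans ?_
    have h4 : ((N / max a c : ℕ) : ℝ) * V F y ≤ (N / 2 ^ j) * V F y := mul_le_mul_of_nonneg_right (hMle a ha c hc) hVy.le
    linarith
  have hdiag : ∀ a ∈ PJF F j, ∀ c ∈ PJF F j, |∑ m ∈ S.filter (fun m => a * m ≤ N ∧ c * m ≤ N), ff F w y (a * m) * ff F w y (c * m)| ≤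
      14 * ((N / 2 ^ j) * V F y) := by
    intro a ha c hc
    rw [hfil a ha c hc, sum_Icc_range]
    simp only [Nat.mul_add, Nat.mul_one]
    apply abs_sum_mul_le
    · exact hsq a ha c hc
    · have := hsq c hc a ha
      rw [max_comm] at this
      exact this
  have hUc : ∀ a ∈ PJF F j, (((PJF F j).filter (fun c => ¬ RD F a c ≠ 0)).card : ℝ) ≤ D ^ 2 := by
    intro a ha
    have haP := mem_PJ.1 (mem_PJF.1 ha).1
    have h3 := RD_zero hF0 a haP.1.one_lt.le ((PJF F j).filter (fun c => ¬ RD F a c ≠ 0)) (by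
      intro c hc
      rw [mem_filter] at hc
      exact not_not.1 hc.2)
    exact_mod_cast h3.trans (Nat.pow_le_pow_left hS.deg 2)
  -- the total
  have htot : ∑ a ∈ PJF F j, ∑ c ∈ PJF F j, |∑ m ∈ S.filter (fun m => a * m ≤ N ∧ c * m ≤ N), ff F w y (a * m) * ff F w y (c * m)| ≤
      (N / 2 ^ j) * V F w * v ^ 2 * X ^ 2 * ((C2 ^ 2 * (4 * D ^ 2 + 26) + 18 * C1 + 14 * D ^ 2 * C2) * (s + ε + h0 + E + j / (2 ^ j * v))) := by
    have e2 : ∀ a ∈ PJF F j, ∑ c ∈ PJF F j, |∑ m ∈ S.filter (fun m => a * m ≤ N ∧ c * m ≤ N), ff F w y (a * m) * ff F w y (c * m)| =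
        ∑ c ∈ (PJF F j).filter (fun c => RD F a c ≠ 0), |∑ m ∈ S.filter (fun m => a * m ≤ N ∧ c * m ≤ N), ff F w y (a * m) * ff F w y (c * m)| +
        ∑ c ∈ (PJF F j).filter (fun c => ¬ RD F a c ≠ 0), |∑ m ∈ S.filter (fun m => a * m ≤ N ∧ c * m ≤ N), ff F w y (a * m) * ff F w y (c * m)| :=
      fun a _ => (sum_filter_add_sum_filter_not _ _ _).symm
    rw [sum_congr rfl e2, sum_add_distrib]
    have k1 : ∑ a ∈ PJF F j, ∑ c ∈ (PJF F j).filter (fun c => RD F a c ≠ 0), |∑ m ∈ S.filter (fun m => a * m ≤ N ∧ c * m ≤ N), ff F w y (a * m) * ff F w y (c * m)| ≤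
        (N / 2 ^ j) * V F w * v ^ 2 * ((C2 * X) * (C2 * X) * (4 * D ^ 2 * s + 8 * ε + 18 * h0) + 18 * (C1 * X ^ 2 * (s + E))) := by
      calc _ ≤ ∑ a ∈ PJF F j, ∑ c ∈ (PJF F j).filter (fun c => RD F a c ≠ 0), ((N / 2 ^ j) * V F w * v ^ 2) *
              ((4 * D ^ 2 * s + 8 * ε + 18 * h0) + 18 * (Real.exp (∑ l ∈ SK F w y a c, (4 * D : ℝ) / (l : ℝ)) - 1)) := by
            apply sum_le_sum
            intro a ha
            apply sum_le_sum
            intro c hc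
            exact hoff a ha c hc
        _ = ((N / 2 ^ j) * V F w * v ^ 2) * (∑ a ∈ PJF F j, ∑ _c ∈ (PJF F j).filter (fun c => RD F a c ≠ 0), (4 * D ^ 2 * s + 8 * ε + 18 * h0) +
            18 * ∑ a ∈ PJF F j, ∑ c ∈ (PJF F j).filter (fun c => RD F a c ≠ 0), (Real.exp (∑ l ∈ SK F w y a c, (4 * D : ℝ) / (l : ℝ)) - 1)) := by
            simp only [← mul_sum, sum_add_distrib]
        _ ≤ _ := by
            apply mul_le_mul_of_nonneg_left _ (by positivity)
            apply add_le_add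
            · calc ∑ a ∈ PJF F j, ∑ _c ∈ (PJF F j).filter (fun c => RD F a c ≠ 0), (4 * (D : ℝ) ^ 2 * s + 8 * ε + 18 * h0)
                  ≤ ∑ _a ∈ PJF F j, ∑ _c ∈ PJF F j, (4 * (D : ℝ) ^ 2 * s + 8 * ε + 18 * h0) := by
                    apply sum_le_sum
                    intro a _
                    apply sum_le_sum_of_subset_of_nonneg (filter_subset _ _)
                    intro _ _ _; positivity
                _ = ((PJF F j).card : ℝ) * ((PJF F j).card : ℝ) * (4 * (D : ℝ) ^ 2 * s + 8 * ε + 18 * h0) := by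
                    simp only [sum_const, nsmul_eq_mul]; ring
                _ ≤ _ := by
                    apply mul_le_mul_of_nonneg_right _ (by positivity)
                    exact mul_le_mul hc' hc' hc0 (by positivity)
            · exact mul_le_mul_of_nonneg_left havg (by norm_num)
    have k2 : ∑ a ∈ PJF F j, ∑ c ∈ (PJF F j).filter (fun c => ¬ RD F a c ≠ 0), |∑ m ∈ S.filter (fun m => a * m ≤ N ∧ c * m ≤ N), ff F w y (a * m) * ff F w y (c * m)| ≤
        (N / 2 ^ j) * V F w * v ^ 2 * X ^ 2 * (14 * D ^ 2 * C2 * (j / (2 ^ j * v))) := by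
      calc _ ≤ ∑ a ∈ PJF F j, ∑ _c ∈ (PJF F j).filter (fun c => ¬ RD F a c ≠ 0), 14 * (((N : ℝ) / 2 ^ j) * V F y) := by
            apply sum_le_sum
            intro a ha
            apply sum_le_sum
            intro c hc
            exact hdiag a ha c (mem_filter.1 hc).1
        _ = ∑ a ∈ PJF F j, (((PJF F j).filter (fun c => ¬ RD F a c ≠ 0)).card : ℝ) * (14 * (((N : ℝ) / 2 ^ j) * V F y)) := by
            apply sum_congr rfl
            intro a _
            rw [sum_const, nsmul_eq_mul]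
        _ ≤ ∑ _a ∈ PJF F j, (D : ℝ) ^ 2 * (14 * (((N : ℝ) / 2 ^ j) * V F y)) := by
            apply sum_le_sum
            intro a ha
            exact mul_le_mul_of_nonneg_right (hUc a ha) (by positivity)
        _ = ((PJF F j).card : ℝ) * ((D : ℝ) ^ 2 * (14 * (((N : ℝ) / 2 ^ j) * V F y))) := by rw [sum_const, nsmul_eq_mul]
        _ ≤ (C2 * X) * ((D : ℝ) ^ 2 * (14 * (((N : ℝ) / 2 ^ j) * V F y))) := mul_le_mul_of_nonneg_right hc' (by positivity)
        _ = (N / 2 ^ j) * V F w * v ^ 2 * X ^ 2 * (14 * D ^ 2 * C2 * (j / (2 ^ j * v))) := by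
            rw [V_split F hwy, ← hv, hX]
            field_simp
    refine (add_le_add k1 k2).trans ?_
    set q : ℝ := (j : ℝ) / (2 ^ j * v) with hq
    have hq0 : 0 ≤ q := by positivity
    have e3 : (N / 2 ^ j) * V F w * v ^ 2 * ((C2 * X) * (C2 * X) * (4 * D ^ 2 * s + 8 * ε + 18 * h0) + 18 * (C1 * X ^ 2 * (s + E))) +
        (N / 2 ^ j) * V F w * v ^ 2 * X ^ 2 * (14 * D ^ 2 * C2 * q) =
      (N / 2 ^ j) * V F w * v ^ 2 * X ^ 2 * (C2 ^ 2 * (4 * D ^ 2 * s + 8 * ε + 18 * h0) + 18 * C1 * (s + E) + 14 * D ^ 2 * C2 * q) := by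
      ring
    rw [e3]
    apply mul_le_mul_of_nonneg_left _ (by positivity)
    have m1 : C2 ^ 2 * (4 * D ^ 2 * s + 8 * ε + 18 * h0) ≤ C2 ^ 2 * (4 * D ^ 2 + 26) * (s + ε + h0) := by
      calc C2 ^ 2 * (4 * D ^ 2 * s + 8 * ε + 18 * h0) ≤ C2 ^ 2 * ((4 * D ^ 2 + 26) * (s + ε + h0)) := by
            apply mul_le_mul_of_nonneg_left _ (by positivity)
            have m2 : 0 ≤ 4 * (D : ℝ) ^ 2 * (ε + h0) := by positivity
            nlinarith
        _ = _ := by ring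
    have m2 : 0 ≤ C2 ^ 2 * (4 * D ^ 2 + 26) * (E + q) := by positivity
    have m3 : 0 ≤ C1 * (ε + h0 + q) := by positivity
    have m4 : 0 ≤ D ^ 2 * C2 * (s + ε + h0 + E) := by positivity
    have e4 : (C2 ^ 2 * (4 * D ^ 2 + 26) + 18 * C1 + 14 * D ^ 2 * C2) * (s + ε + h0 + E + q) =
        C2 ^ 2 * (4 * D ^ 2 + 26) * (s + ε + h0) + C2 ^ 2 * (4 * D ^ 2 + 26) * (E + q) + 18 * C1 * (s + E) + 18 * (C1 * (ε + h0 + q)) +
        14 * D ^ 2 * C2 * q + 14 * (D ^ 2 * C2 * (s + ε + h0 + E)) := by ring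
    rw [e4]
    linarith
  calc (S.card : ℝ) * ∑ a ∈ PJF F j, ∑ b ∈ PJF F j, |∑ m ∈ S.filter (fun m => a * m ≤ N ∧ b * m ≤ N), ff F w y (a * m) * ff F w y (b * m)|
      ≤ (N / 2 ^ j) * ((N / 2 ^ j) * V F w * v ^ 2 * X ^ 2 * ((C2 ^ 2 * (4 * D ^ 2 + 26) + 18 * C1 + 14 * D ^ 2 * C2) * (s + ε + h0 + E + j / (2 ^ j * v)))) := by
        apply mul_le_mul hScard htot (sum_nonneg fun _ _ => sum_nonneg fun _ _ => abs_nonneg _) (by positivity)
    _ = _ := by
        rw [hX]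
        field_simp

end Pool.Agent.H31.GP
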