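import Pool.Agent.H31.GP.MultExc

set_option autoImplicit false

/-! # Products of linear factors with large constant terms -/

namespace Pool.Agent.H31.GP

open Finset Filter Topology Polynomial Pool.Agent.H373R2.T7

/-- the product of the `X + c i` -/
noncomputable def PL {ι : Type*} (s : Finset ι) (c : ι → ℤ) : ℤ[X] := ∏ i ∈ s, (X + C (c i))

lemma PL_eval {ι : Type*} (s : Finset ι) (c : ι → ℤ) (m : ℤ) : (PL s c).eval m = ∏ i ∈ s, (m + c i) := by
  unfold PL
  rw [eval_prod]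
  simp only [eval_add, eval_X, eval_C]

lemma dvd_PL {ι : Type*} (s : Finset ι) (c : ι → ℤ) (p : ℕ) (hp : p.Prime) (m : ℤ) :
    (p : ℤ) ∣ (PL s c).eval m ↔ ∃ i ∈ s, (p : ℤ) ∣ m + c i := by
  rw [PL_eval, Prime.dvd_finsetProd_iff (Nat.prime_iff_prime_int.1 hp)]

lemma PL_deg {ι : Type*} (s : Finset ι) (c : ι → ℤ) : (PL s c).natDegree ≤ s.card := by
  unfold PL
  refine (natDegree_prod_le _ _).trans ?_
  calc ∑ i ∈ s, (X + C (c i)).natDegree ≤ ∑ _i ∈ s, 1 := by
        apply sum_le_sum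
        intro i _
        rw [natDegree_X_add_C]
    _ = s.card := by simp

lemma PL_sys {ι : Type*} (s : Finset ι) (c : ι → ℤ) (t : ℕ) (ht : s.card ≤ t)
    (hH : ∀ p : ℕ, p.Prime → ∃ n : ℕ, ∀ i ∈ s, ¬ (p : ℤ) ∣ (n : ℤ) + c i) : Sys (PL s c) t := by
  refine ⟨(PL_deg s c).trans ht, fun p hp => ?_⟩
  obtain ⟨n, hn⟩ := hH p hp
  refine ⟨n, fun h => ?_⟩
  unfold RF at h
  rw [dvd_PL s c p hp] at h
  obtain ⟨i, hi, h1⟩ := h
  exact hn i hi h1

lemma PL_coeff {ι : Type*} (s : Finset ι) (c : ι → ℤ) (L : ℤ) (hL0 : 0 ≤ L) (hL : ∀ i ∈ s, |c i| ≤ L) (j : ℕ) :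
    |(PL s c).coeff j| ≤ (L + 1) ^ s.card := by
  classical
  unfold PL
  induction s using Finset.induction_on generalizing j with
  | empty =>
    simp only [prod_empty, card_empty, pow_zero, coeff_one]
    split_ifs <;> simp
  | insert a t ha ih =>
    have iht := fun j => ih (fun h hh => hL h (mem_insert_of_mem hh)) j
    rw [prod_insert ha, card_insert_of_notMem ha, add_mul, coeff_add, coeff_C_mul]
    have h1 : |(X * ∏ i ∈ t, (X + C (c i))).coeff j| ≤ (L + 1) ^ t.card := by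
      cases j with
      | zero => rw [coeff_X_mul_zero, abs_zero]; positivity
      | succ j => rw [coeff_X_mul]; exact iht j
    have h2 : |c a| ≤ L := hL a (mem_insert_self _ _)
    refine (abs_add_le _ _).trans ?_
    rw [abs_mul]
    calc |(X * ∏ i ∈ t, (X + C (c i))).coeff j| + |c a| * |(∏ i ∈ t, (X + C (c i))).coeff j|
        ≤ (L + 1) ^ t.card + L * (L + 1) ^ t.card :=
          add_le_add h1 (mul_le_mul h2 (iht j) (abs_nonneg _) hL0)
      _ = _ := by ring

end Pool.Agent.H31.GP
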