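import Pool.Agent.H31.GP.MultShift

set_option autoImplicit false

/-! # Multiplicative functions near the rough values of a polynomial: mean values -/

namespace Pool.Agent.H31.GP

open Finset Filter Topology Polynomial Pool.Agent.H373R2.T7
open Pool.Agent.H31.MF (Prd mid mem_mid pz_split pz_disj class_sum_le liou_classes)
open Pool.Agent.H31.DG (cnt0)

open Classical in
/-- the integers `n` of `I` for which all prime factors of `F (n)` are larger than `y` -/
noncomputable def roughI (F : ℤ[X]) (y : ℕ) (I : Finset ℕ) : Finset ℕ := I.filter (fun n => ∀ p : ℕ, p.Prime → RF F p n → y < p)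

lemma sum_roughI (F : ℤ[X]) (y : ℕ) (I : Finset ℕ) (g : ℕ → ℂ) : ∑ n ∈ roughI F y I, g n = ∑ n ∈ I, g n * (ind F y n : ℂ) := by
  classical
  unfold roughI ind
  rw [sum_filter]
  apply sum_congr rfl
  intro n _
  simp only [rough_iff]
  split_ifs <;> simp

lemma card_roughI (F : ℤ[X]) (y : ℕ) (I : Finset ℕ) : ((roughI F y I).card : ℝ) = ∑ n ∈ I, ind F y n := by
  classical
  unfold roughI ind
  rw [card_filter]
  push_cast
  apply sum_congr rfl
  intro n _
  simp only [rough_iff]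

lemma mean_closeI {F : ℤ[X]} {D : ℕ} (hSy : Sys F D) (I : Finset ℕ) (w y : ℕ) (N : ℝ) (hN0 : 0 < N) (hwy : w ≤ y) (δ δ' : ℝ) (hδ1 : δ ≤ 1 / 2) (g : ℕ → ℂ) (m : ℝ) (hm : 1 ≤ m) (hg : ∀ n, ‖g n‖ ≤ m)
    (h1 : ‖∑ n ∈ I, g n * (ff F w y n : ℂ)‖ ≤ δ' * (N * V F y))
    (h2 : |∑ n ∈ I, ind F y n - N * V F y| ≤ δ * (N * V F y))
    (h3 : |∑ n ∈ I, ind F w n - N * V F w| ≤ δ * (N * V F w)) :
    ‖mean (roughI F y I) g - mean (roughI F w I) g‖ ≤ 2 * δ' + 4 * m * δ := by
  have hv := vv_pos hSy w y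
  have hVy := V_pos hSy y
  have hVw := V_pos hSy w
  rw [← card_roughI] at h2 h3
  unfold mean
  set A : ℝ := N * V F y with hA
  set B : ℝ := N * V F w with hB
  have hA0 : 0 < A := by positivity
  have hB0 : 0 < B := by positivity
  have hAB : A = vv F w y * B := by rw [hA, hB, V_split F hwy]; ring
  set R : ℝ := ((roughI F y I).card : ℝ) with hR
  set S : ℝ := ((roughI F w I).card : ℝ) with hS
  have e0 : ∑ n ∈ I, g n * (ff F w y n : ℂ) = ∑ n ∈ roughI F y I, g n - (vv F w y : ℂ) * ∑ n ∈ roughI F w I, g n := by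
    rw [sum_roughI, sum_roughI, mul_sum, ← sum_sub_distrib]
    apply sum_congr rfl
    intro n _
    unfold ff
    push_cast
    ring
  rw [e0] at h1
  have hGw : ‖∑ n ∈ roughI F w I, g n‖ ≤ m * S := by
    refine (norm_sum_le _ _).trans ((sum_le_sum fun n _ => hg n).trans ?_)
    rw [sum_const, nsmul_eq_mul, mul_comm]
  obtain ⟨h2a, h2b⟩ := abs_le.1 h2
  obtain ⟨h3a, h3b⟩ := abs_le.1 h3
  have hδA : δ * A ≤ 1 / 2 * A := mul_le_mul_of_nonneg_right hδ1 hA0.le
  have hδB : δ * B ≤ 1 / 2 * B := mul_le_mul_of_nonneg_right hδ1 hB0.le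
  have hR1 : A / 2 ≤ R := by linarith
  have hS1 : B / 2 ≤ S := by linarith
  have hR0 : 0 < R := by linarith
  have hS0 : 0 < S := by linarith
  set G := ∑ n ∈ roughI F y I, g n
  set H := ∑ n ∈ roughI F w I, g n
  have hRc : ((roughI F y I).card : ℂ) = (R : ℂ) := by rw [hR]; push_cast; rfl
  have hSc : ((roughI F w I).card : ℂ) = (S : ℂ) := by rw [hS]; push_cast; rfl
  rw [hRc, hSc]
  have hRn : (R : ℂ) ≠ 0 := by exact_mod_cast hR0.ne'
  have hSn : (S : ℂ) ≠ 0 := by exact_mod_cast hS0.ne'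
  have e1 : G / (R : ℂ) - H / (S : ℂ) = (G - (vv F w y : ℂ) * H) / (R : ℂ) + (H / (S : ℂ)) * (((vv F w y * S - R) / R : ℝ) : ℂ) := by
    push_cast
    field_simp
    ring
  rw [e1]
  refine (norm_add_le _ _).trans ?_
  rw [norm_div, norm_mul, norm_div, Complex.norm_real, Complex.norm_real, Complex.norm_real, Real.norm_of_nonneg hR0.le,
    Real.norm_of_nonneg hS0.le, Real.norm_eq_abs, abs_div, abs_of_pos hR0]
  have nonneg_of : ∀ x : ℝ, 0 ≤ x * A → 0 ≤ x := by
    intro x hx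
    by_contra h
    push Not at h
    have := mul_neg_of_neg_of_pos h hA0
    linarith
  have hδ' : 0 ≤ δ' := nonneg_of _ ((norm_nonneg _).trans h1)
  have hδ0 : 0 ≤ δ := nonneg_of _ ((abs_nonneg _).trans h2)
  have k1 : ‖G - (vv F w y : ℂ) * H‖ / R ≤ 2 * δ' := by
    rw [div_le_iff₀ hR0]
    have : δ' * (A / 2) ≤ δ' * R := mul_le_mul_of_nonneg_left hR1 hδ'
    linarith
  have k2 : ‖H‖ / S ≤ m := by
    rw [div_le_iff₀ hS0]; exact hGw
  have k3 : |vv F w y * S - R| ≤ 2 * (δ * A) := by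
    have e2 : vv F w y * S - R = vv F w y * (S - B) - (R - A) := by rw [hAB]; ring
    rw [e2]
    refine (abs_sub _ _).trans ?_
    rw [abs_mul, abs_of_pos hv]
    have e3 : vv F w y * |S - B| ≤ vv F w y * (δ * B) := mul_le_mul_of_nonneg_left h3 hv.le
    have e4 : vv F w y * (δ * B) = δ * A := by rw [hAB]; ring
    linarith
  have k4 : |vv F w y * S - R| / R ≤ 4 * δ := by
    rw [div_le_iff₀ hR0]
    have : δ * (A / 2) ≤ δ * R := mul_le_mul_of_nonneg_left hR1 hδ0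
    linarith
  have k5 : ‖H‖ / S * (|vv F w y * S - R| / R) ≤ m * (4 * δ) := mul_le_mul k2 k4 (by positivity) (by linarith)
  linarith

lemma hb_mono (F : ℤ[X]) (b w : ℕ) {z y : ℕ} (h : z ≤ y) : hb F b w z ≤ hb F b w y := by
  classical
  unfold hb
  apply sum_le_sum_of_subset_of_nonneg
  · intro l hl
    rw [mem_filter, mem_mid] at hl ⊢
    exact ⟨⟨hl.1.1, hl.1.2.1, hl.1.2.2.trans h⟩, hl.2⟩
  · intro _ _ _; positivity

theorem multCor (D A : ℕ) (hD : 1 ≤ D) (ε : ℝ) (hε : 0 < ε) : ∃ w0 : ℕ, 4 ≤ w0 ∧ ∀ w : ℕ, w0 ≤ w → ∃ (r : ℕ) (δ : ℝ), 1 ≤ r ∧ 0 < δ ∧ 1 / (w * δ) ≤ ε ∧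
    ∀ᶠ N : ℕ in atTop, ∀ F : ℤ[X], Sys F D → (∀ i, |F.coeff i| ≤ (N : ℤ) ^ A) → ∀ y : ℕ, w ≤ y → y ^ r ≤ N →
      |((roughI F y (Icc 1 N)).card : ℝ) - N * V F y| ≤ ε * (N * V F y) ∧
      ∀ b : ℕ, b ≤ N → F.eval (-(b : ℤ)) ≠ 0 → hb F b w y ≤ δ →
        (∀ z : ℕ, w ≤ z → z ≤ y → ∀ g : ℕ → ℂ, (∀ n, ‖g n‖ ≤ 1) → (∀ m n : ℕ, m.Coprime n → g (m * n) = g m * g n) →
          ‖mean (roughI F y (Icc 1 N)) (fun m => g (m + b)) - mean (roughI F z (Icc 1 N)) (fun m => g (m + b))‖ ≤ ε) ∧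
        ‖mean (roughI F y (Icc 1 N)) (fun m => (-1) ^ ArithmeticFunction.cardFactors (m + b))‖ ≤ ε := by
  classical
  obtain ⟨η, hηd⟩ : ∃ η, η = min (ε / 12) (1 / 2) := ⟨_, rfl⟩
  have hη0 : 0 < η := by rw [hηd]; exact lt_min (by positivity) (by norm_num)
  have hη1 : η ≤ 1 / 2 := by rw [hηd]; exact min_le_right _ _
  have hη2 : η ≤ ε / 12 := by rw [hηd]; exact min_le_left _ _
  obtain ⟨w0, hw04, hms⟩ := multShift D A hD η hη0
  obtain ⟨r1, hr1, hcnt⟩ := cntAll D hD η hη0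
  refine ⟨w0, hw04, fun w hw0 => ?_⟩
  have hw4 : 4 ≤ w := hw04.trans hw0
  obtain ⟨r0, δ, hr0, hδ, hwδ, hmain⟩ := hms w hw0
  obtain ⟨κ, hκ0, hκ⟩ := V_lowG D w
  refine ⟨max r0 r1, δ, hr0.trans (le_max_left _ _), hδ, hwδ.trans (by linarith), ?_⟩
  have hliou := liou_shift w (η * κ) (by positivity)
  filter_upwards [hmain, hcnt, hliou, eventually_ge_atTop 1] with N h1 h2 h3 hN F hS hH y hwy hyr
  have hN0 : (0 : ℝ) < N := by exact_mod_cast hN
  have base : ∀ z : ℕ, w ≤ z → z ≤ y → z ^ r0 ≤ N ∧ z ^ r1 ≤ N := by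
    intro z hwz hzy
    have h4 : z ^ max r0 r1 ≤ N := (Nat.pow_le_pow_left hzy _).trans hyr
    exact ⟨(Nat.pow_le_pow_right (by omega) (le_max_left _ _)).trans h4, (Nat.pow_le_pow_right (by omega) (le_max_right _ _)).trans h4⟩
  have cy := h2 F hS y (base y hwy le_rfl).2
  have cw := h2 F hS w (base w le_rfl hwy).2
  have hVy := V_pos hS y
  have hVw := V_pos hS w
  refine ⟨?_, ?_⟩
  · rw [card_roughI]
    exact cy.trans (mul_le_mul_of_nonneg_right (by linarith) (by positivity))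
  intro b hb hb0 hhb
  have comp : ∀ z : ℕ, w ≤ z → z ≤ y → ∀ g : ℕ → ℂ, (∀ n, ‖g n‖ ≤ 1) → (∀ m n : ℕ, m.Coprime n → g (m * n) = g m * g n) →
      ‖mean (roughI F z (Icc 1 N)) (fun m => g (m + b)) - mean (roughI F w (Icc 1 N)) (fun m => g (m + b))‖ ≤ 6 * η := by
    intro z hwz hzy g hg hmul
    have h4 := h1 F hS hH b hb hb0 z hwz (base z hwz hzy).1 ((hb_mono F b w hzy).trans hhb) g hg hmul
    have h5 := mean_closeI hS (Icc 1 N) w z N hN0 hwz η η hη1 (fun m => g (m + b)) 1 le_rfl (fun n => hg _) h4 (h2 F hS z (base z hwz hzy).2) cw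
    refine h5.trans (le_of_eq ?_)
    ring
  refine ⟨?_, ?_⟩
  · intro z hwz hzy g hg hmul
    have k1 := comp y hwy le_rfl g hg hmul
    have k2 := comp z hwz hzy g hg hmul
    calc ‖mean (roughI F y (Icc 1 N)) (fun m => g (m + b)) - mean (roughI F z (Icc 1 N)) (fun m => g (m + b))‖
        = ‖(mean (roughI F y (Icc 1 N)) (fun m => g (m + b)) - mean (roughI F w (Icc 1 N)) (fun m => g (m + b))) -
          (mean (roughI F z (Icc 1 N)) (fun m => g (m + b)) - mean (roughI F w (Icc 1 N)) (fun m => g (m + b)))‖ := by congr 1; ring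
      _ ≤ 6 * η + 6 * η := (norm_sub_le _ _).trans (add_le_add k1 k2)
      _ ≤ ε := by linarith
  · have hmul : ∀ m n : ℕ, m.Coprime n → liR (m * n) = liR m * liR n := by
      intro m n hmn
      unfold liR
      rcases Nat.eq_zero_or_pos m with hm | hm
      · subst hm
        have : n = 1 := by simpa using hmn
        subst this
        simp
      rcases Nat.eq_zero_or_pos n with hn | hn
      · subst hn
        have : m = 1 := by simpa using hmn
        subst this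
        simp
      rw [ArithmeticFunction.cardFactors_mul (by omega) (by omega), pow_add]
    have k1 := comp y hwy le_rfl liR liR_norm hmul
    have k2 : ‖mean (roughI F w (Icc 1 N)) (fun m => liR (m + b))‖ ≤ 2 * η := by
      unfold mean
      rw [sum_roughI, norm_div, Complex.norm_natCast]
      have g3 := (abs_le.1 cw).1
      rw [← card_roughI] at g3
      have hNV : 0 < N * V F w := by positivity
      have g4 : η * (N * V F w) ≤ 1 / 2 * (N * V F w) := mul_le_mul_of_nonneg_right hη1 hNV.le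
      have hS' : (N * V F w) / 2 ≤ ((roughI F w (Icc 1 N)).card : ℝ) := by linarith
      have hS0 : 0 < ((roughI F w (Icc 1 N)).card : ℝ) := by linarith
      rw [div_le_iff₀ hS0]
      calc ‖∑ n ∈ Icc 1 N, liR (n + b) * (ind F w n : ℂ)‖ ≤ η * κ * N := h3 F b hb
        _ ≤ η * V F w * N := by
            apply mul_le_mul_of_nonneg_right _ hN0.le
            exact mul_le_mul_of_nonneg_left (hκ F hS) hη0.le
        _ = 2 * η * ((N * V F w) / 2) := by ring
        _ ≤ _ := mul_le_mul_of_nonneg_left hS' (by positivity)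
    have e : (fun m => (-1 : ℂ) ^ ArithmeticFunction.cardFactors (m + b)) = (fun m => liR (m + b)) := rfl
    rw [e]
    calc ‖mean (roughI F y (Icc 1 N)) (fun m => liR (m + b))‖
        = ‖(mean (roughI F y (Icc 1 N)) (fun m => liR (m + b)) - mean (roughI F w (Icc 1 N)) (fun m => liR (m + b))) +
          mean (roughI F w (Icc 1 N)) (fun m => liR (m + b))‖ := by congr 1; ring
      _ ≤ 6 * η + 2 * η := (norm_add_le _ _).trans (add_le_add k1 k2)
      _ ≤ ε := by linarith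

end Pool.Agent.H31.GP
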