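import Pool.Agent.H31.GP.MultCor

set_option autoImplicit false

/-! # The exceptional shifts -/

namespace Pool.Agent.H31.GP

open Finset Filter Topology Polynomial Pool.Agent.H373R2.T7
open Pool.Agent.H31.MF (Prd mid mem_mid sum_inv_sq)
open Pool.Agent.H31.DG (card_class_le)

lemma hb_nonneg (F : ℤ[X]) (b w y : ℕ) : 0 ≤ hb F b w y := sum_nonneg fun _ _ => by positivity

lemma hb_class {F : ℤ[X]} {D : ℕ} (hS : Sys F D) (M l : ℕ) (hl : l.Prime) (hlM : l ≤ M) :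
    (((range M).filter (fun b : ℕ => (l : ℤ) ∣ F.eval (-(b : ℤ)))).card : ℝ) ≤ D * (2 * M / l) := by
  classical
  have := Fact.mk hl
  have h1 : (range M).filter (fun b : ℕ => (l : ℤ) ∣ F.eval (-(b : ℤ))) ⊆
      (ZF F 1 0 l).biUnion (fun r => (range M).filter (fun b => b ≡ l - r [MOD l])) := by
    intro b hb
    rw [mem_filter] at hb
    obtain ⟨hbM, hb⟩ := hb
    rw [mem_biUnion]
    obtain ⟨r, hr⟩ : ∃ r : ℕ, r = (-(b : ZMod l)).val := ⟨_, rfl⟩
    have hrl : r < l := by rw [hr]; exact ZMod.val_lt _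
    have hrb : (r : ZMod l) = -(b : ZMod l) := by rw [hr, ZMod.natCast_zmod_val]
    refine ⟨r, ?_, ?_⟩
    · rw [mem_ZF, one_mul, add_zero]
      refine ⟨hrl, ?_⟩
      rw [RF_iff, hrb]
      rw [← ZMod.intCast_zmod_eq_zero_iff_dvd] at hb
      have e : (F.map (Int.castRingHom (ZMod l))).eval (-(b : ZMod l)) = ((F.eval (-(b : ℤ)) : ℤ) : ZMod l) := by
        have := Polynomial.eval_intCast_map (Int.castRingHom (ZMod l)) F (-(b : ℤ))
        push_cast at this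
        simpa using this
      rw [e, hb]
    · rw [mem_filter]
      refine ⟨hbM, ?_⟩
      rw [← ZMod.natCast_eq_natCast_iff, Nat.cast_sub hrl.le, hrb, ZMod.natCast_self]
      ring
  calc (((range M).filter (fun b : ℕ => (l : ℤ) ∣ F.eval (-(b : ℤ)))).card : ℝ)
      ≤ (((ZF F 1 0 l).biUnion (fun r => (range M).filter (fun b => b ≡ l - r [MOD l]))).card : ℝ) := by exact_mod_cast card_le_card h1
    _ ≤ ∑ r ∈ ZF F 1 0 l, (((range M).filter (fun b => b ≡ l - r [MOD l])).card : ℝ) := by exact_mod_cast card_biUnion_le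
    _ ≤ ∑ _r ∈ ZF F 1 0 l, 2 * (M : ℝ) / l := sum_le_sum fun r _ => card_class_le M l _ hl.one_lt.le hlM
    _ = (ZF F 1 0 l).card * (2 * M / l) := by rw [sum_const, nsmul_eq_mul]
    _ ≤ D * (2 * M / l) := by
        apply mul_le_mul_of_nonneg_right _ (by positivity)
        exact_mod_cast Z_le_D hS hl

/-- the sum over the shifts -/
lemma hb_sum {F : ℤ[X]} {D : ℕ} (hS : Sys F D) (M w y : ℕ) (hw : 1 ≤ w) (hy : y ≤ M) : ∑ b ∈ range M, hb F b w y ≤ 2 * D * M / w := by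
  classical
  have h1 : ∑ b ∈ range M, hb F b w y = ∑ l ∈ mid w y, (1 / (l : ℝ)) * (((range M).filter (fun b : ℕ => (l : ℤ) ∣ F.eval (-(b : ℤ)))).card : ℝ) := by
    unfold hb
    simp_rw [sum_filter]
    rw [sum_comm]
    apply sum_congr rfl
    intro l _
    rw [← sum_filter, sum_const, nsmul_eq_mul, mul_comm]
  rw [h1]
  calc ∑ l ∈ mid w y, (1 / (l : ℝ)) * (((range M).filter (fun b : ℕ => (l : ℤ) ∣ F.eval (-(b : ℤ)))).card : ℝ)
      ≤ ∑ l ∈ mid w y, (2 * D * M) * (1 / (l : ℝ) ^ 2) := by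
        apply sum_le_sum
        intro l hl
        rw [mem_mid] at hl
        have h2 := hb_class hS M l hl.1 (hl.2.2.trans hy)
        have hl0 : (0 : ℝ) < l := by exact_mod_cast hl.1.pos
        calc (1 / (l : ℝ)) * (((range M).filter (fun b : ℕ => (l : ℤ) ∣ F.eval (-(b : ℤ)))).card : ℝ) ≤ (1 / (l : ℝ)) * (D * (2 * M / l)) :=
              mul_le_mul_of_nonneg_left h2 (by positivity)
          _ = (2 * D * M) * (1 / (l : ℝ) ^ 2) := by field_simp
    _ = (2 * D * M) * ∑ l ∈ mid w y, (1 / (l : ℝ) ^ 2) := by rw [mul_sum]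
    _ ≤ (2 * D * M) * (1 / w) := mul_le_mul_of_nonneg_left (sum_inv_sq w y hw) (by positivity)
    _ = 2 * D * M / w := by ring

open Classical in
/-- the number of the exceptional shifts -/
lemma exc_card {F : ℤ[X]} {D : ℕ} (hS : Sys F D) (M w y : ℕ) (hw : 1 ≤ w) (hy : y ≤ M) (δ : ℝ) (hδ : 0 < δ) :
    (((range M).filter (fun b => ¬ hb F b w y ≤ δ)).card : ℝ) ≤ 2 * D * (1 / (w * δ)) * M := by
  have h1 := hb_sum hS M w y hw hy
  have h2 : (((range M).filter (fun b => ¬ hb F b w y ≤ δ)).card : ℝ) * δ ≤ ∑ b ∈ range M, hb F b w y := by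
    calc (((range M).filter (fun b => ¬ hb F b w y ≤ δ)).card : ℝ) * δ = ∑ _b ∈ (range M).filter (fun b => ¬ hb F b w y ≤ δ), δ := by
          rw [sum_const, nsmul_eq_mul]
      _ ≤ ∑ b ∈ (range M).filter (fun b => ¬ hb F b w y ≤ δ), hb F b w y := by
          apply sum_le_sum
          intro b hb'
          exact (not_le.1 (mem_filter.1 hb').2).le
      _ ≤ ∑ b ∈ range M, hb F b w y := sum_le_sum_of_subset_of_nonneg (filter_subset _ _) fun b _ _ => hb_nonneg F b w y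
  have hw0 : (0 : ℝ) < w := by exact_mod_cast hw
  have h3 := h2.trans h1
  rw [← le_div_iff₀ hδ] at h3
  refine h3.trans (le_of_eq ?_)
  field_simp

open Classical in
theorem multCor2 (D A : ℕ) (hD : 1 ≤ D) (ε : ℝ) (hε : 0 < ε) : ∃ w0 : ℕ, 4 ≤ w0 ∧ ∀ w : ℕ, w0 ≤ w → ∃ (r : ℕ) (δ : ℝ), 1 ≤ r ∧ 0 < δ ∧
    ∀ᶠ N : ℕ in atTop, ∀ F : ℤ[X], Sys F D → (∀ i, |F.coeff i| ≤ (N : ℤ) ^ A) → ∀ y : ℕ, w ≤ y → y ^ r ≤ N →
      |((roughI F y (Icc 1 N)).card : ℝ) - N * V F y| ≤ ε * (N * V F y) ∧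
      (∀ K : ℕ, y ≤ K → (((range K).filter (fun b => ¬ hb F b w y ≤ δ)).card : ℝ) ≤ ε * K) ∧
      ∀ b : ℕ, b ≤ N → F.eval (-(b : ℤ)) ≠ 0 → hb F b w y ≤ δ →
        (∀ z : ℕ, w ≤ z → z ≤ y → ∀ g : ℕ → ℂ, (∀ n, ‖g n‖ ≤ 1) → (∀ m n : ℕ, m.Coprime n → g (m * n) = g m * g n) →
          ‖mean (roughI F y (Icc 1 N)) (fun m => g (m + b)) - mean (roughI F z (Icc 1 N)) (fun m => g (m + b))‖ ≤ ε) ∧
        ‖mean (roughI F y (Icc 1 N)) (fun m => (-1) ^ ArithmeticFunction.cardFactors (m + b))‖ ≤ ε := by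
  have hD0 : (1 : ℝ) ≤ D := by exact_mod_cast hD
  obtain ⟨ε', hε'⟩ : ∃ e : ℝ, e = ε / (2 * D) := ⟨_, rfl⟩
  have hε0 : 0 < ε' := by rw [hε']; positivity
  have hle : ε' ≤ ε := by
    rw [hε', div_le_iff₀ (by positivity)]
    nlinarith
  obtain ⟨w0, hw04, h⟩ := multCor D A hD ε' hε0
  refine ⟨w0, hw04, fun w hw => ?_⟩
  obtain ⟨r, δ, hr, hδ, hwδ, hmain⟩ := h w hw
  refine ⟨r, δ, hr, hδ, ?_⟩
  filter_upwards [hmain] with N hN F hS hH y hwy hyr
  obtain ⟨h1, h2⟩ := hN F hS hH y hwy hyr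
  have hV := V_pos hS y
  refine ⟨h1.trans (mul_le_mul_of_nonneg_right hle (by positivity)), ?_, ?_⟩
  · intro K hK
    refine (exc_card hS K w y (by omega) hK δ hδ).trans ?_
    apply mul_le_mul_of_nonneg_right _ (by positivity)
    calc 2 * D * (1 / (w * δ)) ≤ 2 * D * ε' := mul_le_mul_of_nonneg_left hwδ (by positivity)
      _ = ε := by rw [hε']; field_simp
  · intro b hb hb0 hh
    obtain ⟨h3, h4⟩ := h2 b hb hb0 hh
    exact ⟨fun z hz hzy g hg hm => (h3 z hz hzy g hg hm).trans hle, h4.trans hle⟩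

end Pool.Agent.H31.GP
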