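import Pool.Agent.H31.GP.MultMain

set_option autoImplicit false

/-! # Multiplicative functions along the rough values of a polynomial: the main theorem -/

namespace Pool.Agent.H31.GP

open Finset Filter Topology Polynomial Pool.Agent.H373R2.T7
open Pool.Agent.H31.MF (Prd mid mem_mid pz_split pz_disj PJ mem_PJ PP mem_PP LL LL_low harm_le pow_le_two_pow)
open Pool.Agent.H31.DG (cnt0)

open Classical in
/-- the sum of `1 / l` over the primes `l` in `(w, y]` which divide `F (0)` -/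
noncomputable def hz (F : ℤ[X]) (w y : ℕ) : ℝ := ∑ l ∈ (mid w y).filter (fun l => RF F l 0), 1 / (l : ℝ)

lemma h00_hz (F : ℤ[X]) (D w y : ℕ) : h00 F D w y = 4 * D * hz F w y := by
  unfold h00 hz
  rw [mul_sum]
  apply sum_congr rfl
  intro l _
  ring

lemma eval_zero_log (F : ℤ[X]) (N A : ℕ) (hN : 1 ≤ N) (hH : ∀ i, |F.coeff i| ≤ (N : ℤ) ^ A) :
    Nat.log 2 (F.eval 0).natAbs ≤ A * (Nat.log 2 N + 1) := by
  have h1 : (F.eval 0).natAbs ≤ N ^ A := by
    have h2 := hH 0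
    rw [coeff_zero_eq_eval_zero] at h2
    have h3 : (((F.eval 0).natAbs : ℕ) : ℤ) ≤ ((N ^ A : ℕ) : ℤ) := by
      rw [Int.natCast_natAbs]
      push_cast
      exact h2
    exact_mod_cast h3
  rcases Nat.eq_zero_or_pos A with hA | hA
  · subst hA
    rw [pow_zero] at h1
    have : Nat.log 2 (F.eval 0).natAbs = 0 := Nat.log_of_lt (by omega)
    omega
  have h2 : N ^ A < 2 ^ (A * (Nat.log 2 N + 1)) := by
    rw [mul_comm A, pow_mul]
    exact Nat.pow_lt_pow_left (Nat.lt_pow_succ_log_self (by norm_num) N) (by omega)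
  exact (Nat.log_mono_right h1).trans (Nat.log_lt_of_lt_pow (by positivity) h2).le

/-- the primes which divide `F (0)` are harmless -/
lemma LP_low (F : ℤ[X]) (hF0 : F.eval 0 ≠ 0) (N A k : ℕ) (hN : 1 ≤ N) (hH : ∀ i, |F.coeff i| ≤ (N : ℤ) ^ A) :
    LL k (k ^ 2) - A * ((Nat.log 2 N : ℝ) + 1) / 2 ^ k ≤ LP (PPF F k (k ^ 2)) := by
  classical
  have e1 : LL k (k ^ 2) = LP (PPF F k (k ^ 2)) + ∑ p ∈ (PP k (k ^ 2)).filter (fun p => ¬ ¬ RF F p 0), 1 / (p : ℝ) := by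
    unfold LL LP PPF
    rw [sum_filter_add_sum_filter_not]
  have e2 : ∑ p ∈ (PP k (k ^ 2)).filter (fun p => ¬ ¬ RF F p 0), 1 / (p : ℝ) ≤ A * ((Nat.log 2 N : ℝ) + 1) / 2 ^ k := by
    calc ∑ p ∈ (PP k (k ^ 2)).filter (fun p => ¬ ¬ RF F p 0), 1 / (p : ℝ)
        ≤ ∑ _p ∈ (PP k (k ^ 2)).filter (fun p => ¬ ¬ RF F p 0), 1 / (2 : ℝ) ^ k := by
          apply sum_le_sum
          intro p hp
          rw [mem_filter, mem_PP] at hp
          apply one_div_le_one_div_of_le (by positivity)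
          exact_mod_cast hp.1.2.1.le
      _ = (((PP k (k ^ 2)).filter (fun p => ¬ ¬ RF F p 0)).card : ℝ) * (1 / 2 ^ k) := by rw [sum_const, nsmul_eq_mul]
      _ ≤ (A * ((Nat.log 2 N : ℝ) + 1)) * (1 / 2 ^ k) := by
          apply mul_le_mul_of_nonneg_right _ (by positivity)
          have h1 := card_dvd_le (F.eval 0) hF0 ((PP k (k ^ 2)).filter (fun p => ¬ ¬ RF F p 0)) (by
            intro l hl
            rw [mem_filter, mem_PP, not_not] at hl
            refine ⟨hl.1.1, ?_⟩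
            have := hl.2
            unfold RF at this
            simpa using this)
          exact_mod_cast h1.trans (eval_zero_log F N A hN hH)
      _ = _ := by ring
  linarith

/-- **The main theorem on multiplicative functions** -/
theorem multMean (D A : ℕ) (hD : 1 ≤ D) (ε0 : ℝ) (hε0 : 0 < ε0) : ∃ w0 : ℕ, 4 ≤ w0 ∧ ∀ w : ℕ, w0 ≤ w → ∃ (r : ℕ) (δ : ℝ), 1 ≤ r ∧ 0 < δ ∧ 1 / (w * δ) ≤ ε0 ∧
    ∀ᶠ N : ℕ in atTop, ∀ F : ℤ[X], Sys F D → F.eval 0 ≠ 0 → (∀ i, |F.coeff i| ≤ (N : ℤ) ^ A) → ∀ y : ℕ, w ≤ y → y ^ r ≤ N → hz F w y ≤ δ →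
    (∀ g : ℕ → ℂ, (∀ n, ‖g n‖ ≤ 1) → (∀ m n : ℕ, m.Coprime n → g (m * n) = g m * g n) →
      ‖∑ n ∈ Icc 1 N, g n * (ff F w y n : ℂ)‖ ≤ ε0 * (N * V F y)) ∧
    ∀ z ≤ y, |∑ n ∈ Icc 1 N, ind F z n - N * V F z| ≤ ε0 * (N * V F z) := by
  classical
  obtain ⟨C, hC, hkat⟩ := kat_totalF D A hD
  obtain ⟨B, n1, hV1⟩ := V_low2 D hD
  obtain ⟨C5, hC5, hL5⟩ := LL_low
  have hDr : (1 : ℝ) ≤ D := by exact_mod_cast hD
  -- the choice of `c0`
  obtain ⟨c0, hc0⟩ : ∃ c0, c0 = min (min (1 / 3) (ε0 / 3)) (min (ε0 ^ 2 / (2048 * C)) (ε0 ^ 2 / 4096)) := ⟨_, rfl⟩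
  have hc0pos : 0 < c0 := by
    rw [hc0]
    refine lt_min (lt_min (by norm_num) (by positivity)) (lt_min (by positivity) (by positivity))
  have hc1 : c0 ≤ 1 / 3 := by rw [hc0]; exact (min_le_left _ _).trans (min_le_left _ _)
  have hc2 : c0 ≤ ε0 / 3 := by rw [hc0]; exact (min_le_left _ _).trans (min_le_right _ _)
  have hc3 : c0 ≤ ε0 ^ 2 / (2048 * C) := by rw [hc0]; exact (min_le_right _ _).trans (min_le_left _ _)
  have hc4 : c0 ≤ ε0 ^ 2 / 4096 := by rw [hc0]; exact (min_le_right _ _).trans (min_le_right _ _)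
  clear hc0
  -- the choice of `w`
  obtain ⟨n2, hn2⟩ := ev_log' B (512 * C / ε0 ^ 2 + 4 * D / (c0 * ε0))
  refine ⟨max (max n1 n2) (max 4 (2 * D)), le_trans (le_max_left _ _) (le_max_right _ _), fun w hw => ?_⟩
  have hw4 : 4 ≤ w := le_trans (le_trans (le_max_left _ _) (le_max_right _ _)) hw
  have hwD : 2 * D ≤ w := le_trans (le_trans (le_max_right _ _) (le_max_right _ _)) hw
  have hwn1 : n1 ≤ w := le_trans (le_trans (le_max_left _ _) (le_max_left _ _)) hw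
  have hwn2 : n2 ≤ w := le_trans (le_trans (le_max_right _ _) (le_max_left _ _)) hw
  clear hw
  have hwr : (4 : ℝ) ≤ w := by exact_mod_cast hw4
  have hlw : 1 ≤ Real.log w := by
    rw [Real.le_log_iff_exp_le (by linarith)]
    have := Real.exp_one_lt_d9
    linarith
  have hsw : 0 < Real.sqrt w := Real.sqrt_pos.2 (by linarith)
  obtain ⟨κ, hκ⟩ : ∃ κ, κ = 1 / Real.log w ^ B := ⟨_, rfl⟩
  have hlB : 0 < Real.log w ^ B := by positivity
  have hκ0 : 0 < κ := by rw [hκ]; positivity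
  have hκ1 : κ ≤ 1 := by
    rw [hκ, div_le_one hlB]
    exact one_le_pow₀ hlw
  have hbig : 512 * C / ε0 ^ 2 + 4 * D / (c0 * ε0) ≤ Real.sqrt w * κ := by
    have h2 := hn2 w hwn2
    rw [hκ, mul_one_div, le_div_iff₀ hlB]
    exact h2
  have hwC : C / Real.sqrt w ≤ ε0 ^ 2 * κ / 512 := by
    have h3 : 512 * C / ε0 ^ 2 ≤ Real.sqrt w * κ := by
      have : 0 ≤ 4 * D / (c0 * ε0) := by positivity
      linarith
    rw [div_le_iff₀ (by positivity)] at h3
    rw [div_le_div_iff₀ hsw (by norm_num)]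
    linarith
  -- the choice of `ε`
  obtain ⟨ε, hεd⟩ : ∃ ε, ε = κ * c0 := ⟨_, rfl⟩
  have hεpos : 0 < ε := by rw [hεd]; positivity
  have hεc : ε ≤ c0 := by rw [hεd]; exact mul_le_of_le_one_left hc0pos.le hκ1
  have hε1 : ε ≤ 1 / 3 := hεc.trans hc1
  have hε2 : ε ≤ ε0 / 3 := hεc.trans hc2
  have hε3 : ε ≤ ε0 ^ 2 * κ / (2048 * C) := by
    rw [hεd]
    calc κ * c0 ≤ κ * (ε0 ^ 2 / (2048 * C)) := mul_le_mul_of_nonneg_left hc3 hκ0.le
      _ = _ := by ring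
  have hε4 : ε ≤ ε0 ^ 2 / 4096 := hεc.trans hc4
  have hwδ : 1 / ((w : ℝ) * (ε / (4 * D))) ≤ ε0 := by
    have h3 : 4 * D / (c0 * ε0) ≤ Real.sqrt w * κ := by
      have : 0 ≤ 512 * C / ε0 ^ 2 := by positivity
      linarith
    have h4 : Real.sqrt w ≤ w := by
      rw [Real.sqrt_le_left (by linarith)]
      nlinarith
    have h5 : 4 * D / (c0 * ε0) ≤ w * κ := h3.trans (mul_le_mul_of_nonneg_right h4 hκ0.le)
    rw [div_le_iff₀ (by positivity)] at h5 ⊢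
    rw [hεd]
    have e : ε0 * (w * (κ * c0 / (4 * D))) = w * κ * (c0 * ε0) / (4 * D) := by ring
    rw [e, le_div_iff₀ (by positivity)]
    linarith
  clear hεd hεc hbig hc1 hc2 hc3 hc4
  obtain ⟨r, hr, hfl⟩ := flD D hD ε hεpos
  refine ⟨r, ε / (4 * D), hr, by positivity, hwδ, ?_⟩
  -- the choice of `k`
  obtain ⟨k1, hk1⟩ := pow_le_two_pow (81 / ε ^ 2) 4
  obtain ⟨k2, hk2⟩ := pow_le_two_pow (8 ^ B / ε) (2 * B + 1)
  obtain ⟨k3, hk3⟩ := pow_le_two_pow (8 ^ B * (8 / ε0)) (2 * B)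
  obtain ⟨k4, hk4⟩ := pow_le_two_pow (4 * D / Real.log (1 + ε)) 0
  obtain ⟨k5, hk5⟩ := pow_le_two_pow (1 / ε) 0
  obtain ⟨k6, hk6⟩ := ev_L' (2 * ((C5 + 1) + 1) + 2 * (C5 + 1) + 2 * (1024 / ε0 ^ 2))
  obtain ⟨k7, hk7⟩ := pow_le_two_pow (9 * A) 2
  obtain ⟨k0, hk0⟩ : ∃ k0, k0 = max (max (max k1 k2) (max k3 k4)) (max (max k5 k6) (max w (max k7 2))) := ⟨_, rfl⟩
  filter_upwards [hfl, eventually_ge_atTop (max (2 ^ (8 * k0 ^ 2)) (max n1 16))] with N hflN hNlarge F hS hF0 hH y hwy hyr hzδ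
  obtain ⟨J, hJ⟩ : ∃ J, J = Nat.log 2 N / 8 := ⟨_, rfl⟩
  obtain ⟨k, hk⟩ : ∃ k, k = Nat.sqrt J := ⟨_, rfl⟩
  have hN16 : 16 ≤ N := le_trans (le_trans (le_max_right _ _) (le_max_right _ _)) hNlarge
  have hNn1 : n1 ≤ N := le_trans (le_trans (le_max_left _ _) (le_max_right _ _)) hNlarge
  have hN0 : (0 : ℝ) < N := by exact_mod_cast (by omega : 0 < N)
  have hkk0 : k0 ≤ k := by
    rw [hk, Nat.le_sqrt']
    rw [hJ, Nat.le_div_iff_mul_le (by norm_num)]
    apply Nat.le_log_of_pow_le (by norm_num)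
    refine le_trans (le_of_eq ?_) ((le_max_left _ _).trans hNlarge)
    congr 1; ring
  have g1 : k1 ≤ k := le_trans (by rw [hk0]; simp) hkk0
  have g2 : k2 ≤ k := le_trans (by rw [hk0]; simp) hkk0
  have g3 : k3 ≤ k := le_trans (by rw [hk0]; simp) hkk0
  have g4 : k4 ≤ k := le_trans (by rw [hk0]; simp) hkk0
  have g5 : k5 ≤ k := le_trans (by rw [hk0]; simp) hkk0
  have g6 : k6 ≤ k := le_trans (by rw [hk0]; simp) hkk0
  have g7 : w ≤ k := le_trans (by rw [hk0]; simp) hkk0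
  have g8 : 2 ≤ k := le_trans (by rw [hk0]; simp) hkk0
  have g9 : k7 ≤ k := le_trans (by rw [hk0]; simp) hkk0
  clear hk0 hkk0
  have hk2J : k ^ 2 ≤ J := by rw [hk]; exact Nat.sqrt_le' J
  have hJk : J < (k + 1) ^ 2 := by rw [hk]; exact Nat.lt_succ_sqrt' J
  have h8J : 2 ^ (8 * J) ≤ N := by
    calc 2 ^ (8 * J) ≤ 2 ^ Nat.log 2 N := Nat.pow_le_pow_right (by norm_num) (by rw [hJ]; omega)
      _ ≤ N := Nat.pow_log_le_self 2 (by omega)
  have h8k : 2 ^ (8 * k ^ 2) ≤ N := le_trans (Nat.pow_le_pow_right (by norm_num) (by omega)) h8J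
  have hlog2 : (Nat.log 2 N : ℝ) + 1 ≤ 9 * ((k : ℝ) + 1) ^ 2 := by
    have h1 : Nat.log 2 N + 1 ≤ 8 * (k + 1) ^ 2 := by omega
    have h2 : (Nat.log 2 N : ℝ) + 1 ≤ 8 * ((k : ℝ) + 1) ^ 2 := by exact_mod_cast h1
    nlinarith [sq_nonneg ((k : ℝ) + 1)]
  have hlogN : Real.log N ≤ 8 * ((k : ℝ) + 1) ^ 2 := by
    have h1 : N < 2 ^ (8 * (k + 1) ^ 2) := by
      calc N < 2 ^ (Nat.log 2 N + 1) := Nat.lt_pow_succ_log_self (by norm_num) N
        _ ≤ 2 ^ (8 * (k + 1) ^ 2) := Nat.pow_le_pow_right (by norm_num) (by omega)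
    have h2 : (N : ℝ) ≤ 2 ^ (8 * (k + 1) ^ 2) := by exact_mod_cast h1.le
    have h3 := Real.log_le_log hN0 h2
    rw [Real.log_pow] at h3
    push_cast at h3
    have h4 : Real.log 2 ≤ 1 := by have := Real.log_two_lt_d9; linarith
    calc Real.log N ≤ 8 * ((k : ℝ) + 1) ^ 2 * Real.log 2 := h3
      _ ≤ 8 * ((k : ℝ) + 1) ^ 2 * 1 := mul_le_mul_of_nonneg_left h4 (by positivity)
      _ = _ := by ring
  have hlogN1 : 0 < Real.log N := Real.log_pos (by exact_mod_cast (by omega : 1 < N))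
  have hyN : y ≤ N := le_trans (Nat.le_self_pow (by omega) y) hyr
  have hVw := V_pos hS w
  have hκV : κ ≤ V F w := by rw [hκ]; exact (hV1 F hS w hwn1).1
  have hVy0 := V_pos hS y
  have hVyy := (hV1 F hS y (hwn1.trans hwy)).2
  -- lower bound for `V y`
  have hVy : 1 ≤ V F y * (8 ^ B * ((k : ℝ) + 1) ^ (2 * B)) := by
    have h1 := (hV1 F hS N hNn1).1
    have h2 : 1 / Real.log N ^ B ≤ V F y := h1.trans (V_anti hS hyN)
    rw [div_le_iff₀ (by positivity)] at h2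
    refine h2.trans (mul_le_mul_of_nonneg_left ?_ hVy0.le)
    calc Real.log N ^ B ≤ (8 * ((k : ℝ) + 1) ^ 2) ^ B := pow_le_pow_left₀ hlogN1.le hlogN B
      _ = 8 ^ B * ((k : ℝ) + 1) ^ (2 * B) := by rw [mul_pow, ← pow_mul]
  have hv0 := vv_pos hS w y
  have hvV : V F y ≤ vv F w y := by
    rw [V_split F hwy]
    exact mul_le_of_le_one_left hv0.le (V_le_one hS w)
  -- the fundamental lemma
  have FLy : FLD D N y ε := hflN y (by omega) hyr
  have hh0 : h00 F D w y ≤ ε := by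
    rw [h00_hz]
    calc 4 * (D : ℝ) * hz F w y ≤ 4 * D * (ε / (4 * D)) := mul_le_mul_of_nonneg_left hzδ (by positivity)
      _ = ε := by field_simp
  -- all conditions for `j ≥ k`
  have hηj : ∀ j ∈ Ico k (k ^ 2), 1 / Real.sqrt w + ε + ε + ((Nat.log 2 N : ℝ) + 1) / Real.sqrt ((2 ^ (j / 2) : ℕ) : ℝ) + j / (2 ^ j * vv F w y) ≤
      1 / Real.sqrt w + 4 * ε := by
    intro j hj
    have hj' := (mem_Ico.1 hj).1
    have hkj : (k : ℝ) ≤ j := by exact_mod_cast hj'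
    have hkr0 : (0 : ℝ) ≤ k := Nat.cast_nonneg _
    have a1 : ((Nat.log 2 N : ℝ) + 1) / Real.sqrt ((2 ^ (j / 2) : ℕ) : ℝ) ≤ ε := by
      have h1 := hk1 j (by omega)
      have h2 : ((Nat.log 2 N : ℝ) + 1) ^ 2 ≤ ε ^ 2 * 2 ^ (j / 2) := by
        have h3 : 81 * ((j : ℝ) + 1) ^ 4 ≤ ε ^ 2 * 2 ^ (j / 2) := by
          calc 81 * ((j : ℝ) + 1) ^ 4 = ε ^ 2 * (81 / ε ^ 2 * ((j : ℝ) + 1) ^ 4) := by field_simp
            _ ≤ _ := mul_le_mul_of_nonneg_left h1 (by positivity)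
        have h4 : (Nat.log 2 N : ℝ) + 1 ≤ 9 * ((j : ℝ) + 1) ^ 2 := hlog2.trans (by gcongr)
        calc ((Nat.log 2 N : ℝ) + 1) ^ 2 ≤ (9 * ((j : ℝ) + 1) ^ 2) ^ 2 := pow_le_pow_left₀ (by positivity) h4 2
          _ = 81 * ((j : ℝ) + 1) ^ 4 := by ring
          _ ≤ _ := h3
      have h5 : (0 : ℝ) < ((2 ^ (j / 2) : ℕ) : ℝ) := by positivity
      rw [div_le_iff₀ (Real.sqrt_pos.2 h5)]
      apply le_of_sq_le_sq _ (by positivity)
      rw [mul_pow, Real.sq_sqrt h5.le]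
      push_cast
      exact h2
    have a2 : (j : ℝ) / (2 ^ j * vv F w y) ≤ ε := by
      have h1 := hk2 j (by omega)
      rw [div_le_iff₀ (by positivity)]
      have h2 : (2 : ℝ) ^ (j / 2) ≤ 2 ^ j := pow_le_pow_right₀ (by norm_num) (by omega)
      have h3 : (8 : ℝ) ^ B * ((j : ℝ) + 1) ^ (2 * B + 1) ≤ ε * 2 ^ j := by
        calc (8 : ℝ) ^ B * ((j : ℝ) + 1) ^ (2 * B + 1) = ε * (8 ^ B / ε * ((j : ℝ) + 1) ^ (2 * B + 1)) := by field_simp
          _ ≤ ε * 2 ^ j := mul_le_mul_of_nonneg_left (h1.trans h2) hεpos.le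
      have h4 : (j : ℝ) ≤ V F y * (8 ^ B * ((j : ℝ) + 1) ^ (2 * B + 1)) := by
        have h5 : 1 ≤ V F y * (8 ^ B * ((j : ℝ) + 1) ^ (2 * B)) := by
          refine hVy.trans (mul_le_mul_of_nonneg_left ?_ hVy0.le)
          gcongr
        have h6 : (0 : ℝ) ≤ j := Nat.cast_nonneg _
        calc (j : ℝ) ≤ (j : ℝ) + 1 := by linarith
          _ = 1 * ((j : ℝ) + 1) := by ring
          _ ≤ (V F y * (8 ^ B * ((j : ℝ) + 1) ^ (2 * B))) * ((j : ℝ) + 1) := mul_le_mul_of_nonneg_right h5 (by linarith)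
          _ = _ := by rw [pow_succ]; ring
      calc (j : ℝ) ≤ V F y * (8 ^ B * ((j : ℝ) + 1) ^ (2 * B + 1)) := h4
        _ ≤ vv F w y * (ε * 2 ^ j) := mul_le_mul hvV h3 (by positivity) hv0.le
        _ = _ := by ring
    linarith
  -- `L`
  obtain ⟨P, hP⟩ : ∃ P, P = PPF F k (k ^ 2) := ⟨_, rfl⟩
  obtain ⟨L, hLd⟩ : ∃ L, L = LP P := ⟨_, rfl⟩
  have hkr : (2 : ℝ) ≤ k := by exact_mod_cast g8
  have hlk := hk6 k g6
  have hE0 : 0 ≤ 1024 / ε0 ^ 2 := by positivity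
  have hL1 : Real.log k - (C5 + 1) ≤ L := by
    have h1 := hL5 k g8
    have h2 := LP_low F hF0 N A k (by omega) hH
    have h3 : (A : ℝ) * ((Nat.log 2 N : ℝ) + 1) / 2 ^ k ≤ 1 := by
      rw [div_le_one (by positivity)]
      calc (A : ℝ) * ((Nat.log 2 N : ℝ) + 1) ≤ A * (9 * ((k : ℝ) + 1) ^ 2) := mul_le_mul_of_nonneg_left hlog2 (Nat.cast_nonneg _)
        _ = 9 * A * ((k : ℝ) + 1) ^ 2 := by ring
        _ ≤ 2 ^ (k / 2) := hk7 k g9
        _ ≤ 2 ^ k := pow_le_pow_right₀ (by norm_num) (by omega)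
    rw [hLd, hP]
    linarith
  have hLhalf : Real.log k ≤ 2 * L := by linarith
  have hLone : 1 ≤ L := by linarith
  have hLbig : 1024 / ε0 ^ 2 ≤ L := by linarith
  have hL0 : 0 < L := by linarith
  have hharm : ∑ j ∈ Ico k (k ^ 2), 1 / (j : ℝ) ≤ 4 * L := by
    have h1 := harm_le k (k ^ 2) (by omega) (Nat.le_self_pow (by norm_num) k)
    have e : ((k ^ 2 : ℕ) : ℝ) / k = k := by
      have : (k : ℝ) ≠ 0 := by linarith
      push_cast
      field_simp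
    rw [e] at h1
    linarith
  have hexp : Real.exp (4 * D / 2 ^ k) ≤ 1 + ε := by
    have h1 := hk4 k g4
    rw [pow_zero, mul_one] at h1
    have h2 : (2 : ℝ) ^ (k / 2) ≤ 2 ^ k := pow_le_pow_right₀ (by norm_num) (by omega)
    have h3 : 0 < Real.log (1 + ε) := Real.log_pos (by linarith)
    have h4 : 4 * D / (2 : ℝ) ^ k ≤ Real.log (1 + ε) := by
      have h5 := h1.trans h2
      rw [div_le_iff₀ h3] at h5
      rw [div_le_iff₀ (by positivity)]
      linarith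
    calc Real.exp (4 * D / 2 ^ k) ≤ Real.exp (Real.log (1 + ε)) := Real.exp_le_exp.2 h4
      _ = 1 + ε := Real.exp_log (by linarith)
  have hJN : (2 ^ (k ^ 2) : ℝ) ^ 2 / N ≤ ε := by
    have h1 := hk5 k g5
    rw [pow_zero, mul_one] at h1
    have h2 : (2 : ℝ) ^ (k / 2) ≤ 2 ^ k := pow_le_pow_right₀ (by norm_num) (by omega)
    have h3 : (2 : ℝ) ^ (2 * k ^ 2 + k) ≤ N := by
      have : 2 ^ (2 * k ^ 2 + k) ≤ N := le_trans (Nat.pow_le_pow_right (by norm_num) (by nlinarith)) h8k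
      exact_mod_cast this
    rw [div_le_iff₀ hN0]
    have h4 : 1 ≤ ε * 2 ^ k := by
      have := h1.trans h2
      rw [div_le_iff₀ hεpos] at this
      linarith
    calc ((2 : ℝ) ^ (k ^ 2)) ^ 2 = (2 : ℝ) ^ (2 * k ^ 2) * 1 := by rw [← pow_mul, mul_one]; congr 1; ring
      _ ≤ (2 : ℝ) ^ (2 * k ^ 2) * (ε * 2 ^ k) := mul_le_mul_of_nonneg_left h4 (by positivity)
      _ = ε * (2 : ℝ) ^ (2 * k ^ 2 + k) := by rw [pow_add]; ring
      _ ≤ ε * N := mul_le_mul_of_nonneg_left h3 hεpos.le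
  have h2k : 2 * D ≤ 2 ^ k := by
    have := Nat.lt_two_pow_self (n := k)
    omega
  -- Turan-Kubilius
  have hPp : ∀ p ∈ P, p.Prime ∧ 2 ^ k < p ∧ p ≤ 2 ^ (k ^ 2) ∧ ¬ RF F p 0 := by
    intro p hp
    rw [hP, mem_PPF, mem_PP] at hp
    exact ⟨hp.1.1, hp.1.2.1, hp.1.2.2, hp.2⟩
  have tk : ∀ z ≤ y, ∑ n ∈ Icc 1 N, ind F z n * (omP P n - L) ^ 2 ≤ N * V F z * (4 * L + 16 * ε * L ^ 2) := by
    intro z hz
    rw [hLd]
    exact turanF hS P z y N k (k ^ 2) ε hPp hεpos.le hε1 FLy hz (by omega) hVyy hN16 h2k h8k hexp (by exact_mod_cast hJN)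
  have tky := tk y le_rfl
  have tkw := tk w hwy
  -- the counts
  have cnt_bound : ∀ z ≤ y, |∑ n ∈ Icc 1 N, ind F z n - N * V F z| ≤ 2 * ε * (N * V F z) := by
    intro z hz
    have h1 := one_count hS (okay_one F 1) y N ε (fun Q hQ => FLy Q hQ N (Nat.le_self_pow (by norm_num) N)) z hz
    have e1 : ∏ p ∈ pz z, (1 - ((ZF F 1 1 p).card : ℝ) / p) = V F z := by
      unfold V rh
      apply prod_congr rfl
      intro p hp
      rw [Z_unit F 1 1 p (mem_pz.1 hp).2 (fun h => absurd (Nat.dvd_one.1 h) (mem_pz.1 hp).2.one_lt.ne')]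
    rw [e1] at h1
    rw [sum_Icc_range]
    simp only [one_mul] at h1
    refine h1.trans ?_
    have hy1 : (1 : ℝ) ≤ y := by exact_mod_cast (by omega : 1 ≤ y)
    have h2 : (N : ℝ) / (y : ℝ) ^ 2 ≤ N * V F z := by
      rw [div_eq_mul_one_div]
      apply mul_le_mul_of_nonneg_left _ hN0.le
      calc 1 / (y : ℝ) ^ 2 ≤ 1 / (y : ℝ) := by
            apply one_div_le_one_div_of_le (by linarith)
            nlinarith
        _ ≤ V F y := hVyy
        _ ≤ V F z := V_anti hS hz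
    have h3 : ε * (N / (y : ℝ) ^ 2) ≤ ε * (N * V F z) := mul_le_mul_of_nonneg_left h2 hεpos.le
    linarith
  have cy := cnt_bound y le_rfl
  have cw := cnt_bound w hwy
  have hNV : 0 < N * V F y := by positivity
  refine ⟨?_, fun z hz => (cnt_bound z hz).trans (mul_le_mul_of_nonneg_right (by linarith) (by have := V_pos hS z; positivity))⟩
  intro g hg hmul
  have hkat' := hkat F hS hF0 k (k ^ 2) w y N ε ε (1 / Real.sqrt w + 4 * ε) hH g8 (Nat.le_self_pow (by norm_num) k) (by omega) hwD hwy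
    (lt_of_le_of_lt g7 Nat.lt_two_pow_self) hN16 h8k hVyy hεpos.le (by linarith) FLy hh0 (by linarith) hηj g hg hmul
  rw [← hP] at hkat'
  -- the bilinear part
  have hA : ‖∑ n ∈ Icc 1 N, g n * (ff F w y n : ℂ) * (omP P n : ℂ)‖ ≤ ε0 / 2 * L * (N * V F y) := by
    refine hkat'.trans ?_
    have b1 : 2 * (N : ℝ) / 2 ^ k ≤ ε0 / 4 * L * (N * V F y) := by
      have h1 := hk3 k g3
      have h2 : (2 : ℝ) ^ (k / 2) ≤ 2 ^ k := pow_le_pow_right₀ (by norm_num) (by omega)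
      have h3 : 8 / ε0 ≤ V F y * 2 ^ k := by
        calc 8 / ε0 = (8 / ε0) * 1 := by ring
          _ ≤ (8 / ε0) * (V F y * (8 ^ B * ((k : ℝ) + 1) ^ (2 * B))) := mul_le_mul_of_nonneg_left hVy (by positivity)
          _ = V F y * (8 ^ B * (8 / ε0) * ((k : ℝ) + 1) ^ (2 * B)) := by ring
          _ ≤ V F y * 2 ^ k := mul_le_mul_of_nonneg_left (h1.trans h2) hVy0.le
      have h4 : 8 ≤ ε0 * (V F y * 2 ^ k) := by
        rw [div_le_iff₀ hε0] at h3
        linarith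
      rw [div_le_iff₀ (by positivity)]
      have h5 : 8 ≤ ε0 * L * (V F y * 2 ^ k) := by
        calc (8 : ℝ) ≤ ε0 * (V F y * 2 ^ k) := h4
          _ = (ε0 * (V F y * 2 ^ k)) * 1 := by ring
          _ ≤ (ε0 * (V F y * 2 ^ k)) * L := mul_le_mul_of_nonneg_left hLone (by positivity)
          _ = _ := by ring
      calc 2 * (N : ℝ) = N / 4 * 8 := by ring
        _ ≤ N / 4 * (ε0 * L * (V F y * 2 ^ k)) := mul_le_mul_of_nonneg_left h5 (by positivity)
        _ = _ := by ring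
    have b2 : Real.sqrt (C * V F w * (1 / Real.sqrt w + 4 * ε)) ≤ ε0 * V F w / 16 := by
      apply Real.sqrt_le_iff.2
      refine ⟨by positivity, ?_⟩
      have h1 : C * (1 / Real.sqrt w + 4 * ε) ≤ ε0 ^ 2 * V F w / 256 := by
        have h2 : C * (4 * ε) ≤ ε0 ^ 2 * κ / 512 := by
          rw [le_div_iff₀ (by positivity)] at hε3
          linarith
        have h3 : C * (1 / Real.sqrt w) = C / Real.sqrt w := by ring
        have h4 : ε0 ^ 2 * κ ≤ ε0 ^ 2 * V F w := mul_le_mul_of_nonneg_left hκV (by positivity)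
        rw [mul_add, h3]
        linarith
      calc C * V F w * (1 / Real.sqrt w + 4 * ε) = (C * (1 / Real.sqrt w + 4 * ε)) * V F w := by ring
        _ ≤ (ε0 ^ 2 * V F w / 256) * V F w := mul_le_mul_of_nonneg_right h1 hVw.le
        _ = (ε0 * V F w / 16) ^ 2 := by ring
    have b3 : (N : ℝ) * vv F w y * Real.sqrt (C * V F w * (1 / Real.sqrt w + 4 * ε)) * ∑ j ∈ Ico k (k ^ 2), 1 / (j : ℝ) ≤
        ε0 / 4 * L * (N * V F y) := by
      calc (N : ℝ) * vv F w y * Real.sqrt (C * V F w * (1 / Real.sqrt w + 4 * ε)) * ∑ j ∈ Ico k (k ^ 2), 1 / (j : ℝ)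
          ≤ (N : ℝ) * vv F w y * (ε0 * V F w / 16) * (4 * L) := by
            apply mul_le_mul _ hharm (sum_nonneg fun _ _ => by positivity) (by positivity)
            exact mul_le_mul_of_nonneg_left b2 (by positivity)
        _ = ε0 / 4 * L * (N * (V F w * vv F w y)) := by ring
        _ = _ := by rw [← V_split F hwy]
    calc _ ≤ ε0 / 4 * L * (N * V F y) + ε0 / 4 * L * (N * V F y) := add_le_add b1 b3
      _ = _ := by ring
  -- the deviation part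
  have hB : ‖∑ n ∈ Icc 1 N, g n * (ff F w y n : ℂ) * ((L - omP P n : ℝ) : ℂ)‖ ≤ ε0 / 4 * L * (N * V F y) := by
    have h1 : ‖∑ n ∈ Icc 1 N, g n * (ff F w y n : ℂ) * ((L - omP P n : ℝ) : ℂ)‖ ≤
        ∑ n ∈ Icc 1 N, Real.sqrt |ff F w y n| * (Real.sqrt |ff F w y n| * |omP P n - L|) := by
      refine (norm_sum_le _ _).trans (sum_le_sum fun n _ => ?_)
      rw [norm_mul, norm_mul, Complex.norm_real, Complex.norm_real, Real.norm_eq_abs, Real.norm_eq_abs, ← mul_assoc,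
        Real.mul_self_sqrt (abs_nonneg _), abs_sub_comm L]
      have := hg n
      have h2 : ‖g n‖ * |ff F w y n| ≤ 1 * |ff F w y n| := mul_le_mul_of_nonneg_right this (abs_nonneg _)
      rw [one_mul] at h2
      exact mul_le_mul_of_nonneg_right h2 (abs_nonneg _)
    have h2 := Finset.sum_mul_sq_le_sq_mul_sq (Icc 1 N) (fun n => Real.sqrt |ff F w y n|) (fun n => Real.sqrt |ff F w y n| * |omP P n - L|)
    have h3 : ∑ n ∈ Icc 1 N, Real.sqrt |ff F w y n| ^ 2 ≤ 4 * (N * V F y) := by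
      calc ∑ n ∈ Icc 1 N, Real.sqrt |ff F w y n| ^ 2 ≤ ∑ n ∈ Icc 1 N, (ind F y n + vv F w y * ind F w n) := by
            apply sum_le_sum
            intro n _
            rw [Real.sq_sqrt (abs_nonneg _)]
            exact (ff_abs hS w y n hwy).2
        _ = ∑ n ∈ Icc 1 N, ind F y n + vv F w y * ∑ n ∈ Icc 1 N, ind F w n := by rw [sum_add_distrib, ← mul_sum]
        _ ≤ 2 * (N * V F y) + vv F w y * (2 * (N * V F w)) := by
            have e1 := (abs_le.1 cy).2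
            have e2 := (abs_le.1 cw).2
            have e3 : 2 * ε * (N * V F y) ≤ 1 * (N * V F y) := mul_le_mul_of_nonneg_right (by linarith) hNV.le
            have e4 : 2 * ε * (N * V F w) ≤ 1 * (N * V F w) := mul_le_mul_of_nonneg_right (by linarith) (by positivity)
            apply add_le_add (by linarith)
            exact mul_le_mul_of_nonneg_left (by linarith) hv0.le
        _ = 4 * (N * V F y) := by rw [V_split F hwy]; ring
    have h4 : ∑ n ∈ Icc 1 N, (Real.sqrt |ff F w y n| * |omP P n - L|) ^ 2 ≤ 2 * (N * V F y) * (4 * L + 16 * ε * L ^ 2) := by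
      calc ∑ n ∈ Icc 1 N, (Real.sqrt |ff F w y n| * |omP P n - L|) ^ 2
          ≤ ∑ n ∈ Icc 1 N, (ind F y n * (omP P n - L) ^ 2 + vv F w y * (ind F w n * (omP P n - L) ^ 2)) := by
            apply sum_le_sum
            intro n _
            rw [mul_pow, Real.sq_sqrt (abs_nonneg _), sq_abs]
            have := (ff_abs hS w y n hwy).2
            calc |ff F w y n| * (omP P n - L) ^ 2 ≤ (ind F y n + vv F w y * ind F w n) * (omP P n - L) ^ 2 :=
                  mul_le_mul_of_nonneg_right this (sq_nonneg _)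
              _ = _ := by ring
        _ = ∑ n ∈ Icc 1 N, ind F y n * (omP P n - L) ^ 2 + vv F w y * ∑ n ∈ Icc 1 N, ind F w n * (omP P n - L) ^ 2 := by
            rw [sum_add_distrib, ← mul_sum]
        _ ≤ N * V F y * (4 * L + 16 * ε * L ^ 2) + vv F w y * (N * V F w * (4 * L + 16 * ε * L ^ 2)) := by
            apply add_le_add tky
            exact mul_le_mul_of_nonneg_left tkw hv0.le
        _ = _ := by rw [V_split F hwy]; ring
    have h5 : 32 * L + 128 * ε * L ^ 2 ≤ (ε0 / 4 * L) ^ 2 := by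
      have e1 : 1024 ≤ ε0 ^ 2 * L := by
        rw [div_le_iff₀ (by positivity)] at hLbig
        linarith
      have e2 : 32 * L ≤ ε0 ^ 2 * L ^ 2 / 32 := by nlinarith
      have e3 : 128 * ε * L ^ 2 ≤ ε0 ^ 2 * L ^ 2 / 32 := by
        have : 128 * ε ≤ ε0 ^ 2 / 32 := by linarith
        calc 128 * ε * L ^ 2 ≤ ε0 ^ 2 / 32 * L ^ 2 := mul_le_mul_of_nonneg_right this (by positivity)
          _ = _ := by ring
      calc 32 * L + 128 * ε * L ^ 2 ≤ ε0 ^ 2 * L ^ 2 / 32 + ε0 ^ 2 * L ^ 2 / 32 := add_le_add e2 e3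
        _ = _ := by ring
    refine h1.trans ?_
    apply le_of_sq_le_sq _ (by positivity)
    refine h2.trans ?_
    calc (∑ n ∈ Icc 1 N, Real.sqrt |ff F w y n| ^ 2) * ∑ n ∈ Icc 1 N, (Real.sqrt |ff F w y n| * |omP P n - L|) ^ 2
        ≤ (4 * (N * V F y)) * (2 * (N * V F y) * (4 * L + 16 * ε * L ^ 2)) :=
          mul_le_mul h3 h4 (sum_nonneg fun _ _ => sq_nonneg _) (by positivity)
      _ = (N * V F y) ^ 2 * (32 * L + 128 * ε * L ^ 2) := by ring
      _ ≤ (N * V F y) ^ 2 * (ε0 / 4 * L) ^ 2 := mul_le_mul_of_nonneg_left h5 (by positivity)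
      _ = _ := by ring
  -- conclusion
  have hsum : (L : ℂ) * ∑ n ∈ Icc 1 N, g n * (ff F w y n : ℂ) =
      ∑ n ∈ Icc 1 N, g n * (ff F w y n : ℂ) * (omP P n : ℂ) + ∑ n ∈ Icc 1 N, g n * (ff F w y n : ℂ) * ((L - omP P n : ℝ) : ℂ) := by
    rw [mul_sum, ← sum_add_distrib]
    apply sum_congr rfl
    intro n _
    push_cast
    ring
  have hfin : L * ‖∑ n ∈ Icc 1 N, g n * (ff F w y n : ℂ)‖ ≤ L * (ε0 * (N * V F y)) := by
    have e1 : L * ‖∑ n ∈ Icc 1 N, g n * (ff F w y n : ℂ)‖ = ‖(L : ℂ) * ∑ n ∈ Icc 1 N, g n * (ff F w y n : ℂ)‖ := by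
      rw [norm_mul, Complex.norm_real, Real.norm_of_nonneg hL0.le]
    rw [e1, hsum]
    refine (norm_add_le _ _).trans ((add_le_add hA hB).trans ?_)
    have : 0 ≤ ε0 * L * (N * V F y) := by positivity
    linarith
  exact le_of_mul_le_mul_left hfin hL0
where
  le_of_sq_le_sq {a b : ℝ} (h : a ^ 2 ≤ b ^ 2) (hb : 0 ≤ b) : a ≤ b := (abs_le_of_sq_le_sq' h hb).2

end Pool.Agent.H31.GP
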