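import Pool.Agent.H31.GP.MultTK

set_option autoImplicit false

/-! # Multiplicative functions along the rough values of a polynomial -/

namespace Pool.Agent.H31.GP

open Finset Filter Topology Polynomial Pool.Agent.H373R2.T7
open Pool.Agent.H31.MF (Prd mid mem_mid pz_split pz_disj PJ mem_PJ PP mem_PP LL sum_PP sum_multiples big_quot card_pf_le sum_inv_sq)
open Pool.Agent.H31.DG (cnt0)

open Classical in
/-- the primes which do not divide `F (0)` -/
noncomputable def PPF (F : ℤ[X]) (J0 J1 : ℕ) : Finset ℕ := (PP J0 J1).filter (fun a => ¬ RF F a 0)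

lemma mem_PPF {F : ℤ[X]} {J0 J1 a : ℕ} : a ∈ PPF F J0 J1 ↔ a ∈ PP J0 J1 ∧ ¬ RF F a 0 := by
  classical
  unfold PPF
  rw [mem_filter]

lemma sum_PPF {β : Type*} [AddCommMonoid β] (F : ℤ[X]) (f : ℕ → β) (J0 J1 : ℕ) (h : J0 ≤ J1) :
    ∑ p ∈ PPF F J0 J1, f p = ∑ j ∈ Ico J0 J1, ∑ p ∈ PJF F j, f p := by
  classical
  unfold PPF PJF
  rw [sum_filter, sum_PP _ J0 J1 h]
  apply sum_congr rfl
  intro j _
  rw [sum_filter]

/-- Multiplicativity and the blocks -/
theorem kat_totalF (D A : ℕ) (hD : 1 ≤ D) : ∃ C : ℝ, 0 < C ∧ ∀ (F : ℤ[X]), Sys F D → F.eval 0 ≠ 0 → ∀ (J0 J1 w y N : ℕ) (ε h0 η : ℝ),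
    (∀ i, |F.coeff i| ≤ (N : ℤ) ^ A) → 2 ≤ J0 → J0 ≤ J1 → 1 ≤ w → 2 * D ≤ w → w ≤ y → w < 2 ^ J0 → 16 ≤ N →
    2 ^ (8 * J1) ≤ N → 1 / (y : ℝ) ≤ V F y → 0 ≤ ε → ε ≤ 1 → FLD D N y ε → h00 F D w y ≤ h0 → h0 ≤ 1 →
    (∀ j ∈ Ico J0 J1, 1 / Real.sqrt w + ε + h0 + ((Nat.log 2 N : ℝ) + 1) / Real.sqrt ((2 ^ (j / 2) : ℕ) : ℝ) +
        j / (2 ^ j * vv F w y) ≤ η) →
    ∀ g : ℕ → ℂ, (∀ n, ‖g n‖ ≤ 1) → (∀ m n : ℕ, m.Coprime n → g (m * n) = g m * g n) →
    ‖∑ n ∈ Icc 1 N, g n * (ff F w y n : ℂ) * (omP (PPF F J0 J1) n : ℂ)‖ ≤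
      2 * N / 2 ^ J0 + N * vv F w y * Real.sqrt (C * V F w * η) * ∑ j ∈ Ico J0 J1, 1 / (j : ℝ) := by
  classical
  obtain ⟨C, hC, hb⟩ := blockKF D A hD
  refine ⟨C, hC, fun F hS hF0 J0 J1 w y N ε h0 η hH hJ0 hJ01 hw hwD hwy hwJ hN hJ1 hVy hε0 hε1 hy hh0 hh01 hη g hg hmul => ?_⟩
  have hv0 := vv_pos hS w y
  have hV := V_pos hS w
  have h00' : 0 ≤ h00 F D w y := by
    unfold h00
    exact sum_nonneg fun _ _ => by positivity
  have h0' : 0 ≤ h0 := h00'.trans hh0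
  have e1 : ∑ n ∈ Icc 1 N, g n * (ff F w y n : ℂ) * (omP (PPF F J0 J1) n : ℂ) =
      ∑ p ∈ PPF F J0 J1, ∑ m ∈ Icc 1 (N / p), g (p * m) * (ff F w y (p * m) : ℂ) := by
    unfold omP
    push_cast
    simp only [mul_sum]
    rw [sum_comm]
    apply sum_congr rfl
    intro p hp
    have hp' := mem_PP.1 (mem_PPF.1 hp).1
    rw [← sum_multiples N p hp'.1.one_lt.le (fun n => g n * (ff F w y n : ℂ)), sum_filter]
    apply sum_congr rfl
    intro n _
    split_ifs <;> simp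
  have e2 : ∀ p ∈ PPF F J0 J1, ∑ m ∈ Icc 1 (N / p), g (p * m) * (ff F w y (p * m) : ℂ) =
      ∑ m ∈ Icc 1 (N / p), g p * g m * (ff F w y (p * m) : ℂ) +
      ∑ m ∈ (Icc 1 (N / p)).filter (fun m => p ∣ m), (g (p * m) - g p * g m) * (ff F w y (p * m) : ℂ) := by
    intro p hp
    have hp' := mem_PP.1 (mem_PPF.1 hp).1
    rw [sum_filter, ← sum_add_distrib]
    apply sum_congr rfl
    intro m _
    split_ifs with h
    · ring
    · rw [hmul p m ((Nat.Prime.coprime_iff_not_dvd hp'.1).2 h), add_zero]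
  have e3 : ∀ p ∈ PPF F J0 J1, ‖∑ m ∈ (Icc 1 (N / p)).filter (fun m => p ∣ m), (g (p * m) - g p * g m) * (ff F w y (p * m) : ℂ)‖ ≤
      2 * N * (1 / (p : ℝ) ^ 2) := by
    intro p hp
    have hp' := mem_PP.1 (mem_PPF.1 hp).1
    have hp0 : 0 < p := hp'.1.pos
    refine (norm_sum_le _ _).trans ?_
    calc ∑ m ∈ (Icc 1 (N / p)).filter (fun m => p ∣ m), ‖(g (p * m) - g p * g m) * (ff F w y (p * m) : ℂ)‖
        ≤ ∑ _m ∈ (Icc 1 (N / p)).filter (fun m => p ∣ m), (2 : ℝ) := by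
          apply sum_le_sum
          intro m _
          rw [norm_mul, Complex.norm_real, Real.norm_eq_abs]
          have k1 : ‖g (p * m) - g p * g m‖ ≤ 2 := by
            refine (norm_sub_le _ _).trans ?_
            have := hg (p * m)
            rw [norm_mul]
            have k2 : ‖g p‖ * ‖g m‖ ≤ 1 := mul_le_one₀ (hg p) (norm_nonneg _) (hg m)
            linarith
          have k3 := (ff_abs hS w y (p * m) hwy).1
          calc ‖g (p * m) - g p * g m‖ * |ff F w y (p * m)| ≤ 2 * 1 := mul_le_mul k1 k3 (abs_nonneg _) (by norm_num)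
            _ = 2 := by norm_num
      _ = 2 * (((Icc 1 (N / p)).filter (fun m => p ∣ m)).card : ℝ) := by rw [sum_const, nsmul_eq_mul]; ring
      _ ≤ 2 * (N * (1 / (p : ℝ) ^ 2)) := by
          apply mul_le_mul_of_nonneg_left _ (by norm_num)
          have k4 : ((Icc 1 (N / p)).filter (fun m => p ∣ m)).card = N / p / p := by
            have := sum_multiples (N / p) p hp0 (fun _ => (1 : ℕ))
            simp only [sum_const, smul_eq_mul, mul_one, Nat.card_Icc, Nat.add_sub_cancel] at this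
            exact this
          rw [k4]
          have k5 : ((N / p / p : ℕ) : ℝ) ≤ (N : ℝ) / p / p := by
            refine Nat.cast_div_le.trans ?_
            apply div_le_div_of_nonneg_right _ (Nat.cast_nonneg _)
            exact Nat.cast_div_le
          refine k5.trans (le_of_eq ?_)
          field_simp
      _ = _ := by ring
  rw [e1, sum_congr rfl e2, sum_add_distrib]
  refine (norm_add_le _ _).trans ?_
  rw [add_comm]
  apply add_le_add
  · refine (norm_sum_le _ _).trans ((sum_le_sum e3).trans ?_)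
    rw [← mul_sum]
    have k1 := sum_inv_sq (2 ^ J0) (2 ^ J1) Nat.one_le_two_pow
    have k2 : PPF F J0 J1 ⊆ mid (2 ^ J0) (2 ^ J1) := by
      intro p hp
      rw [mem_mid, ← mem_PP]
      exact (mem_PPF.1 hp).1
    push_cast at k1
    calc 2 * (N : ℝ) * ∑ i ∈ PPF F J0 J1, 1 / (i : ℝ) ^ 2 ≤ 2 * (N : ℝ) * ∑ i ∈ mid (2 ^ J0) (2 ^ J1), 1 / (i : ℝ) ^ 2 :=
          mul_le_mul_of_nonneg_left (sum_le_sum_of_subset_of_nonneg k2 (fun _ _ _ => by positivity)) (by positivity)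
      _ ≤ 2 * N * (1 / 2 ^ J0) := mul_le_mul_of_nonneg_left k1 (by positivity)
      _ = _ := by ring
  · rw [sum_PPF F _ J0 J1 hJ01]
    refine (norm_sum_le _ _).trans ?_
    rw [mul_sum]
    apply sum_le_sum
    intro j hj
    have hj' := mem_Ico.1 hj
    have hwj : w < 2 ^ j := lt_of_lt_of_le hwJ (Nat.pow_le_pow_right (by norm_num) hj'.1)
    have h4 : (2 ^ (j + 1)) ^ 4 ≤ N := by
      calc (2 ^ (j + 1)) ^ 4 = 2 ^ (4 * (j + 1)) := by rw [← pow_mul]; congr 1; ring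
        _ ≤ 2 ^ (8 * J1) := Nat.pow_le_pow_right (by norm_num) (by omega)
        _ ≤ N := hJ1
    have h5 := hb F hS hF0 j w y N ε h0 hH (by omega) hw hwD hwy hwj hN h4 hVy hε0 hε1 hy hh0 hh01 g hg
    have hj0 : (0 : ℝ) < j := by exact_mod_cast (by omega : 0 < j)
    have h6 : ‖∑ a ∈ PJF F j, ∑ m ∈ Icc 1 (N / a), g a * g m * (ff F w y (a * m) : ℂ)‖ ^ 2 ≤
        (N * vv F w y * Real.sqrt (C * V F w * η) * (1 / j)) ^ 2 := by
      refine h5.trans ?_
      have hη0 : 0 ≤ η := le_trans (by positivity) (hη j hj)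
      have e4 : ((N : ℝ) * vv F w y * Real.sqrt (C * V F w * η) * (1 / j)) ^ 2 = (N * vv F w y / j) ^ 2 * (C * V F w * η) := by
        have h7 := Real.sq_sqrt (show 0 ≤ C * V F w * η by positivity)
        calc ((N : ℝ) * vv F w y * Real.sqrt (C * V F w * η) * (1 / j)) ^ 2 = (N * vv F w y / j) ^ 2 * Real.sqrt (C * V F w * η) ^ 2 := by ring
          _ = _ := by rw [h7]
      rw [e4]
      apply mul_le_mul_of_nonneg_left _ (by positivity)
      exact mul_le_mul_of_nonneg_left (hη j hj) (by positivity)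
    exact (abs_le_of_sq_le_sq' h6 (by positivity)).2

end Pool.Agent.H31.GP
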