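import Pool.Agent.H31.GP.MultFin
import Pool.Agent.H31.GP.DigitMean
import Pool.Agent.H31.MF.Liou

set_option autoImplicit false

/-! # Multiplicative functions of `m + b` along the rough values of a polynomial at `m` -/

namespace Pool.Agent.H31.GP

open Finset Filter Topology Polynomial Pool.Agent.H373R2.T7
open Pool.Agent.H31.MF (Prd mid mem_mid pz_split pz_disj class_sum_le liou_classes)
open Pool.Agent.H31.DG (cnt0)

/-- the translation to the left -/
noncomputable def tz (b : ℕ) (F : ℤ[X]) : ℤ[X] := taylor (-(b : ℤ)) F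

lemma RF_tz (b : ℕ) (F : ℤ[X]) (p n : ℕ) : RF (tz b F) p (n + b) ↔ RF F p n := by
  unfold RF tz
  rw [taylor_eval]
  push_cast
  rw [show (n : ℤ) + b + -(b : ℤ) = n by ring]

lemma eval_tz (b : ℕ) (F : ℤ[X]) : (tz b F).eval 0 = F.eval (-(b : ℤ)) := by
  unfold tz
  rw [taylor_eval, zero_add]

lemma RF_tz0 (b : ℕ) (F : ℤ[X]) (p : ℕ) : RF (tz b F) p 0 ↔ (p : ℤ) ∣ F.eval (-(b : ℤ)) := by
  unfold RF
  rw [Nat.cast_zero, eval_tz]

lemma Sys_tz {F : ℤ[X]} {D : ℕ} (hF : Sys F D) (b : ℕ) : Sys (tz b F) D := by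
  refine ⟨?_, fun p hp => ?_⟩
  · unfold tz
    rw [natDegree_taylor]
    exact hF.deg
  · obtain ⟨n, hn⟩ := hF.fix p hp
    exact ⟨n + b, fun h => hn ((RF_tz b F p n).1 h)⟩

lemma ZF_tz (b : ℕ) (F : ℤ[X]) (p : ℕ) (hp : p.Prime) : (ZF (tz b F) 1 0 p).card = (ZF F 1 0 p).card := by
  classical
  rw [← Z_unit (tz b F) 1 b p hp (fun h => hp.one_lt.ne' (Nat.dvd_one.1 h))]
  congr 1
  ext n
  rw [mem_ZF, mem_ZF, one_mul, RF_tz, add_zero]

lemma V_tz (b : ℕ) (F : ℤ[X]) (y : ℕ) : V (tz b F) y = V F y := by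
  unfold V
  apply prod_congr rfl
  intro p hp
  unfold rh
  rw [ZF_tz b F p (mem_pz.1 hp).2]

lemma vv_tz (b : ℕ) (F : ℤ[X]) (w y : ℕ) : vv (tz b F) w y = vv F w y := by
  unfold vv
  apply prod_congr rfl
  intro p hp
  unfold rh
  rw [ZF_tz b F p (mem_mid.1 hp).1]

lemma ind_tz (b : ℕ) (F : ℤ[X]) (y n : ℕ) : ind (tz b F) y (n + b) = ind F y n := by
  have h : Rgh (tz b F) y (n + b) ↔ Rgh F y n := by
    unfold Rgh
    constructor
    · intro h p hp h1
      exact h p hp ((RF_tz b F p n).2 h1)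
    · intro h p hp h1
      exact h p hp ((RF_tz b F p n).1 h1)
  unfold ind
  by_cases h1 : Rgh F y n
  · rw [if_pos h1, if_pos (h.2 h1)]
  · rw [if_neg h1, if_neg (fun h2 => h1 (h.1 h2))]

lemma ff_tz (b : ℕ) (F : ℤ[X]) (w y n : ℕ) : ff (tz b F) w y (n + b) = ff F w y n := by
  unfold ff
  rw [ind_tz, ind_tz, vv_tz]

lemma coeff_tz {F : ℤ[X]} {D : ℕ} (hD : F.natDegree ≤ D) (b : ℕ) (K : ℤ) (hK : ∀ i, |F.coeff i| ≤ K) (L : ℕ) (hL : 1 ≤ L) (hML : b ≤ L) (i : ℕ) :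
    |(tz b F).coeff i| ≤ (D + 1) * (2 ^ D * K * L ^ D) := by
  have hK0 : 0 ≤ K := (abs_nonneg _).trans (hK 0)
  unfold tz
  rw [taylor_coeff, eval_eq_sum_range' (n := D + 1) ((natDegree_hasseDeriv_le F i).trans_lt (by omega))]
  refine (abs_sum_le_sum_abs _ _).trans ?_
  calc ∑ j ∈ range (D + 1), |(hasseDeriv i F).coeff j * (-(b : ℤ)) ^ j| ≤ ∑ _j ∈ range (D + 1), (2 ^ D * K * L ^ D : ℤ) := by
        apply sum_le_sum
        intro j hj
        rw [mem_range] at hj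
        rw [hasseDeriv_coeff, abs_mul, abs_mul, abs_pow, abs_neg, Nat.abs_cast, Nat.abs_cast]
        have h3 : (b : ℤ) ^ j ≤ (L : ℤ) ^ D := by
          calc (b : ℤ) ^ j ≤ (L : ℤ) ^ j := pow_le_pow_left₀ (by positivity) (by exact_mod_cast hML) _
            _ ≤ (L : ℤ) ^ D := pow_le_pow_right₀ (by exact_mod_cast hL) (by omega)
        by_cases hjD : j + i ≤ D
        · have h1 : (((j + i).choose i : ℕ) : ℤ) ≤ 2 ^ D := by
            have : (j + i).choose i ≤ 2 ^ D := (Nat.choose_le_two_pow _ _).trans (Nat.pow_le_pow_right (by norm_num) hjD)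
            exact_mod_cast this
          exact mul_le_mul (mul_le_mul h1 (hK _) (abs_nonneg _) (by positivity)) h3 (by positivity) (by positivity)
        · have h0 : F.coeff (j + i) = 0 := coeff_eq_zero_of_natDegree_lt (by omega)
          rw [h0, abs_zero, mul_zero, zero_mul]
          positivity
    _ = _ := by rw [sum_const, card_range, nsmul_eq_mul]; push_cast; ring

lemma coeff_tz_pow (D A : ℕ) : ∀ᶠ N : ℕ in atTop, ∀ F : ℤ[X], F.natDegree ≤ D → (∀ i, |F.coeff i| ≤ (N : ℤ) ^ A) →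
    ∀ b : ℕ, b ≤ N → ∀ i, |(tz b F).coeff i| ≤ (N : ℤ) ^ (A + D + 1) := by
  filter_upwards [eventually_ge_atTop ((D + 1) * 2 ^ D), eventually_ge_atTop 1] with N h1 hN F hF hH M hM i
  have h2 := coeff_tz hF M ((N : ℤ) ^ A) hH N hN hM i
  refine h2.trans ?_
  have h3 : (((D + 1) * 2 ^ D : ℕ) : ℤ) ≤ N := by exact_mod_cast h1
  push_cast at h3 ⊢
  calc ((D : ℤ) + 1) * (2 ^ D * (N : ℤ) ^ A * (N : ℤ) ^ D) = ((D + 1) * 2 ^ D) * ((N : ℤ) ^ A * (N : ℤ) ^ D) := by ring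
    _ ≤ N * ((N : ℤ) ^ A * (N : ℤ) ^ D) := mul_le_mul_of_nonneg_right h3 (by positivity)
    _ = _ := by ring

/-- the counts -/
lemma cntAll (D : ℕ) (hD : 1 ≤ D) (ε : ℝ) (hε : 0 < ε) : ∃ r : ℕ, 1 ≤ r ∧ ∀ᶠ N : ℕ in atTop, ∀ F : ℤ[X], Sys F D →
    ∀ z : ℕ, z ^ r ≤ N → |∑ n ∈ Icc 1 N, ind F z n - N * V F z| ≤ ε * (N * V F z) := by
  classical
  obtain ⟨B, n1, hV1⟩ := V_low2 D hD
  obtain ⟨r, hr, hfl⟩ := flD D hD (ε / 2) (by positivity)
  refine ⟨r, hr, ?_⟩
  filter_upwards [hfl, eventually_ge_atTop 1, eventually_ge_atTop ((max n1 4) ^ r)] with N hflN hN hN1 F hS z hzr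
  obtain ⟨y, hy⟩ : ∃ y, y = max z (max n1 4) := ⟨_, rfl⟩
  have hzy : z ≤ y := by rw [hy]; exact le_max_left _ _
  have hny : max n1 4 ≤ y := by rw [hy]; exact le_max_right _ _
  have hyr : y ^ r ≤ N := by
    rcases le_total z (max n1 4) with h | h
    · rw [hy, max_eq_right h]; exact hN1
    · rw [hy, max_eq_left h]; exact hzr
  have hy4 : 4 ≤ y := (le_max_right _ _).trans hny
  have hN0 : (0 : ℝ) < N := by exact_mod_cast hN
  have hVyy := (hV1 F hS y ((le_max_left _ _).trans hny)).2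
  have FLy : FLD D N y (ε / 2) := hflN y (by omega) hyr
  have h1 := one_count hS (okay_one F 1) y N (ε / 2) (fun Q hQ => FLy Q hQ N (Nat.le_self_pow (by norm_num) N)) z hzy
  have e1 : ∏ p ∈ pz z, (1 - ((ZF F 1 1 p).card : ℝ) / p) = V F z := by
    unfold V rh
    apply prod_congr rfl
    intro p hp
    rw [Z_unit F 1 1 p (mem_pz.1 hp).2 (fun h => absurd (Nat.dvd_one.1 h) (mem_pz.1 hp).2.one_lt.ne')]
  rw [e1] at h1
  rw [sum_Icc_range]
  simp only [one_mul] at h1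
  refine h1.trans ?_
  have hy1 : (1 : ℝ) ≤ y := by exact_mod_cast (by omega : 1 ≤ y)
  have h2 : (N : ℝ) / (y : ℝ) ^ 2 ≤ N * V F z := by
    rw [div_eq_mul_one_div]
    apply mul_le_mul_of_nonneg_left _ hN0.le
    calc 1 / (y : ℝ) ^ 2 ≤ 1 / (y : ℝ) := by
          apply one_div_le_one_div_of_le (by linarith)
          nlinarith
      _ ≤ V F y := hVyy
      _ ≤ V F z := V_anti hS hzy
  have h3 : ε / 2 * (N / (y : ℝ) ^ 2) ≤ ε / 2 * (N * V F z) := mul_le_mul_of_nonneg_left h2 (by positivity)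
  linarith

/-- a lower bound for the product, for a fixed bound for the primes -/
lemma V_lowG (D w : ℕ) : ∃ κ : ℝ, 0 < κ ∧ ∀ F : ℤ[X], Sys F D → κ ≤ V F w := by
  refine ⟨∏ p ∈ pz w, 1 / (p : ℝ), prod_pos fun p hp => ?_, fun F hS => ?_⟩
  · have := (mem_pz.1 hp).2.pos
    positivity
  · unfold V
    apply Finset.prod_le_prod
    · intro p _; positivity
    · intro p hp
      exact rh_inv hS (mem_pz.1 hp).2

open Classical in
/-- the sum of `1 / l` over the primes `l` in `(w, y]` which divide `F (-b)` -/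
noncomputable def hb (F : ℤ[X]) (b w y : ℕ) : ℝ := ∑ l ∈ (mid w y).filter (fun l : ℕ => (l : ℤ) ∣ F.eval (-(b : ℤ))), 1 / (l : ℝ)

lemma hz_tz (F : ℤ[X]) (b w y : ℕ) : hz (tz b F) w y = hb F b w y := by
  unfold hz hb
  simp only [RF_tz0]

/-- **Multiplicative functions of `m + b`** -/
theorem multShift (D A : ℕ) (hD : 1 ≤ D) (ε : ℝ) (hε : 0 < ε) : ∃ w0 : ℕ, 4 ≤ w0 ∧ ∀ w : ℕ, w0 ≤ w → ∃ (r : ℕ) (δ : ℝ), 1 ≤ r ∧ 0 < δ ∧ 1 / (w * δ) ≤ ε ∧
    ∀ᶠ N : ℕ in atTop, ∀ F : ℤ[X], Sys F D → (∀ i, |F.coeff i| ≤ (N : ℤ) ^ A) → ∀ b : ℕ, b ≤ N → F.eval (-(b : ℤ)) ≠ 0 →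
    ∀ y : ℕ, w ≤ y → y ^ r ≤ N → hb F b w y ≤ δ →
    ∀ g : ℕ → ℂ, (∀ n, ‖g n‖ ≤ 1) → (∀ m n : ℕ, m.Coprime n → g (m * n) = g m * g n) →
      ‖∑ m ∈ Icc 1 N, g (m + b) * (ff F w y m : ℂ)‖ ≤ ε * (N * V F y) := by
  classical
  obtain ⟨B, n1, hV1⟩ := V_low2 D hD
  obtain ⟨w00, hw4', hmm⟩ := multMean D (2 * (A + D + 1)) hD (ε / 4) (by positivity)
  refine ⟨w00, hw4', fun w0 hw0 => ?_⟩
  have hw4 : 4 ≤ w0 := hw4'.trans hw0
  obtain ⟨r0, δ, hr0, hδ, hwδ, hmain⟩ := hmm w0 hw0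
  rw [eventually_atTop] at hmain
  obtain ⟨N0, hN0⟩ := hmain
  obtain ⟨r, hr⟩ : ∃ r, r = max (2 * r0) 4 := ⟨_, rfl⟩
  have hr2 : 2 * r0 ≤ r := by rw [hr]; exact le_max_left _ _
  have hr4 : 4 ≤ r := by rw [hr]; exact le_max_right _ _
  refine ⟨r, δ, by omega, hδ, hwδ.trans (by linarith), ?_⟩
  filter_upwards [coeff_tz_pow D A, eventually_ge_atTop (max (N0 ^ 2) N0), eventually_ge_atTop 1, eventually_ge_atTop ⌈(4 / ε) ^ 4⌉₊,
    eventually_ge_atTop (n1 ^ 4)] with N hco hNN hN hNε hNn1 F hS hH b hb hb0 y hwy hyr hhb g hg hmul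
  have hN0' : (0 : ℝ) < N := by exact_mod_cast hN
  obtain ⟨G, hG⟩ : ∃ G, G = tz b F := ⟨_, rfl⟩
  have hGS : Sys G D := by rw [hG]; exact Sys_tz hS b
  have hG0 : G.eval 0 ≠ 0 := by rw [hG, eval_tz]; exact hb0
  have hGc : ∀ i, |G.coeff i| ≤ (N : ℤ) ^ (A + D + 1) := by
    intro i
    rw [hG]
    exact hco F hS.deg hH b hb i
  have hGh : hz G w0 y ≤ δ := by rw [hG, hz_tz]; exact hhb
  have hVG : V G y = V F y := by rw [hG, V_tz]
  have hVy := V_pos hS y
  have hN1 : (1 : ℤ) ≤ N := by exact_mod_cast hN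
  -- the sum as a difference
  have e1 : ∑ m ∈ Icc 1 N, g (m + b) * (ff F w0 y m : ℂ) =
      ∑ n ∈ Icc 1 (b + N), g n * (ff G w0 y n : ℂ) - ∑ n ∈ Icc 1 b, g n * (ff G w0 y n : ℂ) := by
    rw [sum_Icc_range, sum_Icc_range, sum_Icc_range, sum_range_add, add_sub_cancel_left]
    apply sum_congr rfl
    intro m _
    rw [hG, show b + m + 1 = (m + 1) + b by ring, ff_tz]
  rw [e1]
  have hbig : ∀ M : ℕ, N0 ≤ M → N ≤ M ^ 2 → M ≤ 2 * N → y ^ r0 ≤ M →
      ‖∑ n ∈ Icc 1 M, g n * (ff G w0 y n : ℂ)‖ ≤ ε / 4 * (2 * N * V F y) := by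
    intro M hM0 hM2 hM3 hyM
    have hcM : ∀ i, |G.coeff i| ≤ (M : ℤ) ^ (2 * (A + D + 1)) := by
      intro i
      refine (hGc i).trans ?_
      have : (N : ℤ) ≤ (M : ℤ) ^ 2 := by exact_mod_cast hM2
      calc (N : ℤ) ^ (A + D + 1) ≤ ((M : ℤ) ^ 2) ^ (A + D + 1) := pow_le_pow_left₀ (by positivity) this _
        _ = _ := by rw [← pow_mul]
    have h1 := (hN0 M hM0 G hGS hG0 hcM y hwy hyM hGh).1 g hg hmul
    rw [hVG] at h1
    refine h1.trans ?_
    apply mul_le_mul_of_nonneg_left _ (by positivity)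
    apply mul_le_mul_of_nonneg_right _ hVy.le
    exact_mod_cast hM3
  have hN00 : N0 ^ 2 ≤ N := (le_max_left _ _).trans hNN
  have hN01 : N0 ≤ N := (le_max_right _ _).trans hNN
  have hyN : y ^ r0 ≤ N := (Nat.pow_le_pow_right (by omega) (by omega)).trans hyr
  have hA := hbig (b + N) (by omega) (by nlinarith) (by omega) (by omega)
  have hB : ‖∑ n ∈ Icc 1 b, g n * (ff G w0 y n : ℂ)‖ ≤ ε / 4 * (2 * N * V F y) := by
    by_cases hbN : N ≤ b ^ 2
    · apply hbig b _ hbN (by omega) _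
      · by_contra h
        push Not at h
        have := Nat.pow_lt_pow_left h (show 2 ≠ 0 by norm_num)
        omega
      · by_contra h
        push Not at h
        have h1 : b ^ 2 < (y ^ r0) ^ 2 := Nat.pow_lt_pow_left h (by norm_num)
        have h2 : (y ^ r0) ^ 2 = y ^ (2 * r0) := by rw [← pow_mul, mul_comm]
        have h3 : y ^ (2 * r0) ≤ y ^ r := Nat.pow_le_pow_right (by omega) hr2
        omega
    · push Not at hbN
      -- trivial estimate
      have h1 : ‖∑ n ∈ Icc 1 b, g n * (ff G w0 y n : ℂ)‖ ≤ b := by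
        refine (norm_sum_le _ _).trans ?_
        calc ∑ n ∈ Icc 1 b, ‖g n * (ff G w0 y n : ℂ)‖ ≤ ∑ _n ∈ Icc 1 b, (1 : ℝ) := by
              apply sum_le_sum
              intro n _
              rw [norm_mul, Complex.norm_real, Real.norm_eq_abs]
              exact mul_le_one₀ (hg n) (abs_nonneg _) (ff_abs hGS w0 y n hwy).1
          _ = b := by simp
      refine h1.trans ?_
      have hb2 : (b : ℝ) ^ 2 ≤ N := by exact_mod_cast hbN.le
      -- a lower bound for `V`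
      have hVlow : (1 : ℝ) ≤ (V F y) ^ 4 * N := by
        rcases le_or_gt n1 y with h | h
        · have h2 := (hV1 F hS y h).2
          have hy0 : (0 : ℝ) < y := by exact_mod_cast (by omega : 0 < y)
          have h3 : (1 / (y : ℝ)) ^ 4 ≤ V F y ^ 4 := pow_le_pow_left₀ (by positivity) h2 4
          have h4 : (y : ℝ) ^ 4 ≤ N := by
            have : y ^ 4 ≤ N := (Nat.pow_le_pow_right (by omega) hr4).trans hyr
            exact_mod_cast this
          calc (1 : ℝ) = (1 / (y : ℝ)) ^ 4 * (y : ℝ) ^ 4 := by field_simp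
            _ ≤ V F y ^ 4 * N := mul_le_mul h3 h4 (by positivity) (by positivity)
        · have h2 := (hV1 F hS n1 le_rfl).2
          have h5 : V F n1 ≤ V F y := V_anti hS h.le
          have hn0 : (0 : ℝ) < n1 := by exact_mod_cast (by omega : 0 < n1)
          have h3 : (1 / (n1 : ℝ)) ^ 4 ≤ V F y ^ 4 := pow_le_pow_left₀ (by positivity) (h2.trans h5) 4
          have h4 : (n1 : ℝ) ^ 4 ≤ N := by exact_mod_cast hNn1
          calc (1 : ℝ) = (1 / (n1 : ℝ)) ^ 4 * (n1 : ℝ) ^ 4 := by field_simp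
            _ ≤ V F y ^ 4 * N := mul_le_mul h3 h4 (by positivity) (by positivity)
      have hNε' : (4 / ε) ^ 4 ≤ N := (Nat.le_ceil _).trans (by exact_mod_cast hNε)
      -- `b ≤ ε / 4 * (2 N V)`
      have h2 : (b : ℝ) ≤ ε / 4 * (N * V F y) := by
        apply le_of_pow_le_pow_left₀ (show 4 ≠ 0 by norm_num) (by positivity)
        have h3 : (b : ℝ) ^ 4 ≤ (N : ℝ) ^ 2 := by
          calc (b : ℝ) ^ 4 = ((b : ℝ) ^ 2) ^ 2 := by ring
            _ ≤ (N : ℝ) ^ 2 := pow_le_pow_left₀ (by positivity) hb2 2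
        have h4 : 1 ≤ (ε / 4) ^ 4 * N := by
          have e : (ε / 4) ^ 4 * (4 / ε) ^ 4 = 1 := by field_simp
          calc (1 : ℝ) = (ε / 4) ^ 4 * (4 / ε) ^ 4 := e.symm
            _ ≤ (ε / 4) ^ 4 * N := mul_le_mul_of_nonneg_left hNε' (by positivity)
        calc (b : ℝ) ^ 4 ≤ (N : ℝ) ^ 2 * (1 * 1) := by linarith
          _ ≤ (N : ℝ) ^ 2 * (((ε / 4) ^ 4 * N) * ((V F y) ^ 4 * N)) := by
              apply mul_le_mul_of_nonneg_left _ (by positivity)
              exact mul_le_mul h4 hVlow (by norm_num) (by positivity)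
          _ = (ε / 4 * (N * V F y)) ^ 4 := by ring
      have : 0 ≤ ε / 4 * (N * V F y) := by positivity
      linarith
  refine (norm_sub_le _ _).trans ((add_le_add hA hB).trans (le_of_eq ?_))
  ring

/-- the Liouville function on the classes, uniformly -/
theorem liou_classesF (w : ℕ) (δ : ℝ) (hδ : 0 < δ) : ∀ᶠ N : ℕ in atTop, ∀ F : ℤ[X],
    ‖∑ n ∈ Icc 1 N, liR n * (ind F w n : ℂ)‖ ≤ δ * N := by
  classical
  set W := ∏ p ∈ pz w, p with hW
  have hW1 : 1 ≤ W := Nat.one_le_iff_ne_zero.2 (prod_ne_zero_iff.2 fun p hp => (mem_pz.1 hp).2.ne_zero)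
  obtain ⟨N0, h0⟩ := sup_liou 1
  obtain ⟨N1, h1⟩ := ev_L' ((W : ℝ) / δ)
  filter_upwards [eventually_ge_atTop (max (max N0 N1) 3)] with N hN F
  have g1 := h0 N (le_trans (le_trans (le_max_left _ _) (le_max_left _ _)) hN)
  have g2 := h1 N (le_trans (le_trans (le_max_right _ _) (le_max_left _ _)) hN)
  have g3 : 3 ≤ N := le_trans (le_max_right _ _) hN
  have hlog : 0 < Real.log N := Real.log_pos (by exact_mod_cast (by omega : 1 < N))
  have e1 : ∑ n ∈ Icc 1 N, liR n * (ind F w n : ℂ) =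
      ∑ b ∈ (range W).filter (fun b => Rgh F w b), ∑ n ∈ (Icc 1 N).filter (fun n : ℕ => (W : ℤ) ∣ (n : ℤ) - b), liR n := by
    have e2 : ∀ b ∈ (range W).filter (fun b => Rgh F w b), ∑ n ∈ (Icc 1 N).filter (fun n : ℕ => (W : ℤ) ∣ (n : ℤ) - b), liR n =
        ∑ n ∈ Icc 1 N, if (W : ℤ) ∣ (n : ℤ) - b then liR n else 0 := fun b _ => sum_filter _ _
    rw [sum_congr rfl e2, sum_comm]
    apply sum_congr rfl
    intro n _
    have e3 : ∀ b ∈ (range W).filter (fun b => Rgh F w b), (if (W : ℤ) ∣ (n : ℤ) - b then liR n else 0) = if b = n % W then liR n else 0 := by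
      intro b hb
      rw [mem_filter, mem_range] at hb
      have : ((W : ℤ) ∣ (n : ℤ) - b) ↔ b = n % W := by
        rw [← Nat.modEq_iff_dvd]
        constructor
        · intro h
          have h1 : b % W = n % W := h
          rwa [Nat.mod_eq_of_lt hb.1] at h1
        · intro h
          show b % W = n % W
          rw [h, Nat.mod_mod]
      simp only [this]
    rw [sum_congr rfl e3, sum_ite_eq']
    have e4 : (n % W ∈ (range W).filter (fun b => Rgh F w b)) ↔ Rgh F w n := by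
      rw [mem_filter, mem_range, Rgh_modF F w n, ← hW]
      exact ⟨fun h => h.2, fun h => ⟨Nat.mod_lt _ hW1, h⟩⟩
    simp only [e4]
    unfold ind
    split_ifs <;> simp
  rw [e1]
  refine (norm_sum_le _ _).trans ?_
  calc ∑ b ∈ (range W).filter (fun b => Rgh F w b), ‖∑ n ∈ (Icc 1 N).filter (fun n : ℕ => (W : ℤ) ∣ (n : ℤ) - b), liR n‖
      ≤ ∑ _b ∈ (range W).filter (fun b => Rgh F w b), (N : ℝ) / Real.log N ^ 1 :=
        sum_le_sum fun b _ => class_sum_le liR N W b hW1 _ g1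
    _ ≤ W * ((N : ℝ) / Real.log N ^ 1) := by
        rw [sum_const, nsmul_eq_mul]
        apply mul_le_mul_of_nonneg_right _ (by positivity)
        have := card_filter_le (range W) (fun b => Rgh F w b)
        rw [card_range] at this
        exact_mod_cast this
    _ ≤ δ * N := by
        rw [pow_one, mul_div_assoc', div_le_iff₀ hlog]
        rw [div_le_iff₀ hδ] at g2
        have : (0 : ℝ) ≤ N := Nat.cast_nonneg _
        nlinarith

/-- the Liouville function of `m + b` -/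
theorem liou_shift (w : ℕ) (δ : ℝ) (hδ : 0 < δ) : ∀ᶠ N : ℕ in atTop, ∀ F : ℤ[X], ∀ b : ℕ, b ≤ N →
    ‖∑ m ∈ Icc 1 N, liR (m + b) * (ind F w m : ℂ)‖ ≤ δ * N := by
  have h0 := liou_classesF w (δ / 4) (by positivity)
  rw [eventually_atTop] at h0
  obtain ⟨N0, hN0⟩ := h0
  filter_upwards [eventually_ge_atTop N0, eventually_ge_atTop ⌈4 * (N0 : ℝ) / δ⌉₊] with N hN hNδ F b hb
  have e1 : ∑ m ∈ Icc 1 N, liR (m + b) * (ind F w m : ℂ) =
      ∑ n ∈ Icc 1 (b + N), liR n * (ind (tz b F) w n : ℂ) - ∑ n ∈ Icc 1 b, liR n * (ind (tz b F) w n : ℂ) := by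
    rw [sum_Icc_range, sum_Icc_range, sum_Icc_range, sum_range_add, add_sub_cancel_left]
    apply sum_congr rfl
    intro m _
    rw [show b + m + 1 = (m + 1) + b by ring, ind_tz]
  rw [e1]
  have h1 := hN0 (b + N) (by omega) (tz b F)
  have hbN : (b : ℝ) ≤ N := by exact_mod_cast hb
  have h2 : ‖∑ n ∈ Icc 1 b, liR n * (ind (tz b F) w n : ℂ)‖ ≤ δ / 4 * N := by
    rcases le_or_gt N0 b with h | h
    · exact (hN0 b h (tz b F)).trans (mul_le_mul_of_nonneg_left hbN (by positivity))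
    · have h3 : ‖∑ n ∈ Icc 1 b, liR n * (ind (tz b F) w n : ℂ)‖ ≤ b := by
        refine (norm_sum_le _ _).trans ?_
        calc ∑ n ∈ Icc 1 b, ‖liR n * (ind (tz b F) w n : ℂ)‖ ≤ ∑ _n ∈ Icc 1 b, (1 : ℝ) := by
              apply sum_le_sum
              intro n _
              rw [norm_mul, Complex.norm_real, Real.norm_eq_abs, abs_of_nonneg (ind_nonneg _ _ _)]
              exact mul_le_one₀ (liR_norm n) (ind_nonneg _ _ _) (ind_le_one _ _ _)
          _ = b := by simp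
      have h4 : 4 * (N0 : ℝ) / δ ≤ N := (Nat.le_ceil _).trans (by exact_mod_cast hNδ)
      rw [div_le_iff₀ hδ] at h4
      have h5 : (b : ℝ) ≤ N0 := by exact_mod_cast h.le
      linarith
  refine (norm_sub_le _ _).trans ((add_le_add h1 h2).trans ?_)
  push_cast
  nlinarith

end Pool.Agent.H31.GP
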