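import Pool.Agent.H31.GP.Kat2

set_option autoImplicit false

/-! # The inequality of Turan and Kubilius along the rough values of a polynomial -/

namespace Pool.Agent.H31.GP

open Finset Filter Topology Polynomial Pool.Agent.H373R2.T7
open Pool.Agent.H31.MF (Prd mid mem_mid pz_split pz_disj PJ mem_PJ PP mem_PP sum_PP sum_multiples big_quot card_pf_le prime_filter_card sum_inv_sq)
open Pool.Agent.H31.DG (cnt0)

/-- the count for the multiples of `a` -/
noncomputable def XF (F : ℤ[X]) (z N a : ℕ) : ℝ := ∑ m ∈ Icc 1 (N / a), ind F z (a * m)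

lemma XF_bounds {F : ℤ[X]} {D : ℕ} (hS : Sys F D) (z y N a P0 k : ℕ) (ε : ℝ) (hε0 : 0 ≤ ε) (hε1 : ε ≤ 1 / 3) (h : FLD D N y ε) (hzy : z ≤ y)
    (hy : 1 ≤ y) (hVy : 1 / (y : ℝ) ≤ V F y) (hN : 16 ≤ N) (ha : 1 ≤ a) (ha4 : a ^ 4 ≤ N) (ho : Okay F a a)
    (hP0 : 2 * D ≤ P0) (hP1 : 1 ≤ P0) (hap : ∀ p : ℕ, p.Prime → p ∣ a → P0 ≤ p) (hk : ((pz z).filter (fun p => p ∣ a)).card ≤ k)
    (hexp : Real.exp (2 * D * k / P0) ≤ 1 + ε) (haN : (a : ℝ) / N ≤ ε) :
    |XF F z N a - (N : ℝ) / a * V F z| ≤ 4 * ε * ((N : ℝ) / a * V F z) := by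
  have h1 := one_count hS ho y (N / a) ε (fun Q hQ => h Q hQ _ (big_quot N a hN ha ha4)) z hzy
  obtain ⟨h2, h3⟩ := prd1F hS ho z P0 hP0 hP1 hap k hk
  have hV := V_pos hS z
  have ha0 : (0 : ℝ) < a := by exact_mod_cast ha
  have hN0 : (0 : ℝ) < N := by exact_mod_cast (by omega : 0 < N)
  have hy0 : (1 : ℝ) ≤ y := by exact_mod_cast hy
  set M : ℝ := ((N / a : ℕ) : ℝ) with hM
  have hM0 : 0 ≤ M := Nat.cast_nonneg _
  have hM1 : M ≤ (N : ℝ) / a := Nat.cast_div_le
  have hM2 : (N : ℝ) / a * (1 - ε) ≤ M := by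
    have h4 : (N : ℝ) / a - 1 ≤ M := by
      have := Nat.lt_div_mul_add (a := N) ha
      have h5 : (N : ℝ) < (N / a : ℕ) * a + a := by exact_mod_cast this
      rw [← hM] at h5
      rw [sub_le_iff_le_add, div_le_iff₀ ha0]
      linarith
    have h5 : 1 ≤ (N : ℝ) / a * ε := by
      rw [div_le_iff₀ hN0] at haN
      rw [div_mul_eq_mul_div, le_div_iff₀ ha0]
      linarith
    linarith
  set Pr := ∏ p ∈ pz z, (1 - ((ZF F a a p).card : ℝ) / p) with hPrd
  have hPr : Pr ≤ V F z * (1 + ε) := h3.trans (mul_le_mul_of_nonneg_left hexp hV.le)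
  set T := (N : ℝ) / a with hT
  have hT0 : 0 < T := by positivity
  unfold XF
  rw [sum_Icc_range]
  simp only [Nat.mul_add, Nat.mul_one]
  have h4 : ε * (M / (y : ℝ) ^ 2) ≤ ε * (T * V F z) := by
    apply mul_le_mul_of_nonneg_left _ hε0
    rw [div_eq_mul_one_div]
    apply mul_le_mul hM1 _ (by positivity) hT0.le
    calc 1 / (y : ℝ) ^ 2 ≤ 1 / (y : ℝ) := by
          apply one_div_le_one_div_of_le (by linarith)
          nlinarith
      _ ≤ V F y := hVy
      _ ≤ V F z := V_anti hS hzy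
  have h5 := abs_le.1 h1
  have hPr0 : 0 ≤ Pr := hV.le.trans h2
  have u1 : M * Pr ≤ T * (V F z * (1 + ε)) := mul_le_mul hM1 hPr hPr0 hT0.le
  have u2 : T * (1 - ε) * V F z ≤ M * Pr := mul_le_mul hM2 h2 hV.le hM0
  have hTV : 0 < T * V F z := by positivity
  have u3 : ε * (M * Pr) ≤ ε * (T * (V F z * (1 + ε))) := mul_le_mul_of_nonneg_left u1 hε0
  rw [abs_le]
  constructor
  · have : (1 - ε) * (T * (1 - ε) * V F z) ≤ (1 - ε) * (M * Pr) := mul_le_mul_of_nonneg_left u2 (by linarith)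
    nlinarith
  · have e : (1 + ε) * (T * (V F z * (1 + ε))) = (T * V F z) * (1 + 2 * ε + ε ^ 2) := by ring
    have : ε ^ 2 ≤ ε := by nlinarith
    nlinarith

noncomputable def LP (P : Finset ℕ) : ℝ := ∑ p ∈ P, 1 / (p : ℝ)

noncomputable def omP (P : Finset ℕ) (n : ℕ) : ℝ := ∑ p ∈ P, if p ∣ n then 1 else 0

theorem turanF {F : ℤ[X]} {D : ℕ} (hS : Sys F D) (P : Finset ℕ) (z y N J0 J1 : ℕ) (ε : ℝ)
    (hP : ∀ p ∈ P, p.Prime ∧ 2 ^ J0 < p ∧ p ≤ 2 ^ J1 ∧ ¬ RF F p 0) (hε0 : 0 ≤ ε) (hε1 : ε ≤ 1 / 3) (h : FLD D N y ε) (hzy : z ≤ y) (hy : 1 ≤ y)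
    (hVy : 1 / (y : ℝ) ≤ V F y) (hN : 16 ≤ N) (hJ0 : 2 * D ≤ 2 ^ J0)
    (hJ1 : 2 ^ (8 * J1) ≤ N) (hexp : Real.exp (4 * D / 2 ^ J0) ≤ 1 + ε) (hJN : (2 ^ J1 : ℝ) ^ 2 / N ≤ ε) :
    ∑ n ∈ Icc 1 N, ind F z n * (omP P n - LP P) ^ 2 ≤ N * V F z * (4 * LP P + 16 * ε * LP P ^ 2) := by
  classical
  set L := LP P with hL
  have hL0 : 0 ≤ L := sum_nonneg fun _ _ => by positivity
  have hV := V_pos hS z
  have hN0 : (0 : ℝ) < N := by exact_mod_cast (by omega : 0 < N)
  have hTV : 0 < N * V F z := by positivity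
  have hbound : ∀ a : ℕ, 1 ≤ a → a ≤ (2 ^ J1) ^ 2 → Okay F a a → (∀ p : ℕ, p.Prime → p ∣ a → 2 ^ J0 ≤ p) →
      ((pz z).filter (fun p => p ∣ a)).card ≤ 2 → |XF F z N a - (N : ℝ) / a * V F z| ≤ 4 * ε * ((N : ℝ) / a * V F z) := by
    intro a ha1 ha2 ho ha3 ha4
    apply XF_bounds hS z y N a (2 ^ J0) 2 ε hε0 hε1 h hzy hy hVy hN ha1 _ ho hJ0 Nat.one_le_two_pow ha3 ha4
    · refine le_trans (le_of_eq ?_) hexp
      push_cast
      congr 1
      ring
    · refine le_trans ?_ hJN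
      apply div_le_div_of_nonneg_right _ hN0.le
      exact_mod_cast ha2
    · calc a ^ 4 ≤ ((2 ^ J1) ^ 2) ^ 4 := Nat.pow_le_pow_left ha2 4
        _ = 2 ^ (8 * J1) := by rw [← pow_mul, ← pow_mul]; congr 1; ring
        _ ≤ N := hJ1
  -- the three sums
  have s0 : |∑ n ∈ Icc 1 N, ind F z n - N * V F z| ≤ 4 * ε * (N * V F z) := by
    have h1 := hbound 1 le_rfl (Nat.one_le_pow _ _ (by positivity)) (okay_one F 1) (fun p hp h => absurd (Nat.dvd_one.1 h) hp.one_lt.ne') (by
      have : (pz z).filter (fun p => p ∣ 1) = ∅ := by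
        rw [filter_eq_empty_iff]
        intro p hp h
        exact absurd (Nat.dvd_one.1 h) (mem_pz.1 hp).2.one_lt.ne'
      rw [this]; simp)
    unfold XF at h1
    simp only [Nat.div_one, one_mul, Nat.cast_one, div_one] at h1
    exact h1
  have hXp : ∀ p ∈ P, |XF F z N p - (N : ℝ) / p * V F z| ≤ 4 * ε * ((N : ℝ) / p * V F z) := by
    intro p hp
    have hp' := hP p hp
    apply hbound p hp'.1.one_lt.le
    · calc p ≤ 2 ^ J1 := hp'.2.2.1
        _ ≤ (2 ^ J1) ^ 2 := Nat.le_self_pow (by norm_num) _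
    · exact okay_prime hp'.1 hp'.2.2.2
    · intro q hq hqp
      rw [(Nat.prime_dvd_prime_iff_eq hq hp'.1).1 hqp]
      exact hp'.2.1.le
    · exact (prime_filter_card p z hp'.1).trans (by norm_num)
  have hXpq : ∀ p ∈ P, ∀ q ∈ P, |XF F z N (p * q) - (N : ℝ) / (p * q) * V F z| ≤ 4 * ε * ((N : ℝ) / (p * q) * V F z) := by
    intro p hp q hq
    have hp' := hP p hp
    have hq' := hP q hq
    have h1 := hbound (p * q) (Nat.mul_pos hp'.1.pos hq'.1.pos) (by
      calc p * q ≤ 2 ^ J1 * 2 ^ J1 := Nat.mul_le_mul hp'.2.2.1 hq'.2.2.1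
        _ = (2 ^ J1) ^ 2 := by ring) (by
      intro r hr hrpq
      rcases (Nat.Prime.dvd_mul hr).1 hrpq with h1 | h1
      · have h2 := (Nat.prime_dvd_prime_iff_eq hr hp'.1).1 h1
        subst h2
        rw [RF_mul F r _ (dvd_mul_right _ _)]
        exact hp'.2.2.2
      · have h2 := (Nat.prime_dvd_prime_iff_eq hr hq'.1).1 h1
        subst h2
        rw [RF_mul F r _ (dvd_mul_left _ _)]
        exact hq'.2.2.2) (by
      intro r hr hrpq
      rcases (Nat.Prime.dvd_mul hr).1 hrpq with h1 | h1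
      · rw [(Nat.prime_dvd_prime_iff_eq hr hp'.1).1 h1]; exact hp'.2.1.le
      · rw [(Nat.prime_dvd_prime_iff_eq hr hq'.1).1 h1]; exact hq'.2.1.le) (by
      calc ((pz z).filter (fun r => r ∣ p * q)).card ≤ ({p, q} : Finset ℕ).card := by
            apply card_le_card
            intro r hr
            rw [mem_filter, mem_pz] at hr
            rw [mem_insert, mem_singleton]
            rcases (Nat.Prime.dvd_mul hr.1.2).1 hr.2 with h1 | h1
            · left; exact (Nat.prime_dvd_prime_iff_eq hr.1.2 hp'.1).1 h1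
            · right; exact (Nat.prime_dvd_prime_iff_eq hr.1.2 hq'.1).1 h1
        _ ≤ 2 := card_le_two)
    push_cast at h1
    exact h1
  have s1 : ∑ n ∈ Icc 1 N, ind F z n * omP P n = ∑ p ∈ P, XF F z N p := by
    unfold omP
    simp only [mul_sum]
    rw [sum_comm]
    apply sum_congr rfl
    intro p hp
    unfold XF
    rw [← sum_multiples N p (hP p hp).1.one_lt.le (fun n => ind F z n), sum_filter]
    apply sum_congr rfl
    intro n _
    split_ifs <;> simp
  have s2 : ∑ n ∈ Icc 1 N, ind F z n * omP P n ^ 2 ≤ ∑ p ∈ P, XF F z N p + ∑ p ∈ P, ∑ q ∈ P, XF F z N (p * q) := by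
    have e1 : ∑ n ∈ Icc 1 N, ind F z n * omP P n ^ 2 =
        ∑ p ∈ P, ∑ q ∈ P, ∑ n ∈ Icc 1 N, (if p ∣ n ∧ q ∣ n then ind F z n else 0) := by
      have : ∀ n, ind F z n * omP P n ^ 2 = ∑ p ∈ P, ∑ q ∈ P, (if p ∣ n ∧ q ∣ n then ind F z n else 0) := by
        intro n
        unfold omP
        rw [sq, sum_mul_sum, mul_sum]
        apply sum_congr rfl
        intro p _
        rw [mul_sum]
        apply sum_congr rfl
        intro q _
        by_cases h1 : p ∣ n <;> by_cases h2 : q ∣ n <;> simp [h1, h2]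
      simp only [this]
      rw [sum_comm]
      apply sum_congr rfl
      intro p _
      rw [sum_comm]
    rw [e1, ← sum_add_distrib]
    apply sum_le_sum
    intro p hp
    have hp' := hP p hp
    have hX0 : ∀ a, 0 ≤ XF F z N a := fun a => sum_nonneg fun m _ => ind_nonneg _ _ _
    calc ∑ q ∈ P, ∑ n ∈ Icc 1 N, (if p ∣ n ∧ q ∣ n then ind F z n else 0)
        ≤ ∑ q ∈ P, ((if q = p then XF F z N p else 0) + XF F z N (p * q)) := by
          apply sum_le_sum
          intro q hq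
          have hq' := hP q hq
          by_cases hqp : q = p
          · rw [if_pos hqp, hqp]
            have : ∑ n ∈ Icc 1 N, (if p ∣ n ∧ p ∣ n then ind F z n else 0) = XF F z N p := by
              unfold XF
              rw [← sum_multiples N p hp'.1.one_lt.le (fun n => ind F z n), sum_filter]
              apply sum_congr rfl
              intro n _
              simp
            rw [this]
            have := hX0 (p * p)
            linarith
          · rw [if_neg hqp, zero_add]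
            have hcop : Nat.Coprime p q := (Nat.coprime_primes hp'.1 hq'.1).2 (Ne.symm hqp)
            unfold XF
            rw [← sum_multiples N (p * q) (Nat.mul_pos hp'.1.pos hq'.1.pos) (fun n => ind F z n), sum_filter]
            apply sum_le_sum
            intro n _
            by_cases hn : p ∣ n ∧ q ∣ n
            · rw [if_pos hn, if_pos (hcop.mul_dvd_of_dvd_of_dvd hn.1 hn.2)]
            · rw [if_neg hn]
              split_ifs
              · exact ind_nonneg _ _ _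
              · exact le_rfl
      _ = XF F z N p + ∑ q ∈ P, XF F z N (p * q) := by
          rw [sum_add_distrib, sum_ite_eq' P p (fun _ => XF F z N p), if_pos hp]
  -- numerical bounds
  have t1 : ∑ p ∈ P, XF F z N p ≤ (1 + 4 * ε) * (N * V F z * L) ∧ (1 - 4 * ε) * (N * V F z * L) ≤ ∑ p ∈ P, XF F z N p := by
    have e : N * V F z * L = ∑ p ∈ P, (N : ℝ) / p * V F z := by
      rw [hL]; unfold LP; rw [mul_sum]
      apply sum_congr rfl
      intro p _
      ring
    rw [e, mul_sum, mul_sum]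
    constructor
    · apply sum_le_sum
      intro p hp
      have := (abs_le.1 (hXp p hp)).2
      linarith
    · apply sum_le_sum
      intro p hp
      have := (abs_le.1 (hXp p hp)).1
      linarith
  have t2 : ∑ p ∈ P, ∑ q ∈ P, XF F z N (p * q) ≤ (1 + 4 * ε) * (N * V F z * L ^ 2) := by
    have e : N * V F z * L ^ 2 = ∑ p ∈ P, ∑ q ∈ P, (N : ℝ) / (p * q) * V F z := by
      rw [hL]; unfold LP; rw [sq, sum_mul_sum, mul_sum]
      apply sum_congr rfl
      intro p _
      rw [mul_sum]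
      apply sum_congr rfl
      intro q _
      ring
    rw [e, mul_sum]
    apply sum_le_sum
    intro p hp
    rw [mul_sum]
    apply sum_le_sum
    intro q hq
    have := (abs_le.1 (hXpq p hp q hq)).2
    linarith
  have e0 : ∑ n ∈ Icc 1 N, ind F z n * (omP P n - L) ^ 2 =
      ∑ n ∈ Icc 1 N, ind F z n * omP P n ^ 2 - 2 * L * ∑ n ∈ Icc 1 N, ind F z n * omP P n + L ^ 2 * ∑ n ∈ Icc 1 N, ind F z n := by
    rw [mul_sum, mul_sum, ← sum_sub_distrib, ← sum_add_distrib]
    apply sum_congr rfl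
    intro n _
    ring
  rw [e0, s1]
  have s0' := (abs_le.1 s0).2
  have w1 : L ^ 2 * ∑ n ∈ Icc 1 N, ind F z n ≤ L ^ 2 * ((1 + 4 * ε) * (N * V F z)) :=
    mul_le_mul_of_nonneg_left (by linarith) (by positivity)
  have w2 : 2 * L * ((1 - 4 * ε) * (N * V F z * L)) ≤ 2 * L * ∑ p ∈ P, XF F z N p :=
    mul_le_mul_of_nonneg_left t1.2 (by positivity)
  have w3 : ε * (N * V F z * L) ≤ 1 / 3 * (N * V F z * L) := mul_le_mul_of_nonneg_right hε1 (by positivity)
  have w4 : 0 ≤ N * V F z * L := by positivity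
  nlinarith [t1.1, t2]

end Pool.Agent.H31.GP
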