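import Pool.Agent.H31.GP.Prod

set_option autoImplicit false

/-! # Correlations of two affine forms -/

namespace Pool.Agent.H31.GP

open Finset Filter Topology Polynomial Pool.Agent.H373R2.T7
open Pool.Agent.H31.MF (Prd mid mem_mid pz_split pz_disj exp_ge one_sub_sum_le_prod sum_inv_sq)
open Pool.Agent.H31.DG (cnt0 cnt_mod0 Prd_nonneg)

/-- the bad primes -/
def BadF (F : ℤ[X]) (a b c d l : ℕ) : Prop := l ∣ a ∨ l ∣ c ∨ ∃ n : ℕ, RF F l (a * n + b) ∧ RF F l (c * n + d)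

open Classical in
noncomputable def hF (F : ℤ[X]) (D a b c d w y : ℕ) : ℝ := ∑ l ∈ (mid w y).filter (fun l => BadF F a b c d l), (4 * D : ℝ) / (l : ℝ)

lemma hF_nonneg (F : ℤ[X]) (D a b c d w y : ℕ) : 0 ≤ hF F D a b c d w y := sum_nonneg fun _ _ => by positivity

/-- admissible affine form without prime factors `≤ w` in the leading coefficient -/
def Good (F : ℤ[X]) (w a b : ℕ) : Prop := Okay F a b ∧ ∀ p : ℕ, p.Prime → p ∣ a → w < p

noncomputable def DDF (F : ℤ[X]) (a b c d w : ℕ) : ℝ := ∏ p ∈ pz w, (1 - ((ZF F a b p ∪ ZF F c d p).card : ℝ) / p)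

lemma fac0 (F : ℤ[X]) (a b c d p : ℕ) (hp : p.Prime) : 0 ≤ 1 - ((ZF F a b p ∪ ZF F c d p).card : ℝ) / p := by
  have hp0 : (0 : ℝ) < p := by exact_mod_cast hp.pos
  have h1 : ((ZF F a b p ∪ ZF F c d p).card : ℝ) / p ≤ 1 := by
    rw [div_le_one hp0]
    have h := nuB_le (QF F a b c d p p) p
    rw [nuF, if_pos le_rfl, if_pos le_rfl] at h
    exact_mod_cast h
  linarith

lemma DDF_nonneg (F : ℤ[X]) (a b c d w : ℕ) : 0 ≤ DDF F a b c d w := prod_nonneg fun p hp => fac0 F a b c d p (mem_pz.1 hp).2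

lemma DDF_le {F : ℤ[X]} {a b w : ℕ} (c d : ℕ) (h : Good F w a b) : DDF F a b c d w ≤ V F w := by
  unfold DDF V
  apply Finset.prod_le_prod
  · intro p hp
    exact fac0 F a b c d p (mem_pz.1 hp).2
  · intro p hp
    obtain ⟨h1, h2⟩ := mem_pz.1 hp
    have h3 : ¬ p ∣ a := fun h' => by have := h.2 p h2 h'; omega
    unfold rh
    rw [← Z_unit F a b p h2 h3]
    have h4 : ((ZF F a b p).card : ℝ) / p ≤ ((ZF F a b p ∪ ZF F c d p).card : ℝ) / p := by
      apply div_le_div_of_nonneg_right _ (Nat.cast_nonneg _)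
      exact_mod_cast card_le_card subset_union_left
    linarith

lemma prdF_split (F : ℤ[X]) (a b c d w y y₁ y₂ : ℕ) (h : w ≤ y) (h1 : w ≤ y₁) (h2 : w ≤ y₂) :
    Prd (QF F a b c d y₁ y₂) y = DDF F a b c d w * ∏ p ∈ mid w y, (1 - (((if p ≤ y₁ then ZF F a b p else ∅) ∪ (if p ≤ y₂ then ZF F c d p else ∅)).card : ℝ) / p) := by
  unfold Prd DDF
  rw [pz_split h, prod_union (pz_disj w y)]
  congr 1
  · apply prod_congr rfl
    intro p hp
    have := (mem_pz.1 hp).1
    rw [nuF, if_pos (this.trans h1), if_pos (this.trans h2)]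
  · apply prod_congr rfl
    intro p hp
    rw [nuF]

noncomputable def AmF (F : ℤ[X]) (a b w y : ℕ) : ℝ := ∏ p ∈ mid w y, (1 - ((ZF F a b p).card : ℝ) / p)
noncomputable def CmF (F : ℤ[X]) (a b c d w y : ℕ) : ℝ := ∏ p ∈ mid w y, (1 - ((ZF F a b p ∪ ZF F c d p).card : ℝ) / p)

lemma prdF_yy (F : ℤ[X]) (a b c d w y : ℕ) (h : w ≤ y) : Prd (QF F a b c d y y) y = DDF F a b c d w * CmF F a b c d w y := by
  rw [prdF_split F a b c d w y y y h h h]
  unfold CmF
  congr 1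
  apply prod_congr rfl
  intro p hp
  rw [if_pos (mem_mid.1 hp).2.2, if_pos (mem_mid.1 hp).2.2]

lemma prdF_yw (F : ℤ[X]) (a b c d w y : ℕ) (h : w ≤ y) : Prd (QF F a b c d y w) y = DDF F a b c d w * AmF F a b w y := by
  rw [prdF_split F a b c d w y y w h h le_rfl]
  unfold AmF
  congr 1
  apply prod_congr rfl
  intro p hp
  rw [if_pos (mem_mid.1 hp).2.2, if_neg (by have := (mem_mid.1 hp).2.1; omega), union_empty]

lemma prdF_wy (F : ℤ[X]) (a b c d w y : ℕ) (h : w ≤ y) : Prd (QF F a b c d w y) y = DDF F a b c d w * AmF F c d w y := by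
  rw [prdF_split F a b c d w y w y h le_rfl h]
  unfold AmF
  congr 1
  apply prod_congr rfl
  intro p hp
  rw [if_pos (mem_mid.1 hp).2.2, if_neg (by have := (mem_mid.1 hp).2.1; omega), empty_union]

lemma prdF_ww (F : ℤ[X]) (a b c d w y : ℕ) (h : w ≤ y) : Prd (QF F a b c d w w) y = DDF F a b c d w := by
  rw [prdF_split F a b c d w y w w h le_rfl le_rfl]
  have : ∏ p ∈ mid w y, (1 - (((if p ≤ w then ZF F a b p else ∅) ∪ (if p ≤ w then ZF F c d p else ∅)).card : ℝ) / p) = 1 := by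
    apply prod_eq_one
    intro p hp
    rw [if_neg (by have := (mem_mid.1 hp).2.1; omega), if_neg (by have := (mem_mid.1 hp).2.1; omega)]
    simp
  rw [this, mul_one]

lemma rh_half {F : ℤ[X]} {D : ℕ} (hS : Sys F D) {w p : ℕ} (hwD : 2 * D ≤ w) (hp : p.Prime) (hwp : w < p) : rh F p ≤ 1 / 2 := by
  have hp0 : (0 : ℝ) < p := by exact_mod_cast hp.pos
  refine (rh_le hS hp).trans ?_
  rw [div_le_div_iff₀ hp0 (by norm_num)]
  have : (2 * D : ℝ) ≤ p := by exact_mod_cast (by omega : 2 * D ≤ p)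
  linarith

lemma fac1 {F : ℤ[X]} {D : ℕ} (hS : Sys F D) {a b : ℕ} (ho : Okay F a b) {p : ℕ} (hp : p.Prime) :
    0 ≤ 1 - ((ZF F a b p).card : ℝ) / p := by
  have hp0 : (0 : ℝ) < p := by exact_mod_cast hp.pos
  have h1 := Z_le ho p hp
  have h2 := Z_lt_p hS hp
  have h3 : ((ZF F a b p).card : ℝ) / p ≤ 1 := by
    rw [div_le_one hp0]
    exact_mod_cast (by omega : (ZF F a b p).card ≤ p)
  linarith

lemma AmF_bounds {F : ℤ[X]} {D : ℕ} (hS : Sys F D) {a b : ℕ} (ho : Okay F a b) (w y : ℕ) (hwD : 2 * D ≤ w) :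
    vv F w y ≤ AmF F a b w y ∧ AmF F a b w y ≤ vv F w y * Real.exp (∑ l ∈ (mid w y).filter (fun l => l ∣ a), (4 * D : ℝ) / (l : ℝ)) := by
  constructor
  · unfold vv AmF
    apply Finset.prod_le_prod
    · intro p hp
      have := rh_lt hS (mem_mid.1 hp).1
      linarith
    · intro p hp
      unfold rh
      have h1 : ((ZF F a b p).card : ℝ) / p ≤ ((ZF F 1 0 p).card : ℝ) / p := by
        apply div_le_div_of_nonneg_right _ (Nat.cast_nonneg _)
        exact_mod_cast Z_le ho p (mem_mid.1 hp).1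
      linarith
  · have h1 : AmF F a b w y ≤ ∏ p ∈ mid w y, ((1 - rh F p) * (if p ∣ a then Real.exp (4 * D / p) else 1)) := by
      unfold AmF
      apply Finset.prod_le_prod
      · intro p hp
        exact fac1 hS ho (mem_mid.1 hp).1
      · intro p hp
        obtain ⟨h1, h2, h3⟩ := mem_mid.1 hp
        have hp0 : (0 : ℝ) < p := by exact_mod_cast h1.pos
        split_ifs with h
        · rw [Z_none F a b p h (ho p h1 h)]
          have h4 := rh_le hS h1
          have h5 := rh_nonneg F p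
          have h6 := rh_half hS hwD h1 h2
          have h7 := exp_ge h5 h6
          have h8 : Real.exp (2 * rh F p) ≤ Real.exp (4 * D / p) := by
            apply Real.exp_le_exp.2
            have e : (4 * D : ℝ) / p = 2 * (D / p) + 2 * (D / p) := by ring
            have : 0 ≤ (D : ℝ) / p := by positivity
            rw [e]
            linarith
          have h9 : (1 - rh F p) * Real.exp (2 * rh F p) ≤ (1 - rh F p) * Real.exp (4 * D / p) :=
            mul_le_mul_of_nonneg_left h8 (by linarith)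
          simp only [card_empty, Nat.cast_zero, zero_div, sub_zero]
          linarith
        · rw [mul_one, Z_unit F a b p h1 h]
          exact le_rfl
    refine h1.trans ?_
    rw [prod_mul_distrib]
    unfold vv
    apply mul_le_mul_of_nonneg_left _ (vv_pos hS w y).le
    rw [← prod_filter, Real.exp_sum]

lemma AmF_le {F : ℤ[X]} {D : ℕ} (hS : Sys F D) {a b : ℕ} (ho : Okay F a b) (c d w y : ℕ) (hwD : 2 * D ≤ w) :
    AmF F a b w y ≤ vv F w y * Real.exp (hF F D a b c d w y) := by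
  classical
  refine (AmF_bounds hS ho w y hwD).2.trans (mul_le_mul_of_nonneg_left (Real.exp_le_exp.2 ?_) (vv_pos hS w y).le)
  unfold hF
  apply sum_le_sum_of_subset_of_nonneg
  · intro l hl
    rw [mem_filter] at hl ⊢
    exact ⟨hl.1, Or.inl hl.2⟩
  · intro l _ _; positivity

lemma AmF_le' {F : ℤ[X]} {D : ℕ} (hS : Sys F D) {c d : ℕ} (ho : Okay F c d) (a b w y : ℕ) (hwD : 2 * D ≤ w) :
    AmF F c d w y ≤ vv F w y * Real.exp (hF F D a b c d w y) := by
  classical
  refine (AmF_bounds hS ho w y hwD).2.trans (mul_le_mul_of_nonneg_left (Real.exp_le_exp.2 ?_) (vv_pos hS w y).le)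
  unfold hF
  apply sum_le_sum_of_subset_of_nonneg
  · intro l hl
    rw [mem_filter] at hl ⊢
    exact ⟨hl.1, Or.inr (Or.inl hl.2)⟩
  · intro l _ _; positivity

lemma Z_disj {F : ℤ[X]} {a b c d p : ℕ} (h : ¬ BadF F a b c d p) : Disjoint (ZF F a b p) (ZF F c d p) := by
  rw [disjoint_left]
  intro n hn hn'
  rw [mem_ZF] at hn hn'
  exact h (Or.inr (Or.inr ⟨n, hn.2, hn'.2⟩))

lemma CmF_le {F : ℤ[X]} {D : ℕ} (hS : Sys F D) (a b c d w y : ℕ) (hwD : 2 * D ≤ w) :
    CmF F a b c d w y ≤ vv F w y ^ 2 * Real.exp (hF F D a b c d w y) := by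
  classical
  have h1 : CmF F a b c d w y ≤ ∏ p ∈ mid w y, ((1 - rh F p) ^ 2 * (if BadF F a b c d p then Real.exp (4 * D / p) else 1)) := by
    unfold CmF
    apply Finset.prod_le_prod
    · intro p hp
      exact fac0 F a b c d p (mem_mid.1 hp).1
    · intro p hp
      obtain ⟨h1, h2, h3⟩ := mem_mid.1 hp
      have hp0 : (0 : ℝ) < p := by exact_mod_cast h1.pos
      have h4 := rh_le hS h1
      have h5 := rh_nonneg F p
      have h6 := rh_half hS hwD h1 h2
      split_ifs with h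
      · have h7 := exp_ge h5 h6
        have h8 : Real.exp (2 * (2 * rh F p)) ≤ Real.exp (4 * D / p) := by
          apply Real.exp_le_exp.2
          calc 2 * (2 * rh F p) ≤ 2 * (2 * (D / p)) := by linarith
            _ = 4 * D / p := by ring
        have h9 : 1 ≤ ((1 - rh F p) * Real.exp (2 * rh F p)) ^ 2 := one_le_pow₀ h7
        have h10 : ((1 - rh F p) * Real.exp (2 * rh F p)) ^ 2 = (1 - rh F p) ^ 2 * Real.exp (2 * (2 * rh F p)) := by
          rw [mul_pow, ← Real.exp_nat_mul]; norm_num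
        have h11 : (1 - rh F p) ^ 2 * Real.exp (2 * (2 * rh F p)) ≤ (1 - rh F p) ^ 2 * Real.exp (4 * D / p) :=
          mul_le_mul_of_nonneg_left h8 (by positivity)
        have h12 : 0 ≤ ((ZF F a b p ∪ ZF F c d p).card : ℝ) / p := by positivity
        linarith
      · rw [mul_one]
        have h' := h
        unfold BadF at h'
        push Not at h'
        rw [card_union_of_disjoint (Z_disj h), Z_unit F a b p h1 h'.1, Z_unit F c d p h1 h'.2.1]
        have e : (((ZF F 1 0 p).card + (ZF F 1 0 p).card : ℕ) : ℝ) / p = 2 * rh F p := by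
          unfold rh; push_cast; ring
        rw [e]
        nlinarith
  refine h1.trans ?_
  rw [prod_mul_distrib]
  unfold vv
  rw [prod_pow]
  apply mul_le_mul_of_nonneg_left _ (by have := (vv_pos hS w y); unfold vv at this; positivity)
  unfold hF
  rw [← prod_filter, Real.exp_sum]

lemma CmF_ge {F : ℤ[X]} {D : ℕ} (hS : Sys F D) {a b c d : ℕ} (h1 : Okay F a b) (h2 : Okay F c d) (w y : ℕ) (hw : 1 ≤ w) (hwD : 2 * D ≤ w) :
    vv F w y ^ 2 * (1 - 4 * D ^ 2 / w) ≤ CmF F a b c d w y := by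
  have hle1 : ∀ p ∈ mid w y, (4 * D ^ 2 : ℝ) / (p : ℝ) ^ 2 ≤ 1 := by
    intro p hp
    obtain ⟨h1, h2, h3⟩ := mem_mid.1 hp
    have hp0 : (0 : ℝ) < p := by exact_mod_cast h1.pos
    have : (2 * D : ℝ) ≤ p := by exact_mod_cast (by omega : 2 * D ≤ p)
    rw [div_le_one (by positivity)]
    nlinarith [(Nat.cast_nonneg D : (0 : ℝ) ≤ D)]
  have h1 : ∏ p ∈ mid w y, ((1 - rh F p) ^ 2 * (1 - 4 * D ^ 2 / (p : ℝ) ^ 2)) ≤ CmF F a b c d w y := by
    unfold CmF
    apply Finset.prod_le_prod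
    · intro p hp
      have := hle1 p hp
      apply mul_nonneg (by positivity) (by linarith)
    · intro p hp
      obtain ⟨hp1, hp2, hp3⟩ := mem_mid.1 hp
      have hp0 : (0 : ℝ) < p := by exact_mod_cast hp1.pos
      have h4 := rh_le hS hp1
      have h5 := rh_nonneg F p
      have h6 := rh_half hS hwD hp1 hp2
      have h7 : ((ZF F a b p ∪ ZF F c d p).card : ℝ) / p ≤ 2 * rh F p := by
        have : (ZF F a b p ∪ ZF F c d p).card ≤ (ZF F 1 0 p).card + (ZF F 1 0 p).card :=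
          (card_union_le _ _).trans (add_le_add (Z_le h1 p hp1) (Z_le h2 p hp1))
        have h8 : ((ZF F a b p ∪ ZF F c d p).card : ℝ) ≤ (ZF F 1 0 p).card + (ZF F 1 0 p).card := by exact_mod_cast this
        calc ((ZF F a b p ∪ ZF F c d p).card : ℝ) / p ≤ ((ZF F 1 0 p).card + (ZF F 1 0 p).card) / p :=
              div_le_div_of_nonneg_right h8 hp0.le
          _ = 2 * rh F p := by unfold rh; ring
      have h8 : rh F p ^ 2 ≤ D ^ 2 / (p : ℝ) ^ 2 := by
        calc rh F p ^ 2 ≤ (D / (p : ℝ)) ^ 2 := pow_le_pow_left₀ h5 h4 2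
          _ = D ^ 2 / (p : ℝ) ^ 2 := by rw [div_pow]
      have h9 : 1 / 4 ≤ (1 - rh F p) ^ 2 := by nlinarith
      have h10 : D ^ 2 / (p : ℝ) ^ 2 ≤ (1 - rh F p) ^ 2 * (4 * D ^ 2 / (p : ℝ) ^ 2) := by
        calc D ^ 2 / (p : ℝ) ^ 2 = (1 / 4) * (4 * D ^ 2 / (p : ℝ) ^ 2) := by ring
          _ ≤ _ := mul_le_mul_of_nonneg_right h9 (by positivity)
      nlinarith
  refine le_trans ?_ h1
  rw [prod_mul_distrib, prod_pow]
  unfold vv
  apply mul_le_mul_of_nonneg_left _ (by have := (vv_pos hS w y); unfold vv at this; positivity)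
  have h2 := one_sub_sum_le_prod (mid w y) (fun p => 4 * D ^ 2 / (p : ℝ) ^ 2) (fun p _ => by positivity) hle1
  refine le_trans ?_ h2
  have h3 := sum_inv_sq w y hw
  have h4 : ∑ p ∈ mid w y, (4 * D ^ 2 : ℝ) / (p : ℝ) ^ 2 = 4 * D ^ 2 * ∑ p ∈ mid w y, 1 / (p : ℝ) ^ 2 := by
    rw [mul_sum]
    apply sum_congr rfl
    intro p _
    ring
  rw [h4]
  have h5 : (4 * D ^ 2 : ℝ) / (w : ℝ) = 4 * D ^ 2 * (1 / w) := by ring
  rw [h5]
  have h6 : (0 : ℝ) ≤ 4 * D ^ 2 := by positivity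
  have := mul_le_mul_of_nonneg_left h3 h6
  linarith

/-! ## the functions -/

/-- `F (n)` has no prime factor `≤ y` -/
def Rgh (F : ℤ[X]) (y n : ℕ) : Prop := ∀ p ∈ pz y, ¬ RF F p n

open Classical in
noncomputable def ind (F : ℤ[X]) (y n : ℕ) : ℝ := if Rgh F y n then 1 else 0

noncomputable def ff (F : ℤ[X]) (w y n : ℕ) : ℝ := ind F y n - vv F w y * ind F w n

lemma ind_nonneg (F : ℤ[X]) (y n : ℕ) : 0 ≤ ind F y n := by unfold ind; split_ifs <;> norm_num
lemma ind_le_one (F : ℤ[X]) (y n : ℕ) : ind F y n ≤ 1 := by unfold ind; split_ifs <;> norm_num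
lemma ind_sq (F : ℤ[X]) (y n : ℕ) : ind F y n * ind F y n = ind F y n := by unfold ind; split_ifs <;> norm_num

lemma Rgh_mono {F : ℤ[X]} {w y n : ℕ} (h : w ≤ y) (hn : Rgh F y n) : Rgh F w n := by
  intro p hp
  rw [mem_pz] at hp
  exact hn p (mem_pz.2 ⟨hp.1.trans h, hp.2⟩)

lemma ind_mono (F : ℤ[X]) {w y : ℕ} (n : ℕ) (h : w ≤ y) : ind F y n ≤ ind F w n := by
  unfold ind
  split_ifs with h1 h2
  · exact le_rfl
  · exact absurd (Rgh_mono h h1) h2
  · norm_num
  · exact le_rfl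

lemma ff_abs {F : ℤ[X]} {D : ℕ} (hS : Sys F D) (w y n : ℕ) (h : w ≤ y) :
    |ff F w y n| ≤ 1 ∧ |ff F w y n| ≤ ind F y n + vv F w y * ind F w n := by
  have h1 := vv_pos hS w y
  have h2 := vv_le_one hS w y
  have h3 := ind_nonneg F y n
  have h4 := ind_nonneg F w n
  have h5 := ind_le_one F y n
  have h6 := ind_le_one F w n
  have h7 := ind_mono F n h
  unfold ff
  constructor
  · rw [abs_le]
    constructor <;> nlinarith
  · rw [abs_le]
    constructor <;> nlinarith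

lemma cntF (F : ℤ[X]) (a b c d y y₁ y₂ M : ℕ) (h1 : y₁ ≤ y) (h2 : y₂ ≤ y) :
    (cnt0 (QF F a b c d y₁ y₂) y M : ℝ) = ∑ m ∈ range M, ind F y₁ (a * m + b) * ind F y₂ (c * m + d) := by
  classical
  unfold cnt0
  rw [card_filter]
  push_cast
  apply sum_congr rfl
  intro m _
  unfold ind
  have key : (∀ p ∈ pz y, ¬ QF F a b c d y₁ y₂ p m) ↔ (Rgh F y₁ (a * m + b) ∧ Rgh F y₂ (c * m + d)) := by
    unfold QF Rgh
    constructor
    · intro h
      refine ⟨fun p hp hd => ?_, fun p hp hd => ?_⟩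
      · rw [mem_pz] at hp
        exact h p (mem_pz.2 ⟨hp.1.trans h1, hp.2⟩) (Or.inl ⟨hp.1, hd⟩)
      · rw [mem_pz] at hp
        exact h p (mem_pz.2 ⟨hp.1.trans h2, hp.2⟩) (Or.inr ⟨hp.1, hd⟩)
    · rintro ⟨h3, h4⟩ p hp (h5 | h5)
      · exact h3 p (mem_pz.2 ⟨h5.1, (mem_pz.1 hp).2⟩) h5.2
      · exact h4 p (mem_pz.2 ⟨h5.1, (mem_pz.1 hp).2⟩) h5.2
  simp only [key]
  by_cases h3 : Rgh F y₁ (a * m + b) <;> by_cases h4 : Rgh F y₂ (c * m + d) <;> simp [h3, h4]

lemma inv_sq_le {F : ℤ[X]} {D : ℕ} (hS : Sys F D) (w y : ℕ) (hwy : w ≤ y) (hy : 1 ≤ y) (hV : 1 / (y : ℝ) ≤ V F y) :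
    1 / (y : ℝ) ^ 2 ≤ V F w * vv F w y ^ 2 := by
  have h1 : 1 / (y : ℝ) ^ 2 ≤ V F y ^ 2 := by
    calc 1 / (y : ℝ) ^ 2 = (1 / (y : ℝ)) ^ 2 := by rw [div_pow, one_pow]
      _ ≤ V F y ^ 2 := pow_le_pow_left₀ (by positivity) hV 2
  refine h1.trans ?_
  rw [V_split F hwy, mul_pow]
  apply mul_le_mul_of_nonneg_right _ (by positivity)
  have h1 := V_pos hS w
  have h2 := V_le_one hS w
  nlinarith

theorem pairF {F : ℤ[X]} {D : ℕ} (hS : Sys F D) {a b c d w : ℕ} (h1 : Good F w a b) (h2 : Okay F c d) (y M : ℕ)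
    (hw : 1 ≤ w) (hwD : 2 * D ≤ w) (hwy : w ≤ y) (hV : 1 / (y : ℝ) ≤ V F y) (ε : ℝ) (hε0 : 0 ≤ ε)
    (hfl : ∀ Q : ℕ → ℕ → Prop, PerB Q (2 * D) → |(cnt0 Q y M : ℝ) - M * Prd Q y| ≤ ε * (M * Prd Q y) + ε * (M / (y : ℝ) ^ 2)) :
    |∑ m ∈ range M, ff F w y (a * m + b) * ff F w y (c * m + d)| ≤
      M * V F w * vv F w y ^ 2 * (4 * D ^ 2 / w + (2 + 4 * ε) * (Real.exp (hF F D a b c d w y) - 1) + 8 * ε) := by
  set v := vv F w y with hv
  have hv0 : 0 < v := vv_pos hS w y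
  have hv1 : v ≤ 1 := vv_le_one hS w y
  set DD := DDF F a b c d w with hD
  have hD0 : 0 ≤ DD := DDF_nonneg F a b c d w
  have hDV : DD ≤ V F w := DDF_le c d h1
  have hVw := V_pos hS w
  set h := Real.exp (hF F D a b c d w y) with hh
  have hh1 : 1 ≤ h := by rw [hh]; exact Real.one_le_exp (hF_nonneg F D a b c d w y)
  have hM0 : (0 : ℝ) ≤ M := Nat.cast_nonneg _
  have hA1 := AmF_le hS h1.1 c d w y hwD
  have hB1 := AmF_le' hS h2 a b w y hwD
  have hA0 := (AmF_bounds hS h1.1 w y hwD).1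
  have hB0 := (AmF_bounds hS h2 w y hwD).1
  have hC1 := CmF_le hS a b c d w y hwD
  have hC0 := CmF_ge hS h1.1 h2 w y hw hwD
  rw [← hv, ← hh] at hA1 hB1 hC1
  rw [← hv] at hA0 hB0 hC0
  set E := ε * ((M : ℝ) / (y : ℝ) ^ 2) with hE
  have hE0 : 0 ≤ E := by positivity
  have hE1 : E ≤ ε * (M * (V F w * v ^ 2)) := by
    rw [hE]
    apply mul_le_mul_of_nonneg_left _ hε0
    rw [div_eq_mul_one_div]
    exact mul_le_mul_of_nonneg_left (inv_sq_le hS w y hwy (by omega) hV) hM0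
  have f1 := hfl _ (perF hS h1.1 h2 y y)
  have f2 := hfl _ (perF hS h1.1 h2 y w)
  have f3 := hfl _ (perF hS h1.1 h2 w y)
  have f4 := hfl _ (perF hS h1.1 h2 w w)
  rw [prdF_yy F a b c d w y hwy, cntF F a b c d y y y M le_rfl le_rfl] at f1
  rw [prdF_yw F a b c d w y hwy, cntF F a b c d y y w M le_rfl hwy] at f2
  rw [prdF_wy F a b c d w y hwy, cntF F a b c d y w y M hwy le_rfl] at f3
  rw [prdF_ww F a b c d w y hwy, cntF F a b c d y w w M hwy hwy] at f4
  rw [← hD] at f1 f2 f3 f4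
  set A := AmF F a b w y with hA
  set B := AmF F c d w y with hB
  set Cc := CmF F a b c d w y with hCc
  have e : ∑ m ∈ range M, ff F w y (a * m + b) * ff F w y (c * m + d) =
      (∑ m ∈ range M, ind F y (a * m + b) * ind F y (c * m + d)) - v * (∑ m ∈ range M, ind F y (a * m + b) * ind F w (c * m + d)) -
      v * (∑ m ∈ range M, ind F w (a * m + b) * ind F y (c * m + d)) + v ^ 2 * (∑ m ∈ range M, ind F w (a * m + b) * ind F w (c * m + d)) := by
    rw [mul_sum, mul_sum, mul_sum, ← sum_sub_distrib, ← sum_sub_distrib, ← sum_add_distrib]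
    apply sum_congr rfl
    intro m _
    unfold ff
    rw [← hv]
    ring
  rw [e]
  set S1 := ∑ m ∈ range M, ind F y (a * m + b) * ind F y (c * m + d)
  set S2 := ∑ m ∈ range M, ind F y (a * m + b) * ind F w (c * m + d)
  set S3 := ∑ m ∈ range M, ind F w (a * m + b) * ind F y (c * m + d)
  set S4 := ∑ m ∈ range M, ind F w (a * m + b) * ind F w (c * m + d)
  -- main terms
  have hmain : |DD * Cc - v * (DD * A) - v * (DD * B) + v ^ 2 * DD| ≤ DD * (v ^ 2 * (4 * D ^ 2 / w + 2 * (h - 1))) := by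
    have e1 : DD * Cc - v * (DD * A) - v * (DD * B) + v ^ 2 * DD = DD * (Cc - v * A - v * B + v ^ 2) := by ring
    rw [e1, abs_mul, abs_of_nonneg hD0]
    apply mul_le_mul_of_nonneg_left _ hD0
    have hw0 : (0 : ℝ) ≤ 4 * D ^ 2 / w := by positivity
    have g1 : v * v ≤ v * A := mul_le_mul_of_nonneg_left hA0 hv0.le
    have g2 : v * v ≤ v * B := mul_le_mul_of_nonneg_left hB0 hv0.le
    have g3 : v * A ≤ v * (v * h) := mul_le_mul_of_nonneg_left hA1 hv0.le
    have g4 : v * B ≤ v * (v * h) := mul_le_mul_of_nonneg_left hB1 hv0.le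
    have hv2 : 0 ≤ v ^ 2 := by positivity
    have hvh : 0 ≤ v ^ 2 * (h - 1) := mul_nonneg hv2 (by linarith)
    have hvw : 0 ≤ v ^ 2 * (4 * D ^ 2 / w) := mul_nonneg hv2 hw0
    rw [abs_le]
    constructor <;> nlinarith
  -- errors
  have herr : |(S1 - v * S2 - v * S3 + v ^ 2 * S4) - M * (DD * Cc - v * (DD * A) - v * (DD * B) + v ^ 2 * DD)| ≤
      ε * (M * (DD * (v ^ 2 * (4 * h)))) + 4 * E := by
    have e2 : (S1 - v * S2 - v * S3 + v ^ 2 * S4) - M * (DD * Cc - v * (DD * A) - v * (DD * B) + v ^ 2 * DD) =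
      (S1 - M * (DD * Cc)) - v * (S2 - M * (DD * A)) - v * (S3 - M * (DD * B)) + v ^ 2 * (S4 - M * DD) := by ring
    rw [e2]
    have k1 : |(S1 - M * (DD * Cc)) - v * (S2 - M * (DD * A)) - v * (S3 - M * (DD * B)) + v ^ 2 * (S4 - M * DD)| ≤
      |S1 - M * (DD * Cc)| + v * |S2 - M * (DD * A)| + v * |S3 - M * (DD * B)| + v ^ 2 * |S4 - M * DD| := by
      refine (abs_add_le _ _).trans ?_
      apply add_le_add
      · refine (abs_sub _ _).trans ?_
        apply add_le_add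
        · refine (abs_sub _ _).trans ?_
          apply add_le_add le_rfl
          rw [abs_mul, abs_of_pos hv0]
        · rw [abs_mul, abs_of_pos hv0]
      · rw [abs_mul, abs_of_pos (by positivity : (0 : ℝ) < v ^ 2)]
    refine k1.trans ?_
    have hMD : 0 ≤ M * DD := by positivity
    have c1 : ε * (M * (DD * Cc)) ≤ ε * (M * (DD * (v ^ 2 * h))) := by
      apply mul_le_mul_of_nonneg_left _ hε0
      apply mul_le_mul_of_nonneg_left _ hM0
      exact mul_le_mul_of_nonneg_left hC1 hD0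
    have c2 : v * (ε * (M * (DD * A))) ≤ ε * (M * (DD * (v ^ 2 * h))) := by
      calc v * (ε * (M * (DD * A))) ≤ v * (ε * (M * (DD * (v * h)))) := by
            apply mul_le_mul_of_nonneg_left _ hv0.le
            apply mul_le_mul_of_nonneg_left _ hε0
            apply mul_le_mul_of_nonneg_left _ hM0
            exact mul_le_mul_of_nonneg_left hA1 hD0
        _ = ε * (M * (DD * (v ^ 2 * h))) := by ring
    have c3 : v * (ε * (M * (DD * B))) ≤ ε * (M * (DD * (v ^ 2 * h))) := by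
      calc v * (ε * (M * (DD * B))) ≤ v * (ε * (M * (DD * (v * h)))) := by
            apply mul_le_mul_of_nonneg_left _ hv0.le
            apply mul_le_mul_of_nonneg_left _ hε0
            apply mul_le_mul_of_nonneg_left _ hM0
            exact mul_le_mul_of_nonneg_left hB1 hD0
        _ = ε * (M * (DD * (v ^ 2 * h))) := by ring
    have hvh : v ^ 2 ≤ v ^ 2 * h := le_mul_of_one_le_right (by positivity) hh1
    have c4 : v ^ 2 * (ε * (M * DD)) ≤ ε * (M * (DD * (v ^ 2 * h))) := by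
      calc v ^ 2 * (ε * (M * DD)) = ε * (M * (DD * v ^ 2)) := by ring
        _ ≤ _ := by
          apply mul_le_mul_of_nonneg_left _ hε0
          apply mul_le_mul_of_nonneg_left _ hM0
          exact mul_le_mul_of_nonneg_left hvh hD0
    have d2 := mul_le_mul_of_nonneg_left f2 hv0.le
    have d3 := mul_le_mul_of_nonneg_left f3 hv0.le
    have d4 := mul_le_mul_of_nonneg_left f4 (by positivity : (0 : ℝ) ≤ v ^ 2)
    rw [mul_add] at d2 d3 d4
    have hvE : v * E ≤ E := mul_le_of_le_one_left hE0 hv1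
    have hvE2 : v ^ 2 * E ≤ E := mul_le_of_le_one_left hE0 (pow_le_one₀ hv0.le hv1)
    have e5 : ε * (M * (DD * (v ^ 2 * (4 * h)))) = 4 * (ε * (M * (DD * (v ^ 2 * h)))) := by ring
    rw [e5]
    linarith
  have e3 : S1 - v * S2 - v * S3 + v ^ 2 * S4 = ((S1 - v * S2 - v * S3 + v ^ 2 * S4) - M * (DD * Cc - v * (DD * A) - v * (DD * B) + v ^ 2 * DD)) +
    M * (DD * Cc - v * (DD * A) - v * (DD * B) + v ^ 2 * DD) := by ring
  rw [e3]
  refine (abs_add_le _ _).trans ?_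
  rw [abs_mul, abs_of_nonneg hM0]
  have hh0 : 0 ≤ h - 1 := by linarith
  have hX : 0 ≤ 4 * (D : ℝ) ^ 2 / (w : ℝ) + (2 + 4 * ε) * (h - 1) + 4 * ε := by
    have x1 := mul_nonneg (by positivity : 0 ≤ 2 + 4 * ε) hh0
    have x2 : 0 ≤ 4 * (D : ℝ) ^ 2 / (w : ℝ) := by positivity
    linarith
  calc |(S1 - v * S2 - v * S3 + v ^ 2 * S4) - M * (DD * Cc - v * (DD * A) - v * (DD * B) + v ^ 2 * DD)| +
        M * |DD * Cc - v * (DD * A) - v * (DD * B) + v ^ 2 * DD|
      ≤ (ε * (M * (DD * (v ^ 2 * (4 * h)))) + 4 * E) + M * (DD * (v ^ 2 * (4 * D ^ 2 / w + 2 * (h - 1)))) := by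
        apply add_le_add herr
        exact mul_le_mul_of_nonneg_left hmain hM0
    _ = M * DD * v ^ 2 * (4 * D ^ 2 / w + (2 + 4 * ε) * (h - 1) + 4 * ε) + 4 * E := by ring
    _ ≤ M * V F w * v ^ 2 * (4 * D ^ 2 / w + (2 + 4 * ε) * (h - 1) + 4 * ε) + 4 * (ε * (M * (V F w * v ^ 2))) := by
        apply add_le_add _ (mul_le_mul_of_nonneg_left hE1 (by norm_num))
        apply mul_le_mul_of_nonneg_right _ hX
        apply mul_le_mul_of_nonneg_right _ (by positivity)
        exact mul_le_mul_of_nonneg_left hDV hM0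
    _ = _ := by ring

/-- the number of rough values at an affine form -/
lemma one_count {F : ℤ[X]} {D : ℕ} (hS : Sys F D) {a b : ℕ} (ho : Okay F a b) (y M : ℕ)
    (ε : ℝ) (hfl : ∀ Q : ℕ → ℕ → Prop, PerB Q (2 * D) → |(cnt0 Q y M : ℝ) - M * Prd Q y| ≤ ε * (M * Prd Q y) + ε * (M / (y : ℝ) ^ 2)) (z : ℕ) (hzy : z ≤ y) :
    |∑ m ∈ range M, ind F z (a * m + b) - M * ∏ p ∈ pz z, (1 - ((ZF F a b p).card : ℝ) / p)| ≤
      ε * (M * ∏ p ∈ pz z, (1 - ((ZF F a b p).card : ℝ) / p)) + ε * (M / (y : ℝ) ^ 2) := by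
  have h1 := hfl _ (perF hS ho ho z z)
  rw [cntF F a b a b y z z M hzy hzy] at h1
  have e1 : ∑ m ∈ range M, ind F z (a * m + b) * ind F z (a * m + b) = ∑ m ∈ range M, ind F z (a * m + b) :=
    sum_congr rfl fun m _ => ind_sq F z (a * m + b)
  have e2 : Prd (QF F a b a b z z) y = ∏ p ∈ pz z, (1 - ((ZF F a b p).card : ℝ) / p) := by
    unfold Prd
    rw [pz_split hzy, prod_union (pz_disj z y)]
    have e3 : ∏ p ∈ mid z y, (1 - (nuB (QF F a b a b z z) p : ℝ) / p) = 1 := by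
      apply prod_eq_one
      intro p hp
      have := (mem_mid.1 hp).2.1
      rw [nuF, if_neg (by omega)]
      simp
    rw [e3, mul_one]
    apply prod_congr rfl
    intro p hp
    obtain ⟨h2, h3⟩ := mem_pz.1 hp
    rw [nuF, if_pos h2, union_self]
  rw [e1, e2] at h1
  exact h1

end Pool.Agent.H31.GP
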