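import Pool.Agent.H31.GP.Root

set_option autoImplicit false

/-! # The products and the fundamental lemma for general polynomials -/

namespace Pool.Agent.H31.GP

open Finset Filter Topology Polynomial Pool.Agent.H373R2.T7
open Pool.Agent.H31.MF (Prd mid mem_mid pz_split pz_disj exp_ge)
open Pool.Agent.H31.DG (cnt0 cnt_mod0 Prd_nonneg)

noncomputable def rh (F : ℤ[X]) (p : ℕ) : ℝ := ((ZF F 1 0 p).card : ℝ) / p

noncomputable def V (F : ℤ[X]) (y : ℕ) : ℝ := ∏ p ∈ pz y, (1 - rh F p)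

noncomputable def vv (F : ℤ[X]) (w y : ℕ) : ℝ := ∏ p ∈ mid w y, (1 - rh F p)

lemma V_split (F : ℤ[X]) {w y : ℕ} (h : w ≤ y) : V F y = V F w * vv F w y := by
  unfold V vv
  rw [pz_split h, prod_union (pz_disj w y)]

lemma rh_nonneg (F : ℤ[X]) (p : ℕ) : 0 ≤ rh F p := by unfold rh; positivity

lemma rh_le {F : ℤ[X]} {D : ℕ} (hF : Sys F D) {p : ℕ} (hp : p.Prime) : rh F p ≤ D / p := by
  unfold rh
  apply div_le_div_of_nonneg_right _ (Nat.cast_nonneg _)
  exact_mod_cast Z_le_D hF hp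

lemma rh_inv {F : ℤ[X]} {D : ℕ} (hF : Sys F D) {p : ℕ} (hp : p.Prime) : 1 / (p : ℝ) ≤ 1 - rh F p := by
  have hp0 : (0 : ℝ) < p := by exact_mod_cast hp.pos
  have h1 : ((ZF F 1 0 p).card : ℝ) + 1 ≤ p := by exact_mod_cast Z_lt_p hF hp
  unfold rh
  rw [div_le_iff₀ hp0, sub_mul, div_mul_cancel₀ _ hp0.ne']
  linarith

lemma rh_lt {F : ℤ[X]} {D : ℕ} (hF : Sys F D) {p : ℕ} (hp : p.Prime) : rh F p < 1 := by
  have h1 := rh_inv hF hp
  have hp0 : (0 : ℝ) < p := by exact_mod_cast hp.pos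
  have : 0 < 1 / (p : ℝ) := by positivity
  linarith

lemma V_pos {F : ℤ[X]} {D : ℕ} (hF : Sys F D) (y : ℕ) : 0 < V F y := by
  unfold V
  apply prod_pos
  intro p hp
  have := rh_lt hF (mem_pz.1 hp).2
  linarith

lemma V_le_one {F : ℤ[X]} {D : ℕ} (hF : Sys F D) (y : ℕ) : V F y ≤ 1 := by
  unfold V
  apply prod_le_one
  · intro p hp
    have := rh_lt hF (mem_pz.1 hp).2
    linarith
  · intro p _
    have := rh_nonneg F p
    linarith

lemma vv_pos {F : ℤ[X]} {D : ℕ} (hF : Sys F D) (w y : ℕ) : 0 < vv F w y := by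
  unfold vv
  apply prod_pos
  intro p hp
  have := rh_lt hF (mem_mid.1 hp).1
  linarith

lemma vv_le_one {F : ℤ[X]} {D : ℕ} (hF : Sys F D) (w y : ℕ) : vv F w y ≤ 1 := by
  unfold vv
  apply prod_le_one
  · intro p hp
    have := rh_lt hF (mem_mid.1 hp).1
    linarith
  · intro p _
    have := rh_nonneg F p
    linarith

lemma V_anti {F : ℤ[X]} {D : ℕ} (hF : Sys F D) {w y : ℕ} (h : w ≤ y) : V F y ≤ V F w := by
  rw [V_split F h]
  exact mul_le_of_le_one_right (V_pos hF w).le (vv_le_one hF w y)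

/-- a lower bound of the product, uniform in the polynomial -/
lemma V_low (D : ℕ) (hD : 1 ≤ D) : ∃ B n0 : ℕ, ∀ F : ℤ[X], Sys F D → ∀ y : ℕ, n0 ≤ y → 1 / Real.log y ^ B ≤ V F y := by
  obtain ⟨C, N0, h⟩ := Vz_low
  have hDr : (1 : ℝ) ≤ D := by exact_mod_cast hD
  set c0 : ℝ := 1 / (2 * D) with hc0
  have hc00 : 0 < c0 := by positivity
  have hc01 : c0 ≤ 1 := by
    rw [hc0, div_le_one (by linarith)]
    linarith
  obtain ⟨n1, hn1⟩ := ev_L' (1 / c0 ^ (2 * D))
  refine ⟨C * (2 * D) + 1, max (max N0 n1) 3, fun F hF y hy => ?_⟩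
  have hy1 : N0 ≤ y := le_trans (le_trans (le_max_left _ _) (le_max_left _ _)) hy
  have hy2 : n1 ≤ y := le_trans (le_trans (le_max_right _ _) (le_max_left _ _)) hy
  have hy3 : 3 ≤ y := le_trans (le_max_right _ _) hy
  have hl : 0 < Real.log y := Real.log_pos (by exact_mod_cast (by omega : 1 < y))
  have h1 := h y hy1
  have h2 := hn1 y hy2
  have h3 : c0 ^ (2 * D) * Vz y ^ (2 * D) ≤ V F y := by
    have h4 : ∏ p ∈ pz y, ((if p ≤ 2 * D then c0 else 1) * (1 - 1 / (p : ℝ)) ^ (2 * D)) ≤ V F y := by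
      unfold V
      apply Finset.prod_le_prod
      · intro p hp
        have hp2 : (2 : ℝ) ≤ p := by exact_mod_cast (mem_pz.1 hp).2.two_le
        have : 1 / (p : ℝ) ≤ 1 / 2 := one_div_le_one_div_of_le (by norm_num) hp2
        have : 0 ≤ 1 - 1 / (p : ℝ) := by linarith
        split_ifs <;> positivity
      · intro p hp
        have hp' := (mem_pz.1 hp).2
        have hp2 : (2 : ℝ) ≤ p := by exact_mod_cast hp'.two_le
        have hp0 : (0 : ℝ) < p := by linarith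
        have hx : 1 / (p : ℝ) ≤ 1 / 2 := one_div_le_one_div_of_le (by norm_num) hp2
        have hx0 : 0 < 1 / (p : ℝ) := by positivity
        have hpow : (1 - 1 / (p : ℝ)) ^ (2 * D) ≤ 1 := pow_le_one₀ (by linarith) (by linarith)
        split_ifs with hpD
        · have h5 := rh_inv hF hp'
          have h6 : c0 ≤ 1 / (p : ℝ) := by
            rw [hc0]
            apply one_div_le_one_div_of_le hp0
            exact_mod_cast hpD
          calc c0 * (1 - 1 / (p : ℝ)) ^ (2 * D) ≤ c0 * 1 := mul_le_mul_of_nonneg_left hpow hc00.le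
            _ ≤ _ := by linarith
        · rw [one_mul]
          have h5 := rh_le hF hp'
          have h6 : (D : ℝ) / p ≤ 1 / 2 := by
            rw [div_le_div_iff₀ hp0 (by norm_num)]
            have : (2 * D : ℝ) ≤ p := by
              push Not at hpD
              exact_mod_cast hpD.le
            linarith
          have h7 := exp_ge (rh_nonneg F p) (h5.trans h6)
          have h8 : (1 - 1 / (p : ℝ)) ^ (2 * D) ≤ Real.exp (-(2 * (D / p))) := by
            have h9 : 1 - 1 / (p : ℝ) ≤ Real.exp (-(1 / p)) := by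
              have := Real.add_one_le_exp (-(1 / (p : ℝ)))
              linarith
            calc (1 - 1 / (p : ℝ)) ^ (2 * D) ≤ (Real.exp (-(1 / p))) ^ (2 * D) := pow_le_pow_left₀ (by linarith) h9 _
              _ = Real.exp (-(2 * (D / p))) := by
                  rw [← Real.exp_nat_mul]
                  congr 1
                  push_cast
                  ring
          have h9 : Real.exp (-(2 * (D / p))) ≤ Real.exp (-(2 * rh F p)) := by
            apply Real.exp_le_exp.2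
            linarith
          have h10 : Real.exp (-(2 * rh F p)) ≤ 1 - rh F p := by
            rw [Real.exp_neg]
            rw [inv_le_iff_one_le_mul₀ (Real.exp_pos _)]
            exact h7
          linarith
    refine le_trans ?_ h4
    rw [prod_mul_distrib, prod_pow]
    have h5 : Vz y = ∏ p ∈ pz y, (1 - 1 / (p : ℝ)) := rfl
    rw [h5]
    have hV0 : 0 ≤ ∏ p ∈ pz y, (1 - 1 / (p : ℝ)) := by
      apply prod_nonneg
      intro p hp
      have hp2 : (2 : ℝ) ≤ p := by exact_mod_cast (mem_pz.1 hp).2.two_le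
      have : 1 / (p : ℝ) ≤ 1 / 2 := one_div_le_one_div_of_le (by norm_num) hp2
      linarith
    apply mul_le_mul_of_nonneg_right _ (by positivity)
    rw [← prod_filter, prod_const]
    apply pow_le_pow_of_le_one hc00.le hc01
    have : (pz y).filter (fun p => p ≤ 2 * D) ⊆ Icc 1 (2 * D) := by
      intro p hp
      rw [mem_filter, mem_pz] at hp
      rw [mem_Icc]
      exact ⟨hp.1.2.one_lt.le, hp.2⟩
    calc ((pz y).filter (fun p => p ≤ 2 * D)).card ≤ (Icc 1 (2 * D)).card := card_le_card this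
      _ = 2 * D := by simp
  refine le_trans ?_ h3
  have h5 : 1 / Real.log y ^ (C * (2 * D)) ≤ Vz y ^ (2 * D) := by
    calc 1 / Real.log y ^ (C * (2 * D)) = (1 / Real.log y ^ C) ^ (2 * D) := by rw [div_pow, one_pow, pow_mul]
      _ ≤ Vz y ^ (2 * D) := pow_le_pow_left₀ (by positivity) h1 _
  have h6 : 1 / Real.log y ≤ c0 ^ (2 * D) := by
    rw [div_le_iff₀ hl]
    rw [div_le_iff₀ (by positivity)] at h2
    linarith
  calc 1 / Real.log y ^ (C * (2 * D) + 1) = (1 / Real.log y) * (1 / Real.log y ^ (C * (2 * D))) := by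
        rw [pow_succ]
        field_simp
    _ ≤ c0 ^ (2 * D) * Vz y ^ (2 * D) := mul_le_mul h6 h5 (by positivity) (by positivity)

/-- the fundamental lemma holds for `y` with the relative error `ε` for all `M ≥ N ^ (1 / 4)` -/
def FLD (D N y : ℕ) (ε : ℝ) : Prop := ∀ Q : ℕ → ℕ → Prop, PerB Q (2 * D) → ∀ M : ℕ, N ≤ M ^ 4 →
  |(cnt0 Q y M : ℝ) - M * Prd Q y| ≤ ε * (M * Prd Q y) + ε * (M / (y : ℝ) ^ 2)

lemma c_pow_le (c d : ℕ) (hd : 1 ≤ d) : (c : ℝ) ^ d.primeFactors.card ≤ (d : ℝ) ^ c := by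
  have h1 : 2 ^ d.primeFactors.card ≤ d := by
    calc 2 ^ d.primeFactors.card = ∏ _p ∈ d.primeFactors, 2 := by rw [prod_const]
      _ ≤ ∏ p ∈ d.primeFactors, p := prod_le_prod' (fun p hp => (Nat.prime_of_mem_primeFactors hp).two_le)
      _ ≤ d := Nat.le_of_dvd (by omega) (Nat.prod_primeFactors_dvd d)
  have h2 : (c : ℝ) ≤ 2 ^ c := by exact_mod_cast Nat.lt_two_pow_self.le
  calc (c : ℝ) ^ d.primeFactors.card ≤ ((2 : ℝ) ^ c) ^ d.primeFactors.card := pow_le_pow_left₀ (Nat.cast_nonneg _) h2 _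
    _ = ((2 : ℝ) ^ d.primeFactors.card) ^ c := by rw [← pow_mul, ← pow_mul, mul_comm]
    _ ≤ (d : ℝ) ^ c := pow_le_pow_left₀ (by positivity) (by exact_mod_cast h1) _

/-- **The fundamental lemma for intervals** -/
theorem flD (D : ℕ) (hD : 1 ≤ D) (ε : ℝ) (hε : 0 < ε) : ∃ r : ℕ, 1 ≤ r ∧ ∀ᶠ N : ℕ in atTop, ∀ y : ℕ, 2 ≤ y → y ^ r ≤ N → FLD D N y ε := by
  classical
  obtain ⟨K, K0, hK, hK0, hg⟩ := Pool.Agent.X55.Pal.gen (2 * D) (by omega) ε hε
  obtain ⟨C, hC⟩ := exists_nat_ge (2 * (K0 : ℝ) ^ (2 * D + 2) / ε)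
  refine ⟨8 * (K * (2 * D + 1) + 3), by omega, ?_⟩
  filter_upwards [eventually_ge_atTop (C ^ 8)] with N hN y hy hyN Q hQ M hM
  have h1 := hg 1 y hy (range M) M (fun _ => 1) (Nat.cast_nonneg _) (fun _ => zero_le_one)
    (fun d hd _ _ r => cnt_mod0 M d r hd) Q hQ
  have e1 : (range M).filter (fun n => ∀ p ∈ pz y, ¬ p ∣ 1 → ¬ Q p n) = (range M).filter (fun n => ∀ p ∈ pz y, ¬ Q p n) := by
    apply filter_congr
    intro n _
    constructor
    · intro h p hp
      exact h p hp (fun h1 => (mem_pz.1 hp).2.one_lt.ne' (Nat.dvd_one.1 h1))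
    · intro h p hp _
      exact h p hp
  have e2 : (pz y).filter (fun p => ¬ p ∣ 1) = pz y := by
    apply filter_true_of_mem
    intro p hp h1
    exact (mem_pz.1 hp).2.one_lt.ne' (Nat.dvd_one.1 h1)
  rw [e1, e2] at h1
  unfold cnt0
  unfold Prd
  refine h1.trans ?_
  apply add_le_add le_rfl
  have hy0 : (0 : ℝ) < y := by exact_mod_cast (by omega : 0 < y)
  have hK0r : (1 : ℝ) ≤ K0 := by exact_mod_cast hK0
  -- the error
  have h2 : ((JJ y : ℝ) + 2) ≤ 2 * y := by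
    rcases Nat.lt_or_ge y 3 with h | h
    · have : y = 2 := by omega
      subst this
      have : JJ 2 = 1 := by unfold JJ; norm_num
      rw [this]; norm_num
    · exact_mod_cast JJ_small y h
  have h3 : ∑ d ∈ (Icc 1 (K0 * y ^ K)).filter (fun d => d.Coprime 1), ((2 * D : ℕ) : ℝ) ^ d.primeFactors.card * (1 : ℝ) ≤
      ((K0 : ℝ) * y ^ K) ^ (2 * D + 1) := by
    calc ∑ d ∈ (Icc 1 (K0 * y ^ K)).filter (fun d => d.Coprime 1), ((2 * D : ℕ) : ℝ) ^ d.primeFactors.card * (1 : ℝ)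
        ≤ ∑ d ∈ (Icc 1 (K0 * y ^ K)), ((2 * D : ℕ) : ℝ) ^ d.primeFactors.card * (1 : ℝ) :=
          sum_le_sum_of_subset_of_nonneg (filter_subset _ _) (fun _ _ _ => by positivity)
      _ ≤ ∑ d ∈ (Icc 1 (K0 * y ^ K)), ((K0 : ℝ) * y ^ K) ^ (2 * D) := by
          apply sum_le_sum
          intro d hd
          rw [mem_Icc] at hd
          have h4 := c_pow_le (2 * D) d hd.1
          have h5 : (d : ℝ) ≤ (K0 : ℝ) * y ^ K := by exact_mod_cast hd.2
          rw [mul_one]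
          exact h4.trans (pow_le_pow_left₀ (Nat.cast_nonneg _) h5 _)
      _ = ((K0 : ℝ) * y ^ K) ^ (2 * D + 1) := by
          rw [sum_const, Nat.card_Icc, nsmul_eq_mul, Nat.add_sub_cancel]
          push_cast
          ring
  have h4 : ((JJ y : ℝ) + 2) * ((K0 : ℝ) * ∑ d ∈ (Icc 1 (K0 * y ^ K)).filter (fun d => d.Coprime 1), ((2 * D : ℕ) : ℝ) ^ d.primeFactors.card * (1 : ℝ)) ≤
      2 * (K0 : ℝ) ^ (2 * D + 2) * (y : ℝ) ^ (K * (2 * D + 1) + 1) := by
    calc _ ≤ (2 * (y : ℝ)) * ((K0 : ℝ) * ((K0 : ℝ) * y ^ K) ^ (2 * D + 1)) := by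
          apply mul_le_mul h2 _ (by positivity) (by positivity)
          exact mul_le_mul_of_nonneg_left h3 (by positivity)
      _ = _ := by
          rw [mul_pow, ← pow_mul]
          ring
  have h5 : (C : ℝ) * (y : ℝ) ^ (K * (2 * D + 1) + 3) ≤ M := by
    have h6 : (C * y ^ (K * (2 * D + 1) + 3)) ^ 8 ≤ M ^ 8 := by
      calc (C * y ^ (K * (2 * D + 1) + 3)) ^ 8 = C ^ 8 * y ^ (8 * (K * (2 * D + 1) + 3)) := by
            rw [mul_pow, ← pow_mul, mul_comm (K * (2 * D + 1) + 3) 8]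
        _ ≤ N * N := Nat.mul_le_mul hN hyN
        _ ≤ M ^ 4 * M ^ 4 := Nat.mul_le_mul hM hM
        _ = M ^ 8 := by ring
    have h7 : C * y ^ (K * (2 * D + 1) + 3) ≤ M := by
      by_contra h
      push Not at h
      have := Nat.pow_lt_pow_left h (show 8 ≠ 0 by norm_num)
      omega
    exact_mod_cast h7
  have h6 : 2 * (K0 : ℝ) ^ (2 * D + 2) * (y : ℝ) ^ (K * (2 * D + 1) + 1) ≤ ε * (M / (y : ℝ) ^ 2) := by
    have h7 : 2 * (K0 : ℝ) ^ (2 * D + 2) ≤ C * ε := by
      rwa [div_le_iff₀ hε] at hC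
    rw [mul_div_assoc', le_div_iff₀ (by positivity)]
    calc 2 * (K0 : ℝ) ^ (2 * D + 2) * (y : ℝ) ^ (K * (2 * D + 1) + 1) * (y : ℝ) ^ 2 =
          (2 * (K0 : ℝ) ^ (2 * D + 2)) * (y : ℝ) ^ (K * (2 * D + 1) + 3) := by ring
      _ ≤ (C * ε) * (y : ℝ) ^ (K * (2 * D + 1) + 3) := mul_le_mul_of_nonneg_right h7 (by positivity)
      _ = ε * (C * (y : ℝ) ^ (K * (2 * D + 1) + 3)) := by ring
      _ ≤ ε * M := mul_le_mul_of_nonneg_left h5 hε.le
  exact h4.trans h6

end Pool.Agent.H31.GP
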