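import Pool.Agent.H31.GP.Pair

set_option autoImplicit false

/-! # Resultants of two affine substitutions -/

namespace Pool.Agent.H31.GP

open Finset Filter Topology Polynomial Pool.Agent.H373R2.T7

/-- a bound of the resultant -/
lemma resultant_bound (f g : ℤ[X]) (x : ℤ) (hf : ∀ i, |f.coeff i| ≤ x) (hg : ∀ i, |g.coeff i| ≤ x) :
    |f.resultant g| ≤ ((f.natDegree + g.natDegree).factorial : ℤ) * x ^ (f.natDegree + g.natDegree) := by
  have hx : 0 ≤ x := (abs_nonneg _).trans (hf 0)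
  have h := Matrix.det_le (A := f.sylvester g f.natDegree g.natDegree) (abv := AbsoluteValue.abs) (x := x) (by
    intro i j
    rw [sylvester, Matrix.of_apply]
    refine Fin.addCases (fun j1 => ?_) (fun j1 => ?_) j
    · rw [Fin.addCases_left]
      split_ifs
      · exact hg _
      · simpa using hx
    · rw [Fin.addCases_right]
      split_ifs
      · exact hf _
      · simpa using hx)
  rw [Fintype.card_fin, nsmul_eq_mul] at h
  exact h

/-- common roots modulo `l` divide the resultant -/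
lemma dvd_resultant (f g : ℤ[X]) (l : ℤ) (n : ℤ) (hd : f.natDegree ≠ 0) (h1 : l ∣ f.eval n) (h2 : l ∣ g.eval n) :
    l ∣ f.resultant g := by
  obtain ⟨p, q, _, _, h⟩ := exists_mul_add_mul_eq_C_resultant f g le_rfl le_rfl (Or.inl hd)
  have h3 := congrArg (eval n) h
  rw [eval_add, eval_mul, eval_mul, eval_C] at h3
  rw [← h3]
  exact dvd_add (h1.mul_right _) (h2.mul_right _)

/-- if the resultant is zero there is a common complex root -/
lemma root_of_resultant (f g : ℤ[X]) (hf : f ≠ 0) (h : f.resultant g = 0) :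
    ∃ x : ℂ, (f.map (Int.castRingHom ℂ)).eval x = 0 ∧ (g.map (Int.castRingHom ℂ)).eval x = 0 := by
  have hinj : Function.Injective (Int.castRingHom ℂ) := RingHom.injective_int _
  have h1 : (f.map (Int.castRingHom ℂ)).resultant (g.map (Int.castRingHom ℂ)) = 0 := by
    rw [natDegree_map_eq_of_injective hinj, natDegree_map_eq_of_injective hinj, resultant_map_map, h, map_zero]
  rw [resultant_eq_zero_iff] at h1
  have h2 := h1.2
  rw [Polynomial.isCoprime_iff_aeval_ne_zero_of_isAlgClosed ℂ ℂ] at h2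
  push Not at h2
  obtain ⟨x, hx1, hx2⟩ := h2
  refine ⟨x, ?_, ?_⟩
  · simpa [coe_aeval_eq_eval] using hx1
  · simpa [coe_aeval_eq_eval] using hx2

/-! ## dilations -/

noncomputable def RD (F : ℤ[X]) (a c : ℕ) : ℤ := (F.comp (C (a : ℤ) * X)).resultant (F.comp (C (c : ℤ) * X))

lemma deg_dil (F : ℤ[X]) (a : ℕ) (ha : 1 ≤ a) : (F.comp (C (a : ℤ) * X)).natDegree = F.natDegree := by
  rw [natDegree_comp, natDegree_C_mul_X _ (by exact_mod_cast (by omega : a ≠ 0)), mul_one]

lemma RF_eval (F : ℤ[X]) (l n : ℕ) : RF F l n ↔ (l : ℤ) ∣ F.eval (n : ℤ) := Iff.rfl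

/-- constant polynomials have no roots -/
lemma const_none {F : ℤ[X]} {D : ℕ} (hS : Sys F D) (h0 : F.natDegree = 0) {l : ℕ} (hl : l.Prime) (n : ℕ) : ¬ RF F l n := by
  obtain ⟨m, hm⟩ := hS.fix l hl
  rw [natDegree_eq_zero] at h0
  obtain ⟨c, rfl⟩ := h0
  unfold RF at hm ⊢
  rw [eval_C] at hm ⊢
  exact hm

lemma dvd_RD {F : ℤ[X]} {D : ℕ} (hS : Sys F D) {a c l n : ℕ} (hl : l.Prime) (ha : 1 ≤ a) (h1 : RF F l (a * n + a)) (h2 : RF F l (c * n + c)) :
    (l : ℤ) ∣ RD F a c := by
  by_cases h0 : F.natDegree = 0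
  · exact absurd h1 (const_none hS h0 hl _)
  · unfold RD
    apply dvd_resultant _ _ _ ((n : ℤ) + 1)
    · rw [deg_dil F a ha]; exact h0
    · rw [eval_comp, eval_mul, eval_C, eval_X]
      unfold RF at h1
      have e : (a : ℤ) * ((n : ℤ) + 1) = ((a * n + a : ℕ) : ℤ) := by push_cast; ring
      rw [e]; exact h1
    · rw [eval_comp, eval_mul, eval_C, eval_X]
      unfold RF at h2
      have e : (c : ℤ) * ((n : ℤ) + 1) = ((c * n + c : ℕ) : ℤ) := by push_cast; ring
      rw [e]; exact h2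

lemma coeff_dil_le (F : ℤ[X]) (D : ℕ) (hD : F.natDegree ≤ D) (H N : ℤ) (hH : ∀ i, |F.coeff i| ≤ H) (a : ℕ) (hN : 1 ≤ N) (haN : (a : ℤ) ≤ N) (i : ℕ) :
    |(F.comp (C (a : ℤ) * X)).coeff i| ≤ H * N ^ D := by
  have hH0 : 0 ≤ H := (abs_nonneg _).trans (hH 0)
  rw [comp_C_mul_X_coeff, abs_mul]
  by_cases hi : i ≤ D
  · apply mul_le_mul (hH i) _ (abs_nonneg _) hH0
    rw [abs_of_nonneg (by positivity)]
    calc (a : ℤ) ^ i ≤ N ^ i := pow_le_pow_left₀ (by positivity) haN i
      _ ≤ N ^ D := pow_le_pow_right₀ hN hi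
  · rw [coeff_eq_zero_of_natDegree_lt (by omega), abs_zero, zero_mul]
    positivity

lemma resultant_log (f g : ℤ[X]) (D N A : ℕ) (hf : f.natDegree ≤ D) (hg : g.natDegree ≤ D) (hN : 1 ≤ N)
    (h1 : ∀ i, |f.coeff i| ≤ (N : ℤ) ^ A) (h2 : ∀ i, |g.coeff i| ≤ (N : ℤ) ^ A) :
    Nat.log 2 (f.resultant g).natAbs ≤ ((2 * D).factorial + 2 * D * A + 1) * (Nat.log 2 N + 1) := by
  have h3 := resultant_bound f g ((N : ℤ) ^ A) h1 h2
  have h4 : (f.resultant g).natAbs ≤ (2 * D).factorial * N ^ (2 * D * A) := by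
    have h5 : ((f.resultant g).natAbs : ℤ) ≤ ((2 * D).factorial : ℤ) * (N : ℤ) ^ (2 * D * A) := by
      rw [Int.natCast_natAbs]
      refine h3.trans ?_
      have h6 : f.natDegree + g.natDegree ≤ 2 * D := by omega
      apply mul_le_mul
      · exact_mod_cast Nat.factorial_le h6
      · rw [← pow_mul, mul_comm (2 * D) A]
        apply pow_le_pow_right₀ (by exact_mod_cast hN)
        exact Nat.mul_le_mul_left A h6
      · positivity
      · positivity
    exact_mod_cast h5
  have h5 : (2 * D).factorial * N ^ (2 * D * A) < 2 ^ (((2 * D).factorial + 2 * D * A) * (Nat.log 2 N + 1) + 1) := by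
    have h6 : (2 * D).factorial < 2 ^ (2 * D).factorial := Nat.lt_two_pow_self
    have h7 : N < 2 ^ (Nat.log 2 N + 1) := Nat.lt_pow_succ_log_self (by norm_num) N
    calc (2 * D).factorial * N ^ (2 * D * A) ≤ 2 ^ (2 * D).factorial * (2 ^ (Nat.log 2 N + 1)) ^ (2 * D * A) :=
          Nat.mul_le_mul h6.le (Nat.pow_le_pow_left h7.le _)
      _ = 2 ^ ((2 * D).factorial + (Nat.log 2 N + 1) * (2 * D * A)) := by rw [← pow_mul, ← pow_add]
      _ ≤ 2 ^ (((2 * D).factorial + 2 * D * A) * (Nat.log 2 N + 1)) := by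
          apply Nat.pow_le_pow_right (by norm_num)
          nlinarith
      _ < 2 ^ (((2 * D).factorial + 2 * D * A) * (Nat.log 2 N + 1) + 1) := Nat.pow_lt_pow_right (by norm_num) (by omega)
  calc Nat.log 2 (f.resultant g).natAbs ≤ Nat.log 2 ((2 * D).factorial * N ^ (2 * D * A)) := Nat.log_mono_right h4
    _ ≤ ((2 * D).factorial + 2 * D * A) * (Nat.log 2 N + 1) := by
        have := Nat.log_lt_of_lt_pow' (by omega) h5
        omega
    _ ≤ _ := by nlinarith

lemma RD_log (F : ℤ[X]) (D N A : ℕ) (hD : F.natDegree ≤ D) (hN : 1 ≤ N) (hH : ∀ i, |F.coeff i| ≤ (N : ℤ) ^ A) (a c : ℕ)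
    (ha1 : 1 ≤ a) (hc1 : 1 ≤ c) (ha : a ≤ N) (hc : c ≤ N) :
    Nat.log 2 (RD F a c).natAbs ≤ ((2 * D).factorial + 2 * D * (A + D) + 1) * (Nat.log 2 N + 1) := by
  unfold RD
  apply resultant_log _ _ D N (A + D)
  · rw [deg_dil F a ha1]; exact hD
  · rw [deg_dil F c hc1]; exact hD
  · exact hN
  · intro i
    rw [pow_add]
    exact coeff_dil_le F D hD _ N hH a (by exact_mod_cast hN) (by exact_mod_cast ha) i
  · intro i
    rw [pow_add]
    exact coeff_dil_le F D hD _ N hH c (by exact_mod_cast hN) (by exact_mod_cast hc) i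

lemma RD_zero {F : ℤ[X]} (h0 : F.eval 0 ≠ 0) (a : ℕ) (ha : 1 ≤ a) : ∀ (I : Finset ℕ), (∀ c ∈ I, RD F a c = 0) → I.card ≤ F.natDegree ^ 2 := by
  classical
  intro I hI
  set G := F.map (Int.castRingHom ℂ) with hG
  have hF0 : F ≠ 0 := by rintro rfl; simp at h0
  have hinj : Function.Injective (Int.castRingHom ℂ) := RingHom.injective_int _
  have hG0 : G ≠ 0 := (Polynomial.map_ne_zero_iff hinj).2 hF0
  set R := G.roots.toFinset with hR
  have hRc : R.card ≤ F.natDegree := by
    calc R.card ≤ Multiset.card G.roots := Multiset.toFinset_card_le _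
      _ ≤ G.natDegree := card_roots' G
      _ ≤ F.natDegree := natDegree_map_le
  have hcard : I.card ≤ ((R ×ˢ R).image (fun x => (a : ℂ) * (x.2 / x.1))).card := by
    apply card_le_card_of_injOn (fun c : ℕ => (c : ℂ))
    · intro c hc
      rw [mem_coe] at hc
      have h1 := hI c hc
      unfold RD at h1
      have hne : F.comp (C (a : ℤ) * X) ≠ 0 := by
        intro h
        have h2 := congrArg (eval 0) h
        rw [eval_comp, eval_mul, eval_X, mul_zero, eval_zero] at h2
        exact h0 h2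
      obtain ⟨x, hx1, hx2⟩ := root_of_resultant _ _ hne h1
      rw [Polynomial.map_comp, Polynomial.map_mul, map_C, map_X, eval_comp, eval_mul, eval_C, eval_X] at hx1 hx2
      simp only [eq_intCast, Int.cast_natCast] at hx1 hx2
      rw [mem_coe, mem_image]
      refine ⟨((a : ℂ) * x, (c : ℂ) * x), ?_, ?_⟩
      · rw [mem_product, hR, Multiset.mem_toFinset, Multiset.mem_toFinset, mem_roots hG0, mem_roots hG0]
        exact ⟨hx1, hx2⟩
      · have hx0 : x ≠ 0 := by
          rintro rfl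
          rw [mul_zero] at hx1
          apply h0
          have h3 : G.eval ((0 : ℤ) : ℂ) = ((F.eval 0 : ℤ) : ℂ) := by
            rw [hG, Polynomial.eval_intCast_map]
            rfl
          rw [Int.cast_zero] at h3
          rw [h3] at hx1
          exact_mod_cast hx1
        have ha0 : (a : ℂ) ≠ 0 := by exact_mod_cast (by omega : a ≠ 0)
        simp only
        field_simp
    · intro c _ c' _ h
      have h' : (c : ℂ) = (c' : ℂ) := h
      exact_mod_cast h'
  calc I.card ≤ ((R ×ˢ R).image (fun x => (a : ℂ) * (x.2 / x.1))).card := hcard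
    _ ≤ (R ×ˢ R).card := card_image_le
    _ = R.card * R.card := card_product _ _
    _ ≤ F.natDegree * F.natDegree := Nat.mul_le_mul hRc hRc
    _ = F.natDegree ^ 2 := by ring

/-! ## shifts -/

noncomputable def RS (F : ℤ[X]) (b d : ℕ) : ℤ := (F.comp (X + C (b : ℤ))).resultant (F.comp (X + C (d : ℤ)))

lemma deg_sh (F : ℤ[X]) (b : ℕ) : (F.comp (X + C (b : ℤ))).natDegree = F.natDegree := by
  rw [natDegree_comp, natDegree_X_add_C, mul_one]

lemma dvd_RS {F : ℤ[X]} {D : ℕ} (hS : Sys F D) {b d l n : ℕ} (hl : l.Prime) (h1 : RF F l (1 * n + b)) (h2 : RF F l (1 * n + d)) :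
    (l : ℤ) ∣ RS F b d := by
  by_cases h0 : F.natDegree = 0
  · exact absurd h1 (const_none hS h0 hl _)
  · unfold RS
    apply dvd_resultant _ _ _ (n : ℤ)
    · rw [deg_sh F b]; exact h0
    · rw [eval_comp, eval_add, eval_C, eval_X]
      unfold RF at h1
      have e : (n : ℤ) + b = ((1 * n + b : ℕ) : ℤ) := by push_cast; ring
      rw [e]; exact h1
    · rw [eval_comp, eval_add, eval_C, eval_X]
      unfold RF at h2
      have e : (n : ℤ) + d = ((1 * n + d : ℕ) : ℤ) := by push_cast; ring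
      rw [e]; exact h2

lemma coeff_sh_le (F : ℤ[X]) (D : ℕ) (hD : F.natDegree ≤ D) (H N : ℤ) (hH : ∀ i, |F.coeff i| ≤ H) (b : ℕ) (hN : 1 ≤ N) (hbN : (b : ℤ) ≤ N) (i : ℕ) :
    |(F.comp (X + C (b : ℤ))).coeff i| ≤ (D + 1) * (2 ^ D * (H * N ^ D)) := by
  have hH0 : 0 ≤ H := (abs_nonneg _).trans (hH 0)
  rw [comp_eq_sum_left, sum_over_range' F (by intro; simp) (D + 1) (by omega), finsetSum_coeff]
  refine (abs_sum_le_sum_abs _ _).trans ?_
  calc ∑ k ∈ range (D + 1), |(C (F.coeff k) * (X + C (b : ℤ)) ^ k).coeff i|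
      ≤ ∑ _k ∈ range (D + 1), (2 ^ D * (H * N ^ D)) := by
        apply sum_le_sum
        intro k hk
        rw [mem_range] at hk
        rw [coeff_C_mul, coeff_X_add_C_pow, abs_mul, abs_mul]
        have h1 : |(b : ℤ) ^ (k - i)| ≤ N ^ D := by
          rw [abs_of_nonneg (by positivity)]
          calc (b : ℤ) ^ (k - i) ≤ N ^ (k - i) := pow_le_pow_left₀ (by positivity) hbN _
            _ ≤ N ^ D := pow_le_pow_right₀ hN (by omega)
        have h2 : |((k.choose i : ℕ) : ℤ)| ≤ 2 ^ D := by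
          rw [abs_of_nonneg (by positivity)]
          have h3 : k.choose i ≤ 2 ^ k := Nat.choose_le_two_pow k i
          have h4 : 2 ^ k ≤ 2 ^ D := Nat.pow_le_pow_right (by norm_num) (by omega)
          exact_mod_cast h3.trans h4
        calc |F.coeff k| * (|(b : ℤ) ^ (k - i)| * |((k.choose i : ℕ) : ℤ)|) ≤ H * (N ^ D * 2 ^ D) := by
              apply mul_le_mul (hH k) _ (by positivity) hH0
              exact mul_le_mul h1 h2 (abs_nonneg _) (by positivity)
          _ = _ := by ring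
    _ = _ := by rw [sum_const, card_range, nsmul_eq_mul]; push_cast; ring

lemma RS_log (F : ℤ[X]) (D N A : ℕ) (hD : F.natDegree ≤ D) (hN : (D + 1) * 2 ^ D ≤ N) (hH : ∀ i, |F.coeff i| ≤ (N : ℤ) ^ A) (b d : ℕ)
    (hb : b ≤ N) (hd : d ≤ N) :
    Nat.log 2 (RS F b d).natAbs ≤ ((2 * D).factorial + 2 * D * (A + D + 1) + 1) * (Nat.log 2 N + 1) := by
  have hN1 : 1 ≤ N := le_trans (Nat.mul_pos (by omega) (by positivity)) hN
  have key : ∀ b : ℕ, b ≤ N → ∀ i, |(F.comp (X + C (b : ℤ))).coeff i| ≤ (N : ℤ) ^ (A + D + 1) := by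
    intro b hb i
    refine (coeff_sh_le F D hD _ N hH b (by exact_mod_cast hN1) (by exact_mod_cast hb) i).trans ?_
    have h1 : (((D + 1) * 2 ^ D : ℕ) : ℤ) ≤ N := by exact_mod_cast hN
    calc ((D : ℤ) + 1) * (2 ^ D * ((N : ℤ) ^ A * N ^ D)) = (((D + 1) * 2 ^ D : ℕ) : ℤ) * (N : ℤ) ^ (A + D) := by
          push_cast; rw [pow_add]; ring
      _ ≤ N * (N : ℤ) ^ (A + D) := mul_le_mul_of_nonneg_right h1 (by positivity)
      _ = _ := by ring
  unfold RS
  apply resultant_log _ _ D N (A + D + 1)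
  · rw [deg_sh]; exact hD
  · rw [deg_sh]; exact hD
  · exact hN1
  · exact key b hb
  · exact key d hd

lemma RS_zero {F : ℤ[X]} (hF0 : F ≠ 0) (b : ℕ) : ∀ (I : Finset ℕ), (∀ d ∈ I, RS F b d = 0) → I.card ≤ F.natDegree ^ 2 := by
  classical
  intro I hI
  set G := F.map (Int.castRingHom ℂ) with hG
  have hinj : Function.Injective (Int.castRingHom ℂ) := RingHom.injective_int _
  have hG0 : G ≠ 0 := (Polynomial.map_ne_zero_iff hinj).2 hF0
  set R := G.roots.toFinset with hR
  have hRc : R.card ≤ F.natDegree := by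
    calc R.card ≤ Multiset.card G.roots := Multiset.toFinset_card_le _
      _ ≤ G.natDegree := card_roots' G
      _ ≤ F.natDegree := natDegree_map_le
  have hcard : I.card ≤ ((R ×ˢ R).image (fun x => (b : ℂ) + (x.2 - x.1))).card := by
    apply card_le_card_of_injOn (fun c : ℕ => (c : ℂ))
    · intro c hc
      rw [mem_coe] at hc
      have h1 := hI c hc
      unfold RS at h1
      have hne : F.comp (X + C (b : ℤ)) ≠ 0 := by
        intro h
        apply hF0
        have h2 := congrArg (fun p => p.comp (X - C (b : ℤ))) h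
        simp only [comp_assoc, add_comp, X_comp, C_comp, sub_add_cancel, comp_X, zero_comp] at h2
        exact h2
      obtain ⟨x, hx1, hx2⟩ := root_of_resultant _ _ hne h1
      rw [Polynomial.map_comp, Polynomial.map_add, map_C, map_X, eval_comp, eval_add, eval_C, eval_X] at hx1 hx2
      simp only [eq_intCast, Int.cast_natCast] at hx1 hx2
      rw [mem_coe, mem_image]
      refine ⟨(x + (b : ℂ), x + (c : ℂ)), ?_, ?_⟩
      · rw [mem_product, hR, Multiset.mem_toFinset, Multiset.mem_toFinset, mem_roots hG0, mem_roots hG0]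
        exact ⟨hx1, hx2⟩
      · simp only
        ring
    · intro c _ c' _ h
      have h' : (c : ℂ) = (c' : ℂ) := h
      exact_mod_cast h'
  calc I.card ≤ ((R ×ˢ R).image (fun x => (b : ℂ) + (x.2 - x.1))).card := hcard
    _ ≤ (R ×ˢ R).card := card_image_le
    _ = R.card * R.card := card_product _ _
    _ ≤ F.natDegree * F.natDegree := Nat.mul_le_mul hRc hRc
    _ = F.natDegree ^ 2 := by ring

end Pool.Agent.H31.GP
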