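import Pool.Agent.H31.DG.Dig
import Mathlib.RingTheory.Polynomial.Resultant.Basic

set_option autoImplicit false

/-! # Roots of integer polynomials modulo primes, under affine substitutions -/

namespace Pool.Agent.H31.GP

open Finset Filter Topology Polynomial Pool.Agent.H373R2.T7

/-- `p` divides `F (n)` -/
def RF (F : ℤ[X]) (p n : ℕ) : Prop := (p : ℤ) ∣ F.eval (n : ℤ)

/-- the degree is at most `D`, and there is no fixed prime divisor -/
structure Sys (F : ℤ[X]) (D : ℕ) : Prop where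
  deg : F.natDegree ≤ D
  fix : ∀ p : ℕ, p.Prime → ∃ n : ℕ, ¬ RF F p n

lemma RF_iff (F : ℤ[X]) (p n : ℕ) : RF F p n ↔ (F.map (Int.castRingHom (ZMod p))).eval (n : ZMod p) = 0 := by
  unfold RF
  rw [← ZMod.intCast_zmod_eq_zero_iff_dvd, Polynomial.eval_natCast_map]
  rfl

lemma RF_aff (F : ℤ[X]) (p a b n : ℕ) : RF F p (a * n + b) ↔
    (F.map (Int.castRingHom (ZMod p))).eval ((a : ZMod p) * (n : ZMod p) + (b : ZMod p)) = 0 := by
  rw [RF_iff]
  push_cast
  rfl

lemma RF_per (F : ℤ[X]) (p a b n : ℕ) : RF F p (a * n + b) ↔ RF F p (a * (n % p) + b) := by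
  rw [RF_aff, RF_aff, ZMod.natCast_mod]

lemma RF_mod (F : ℤ[X]) (p n : ℕ) : RF F p n ↔ RF F p (n % p) := by
  have := RF_per F p 1 0 n
  simpa using this

lemma RF_dvd (F : ℤ[X]) (p a b n : ℕ) (h : p ∣ a) : RF F p (a * n + b) ↔ RF F p b := by
  have h1 : (a : ZMod p) = 0 := (ZMod.natCast_eq_zero_iff _ _).2 h
  rw [RF_aff, RF_iff, h1, zero_mul, zero_add]

open Classical in
/-- the roots of `F (a n + b)` -/
noncomputable def ZF (F : ℤ[X]) (a b p : ℕ) : Finset ℕ := (range p).filter (fun n => RF F p (a * n + b))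

lemma mem_ZF {F : ℤ[X]} {a b p n : ℕ} : n ∈ ZF F a b p ↔ n < p ∧ RF F p (a * n + b) := by
  classical
  unfold ZF
  simp only [mem_filter, mem_range]

lemma map_ne_zero {F : ℤ[X]} {D : ℕ} (h : Sys F D) {p : ℕ} (hp : p.Prime) : F.map (Int.castRingHom (ZMod p)) ≠ 0 := by
  intro h0
  obtain ⟨n, hn⟩ := h.fix p hp
  apply hn
  rw [RF_iff, h0, eval_zero]

lemma Z_le_D {F : ℤ[X]} {D : ℕ} (h : Sys F D) {p : ℕ} (hp : p.Prime) : (ZF F 1 0 p).card ≤ D := by
  classical
  have := Fact.mk hp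
  set G := F.map (Int.castRingHom (ZMod p)) with hG
  have h0 := map_ne_zero h hp
  have h1 : (ZF F 1 0 p).card ≤ G.roots.toFinset.card := by
    apply card_le_card_of_injOn (fun n : ℕ => (n : ZMod p))
    · intro n hn
      rw [mem_coe, mem_ZF, one_mul, add_zero] at hn
      rw [mem_coe, Multiset.mem_toFinset, mem_roots h0, IsRoot.def]
      exact (RF_iff F p n).1 hn.2
    · intro n hn m hm hnm
      rw [mem_coe, mem_ZF] at hn hm
      have := (ZMod.natCast_eq_natCast_iff' _ _ _).1 hnm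
      rwa [Nat.mod_eq_of_lt hn.1, Nat.mod_eq_of_lt hm.1] at this
  calc (ZF F 1 0 p).card ≤ G.roots.toFinset.card := h1
    _ ≤ Multiset.card G.roots := Multiset.toFinset_card_le _
    _ ≤ G.natDegree := card_roots' G
    _ ≤ F.natDegree := natDegree_map_le
    _ ≤ D := h.deg

lemma Z_lt_p {F : ℤ[X]} {D : ℕ} (h : Sys F D) {p : ℕ} (hp : p.Prime) : (ZF F 1 0 p).card + 1 ≤ p := by
  obtain ⟨n, hn⟩ := h.fix p hp
  have h1 : n % p < p := Nat.mod_lt _ hp.pos
  have h2 : ZF F 1 0 p ⊆ (range p).erase (n % p) := by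
    intro m hm
    rw [mem_ZF, one_mul, add_zero] at hm
    rw [mem_erase, mem_range]
    refine ⟨?_, hm.1⟩
    rintro rfl
    exact hn ((RF_mod F p n).2 hm.2)
  have h3 := card_le_card h2
  rw [card_erase_of_mem (mem_range.2 h1), card_range] at h3
  have := hp.pos
  omega

/-- an affine substitution with a unit does not change the number of roots -/
lemma Z_unit (F : ℤ[X]) (a b p : ℕ) (hp : p.Prime) (h : ¬ p ∣ a) : (ZF F a b p).card = (ZF F 1 0 p).card := by
  have := Fact.mk hp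
  have ha' : (a : ZMod p) ≠ 0 := by
    intro h1
    exact h ((ZMod.natCast_eq_zero_iff _ _).1 h1)
  refine card_nbij' (fun n => ((a : ZMod p) * (n : ZMod p) + b).val) (fun n => ((a : ZMod p)⁻¹ * ((n : ZMod p) - b)).val) ?_ ?_ ?_ ?_
  · intro n hn
    rw [mem_coe, mem_ZF] at hn
    rw [mem_coe, mem_ZF, one_mul, add_zero]
    refine ⟨ZMod.val_lt _, ?_⟩
    rw [RF_iff, ZMod.natCast_zmod_val]
    exact (RF_aff F p a b n).1 hn.2
  · intro n hn
    rw [mem_coe, mem_ZF, one_mul, add_zero] at hn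
    rw [mem_coe, mem_ZF]
    refine ⟨ZMod.val_lt _, ?_⟩
    rw [RF_aff, ZMod.natCast_zmod_val, ← mul_assoc, mul_inv_cancel₀ ha', one_mul, sub_add_cancel]
    exact (RF_iff F p n).1 hn.2
  · intro n hn
    rw [mem_coe, mem_ZF] at hn
    simp only [ZMod.natCast_zmod_val]
    rw [add_sub_cancel_right, ← mul_assoc, inv_mul_cancel₀ ha', one_mul, ZMod.val_natCast, Nat.mod_eq_of_lt hn.1]
  · intro n hn
    rw [mem_coe, mem_ZF] at hn
    simp only [ZMod.natCast_zmod_val]
    rw [← mul_assoc, mul_inv_cancel₀ ha', one_mul, sub_add_cancel, ZMod.val_natCast, Nat.mod_eq_of_lt hn.1]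

lemma Z_none (F : ℤ[X]) (a b p : ℕ) (h : p ∣ a) (hb : ¬ RF F p b) : ZF F a b p = ∅ := by
  rw [eq_empty_iff_forall_notMem]
  intro n hn
  exact hb ((RF_dvd F p a b n h).1 (mem_ZF.1 hn).2)

/-- the affine form `a n + b` is admissible for `F` -/
def Okay (F : ℤ[X]) (a b : ℕ) : Prop := ∀ p : ℕ, p.Prime → p ∣ a → ¬ RF F p b

lemma Z_le {F : ℤ[X]} {a b : ℕ} (ho : Okay F a b) (p : ℕ) (hp : p.Prime) : (ZF F a b p).card ≤ (ZF F 1 0 p).card := by
  by_cases h : p ∣ a
  · rw [Z_none F a b p h (ho p hp h)]; simp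
  · exact (Z_unit F a b p hp h).le

/-- the conditions -/
def QF (F : ℤ[X]) (a b c d y₁ y₂ : ℕ) : ℕ → ℕ → Prop := fun p n => (p ≤ y₁ ∧ RF F p (a * n + b)) ∨ (p ≤ y₂ ∧ RF F p (c * n + d))

lemma nuF (F : ℤ[X]) (a b c d y₁ y₂ p : ℕ) : nuB (QF F a b c d y₁ y₂) p =
    ((if p ≤ y₁ then ZF F a b p else ∅) ∪ (if p ≤ y₂ then ZF F c d p else ∅)).card := by
  classical
  unfold nuB
  congr 1
  ext n
  simp only [mem_filter, mem_range, mem_union]
  unfold QF
  constructor
  · rintro ⟨h1, h2 | h2⟩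
    · left; rw [if_pos h2.1, mem_ZF]; exact ⟨h1, h2.2⟩
    · right; rw [if_pos h2.1, mem_ZF]; exact ⟨h1, h2.2⟩
  · rintro (h | h)
    · split_ifs at h with h3
      · rw [mem_ZF] at h
        exact ⟨h.1, Or.inl ⟨h3, h.2⟩⟩
      · simp at h
    · split_ifs at h with h3
      · rw [mem_ZF] at h
        exact ⟨h.1, Or.inr ⟨h3, h.2⟩⟩
      · simp at h

lemma perF {F : ℤ[X]} {D : ℕ} (hF : Sys F D) {a b c d : ℕ} (h1 : Okay F a b) (h2 : Okay F c d) (y₁ y₂ : ℕ) :
    PerB (QF F a b c d y₁ y₂) (2 * D) := by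
  refine ⟨fun p n => ?_, fun p hp => ?_⟩
  · unfold QF
    rw [RF_per F p a b n, RF_per F p c d n]
  · rw [nuF]
    refine (card_union_le _ _).trans ?_
    have h0 := Z_le_D hF hp
    have h3 : (if p ≤ y₁ then ZF F a b p else ∅).card ≤ D := by
      split_ifs
      · exact (Z_le h1 p hp).trans h0
      · simp
    have h4 : (if p ≤ y₂ then ZF F c d p else ∅).card ≤ D := by
      split_ifs
      · exact (Z_le h2 p hp).trans h0
      · simp
    omega

end Pool.Agent.H31.GP
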