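import Pool.Agent.H31.GP.Avg

set_option autoImplicit false

/-! # Two blocks of digits, for general polynomials -/

namespace Pool.Agent.H31.GP

open Finset Filter Topology Polynomial Pool.Agent.H373R2.T7
open Pool.Agent.H31.MF (Prd mid mem_mid pz_split pz_disj exp_ge sum_three_half card_pf_le)
open Pool.Agent.H31.DG (cnt0 cauchy_expand2 card_class_le sum_blocks log_small)

/-- the product for an affine form with few prime factors in the leading coefficient -/
lemma prd1F {F : ℤ[X]} {D : ℕ} (hS : Sys F D) {a b : ℕ} (ho : Okay F a b) (y P0 : ℕ) (hP0 : 2 * D ≤ P0) (hP1 : 1 ≤ P0)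
    (ha : ∀ p : ℕ, p.Prime → p ∣ a → P0 ≤ p) (k : ℕ) (hk : ((pz y).filter (fun p => p ∣ a)).card ≤ k) :
    V F y ≤ ∏ p ∈ pz y, (1 - ((ZF F a b p).card : ℝ) / p) ∧
    ∏ p ∈ pz y, (1 - ((ZF F a b p).card : ℝ) / p) ≤ V F y * Real.exp (2 * D * k / P0) := by
  have hP00 : (0 : ℝ) < P0 := by exact_mod_cast hP1
  constructor
  · unfold V
    apply Finset.prod_le_prod
    · intro p hp
      have := rh_lt hS (mem_pz.1 hp).2
      linarith
    · intro p hp
      have hp' := (mem_pz.1 hp).2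
      unfold rh
      have h1 : ((ZF F a b p).card : ℝ) / p ≤ ((ZF F 1 0 p).card : ℝ) / p := by
        apply div_le_div_of_nonneg_right _ (Nat.cast_nonneg _)
        exact_mod_cast Z_le ho p hp'
      linarith
  · have h1 : ∏ p ∈ pz y, (1 - ((ZF F a b p).card : ℝ) / p) ≤ ∏ p ∈ pz y, ((1 - rh F p) * (if p ∣ a then Real.exp (2 * D / P0) else 1)) := by
      apply Finset.prod_le_prod
      · intro p hp
        exact fac1 hS ho (mem_pz.1 hp).2
      · intro p hp
        have hp' := (mem_pz.1 hp).2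
        have hp0 : (0 : ℝ) < p := by exact_mod_cast hp'.pos
        split_ifs with h
        · rw [Z_none F a b p h (ho p hp' h)]
          have h2 : P0 ≤ p := ha p hp' h
          have h3 : (P0 : ℝ) ≤ p := by exact_mod_cast h2
          have h4 : rh F p ≤ D / P0 := (rh_le hS hp').trans (by
            apply div_le_div_of_nonneg_left (Nat.cast_nonneg _) hP00 h3)
          have h5 := rh_nonneg F p
          have h6 : (D : ℝ) / (P0 : ℝ) ≤ 1 / 2 := by
            rw [div_le_div_iff₀ hP00 (by norm_num)]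
            have : (2 * D : ℝ) ≤ P0 := by exact_mod_cast hP0
            linarith
          have h7 := exp_ge h5 (h4.trans h6)
          have h8 : Real.exp (2 * rh F p) ≤ Real.exp (2 * D / P0) := by
            apply Real.exp_le_exp.2
            calc 2 * rh F p ≤ 2 * (D / P0) := by linarith
              _ = 2 * D / P0 := by ring
          have h9 : (1 - rh F p) * Real.exp (2 * rh F p) ≤ (1 - rh F p) * Real.exp (2 * D / P0) :=
            mul_le_mul_of_nonneg_left h8 (by have := rh_lt hS hp'; linarith)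
          simp only [card_empty, Nat.cast_zero, zero_div, sub_zero]
          linarith
        · rw [mul_one, Z_unit F a b p hp' h]
          exact le_rfl
    refine h1.trans ?_
    rw [prod_mul_distrib]
    unfold V
    apply mul_le_mul_of_nonneg_left _ (V_pos hS y).le
    rw [← prod_filter, prod_const, ← Real.exp_nat_mul]
    apply Real.exp_le_exp.2
    have h2 : (((pz y).filter (fun p => p ∣ a)).card : ℝ) ≤ k := by exact_mod_cast hk
    calc (((pz y).filter (fun p => p ∣ a)).card : ℝ) * (2 * D / P0) ≤ k * (2 * D / P0) :=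
          mul_le_mul_of_nonneg_right h2 (by positivity)
      _ = 2 * D * k / P0 := by ring

/-- the squares -/
lemma sqF {F : ℤ[X]} {D : ℕ} (hS : Sys F D) {a b w y : ℕ} (ho : Okay F a b) (M : ℕ) (hwy : w ≤ y) (hy : 1 ≤ y)
    (hV : 1 / (y : ℝ) ≤ V F y) (κ : ℝ)
    (hκ : ∀ z : ℕ, ∏ p ∈ pz z, (1 - ((ZF F a b p).card : ℝ) / p) ≤ κ * V F z) (ε : ℝ) (hε1 : ε ≤ 1)
    (hfl : ∀ Q : ℕ → ℕ → Prop, PerB Q (2 * D) → |(cnt0 Q y M : ℝ) - M * Prd Q y| ≤ ε * (M * Prd Q y) + ε * (M / (y : ℝ) ^ 2)) :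
    ∑ m ∈ range M, ff F w y (a * m + b) ^ 2 ≤ (4 * κ + 2) * (M * V F y) := by
  have hv0 := vv_pos hS w y
  have hM0 : (0 : ℝ) ≤ M := Nat.cast_nonneg _
  have hVy := V_pos hS y
  have hV1 := V_le_one hS y
  have key : ∀ z : ℕ, z ≤ y → ∑ m ∈ range M, ind F z (a * m + b) ≤ 2 * (κ * (M * V F z)) + M * V F z := by
    intro z hz
    have h1 := (abs_le.1 (one_count hS ho y M ε hfl z hz)).2
    have h2 := mul_le_mul_of_nonneg_left (hκ z) hM0
    have hP0 : 0 ≤ ∏ p ∈ pz z, (1 - ((ZF F a b p).card : ℝ) / p) := prod_nonneg fun p hp => fac1 hS ho (mem_pz.1 hp).2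
    have h3 : ε * (M * ∏ p ∈ pz z, (1 - ((ZF F a b p).card : ℝ) / p)) ≤ M * ∏ p ∈ pz z, (1 - ((ZF F a b p).card : ℝ) / p) :=
      mul_le_of_le_one_left (by positivity) hε1
    have h4 : ε * (M / (y : ℝ) ^ 2) ≤ M * V F z := by
      have h5 : (M : ℝ) / (y : ℝ) ^ 2 ≤ M * V F z := by
        rw [div_eq_mul_one_div]
        apply mul_le_mul_of_nonneg_left _ hM0
        calc 1 / (y : ℝ) ^ 2 ≤ 1 / (y : ℝ) := by
              apply one_div_le_one_div_of_le (by exact_mod_cast hy)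
              have : (1 : ℝ) ≤ y := by exact_mod_cast hy
              nlinarith
          _ ≤ V F y := hV
          _ ≤ V F z := V_anti hS hz
      have h6 : 0 ≤ (M : ℝ) / (y : ℝ) ^ 2 := by positivity
      calc ε * (M / (y : ℝ) ^ 2) ≤ 1 * (M / (y : ℝ) ^ 2) := mul_le_mul_of_nonneg_right hε1 h6
        _ ≤ _ := by linarith
    linarith
  have h1 := key y le_rfl
  have h2 := key w hwy
  calc ∑ m ∈ range M, ff F w y (a * m + b) ^ 2 ≤ ∑ m ∈ range M, (ind F y (a * m + b) + vv F w y * ind F w (a * m + b)) := by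
        apply sum_le_sum
        intro m _
        obtain ⟨k1, k2⟩ := ff_abs hS w y (a * m + b) hwy
        rw [← sq_abs, sq]
        have := mul_le_of_le_one_left (abs_nonneg (ff F w y (a * m + b))) k1
        linarith
    _ = ∑ m ∈ range M, ind F y (a * m + b) + vv F w y * ∑ m ∈ range M, ind F w (a * m + b) := by rw [sum_add_distrib, ← mul_sum]
    _ ≤ (2 * (κ * (M * V F y)) + M * V F y) + vv F w y * (2 * (κ * (M * V F w)) + M * V F w) := by
        apply add_le_add h1
        exact mul_le_mul_of_nonneg_left h2 hv0.le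
    _ = (4 * κ + 2) * (M * V F y) := by rw [V_split F hwy]; ring

lemma abs_sum_mul_le (S : Finset ℕ) (f g : ℕ → ℝ) (K : ℝ) (h1 : ∑ m ∈ S, f m ^ 2 ≤ K) (h2 : ∑ m ∈ S, g m ^ 2 ≤ K) :
    |∑ m ∈ S, f m * g m| ≤ K := by
  refine (abs_sum_le_sum_abs _ _).trans ?_
  calc ∑ m ∈ S, |f m * g m| ≤ ∑ m ∈ S, (f m ^ 2 + g m ^ 2) / 2 := by
        apply sum_le_sum
        intro m _
        rw [abs_mul]
        have := sq_nonneg (|f m| - |g m|)
        have e1 := sq_abs (f m)
        have e2 := sq_abs (g m)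
        nlinarith
    _ = (∑ m ∈ S, f m ^ 2 + ∑ m ∈ S, g m ^ 2) / 2 := by rw [← sum_div, sum_add_distrib]
    _ ≤ K := by linarith

lemma okay_one (F : ℤ[X]) (b : ℕ) : Okay F 1 b := fun p hp h => absurd (Nat.dvd_one.1 h) hp.one_lt.ne'

lemma good_one (F : ℤ[X]) (w b : ℕ) : Good F w 1 b := ⟨okay_one F b, fun p hp h => absurd (Nat.dvd_one.1 h) hp.one_lt.ne'⟩

lemma prod_one {F : ℤ[X]} (b z : ℕ) : ∏ p ∈ pz z, (1 - ((ZF F 1 b p).card : ℝ) / p) ≤ 1 * V F z := by
  rw [one_mul]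
  apply le_of_eq
  unfold V rh
  apply prod_congr rfl
  intro p hp
  rw [Z_unit F 1 b p (mem_pz.1 hp).2 (fun h => absurd (Nat.dvd_one.1 h) (mem_pz.1 hp).2.one_lt.ne')]

/-- the classes of the bad pairs -/
lemma classS {F : ℤ[X]} {D : ℕ} (hS : Sys F D) (T B i l : ℕ) (hl : l.Prime) (hT : ¬ l ∣ T) (hlB : l ≤ B) (K : Finset ℕ)
    (hK : K ⊆ range B) (hb : ∀ j ∈ K, ∃ n : ℕ, RF F l (1 * n + T * i) ∧ RF F l (1 * n + T * j)) :
    (K.card : ℝ) ≤ (2 * D ^ 2 * B : ℝ) / l := by
  classical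
  have := Fact.mk hl
  have hT' : (T : ZMod l) ≠ 0 := by rw [Ne, ZMod.natCast_eq_zero_iff]; exact hT
  set Z := ZF F 1 0 l with hZ
  have hZc : Z.card ≤ D := Z_le_D hS hl
  have hsub : K ⊆ (Z ×ˢ Z).biUnion (fun x => (range B).filter (fun j => j ≡ (((T : ZMod l) * i + x.2 - x.1) / T).val [MOD l])) := by
    intro j hj
    obtain ⟨n, h1, h2⟩ := hb j hj
    rw [mem_biUnion]
    refine ⟨((1 * n + T * i) % l, (1 * n + T * j) % l), ?_, ?_⟩
    · rw [mem_product, hZ, mem_ZF, mem_ZF]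
      simp only [one_mul, add_zero]
      rw [one_mul] at h1 h2
      exact ⟨⟨Nat.mod_lt _ hl.pos, (RF_mod F l _).1 h1⟩, ⟨Nat.mod_lt _ hl.pos, (RF_mod F l _).1 h2⟩⟩
    · rw [mem_filter]
      refine ⟨hK hj, ?_⟩
      apply (ZMod.natCast_eq_natCast_iff _ _ _).1
      rw [ZMod.natCast_zmod_val]
      simp only [one_mul, ZMod.natCast_mod]
      push_cast
      field_simp
      ring
  have h1 : K.card ≤ ∑ x ∈ Z ×ˢ Z, ((range B).filter (fun j => j ≡ (((T : ZMod l) * i + x.2 - x.1) / T).val [MOD l])).card :=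
    (card_le_card hsub).trans card_biUnion_le
  calc (K.card : ℝ) ≤ ∑ x ∈ Z ×ˢ Z, (((range B).filter (fun j => j ≡ (((T : ZMod l) * i + x.2 - x.1) / T).val [MOD l])).card : ℝ) := by
        exact_mod_cast h1
    _ ≤ ∑ _x ∈ Z ×ˢ Z, 2 * (B : ℝ) / l := sum_le_sum fun x _ => card_class_le B l _ hl.one_lt.le hlB
    _ = ((Z.card : ℝ) * Z.card) * (2 * (B : ℝ) / l) := by rw [sum_const, card_product, nsmul_eq_mul]; push_cast; ring
    _ ≤ ((D : ℝ) * D) * (2 * (B : ℝ) / l) := by
        apply mul_le_mul_of_nonneg_right _ (by positivity)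
        have : (Z.card : ℝ) ≤ D := by exact_mod_cast hZc
        exact mul_le_mul this this (Nat.cast_nonneg _) (Nat.cast_nonneg _)
    _ = _ := by ring

/-- the number of the primes which divide an integer -/
lemma card_dvd_le (R : ℤ) (hR : R ≠ 0) (K : Finset ℕ) (hK : ∀ l ∈ K, l.Prime ∧ (l : ℤ) ∣ R) : K.card ≤ Nat.log 2 R.natAbs := by
  have h0 : R.natAbs ≠ 0 := Int.natAbs_ne_zero.2 hR
  refine (card_le_card ?_).trans (card_pf_le R.natAbs h0)
  intro l hl
  obtain ⟨h1, h2⟩ := hK l hl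
  rw [Nat.mem_primeFactors]
  exact ⟨h1, by rwa [← Int.natCast_dvd], h0⟩

theorem blockSF (D A : ℕ) (hD : 1 ≤ D) : ∃ C : ℝ, 0 < C ∧ ∀ (F : ℤ[X]), Sys F D → ∀ (T B N w y : ℕ) (ε : ℝ),
    (∀ i, |F.coeff i| ≤ (N : ℤ) ^ A) → 1 ≤ T → 1 ≤ B → T * B ≤ N → (D + 1) * 2 ^ D ≤ N → 1 ≤ w → 2 * D ≤ w → w ≤ y →
    1 / (y : ℝ) ≤ V F y → (∀ l : ℕ, l.Prime → l ∣ T → l ≤ w) → 0 ≤ ε → ε ≤ 1 → FLD D N y ε → N ≤ T ^ 4 →
    ∀ G H : ℕ → ℂ, (∀ n, ‖G n‖ ≤ 1) → (∀ n, ‖H n‖ ≤ 1) →
    ‖∑ b ∈ range B, ∑ a ∈ range T, G a * H b * (ff F w y (a + T * b) : ℂ)‖ ^ 2 ≤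
      ((T : ℝ) * B) ^ 2 * (V F w * vv F w y ^ 2 * (C * (1 / Real.sqrt w + ε + ((Nat.log 2 N : ℝ) + 1) / Real.sqrt B)) + C * V F y / B) := by
  classical
  obtain ⟨C0, hC0, havg⟩ := avgA (4 * D) (by omega)
  set C2 : ℝ := (((2 * D).factorial + 2 * D * (A + D + 1) + 1 : ℕ) : ℝ) with hC2
  have hC20 : 0 ≤ C2 := Nat.cast_nonneg _
  have hDr : (1 : ℝ) ≤ D := by exact_mod_cast hD
  refine ⟨max (4 * (D : ℝ) ^ 2 + 8 + 6 * C0 * (2 * D ^ 2) + 6 * C0 * C2) (6 * (1 + D ^ 2)), by positivity,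
    fun F hS T B N w y ε hH hT1 hB hTB hDN hw hwD hwy hV hTw hε0 hε1 hFL hNT G H hG hHH => ?_⟩
  have hfl := fun (Q : ℕ → ℕ → Prop) (hQ : PerB Q (2 * D)) => hFL Q hQ T hNT
  have hB0 : (0 : ℝ) < B := by exact_mod_cast hB
  have hT0 : (0 : ℝ) < T := by exact_mod_cast hT1
  have hw0 : (1 : ℝ) ≤ w := by exact_mod_cast hw
  have hVw := V_pos hS w
  have hVy := V_pos hS y
  have hv0 := vv_pos hS w y
  have hF0 : F ≠ 0 := by
    rintro rfl
    obtain ⟨n, hn⟩ := hS.fix 2 Nat.prime_two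
    apply hn
    unfold RF
    simp
  set L : ℝ := ((Nat.log 2 N : ℝ) + 1) / Real.sqrt B with hL
  have hL0 : 0 ≤ L := by positivity
  set s : ℝ := 1 / Real.sqrt w with hs
  have hs0 : 0 ≤ s := by positivity
  have e1 : ∑ b ∈ range B, ∑ a ∈ range T, G a * H b * (ff F w y (a + T * b) : ℂ) =
      ∑ a ∈ range T, G a * ∑ b ∈ range B, H b * (ff F w y (1 * a + T * b) : ℂ) := by
    rw [sum_comm]
    apply sum_congr rfl
    intro a _
    rw [mul_sum]
    apply sum_congr rfl
    intro b _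
    rw [one_mul]
    ring
  rw [e1]
  refine (cauchy_expand2 (range B) (range T) H hHH (fun a b => ff F w y (1 * a + T * b)) G hG).trans ?_
  rw [card_range]
  set J : ℕ → Finset ℕ := fun b => (range B).filter (fun b' => b' ≠ b ∧ RS F (T * b) (T * b') ≠ 0) with hJ
  set U : ℕ → Finset ℕ := fun b => (range B).filter (fun b' => ¬ (b' ≠ b ∧ RS F (T * b) (T * b') ≠ 0)) with hU
  have e2 : ∑ b ∈ range B, ∑ b' ∈ range B, |∑ a ∈ range T, ff F w y (1 * a + T * b) * ff F w y (1 * a + T * b')| =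
      ∑ b ∈ range B, (∑ b' ∈ J b, |∑ a ∈ range T, ff F w y (1 * a + T * b) * ff F w y (1 * a + T * b')| +
        ∑ b' ∈ U b, |∑ a ∈ range T, ff F w y (1 * a + T * b) * ff F w y (1 * a + T * b')|) := by
    apply sum_congr rfl
    intro b hb
    rw [hJ, hU]
    exact (sum_filter_add_sum_filter_not _ _ _).symm
  rw [e2, sum_add_distrib]
  have hsq : ∀ b, ∑ a ∈ range T, ff F w y (1 * a + T * b) ^ 2 ≤ (4 * 1 + 2) * (T * V F y) := fun b =>
    sqF hS (okay_one F (T * b)) T hwy (by omega) hV 1 (fun z => prod_one (T * b) z) ε hε1 hfl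
  have hUc : ∀ b, (U b).card ≤ 1 + D ^ 2 := by
    intro b
    have h1 : U b ⊆ {b} ∪ (range B).filter (fun b' => RS F (T * b) (T * b') = 0) := by
      intro b' hb'
      rw [hU, mem_filter] at hb'
      rw [mem_union, mem_singleton, mem_filter]
      by_cases h : b' = b
      · exact Or.inl h
      · right
        refine ⟨hb'.1, ?_⟩
        by_contra h2
        exact hb'.2 ⟨h, h2⟩
    refine (card_le_card h1).trans ((card_union_le _ _).trans ?_)
    rw [card_singleton]
    apply Nat.add_le_add_left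
    have h2 := RS_zero hF0 (T * b) (((range B).filter (fun b' => RS F (T * b) (T * b') = 0)).image (fun b' => T * b')) (by
      intro d hd
      rw [mem_image] at hd
      obtain ⟨b', hb', rfl⟩ := hd
      exact (mem_filter.1 hb').2)
    rw [card_image_of_injective _ (fun x y h => Nat.eq_of_mul_eq_mul_left (by omega) h)] at h2
    exact h2.trans (Nat.pow_le_pow_left hS.deg 2)
  have hdiag : ∑ b ∈ range B, ∑ b' ∈ U b, |∑ a ∈ range T, ff F w y (1 * a + T * b) * ff F w y (1 * a + T * b')| ≤ B * ((1 + D ^ 2) * (6 * (T * V F y))) := by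
    calc ∑ b ∈ range B, ∑ b' ∈ U b, |∑ a ∈ range T, ff F w y (1 * a + T * b) * ff F w y (1 * a + T * b')|
        ≤ ∑ b ∈ range B, ∑ _b' ∈ U b, 6 * (T * V F y) := by
          apply sum_le_sum
          intro b _
          apply sum_le_sum
          intro b' _
          apply abs_sum_mul_le
          · refine (hsq b).trans (le_of_eq ?_); ring
          · refine (hsq b').trans (le_of_eq ?_); ring
      _ = ∑ b ∈ range B, ((U b).card : ℝ) * (6 * (T * V F y)) := by
          apply sum_congr rfl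
          intro b _
          rw [sum_const, nsmul_eq_mul]
      _ ≤ ∑ _b ∈ range B, ((1 : ℝ) + D ^ 2) * (6 * (T * V F y)) := by
          apply sum_le_sum
          intro b _
          apply mul_le_mul_of_nonneg_right _ (by positivity)
          exact_mod_cast hUc b
      _ = _ := by rw [sum_const, card_range, nsmul_eq_mul]
  have havg' : ∑ b ∈ range B, ∑ b' ∈ J b, (Real.exp (hF F D 1 (T * b) 1 (T * b') w y) - 1) ≤
      C0 * (B * (2 * D ^ 2 * B) * s + (B : ℝ) ^ 2 * (C2 * L)) := by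
    have h := havg (range B) J (fun b b' l => ∃ n : ℕ, RF F l (1 * n + T * b) ∧ RF F l (1 * n + T * b')) w y B (2 * D ^ 2 * B) (C2 * ((Nat.log 2 N : ℝ) + 1))
      hw hB (by positivity) (by positivity) (fun b _ => filter_subset _ _) (by
        intro i _ l hl K hK hb
        obtain ⟨h1, h2, h3⟩ := mem_mid.1 hl
        exact classS hS T B i l h1 (fun h => by have := hTw l h1 h; omega) h3 K (hK.trans (filter_subset _ _)) hb) (by
        intro i hi j hj K hK
        rw [mem_range] at hi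
        rw [hJ, mem_filter, mem_range] at hj
        have h1 := card_dvd_le (RS F (T * i) (T * j)) hj.2.2 K (by
          intro l hl
          obtain ⟨g1, g2, n, g3, g4⟩ := hK l hl
          exact ⟨g1, dvd_RS hS g1 g3 g4⟩)
        have h2 := RS_log F D N A hS.deg hDN hH (T * i) (T * j) ((Nat.mul_le_mul_left T hi.le).trans hTB)
          ((Nat.mul_le_mul_left T hj.1.le).trans hTB)
        rw [hC2]
        exact_mod_cast h1.trans h2)
      (fun b b' => (mid w y).filter (fun l => BadF F 1 (T * b) 1 (T * b') l)) (by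
        intro b _ b' _ l hl
        rw [mem_filter, mem_mid] at hl
        refine ⟨hl.1.1, hl.1.2.1, hl.1.2.2, ?_⟩
        rcases hl.2 with h | h | h
        · exact absurd (Nat.dvd_one.1 h) hl.1.1.one_lt.ne'
        · exact absurd (Nat.dvd_one.1 h) hl.1.1.one_lt.ne'
        · exact h)
    have e3 : ∀ b b' : ℕ, hF F D 1 (T * b) 1 (T * b') w y = ∑ l ∈ (mid w y).filter (fun l => BadF F 1 (T * b) 1 (T * b') l), ((4 * D : ℕ) : ℝ) / (l : ℝ) := by
      intro b b'
      unfold hF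
      push_cast
      rfl
    simp only [e3]
    refine h.trans (le_of_eq ?_)
    rw [card_range, hL]
    ring
  have hoff : ∑ b ∈ range B, ∑ b' ∈ J b, |∑ a ∈ range T, ff F w y (1 * a + T * b) * ff F w y (1 * a + T * b')| ≤
      T * V F w * vv F w y ^ 2 * (B ^ 2 * ((4 * D ^ 2 + 8 + 6 * C0 * (2 * D ^ 2) + 6 * C0 * C2) * (s + ε + L))) := by
    have hK : 0 ≤ T * V F w * vv F w y ^ 2 := by positivity
    have hw1 : 4 * (D : ℝ) ^ 2 / (w : ℝ) ≤ 4 * D ^ 2 * s := by
      rw [hs, mul_one_div]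
      apply div_le_div_of_nonneg_left (by positivity) (Real.sqrt_pos.2 (by linarith))
      rw [Real.sqrt_le_left (by linarith)]
      nlinarith
    calc ∑ b ∈ range B, ∑ b' ∈ J b, |∑ a ∈ range T, ff F w y (1 * a + T * b) * ff F w y (1 * a + T * b')|
        ≤ ∑ b ∈ range B, ∑ b' ∈ J b, T * V F w * vv F w y ^ 2 *
            ((4 * D ^ 2 * s + 8 * ε) + 6 * (Real.exp (hF F D 1 (T * b) 1 (T * b') w y) - 1)) := by
          apply sum_le_sum
          intro b _
          apply sum_le_sum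
          intro b' _
          refine (pairF hS (good_one F w (T * b)) (okay_one F (T * b')) y T hw hwD hwy hV ε hε0 hfl).trans ?_
          apply mul_le_mul_of_nonneg_left _ hK
          have h1 : 0 ≤ Real.exp (hF F D 1 (T * b) 1 (T * b') w y) - 1 := by
            have := Real.one_le_exp (hF_nonneg F D 1 (T * b) 1 (T * b') w y)
            linarith
          have h2 : (2 + 4 * ε) * (Real.exp (hF F D 1 (T * b) 1 (T * b') w y) - 1) ≤ 6 * (Real.exp (hF F D 1 (T * b) 1 (T * b') w y) - 1) :=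
            mul_le_mul_of_nonneg_right (by linarith) h1
          linarith
      _ = T * V F w * vv F w y ^ 2 * (∑ b ∈ range B, ∑ _b' ∈ J b, (4 * D ^ 2 * s + 8 * ε) +
            6 * ∑ b ∈ range B, ∑ b' ∈ J b, (Real.exp (hF F D 1 (T * b) 1 (T * b') w y) - 1)) := by
          simp only [← mul_sum, sum_add_distrib]
      _ ≤ T * V F w * vv F w y ^ 2 * (B ^ 2 * (4 * D ^ 2 * s + 8 * ε) + 6 * (C0 * (B * (2 * D ^ 2 * B) * s + (B : ℝ) ^ 2 * (C2 * L)))) := by
          apply mul_le_mul_of_nonneg_left _ hK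
          apply add_le_add
          · calc ∑ b ∈ range B, ∑ _b' ∈ J b, (4 * (D : ℝ) ^ 2 * s + 8 * ε)
                ≤ ∑ b ∈ range B, ∑ _b' ∈ range B, (4 * (D : ℝ) ^ 2 * s + 8 * ε) := by
                  apply sum_le_sum
                  intro b _
                  exact sum_le_sum_of_subset_of_nonneg (filter_subset _ _) (fun _ _ _ => by positivity)
              _ = _ := by
                  simp only [sum_const, card_range, nsmul_eq_mul]
                  ring
          · exact mul_le_mul_of_nonneg_left havg' (by norm_num)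
      _ ≤ _ := by
          apply mul_le_mul_of_nonneg_left _ hK
          have h1 : 0 ≤ (B : ℝ) ^ 2 := by positivity
          have h2 : (B : ℝ) ^ 2 * (4 * D ^ 2 * s + 8 * ε) + 6 * (C0 * (B * (2 * D ^ 2 * B) * s + (B : ℝ) ^ 2 * (C2 * L))) =
              B ^ 2 * ((4 * D ^ 2 * s + 8 * ε) + 6 * C0 * (2 * D ^ 2) * s + 6 * C0 * C2 * L) := by ring
          rw [h2]
          apply mul_le_mul_of_nonneg_left _ h1
          have h3 : 0 ≤ C0 * D ^ 2 := by positivity
          have h4 : 0 ≤ C0 * C2 := by positivity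
          have h5 : 0 ≤ (D : ℝ) ^ 2 := by positivity
          nlinarith [mul_nonneg h3 hε0, mul_nonneg h3 hL0, mul_nonneg h4 hs0, mul_nonneg h4 hε0, mul_nonneg h5 hε0, mul_nonneg h5 hL0]
  set K1 : ℝ := 4 * (D : ℝ) ^ 2 + 8 + 6 * C0 * (2 * D ^ 2) + 6 * C0 * C2 with hK1
  set K2 : ℝ := 6 * (1 + (D : ℝ) ^ 2) with hK2
  have hK10 : 0 ≤ K1 := by positivity
  calc (T : ℝ) * (∑ b ∈ range B, ∑ b' ∈ J b, |∑ a ∈ range T, ff F w y (1 * a + T * b) * ff F w y (1 * a + T * b')| +
        ∑ b ∈ range B, ∑ b' ∈ U b, |∑ a ∈ range T, ff F w y (1 * a + T * b) * ff F w y (1 * a + T * b')|)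
      ≤ (T : ℝ) * (T * V F w * vv F w y ^ 2 * (B ^ 2 * (K1 * (s + ε + L))) + B * ((1 + D ^ 2) * (6 * (T * V F y)))) :=
        mul_le_mul_of_nonneg_left (add_le_add hoff hdiag) hT0.le
    _ = ((T : ℝ) * B) ^ 2 * (V F w * vv F w y ^ 2 * (K1 * (s + ε + L)) + K2 * V F y / B) := by
        rw [hK2]
        field_simp
    _ ≤ ((T : ℝ) * B) ^ 2 * (V F w * vv F w y ^ 2 * (max K1 K2 * (s + ε + L)) + max K1 K2 * V F y / B) := by
        apply mul_le_mul_of_nonneg_left _ (by positivity)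
        apply add_le_add
        · apply mul_le_mul_of_nonneg_left _ (by positivity)
          apply mul_le_mul_of_nonneg_right (le_max_left _ _) (by positivity)
        · apply div_le_div_of_nonneg_right _ hB0.le
          apply mul_le_mul_of_nonneg_right (le_max_right _ _) hVy.le

end Pool.Agent.H31.GP
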