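import Pool.Agent.H31.GP.Shift

set_option autoImplicit false

/-! # The main theorem for two blocks of digits, for general polynomials -/

namespace Pool.Agent.H31.GP

open Finset Filter Topology Polynomial Pool.Agent.H373R2.T7
open Pool.Agent.H31.MF (Prd mid mem_mid pz_split pz_disj exp_ge sum_three_half card_pf_le)
open Pool.Agent.H31.DG (cnt0 cauchy_expand2 card_class_le sum_blocks log_small)

/-- lower bounds of the product -/
lemma V_low2 (D : ℕ) (hD : 1 ≤ D) : ∃ B n0 : ℕ, ∀ F : ℤ[X], Sys F D → ∀ y : ℕ, n0 ≤ y → 1 / Real.log y ^ B ≤ V F y ∧ 1 / (y : ℝ) ≤ V F y := by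
  obtain ⟨B, n1, h1⟩ := V_low D hD
  obtain ⟨n2, h2⟩ := ev_log' B 1
  refine ⟨B, max (max n1 n2) 3, fun F hF y hy => ?_⟩
  have hy1 : n1 ≤ y := le_trans (le_trans (le_max_left _ _) (le_max_left _ _)) hy
  have hy2 : n2 ≤ y := le_trans (le_trans (le_max_right _ _) (le_max_left _ _)) hy
  have hy3 : 3 ≤ y := le_trans (le_max_right _ _) hy
  have hyr : (3 : ℝ) ≤ y := by exact_mod_cast hy3
  have hl : 0 < Real.log y := Real.log_pos (by linarith)
  have g1 := h1 F hF y hy1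
  refine ⟨g1, le_trans ?_ g1⟩
  have g2 := h2 y hy2
  rw [one_mul] at g2
  apply one_div_le_one_div_of_le (by positivity)
  have : Real.sqrt y ≤ y := by
    rw [Real.sqrt_le_left (by linarith)]
    nlinarith
  linarith

theorem main2F (q : ℕ) (hq : 2 ≤ q) (D A : ℕ) (hD : 1 ≤ D) (ε0 : ℝ) (hε0 : 0 < ε0) : ∃ w r : ℕ, 4 ≤ w ∧ q ≤ w ∧ 1 ≤ r ∧
    ∀ᶠ N : ℕ in atTop, ∀ F : ℤ[X], Sys F D → (∀ i, |F.coeff i| ≤ (N : ℤ) ^ A) → ∀ y : ℕ, w ≤ y → y ^ r ≤ N →
    (∀ G H : ℕ → ℂ, (∀ n, ‖G n‖ ≤ 1) → (∀ n, ‖H n‖ ≤ 1) →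
      ‖∑ n ∈ range N, G (n % q ^ Nat.log q (Nat.sqrt N)) * H (n / q ^ Nat.log q (Nat.sqrt N)) * (ff F w y n : ℂ)‖ ≤ ε0 * (N * V F y)) ∧
    |∑ n ∈ range N, ind F y n - N * V F y| ≤ ε0 * (N * V F y) := by
  classical
  obtain ⟨C, hC, hblock⟩ := blockSF D A hD
  obtain ⟨B, n1, hV1⟩ := V_low2 D hD
  -- the choice of `w`
  obtain ⟨n2, hn2⟩ := ev_log' B (24 * C / ε0 ^ 2)
  obtain ⟨w, hw⟩ : ∃ w, w = max (max n1 n2) (max (max q (2 * D)) 4) := ⟨_, rfl⟩
  have hw4 : 4 ≤ w := by rw [hw]; exact le_trans (le_max_right _ _) (le_max_right _ _)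
  have hwq : q ≤ w := by rw [hw]; exact le_trans (le_max_left _ _) (le_trans (le_max_left _ _) (le_max_right _ _))
  have hwD : 2 * D ≤ w := by rw [hw]; exact le_trans (le_max_right _ _) (le_trans (le_max_left _ _) (le_max_right _ _))
  have hwn1 : n1 ≤ w := by rw [hw]; exact le_trans (le_max_left _ _) (le_max_left _ _)
  have hwn2 : n2 ≤ w := by rw [hw]; exact le_trans (le_max_right _ _) (le_max_left _ _)
  clear hw
  have hwr : (4 : ℝ) ≤ w := by exact_mod_cast hw4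
  have hlw : 0 < Real.log w := Real.log_pos (by linarith)
  have hsw : 0 < Real.sqrt w := Real.sqrt_pos.2 (by linarith)
  obtain ⟨κ, hκ⟩ : ∃ κ, κ = 1 / Real.log w ^ B := ⟨_, rfl⟩
  have hκ0 : 0 < κ := by rw [hκ]; positivity
  have hwC : C / Real.sqrt w ≤ ε0 ^ 2 * κ / 24 := by
    have h2 := hn2 w hwn2
    have h3 : 24 * C / ε0 ^ 2 ≤ Real.sqrt w * κ := by
      rw [hκ, mul_one_div, le_div_iff₀ (by positivity)]
      exact h2
    rw [div_le_iff₀ (by positivity)] at h3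
    rw [div_le_div_iff₀ hsw (by norm_num)]
    linarith
  -- the choice of `ε`
  obtain ⟨ε, hεd⟩ : ∃ ε, ε = min (min (1 / 2) (ε0 / 2)) (ε0 ^ 2 * κ / (24 * C)) := ⟨_, rfl⟩
  have hεpos : 0 < ε := by
    rw [hεd]
    refine lt_min (lt_min (by norm_num) (by positivity)) (by positivity)
  have hε1 : ε ≤ 1 / 2 := by rw [hεd]; exact (min_le_left _ _).trans (min_le_left _ _)
  have hε2 : ε ≤ ε0 / 2 := by rw [hεd]; exact (min_le_left _ _).trans (min_le_right _ _)
  have hε3 : C * ε ≤ ε0 ^ 2 * κ / 24 := by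
    have : ε ≤ ε0 ^ 2 * κ / (24 * C) := by rw [hεd]; exact min_le_right _ _
    rw [le_div_iff₀ (by positivity)] at this
    rw [le_div_iff₀ (by norm_num)]
    linarith
  clear hεd
  obtain ⟨r0, hr0, hfl⟩ := flD D hD ε hεpos
  obtain ⟨n3, hn3⟩ := exists_nat_ge (max (4 / ε0) (16 * C / ε0 ^ 2))
  refine ⟨w, max r0 32, hw4, hwq, le_max_of_le_left hr0, ?_⟩
  filter_upwards [hfl, log_small ε hεpos, eventually_ge_atTop (max (n3 ^ 4) (max (q ^ 4) (max 16 ((D + 1) * 2 ^ D))))]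
    with N hflN hlogN hNlarge F hS hH y hwy hyr
  have hN16 : 16 ≤ N := le_trans (le_trans (le_max_left _ _) (le_trans (le_max_right _ _) (le_max_right _ _))) hNlarge
  have hND : (D + 1) * 2 ^ D ≤ N := le_trans (le_trans (le_max_right _ _) (le_trans (le_max_right _ _) (le_max_right _ _))) hNlarge
  have hNq : q ^ 4 ≤ N := le_trans (le_trans (le_max_left _ _) (le_max_right _ _)) hNlarge
  have hNn3 : n3 ^ 4 ≤ N := le_trans (le_max_left _ _) hNlarge
  have hN0 : (0 : ℝ) < N := by exact_mod_cast (by omega : 0 < N)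
  have hy4 : 4 ≤ y := hw4.trans hwy
  have hyr0 : y ^ r0 ≤ N := le_trans (Nat.pow_le_pow_right (by omega) (le_max_left _ _)) hyr
  have hy32 : y ^ 32 ≤ N := le_trans (Nat.pow_le_pow_right (by omega) (le_max_right _ _)) hyr
  have FLy : FLD D N y ε := hflN y (by omega) hyr0
  have hVw := V_pos hS w
  have hVy := V_pos hS y
  have hv0 := vv_pos hS w y
  have hκw : κ ≤ V F w := by rw [hκ]; exact (hV1 F hS w hwn1).1
  have hVyy : 1 / (y : ℝ) ≤ V F y := (hV1 F hS y (hwn1.trans hwy)).2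
  obtain ⟨s, hs⟩ : ∃ s, s = Nat.sqrt N := ⟨_, rfl⟩
  obtain ⟨T, hTd⟩ : ∃ T, T = q ^ Nat.log q s := ⟨_, rfl⟩
  rw [← hs] at hlogN ⊢
  rw [← hTd]
  -- `u`
  obtain ⟨u, hu⟩ : ∃ u, u = Real.sqrt (Real.sqrt N) := ⟨_, rfl⟩
  have hu2 : u ^ 2 = Real.sqrt N := by rw [hu]; exact Real.sq_sqrt (Real.sqrt_nonneg _)
  have hu4 : u ^ 4 = N := by
    have e : u ^ 4 = (u ^ 2) ^ 2 := by ring
    rw [e, hu2]
    exact Real.sq_sqrt hN0.le
  have hu0 : 0 < u := by rw [hu]; exact Real.sqrt_pos.2 (Real.sqrt_pos.2 hN0)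
  have hun3 : (n3 : ℝ) ≤ u := by
    have : ((n3 : ℝ)) ^ 4 ≤ u ^ 4 := by rw [hu4]; exact_mod_cast hNn3
    exact le_of_pow_le_pow_left₀ (by norm_num) hu0.le this
  have hu1 : 4 / ε0 ≤ u := le_trans (le_trans (le_max_left _ _) hn3) hun3
  have hu3 : 16 * C / ε0 ^ 2 ≤ u := le_trans (le_trans (le_max_right _ _) hn3) hun3
  have hyu : (y : ℝ) ≤ u := by
    have h1 : ((y : ℝ)) ^ 4 ≤ u ^ 4 := by
      rw [hu4]
      have : y ^ 4 ≤ N := le_trans (Nat.pow_le_pow_right (by omega) (by norm_num)) hy32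
      exact_mod_cast this
    exact le_of_pow_le_pow_left₀ (by norm_num) hu0.le h1
  have hVu : 1 ≤ V F y * u := by
    have hy0 : (0 : ℝ) < y := by exact_mod_cast (by omega : 0 < y)
    rw [div_le_iff₀ hy0] at hVyy
    exact hVyy.trans (mul_le_mul_of_nonneg_left hyu hVy.le)
  -- `s`
  have hs4 : 4 ≤ s := by rw [hs, Nat.le_sqrt']; omega
  have hsq : q ^ 2 ≤ s := by
    rw [hs, Nat.le_sqrt']
    calc (q ^ 2) ^ 2 = q ^ 4 := by ring
      _ ≤ N := hNq
  have hsN : s ^ 2 ≤ N := by rw [hs]; exact Nat.sqrt_le' N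
  have hsN' : N < (s + 1) ^ 2 := by rw [hs]; exact Nat.lt_succ_sqrt' N
  have hsu : (s : ℝ) ≤ u ^ 2 := by
    have h1 : ((s : ℝ)) ^ 2 ≤ (u ^ 2) ^ 2 := by
      rw [← pow_mul, hu4]; exact_mod_cast hsN
    exact le_of_pow_le_pow_left₀ (by norm_num) (by positivity) h1
  have hus : u ^ 2 / 2 ≤ s := by
    have h1 : (u ^ 2) ^ 2 < ((s : ℝ) + 1) ^ 2 := by
      rw [← pow_mul, hu4]; exact_mod_cast hsN'
    have h2 : u ^ 2 < (s : ℝ) + 1 := lt_of_pow_lt_pow_left₀ 2 (by positivity) h1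
    have h3 : (4 : ℝ) ≤ s := by exact_mod_cast hs4
    linarith
  -- `T`
  have hTs : T ≤ s := by rw [hTd]; exact Nat.pow_log_le_self q (by omega)
  have hsT : s < q * T := by
    rw [hTd]
    have := Nat.lt_pow_succ_log_self (show 1 < q by omega) s
    rw [Nat.pow_succ, mul_comm] at this
    exact this
  have hT1 : 1 ≤ T := by rw [hTd]; exact Nat.one_le_pow _ _ (by omega)
  have hTq : q ≤ T := by
    by_contra h
    push Not at h
    have : q * T ≤ q * q := Nat.mul_le_mul_left q h.le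
    nlinarith
  have hNT : N ≤ T ^ 4 := by
    have h1 : s + 1 ≤ q * T := hsT
    calc N ≤ (s + 1) ^ 2 := hsN'.le
      _ ≤ (q * T) ^ 2 := Nat.pow_le_pow_left h1 2
      _ = q ^ 2 * T ^ 2 := by ring
      _ ≤ T ^ 2 * T ^ 2 := Nat.mul_le_mul_right _ (Nat.pow_le_pow_left hTq 2)
      _ = T ^ 4 := by ring
  have hTw : ∀ l : ℕ, l.Prime → l ∣ T → l ≤ w := by
    intro l hl hlT
    rw [hTd] at hlT
    exact le_trans (Nat.le_of_dvd (by omega) (hl.dvd_of_dvd_pow hlT)) hwq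
  -- `BB`
  obtain ⟨BB, hBd⟩ : ∃ BB, BB = N / T := ⟨_, rfl⟩
  have hsB : s ≤ BB := by
    rw [hBd, Nat.le_div_iff_mul_le (by omega)]
    calc s * T ≤ s * s := Nat.mul_le_mul_left s hTs
      _ = s ^ 2 := by ring
      _ ≤ N := hsN
  have hB1 : 1 ≤ BB := by omega
  have hTB : T * BB ≤ N := by rw [hBd]; exact Nat.mul_div_le N T
  have hR : N = T * BB + N % T := by rw [hBd]; exact (Nat.div_add_mod N T).symm
  have hRT : N % T < T := Nat.mod_lt _ (by omega)
  have hB0 : (0 : ℝ) < BB := by exact_mod_cast hB1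
  have hT0 : (0 : ℝ) < T := by exact_mod_cast hT1
  have hLε : ((Nat.log 2 N : ℝ) + 1) / Real.sqrt BB ≤ ε := by
    refine le_trans ?_ (hlogN BB hsB)
    apply div_le_div_of_nonneg_right _ (Real.sqrt_nonneg _)
    have h1 : Nat.log 2 N + 1 ≤ Nat.log 2 (N ^ 4) := by
      apply Nat.le_log_of_pow_le (by norm_num)
      have h2 : 2 ^ Nat.log 2 N ≤ N := Nat.pow_log_le_self 2 (by omega)
      calc 2 ^ (Nat.log 2 N + 1) = 2 ^ Nat.log 2 N * 2 := Nat.pow_succ ..
        _ ≤ N * N ^ 3 := Nat.mul_le_mul h2 (by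
            calc 2 ≤ N := by omega
              _ ≤ N ^ 3 := Nat.le_self_pow (by norm_num) N)
        _ = N ^ 4 := by ring
    exact_mod_cast h1
  have hNV : 0 < N * V F y := by positivity
  constructor
  · intro G H hG hHH
    have e1 : ∑ n ∈ range N, G (n % T) * H (n / T) * (ff F w y n : ℂ) =
        (∑ b ∈ range BB, ∑ a ∈ range T, G a * H b * (ff F w y (a + T * b) : ℂ)) +
        ∑ x ∈ range (N % T), G ((T * BB + x) % T) * H ((T * BB + x) / T) * (ff F w y (T * BB + x) : ℂ) := by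
      conv_lhs => rw [hR]
      rw [sum_range_add, sum_blocks]
      congr 1
      apply sum_congr rfl
      intro b _
      apply sum_congr rfl
      intro a ha
      rw [mem_range] at ha
      rw [Nat.add_mul_mod_self_left, Nat.mod_eq_of_lt ha, Nat.add_mul_div_left _ _ (by omega), Nat.div_eq_of_lt ha, zero_add]
    rw [e1]
    refine (norm_add_le _ _).trans ?_
    have hA := hblock F hS T BB N w y ε hH hT1 hB1 hTB hND (by omega) hwD hwy hVyy hTw hεpos.le (by linarith) FLy hNT G H hG hHH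
    have hA2 : ‖∑ b ∈ range BB, ∑ a ∈ range T, G a * H b * (ff F w y (a + T * b) : ℂ)‖ ≤ ε0 / 2 * (N * V F y) := by
      have h1 : V F w * vv F w y ^ 2 * (C * (1 / Real.sqrt w + ε + ((Nat.log 2 N : ℝ) + 1) / Real.sqrt BB)) + C * V F y / BB ≤
          (ε0 / 2 * V F y) ^ 2 := by
        have h2 : C * (1 / Real.sqrt w + ε + ((Nat.log 2 N : ℝ) + 1) / Real.sqrt BB) ≤ ε0 ^ 2 * V F w / 8 := by
          have h3 : C * (1 / Real.sqrt w) = C / Real.sqrt w := by ring
          have h4 := mul_le_mul_of_nonneg_left hLε hC.le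
          have h5 : ε0 ^ 2 * κ ≤ ε0 ^ 2 * V F w := mul_le_mul_of_nonneg_left hκw (by positivity)
          rw [mul_add, mul_add, h3]
          linarith
        have h5 : V F w * vv F w y ^ 2 * (C * (1 / Real.sqrt w + ε + ((Nat.log 2 N : ℝ) + 1) / Real.sqrt BB)) ≤ ε0 ^ 2 / 8 * V F y ^ 2 := by
          calc _ ≤ V F w * vv F w y ^ 2 * (ε0 ^ 2 * V F w / 8) := mul_le_mul_of_nonneg_left h2 (by positivity)
            _ = ε0 ^ 2 / 8 * (V F w * vv F w y) ^ 2 := by ring
            _ = _ := by rw [← V_split F hwy]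
        have h6 : C * V F y / BB ≤ ε0 ^ 2 / 8 * V F y ^ 2 := by
          rw [div_le_iff₀ hB0]
          have h7 : u / 2 ≤ V F y * BB := by
            have h8 : u ^ 2 / 2 ≤ BB := hus.trans (by exact_mod_cast hsB)
            calc u / 2 = 1 * (u / 2) := by ring
              _ ≤ (V F y * u) * (u / 2) := mul_le_mul_of_nonneg_right hVu (by positivity)
              _ = V F y * (u ^ 2 / 2) := by ring
              _ ≤ V F y * BB := mul_le_mul_of_nonneg_left h8 hVy.le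
          have h9 : 16 * C ≤ ε0 ^ 2 * u := by
            rw [div_le_iff₀ (by positivity)] at hu3
            linarith
          have h10 : C ≤ ε0 ^ 2 / 8 * (V F y * BB) := by
            calc C ≤ ε0 ^ 2 / 8 * (u / 2) := by linarith
              _ ≤ _ := mul_le_mul_of_nonneg_left h7 (by positivity)
          calc C * V F y ≤ (ε0 ^ 2 / 8 * (V F y * BB)) * V F y := mul_le_mul_of_nonneg_right h10 hVy.le
            _ = _ := by ring
        calc _ ≤ ε0 ^ 2 / 8 * V F y ^ 2 + ε0 ^ 2 / 8 * V F y ^ 2 := add_le_add h5 h6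
          _ = _ := by ring
      have h2 : ‖∑ b ∈ range BB, ∑ a ∈ range T, G a * H b * (ff F w y (a + T * b) : ℂ)‖ ^ 2 ≤ (ε0 / 2 * (N * V F y)) ^ 2 := by
        refine hA.trans ?_
        have h3 : (T : ℝ) * BB ≤ N := by exact_mod_cast hTB
        calc _ ≤ ((T : ℝ) * BB) ^ 2 * (ε0 / 2 * V F y) ^ 2 := mul_le_mul_of_nonneg_left h1 (by positivity)
          _ ≤ (N : ℝ) ^ 2 * (ε0 / 2 * V F y) ^ 2 := by
              apply mul_le_mul_of_nonneg_right _ (by positivity)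
              exact pow_le_pow_left₀ (by positivity) h3 2
          _ = _ := by ring
      exact le_of_pow_le_pow_left₀ (by norm_num) (by positivity) h2
    have hB2 : ‖∑ x ∈ range (N % T), G ((T * BB + x) % T) * H ((T * BB + x) / T) * (ff F w y (T * BB + x) : ℂ)‖ ≤ ε0 / 2 * (N * V F y) := by
      have h1 : ‖∑ x ∈ range (N % T), G ((T * BB + x) % T) * H ((T * BB + x) / T) * (ff F w y (T * BB + x) : ℂ)‖ ≤ T := by
        refine (norm_sum_le _ _).trans ?_
        calc ∑ x ∈ range (N % T), ‖G ((T * BB + x) % T) * H ((T * BB + x) / T) * (ff F w y (T * BB + x) : ℂ)‖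
            ≤ ∑ _x ∈ range (N % T), (1 : ℝ) := by
              apply sum_le_sum
              intro x _
              rw [norm_mul, norm_mul, Complex.norm_real, Real.norm_eq_abs]
              exact mul_le_one₀ (mul_le_one₀ (hG _) (norm_nonneg _) (hHH _)) (abs_nonneg _) (ff_abs hS w y _ hwy).1
          _ = ((N % T : ℕ) : ℝ) := by rw [sum_const, card_range, nsmul_eq_mul, mul_one]
          _ ≤ T := by exact_mod_cast hRT.le
      refine h1.trans ?_
      have h2 : (T : ℝ) ≤ u ^ 2 := le_trans (by exact_mod_cast hTs) hsu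
      have h3 : 4 ≤ ε0 * u := by
        rw [div_le_iff₀ hε0] at hu1
        linarith
      calc (T : ℝ) ≤ u ^ 2 := h2
        _ = u ^ 2 * 1 := by ring
        _ ≤ u ^ 2 * (ε0 * u / 2) := mul_le_mul_of_nonneg_left (by linarith) (by positivity)
        _ = ε0 / 2 * u ^ 3 * 1 := by ring
        _ ≤ ε0 / 2 * u ^ 3 * (V F y * u) := mul_le_mul_of_nonneg_left hVu (by positivity)
        _ = ε0 / 2 * (u ^ 4 * V F y) := by ring
        _ = _ := by rw [hu4]
    linarith
  · have h1 := one_count hS (okay_one F 0) y N ε (fun Q hQ => FLy Q hQ N (Nat.le_self_pow (by norm_num) N)) y le_rfl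
    simp only [one_mul, add_zero] at h1
    have e : ∏ p ∈ pz y, (1 - ((ZF F 1 0 p).card : ℝ) / p) = V F y := rfl
    rw [e] at h1
    have h2 : ε * ((N : ℝ) / (y : ℝ) ^ 2) ≤ ε * (N * V F y) := by
      apply mul_le_mul_of_nonneg_left _ hεpos.le
      rw [div_eq_mul_one_div]
      apply mul_le_mul_of_nonneg_left _ hN0.le
      refine le_trans ?_ hVyy
      have hyr : (1 : ℝ) ≤ y := by exact_mod_cast (by omega : 1 ≤ y)
      apply one_div_le_one_div_of_le (by linarith)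
      nlinarith
    have h3 : 2 * ε * (N * V F y) ≤ ε0 * (N * V F y) := mul_le_mul_of_nonneg_right (by linarith) hNV.le
    refine h1.trans ?_
    linarith

end Pool.Agent.H31.GP
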