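import Pool.Agent.H31.GP.DigitMean

set_option autoImplicit false

/-! # Translations of the polynomial -/

namespace Pool.Agent.H31.GP

open Finset Filter Topology Polynomial Pool.Agent.H373R2.T7

/-- the translated polynomial -/
noncomputable def tay (M : ℕ) (F : ℤ[X]) : ℤ[X] := taylor (M : ℤ) F

lemma RF_tay (M : ℕ) (F : ℤ[X]) (p n : ℕ) : RF (tay M F) p n ↔ RF F p (n + M) := by
  unfold RF tay
  rw [taylor_eval]
  push_cast
  rfl

lemma ZF_tay (M : ℕ) (F : ℤ[X]) (p : ℕ) (hp : p.Prime) : (ZF (tay M F) 1 0 p).card = (ZF F 1 0 p).card := by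
  classical
  rw [← Z_unit F 1 M p hp (fun h => hp.one_lt.ne' (Nat.dvd_one.1 h))]
  congr 1
  ext n
  rw [mem_ZF, mem_ZF, RF_tay, add_zero]

lemma V_tay (M : ℕ) (F : ℤ[X]) (y : ℕ) : V (tay M F) y = V F y := by
  unfold V
  apply prod_congr rfl
  intro p hp
  unfold rh
  rw [ZF_tay M F p (mem_pz.1 hp).2]

lemma vv_tay (M : ℕ) (F : ℤ[X]) (w y : ℕ) : vv (tay M F) w y = vv F w y := by
  unfold vv
  apply prod_congr rfl
  intro p hp
  unfold rh
  rw [ZF_tay M F p (Pool.Agent.H31.MF.mem_mid.1 hp).1]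

lemma Sys_tay {F : ℤ[X]} {D : ℕ} (hF : Sys F D) (M : ℕ) : Sys (tay M F) D := by
  refine ⟨?_, fun p hp => ?_⟩
  · unfold tay
    rw [natDegree_taylor]
    exact hF.deg
  · obtain ⟨n, hn⟩ := hF.fix p hp
    refine ⟨n + M * (p - 1), fun h => hn ?_⟩
    rw [RF_tay] at h
    have e : n + M * (p - 1) + M = n + M * p := by
      obtain ⟨k, rfl⟩ : ∃ k, p = k + 1 := ⟨p - 1, by have := hp.pos; omega⟩
      simp
      ring
    rw [e] at h
    rw [RF_mod] at h ⊢
    rwa [Nat.add_mul_mod_self_right] at h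

lemma coeff_tay {F : ℤ[X]} {D : ℕ} (hD : F.natDegree ≤ D) (M : ℕ) (K : ℤ) (hK : ∀ i, |F.coeff i| ≤ K) (L : ℕ) (hL : 1 ≤ L) (hML : M ≤ L) (i : ℕ) :
    |(tay M F).coeff i| ≤ (D + 1) * (2 ^ D * K * L ^ D) := by
  have hK0 : 0 ≤ K := (abs_nonneg _).trans (hK 0)
  unfold tay
  rw [taylor_coeff, eval_eq_sum_range' (n := D + 1) ((natDegree_hasseDeriv_le F i).trans_lt (by omega))]
  refine (abs_sum_le_sum_abs _ _).trans ?_
  calc ∑ j ∈ range (D + 1), |(hasseDeriv i F).coeff j * (M : ℤ) ^ j| ≤ ∑ _j ∈ range (D + 1), (2 ^ D * K * L ^ D : ℤ) := by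
        apply sum_le_sum
        intro j hj
        rw [mem_range] at hj
        rw [hasseDeriv_coeff, abs_mul, abs_mul, abs_pow, Nat.abs_cast, Nat.abs_cast]
        have h3 : (M : ℤ) ^ j ≤ (L : ℤ) ^ D := by
          calc (M : ℤ) ^ j ≤ (L : ℤ) ^ j := pow_le_pow_left₀ (by positivity) (by exact_mod_cast hML) _
            _ ≤ (L : ℤ) ^ D := pow_le_pow_right₀ (by exact_mod_cast hL) (by omega)
        by_cases hjD : j + i ≤ D
        · have h1 : (((j + i).choose i : ℕ) : ℤ) ≤ 2 ^ D := by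
            have : (j + i).choose i ≤ 2 ^ D := (Nat.choose_le_two_pow _ _).trans (Nat.pow_le_pow_right (by norm_num) hjD)
            exact_mod_cast this
          exact mul_le_mul (mul_le_mul h1 (hK _) (abs_nonneg _) (by positivity)) h3 (by positivity) (by positivity)
        · have h0 : F.coeff (j + i) = 0 := coeff_eq_zero_of_natDegree_lt (by omega)
          rw [h0, abs_zero, mul_zero, zero_mul]
          positivity
    _ = _ := by rw [sum_const, card_range, nsmul_eq_mul]; push_cast; ring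

/-- the coefficients of the translated polynomials are bounded by a power -/
lemma coeff_tay_pow (D A A' : ℕ) : ∀ᶠ N : ℕ in atTop, ∀ F : ℤ[X], F.natDegree ≤ D → (∀ i, |F.coeff i| ≤ (N : ℤ) ^ A) →
    ∀ M : ℕ, M ≤ N ^ A' → ∀ i, |(tay M F).coeff i| ≤ (N : ℤ) ^ (A + A' * D + 1) := by
  filter_upwards [eventually_ge_atTop ((D + 1) * 2 ^ D), eventually_ge_atTop 1] with N h1 hN F hF hH M hM i
  have h2 := coeff_tay hF M ((N : ℤ) ^ A) hH (N ^ A') (Nat.one_le_pow _ _ (by omega)) hM i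
  refine h2.trans ?_
  have h3 : (((D + 1) * 2 ^ D : ℕ) : ℤ) ≤ N := by exact_mod_cast h1
  push_cast at h3 ⊢
  calc ((D : ℤ) + 1) * (2 ^ D * (N : ℤ) ^ A * ((N : ℤ) ^ A') ^ D) = ((D + 1) * 2 ^ D) * ((N : ℤ) ^ A * ((N : ℤ) ^ A') ^ D) := by ring
    _ ≤ N * ((N : ℤ) ^ A * ((N : ℤ) ^ A') ^ D) := mul_le_mul_of_nonneg_right h3 (by positivity)
    _ = _ := by rw [← pow_mul]; ring

end Pool.Agent.H31.GP
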