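import Pool.Agent.H31.GP.DigitShort

set_option autoImplicit false

/-! # The digits of the members of almost prime tuples -/

namespace Pool.Agent.H31.GP

open Finset Filter Topology Polynomial Pool.Agent.H373R2.T7

/-! ## functions of the two halves of the digits -/

lemma split_mul {T m m' : ℕ} {Φ Ψ : ℕ → ℂ} (h1 : Split T m Φ) (h2 : Split T m' Ψ) : Split T (m * m') (fun n => Φ n * Ψ n) := by
  classical
  obtain ⟨G, H, a1, a2, a3⟩ := h1
  obtain ⟨G', H', b1, b2, b3⟩ := h2
  refine ⟨fun i n => G (finProdFinEquiv.symm i).1 n * G' (finProdFinEquiv.symm i).2 n,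
    fun i n => H (finProdFinEquiv.symm i).1 n * H' (finProdFinEquiv.symm i).2 n, fun i n => ?_, fun i n => ?_, fun n => ?_⟩
  · rw [norm_mul]
    exact mul_le_one₀ (a1 _ _) (norm_nonneg _) (b1 _ _)
  · rw [norm_mul]
    exact mul_le_one₀ (a2 _ _) (norm_nonneg _) (b2 _ _)
  · simp only
    rw [a3 n, b3 n, sum_mul_sum, ← sum_product', univ_product_univ]
    rw [← finProdFinEquiv.symm.sum_comp]
    apply sum_congr rfl
    intro i _
    ring

lemma split_one (T : ℕ) : Split T 1 (fun _ => (1 : ℂ)) := by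
  refine ⟨fun _ _ => 1, fun _ _ => 1, fun _ _ => by simp, fun _ _ => by simp, fun n => by simp⟩

/-- a translation doubles the rank at most -/
lemma split_add {T m : ℕ} (hT : 1 ≤ T) {Φ : ℕ → ℂ} (h1 : Split T m Φ) (h : ℕ) : Split T (2 * m) (fun n => Φ (n + h)) := by
  classical
  obtain ⟨G, H, a1, a2, a3⟩ := h1
  refine ⟨fun i a => if ((finProdFinEquiv.symm i).1 : ℕ) = (a + h % T) / T then G (finProdFinEquiv.symm i).2 ((a + h % T) % T) else 0,
    fun i b => H (finProdFinEquiv.symm i).2 (b + h / T + ((finProdFinEquiv.symm i).1 : ℕ)), fun i n => ?_, fun i n => ?_, fun n => ?_⟩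
  · simp only
    split_ifs
    · exact a1 _ _
    · simp
  · exact a2 _ _
  · simp only
    rw [a3]
    rw [← finProdFinEquiv.sum_comp]
    simp only [Equiv.symm_apply_apply]
    rw [Fintype.sum_prod_type]
    have hc : (n % T + h % T) / T < 2 := by
      rw [Nat.div_lt_iff_lt_mul (by omega)]
      have := Nat.mod_lt n (show 0 < T by omega)
      have := Nat.mod_lt h (show 0 < T by omega)
      omega
    rw [sum_eq_single (⟨(n % T + h % T) / T, hc⟩ : Fin 2)]
    · apply sum_congr rfl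
      intro i _
      rw [if_pos rfl]
      have e1 : (n + h) % T = (n % T + h % T) % T := Nat.add_mod n h T
      have e2 : (n + h) / T = n / T + h / T + (n % T + h % T) / T := by
        have k1 := Nat.div_add_mod n T
        have k2 := Nat.div_add_mod h T
        have : n + h = (n % T + h % T) + T * (n / T + h / T) := by
          calc n + h = (T * (n / T) + n % T) + (T * (h / T) + h % T) := by rw [k1, k2]
            _ = _ := by ring
        rw [this, Nat.add_mul_div_left _ _ (by omega)]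
        omega
      rw [e1, e2]
    · intro c _ hc'
      apply sum_eq_zero
      intro i _
      rw [if_neg, zero_mul]
      intro h2
      exact hc' (Fin.ext h2)
    · intro h2
      exact absurd (mem_univ _) h2

lemma split_prod {T m : ℕ} (hT : 1 ≤ T) (H : Finset ℕ) (f : ℕ → ℕ → ℂ) (hf : ∀ h ∈ H, Split T m (f h)) :
    Split T ((2 * m) ^ H.card) (fun n => ∏ h ∈ H, f h (n + h)) := by
  classical
  induction H using Finset.induction_on with
  | empty => simpa using split_one T
  | insert a s ha ih =>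
    rw [card_insert_of_notMem ha, pow_succ, mul_comm]
    simp only [prod_insert ha]
    exact split_mul (split_add hT (hf a (mem_insert_self _ _)) a) (ih fun h hh => hf h (mem_insert_of_mem hh))

/-! ## the polynomials -/

/-- the polynomial of a tuple, translated -/
noncomputable def PH (H : Finset ℕ) (s : ℕ) : ℤ[X] := ∏ h ∈ H, (X + C ((h : ℤ) - s))

lemma PH_eval (H : Finset ℕ) (s n : ℕ) : (PH H s).eval ((n : ℤ) + s) = ∏ h ∈ H, ((n : ℤ) + h) := by
  unfold PH
  rw [eval_prod]
  apply prod_congr rfl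
  intro h _
  simp only [eval_add, eval_X, eval_C]
  ring

lemma RF_PH (H : Finset ℕ) (s n p : ℕ) (hp : p.Prime) : RF (PH H s) p (n + s) ↔ ∃ h ∈ H, p ∣ n + h := by
  unfold RF
  push_cast
  rw [PH_eval, Prime.dvd_finsetProd_iff (Nat.prime_iff_prime_int.1 hp)]
  constructor
  · rintro ⟨h, hh, h1⟩
    exact ⟨h, hh, by exact_mod_cast h1⟩
  · rintro ⟨h, hh, h1⟩
    exact ⟨h, hh, by exact_mod_cast h1⟩

lemma PH_deg (H : Finset ℕ) (s : ℕ) : (PH H s).natDegree ≤ H.card := by
  unfold PH
  refine (natDegree_prod_le _ _).trans ?_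
  calc ∑ h ∈ H, (X + C ((h : ℤ) - s)).natDegree ≤ ∑ _h ∈ H, 1 := by
        apply sum_le_sum
        intro h _
        rw [natDegree_X_add_C]
    _ = H.card := by simp

lemma PH_sys (H : Finset ℕ) (s k : ℕ) (hk : H.card ≤ k) (hH : ∀ p : ℕ, p.Prime → ∃ n : ℕ, ∀ h ∈ H, ¬ p ∣ n + h) : Sys (PH H s) k := by
  refine ⟨(PH_deg H s).trans hk, fun p hp => ?_⟩
  obtain ⟨n, hn⟩ := hH p hp
  refine ⟨n + s, fun h => ?_⟩
  rw [RF_PH H s n p hp] at h
  obtain ⟨h, hh, h1⟩ := h
  exact hn h hh h1

lemma PH_coeff (H : Finset ℕ) (s : ℕ) (L : ℕ) (hL : ∀ h ∈ H, h ≤ L) (hs : s ≤ L) (i : ℕ) : |(PH H s).coeff i| ≤ ((L : ℤ) + 1) ^ H.card := by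
  classical
  unfold PH
  induction H using Finset.induction_on generalizing i with
  | empty =>
    simp only [prod_empty, card_empty, pow_zero, coeff_one]
    split_ifs <;> simp
  | insert a t ha ih =>
    have iht := fun i => ih (fun h hh => hL h (mem_insert_of_mem hh)) i
    rw [prod_insert ha, card_insert_of_notMem ha, add_mul, coeff_add, coeff_C_mul]
    have h1 : |(X * ∏ h ∈ t, (X + C ((h : ℤ) - s))).coeff i| ≤ ((L : ℤ) + 1) ^ t.card := by
      cases i with
      | zero => rw [coeff_X_mul_zero, abs_zero]; positivity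
      | succ i => rw [coeff_X_mul]; exact iht i
    have h2 : |(a : ℤ) - s| ≤ L := by
      have := hL a (mem_insert_self _ _)
      rw [abs_le]
      constructor <;> omega
    refine (abs_add_le _ _).trans ?_
    rw [abs_mul]
    calc |(X * ∏ h ∈ t, (X + C ((h : ℤ) - s))).coeff i| + |(a : ℤ) - s| * |(∏ h ∈ t, (X + C ((h : ℤ) - s))).coeff i|
        ≤ ((L : ℤ) + 1) ^ t.card + L * ((L : ℤ) + 1) ^ t.card :=
          add_le_add h1 (mul_le_mul h2 (iht i) (abs_nonneg _) (by positivity))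
      _ = _ := by ring

lemma PH_coeff_pow (A k : ℕ) : ∀ᶠ N : ℕ in atTop, ∀ H : Finset ℕ, H.card ≤ k → (∀ h ∈ H, h ≤ N ^ A) → ∀ s : ℕ, s ≤ N ^ A →
    ∀ i, |(PH H s).coeff i| ≤ (N : ℤ) ^ ((A + 1) * k) := by
  filter_upwards [eventually_ge_atTop 2] with N hN H hH hA s hs i
  refine (PH_coeff H s (N ^ A) hA hs i).trans ?_
  have h1 : ((N ^ A : ℕ) : ℤ) + 1 ≤ (N : ℤ) ^ (A + 1) := by
    have h2 : N ^ A + 1 ≤ N ^ (A + 1) := by
      have h3 : 1 ≤ N ^ A := Nat.one_le_pow _ _ (by omega)
      have h4 : N ^ A * 2 ≤ N ^ A * N := Nat.mul_le_mul_left _ hN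
      have h5 : N ^ (A + 1) = N ^ A * N := pow_succ _ _
      omega
    exact_mod_cast h2
  have hN1 : (1 : ℤ) ≤ N := by exact_mod_cast (by omega : 1 ≤ N)
  calc (((N ^ A : ℕ) : ℤ) + 1) ^ H.card ≤ ((N : ℤ) ^ (A + 1)) ^ H.card := pow_le_pow_left₀ (by positivity) h1 _
    _ = (N : ℤ) ^ ((A + 1) * H.card) := by rw [← pow_mul]
    _ ≤ _ := pow_le_pow_right₀ hN1 (Nat.mul_le_mul_left _ hH)

end Pool.Agent.H31.GP
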